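import Mathlib

open Set Filter Topology Cardinal

namespace Pool.Agent.H64.CpImages

universe u v w

/-! ### The Delta-system lemma for uncountable families of finite sets -/

theorem delta_system_card {ι : Type v} {X : Type u} [DecidableEq X] (n : ℕ) :
    ∀ (S₀ : Set ι) (F : ι → Finset X), ¬ S₀.Countable → (∀ a ∈ S₀, (F a).card = n) →
    ∃ (S : Set ι) (R : Finset X), S ⊆ S₀ ∧ ¬ S.Countable ∧
      ∀ a ∈ S, ∀ b ∈ S, a ≠ b → F a ∩ F b = R := by
  induction n with
  | zero =>
    intro S₀ F hS hF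
    refine ⟨S₀, ∅, Subset.rfl, hS, ?_⟩
    intro a ha b _ _
    rw [Finset.card_eq_zero.mp (hF a ha), Finset.empty_inter]
  | succ n ih =>
    intro S₀ F hS hF
    by_cases hx : ∃ x, ¬ {a ∈ S₀ | x ∈ F a}.Countable
    · obtain ⟨x, hx⟩ := hx
      obtain ⟨S, R, hSS, hSc, hR⟩ := ih {a ∈ S₀ | x ∈ F a} (fun a => (F a).erase x) hx (by
        intro a ha
        rw [Finset.card_erase_of_mem ha.2, hF a ha.1]; rfl)
      refine ⟨S, insert x R, fun a ha => (hSS ha).1, hSc, ?_⟩
      intro a ha b hb hab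
      rw [← hR a ha b hb hab]
      ext y
      simp only [Finset.mem_inter, Finset.mem_insert, Finset.mem_erase]
      constructor
      · rintro ⟨h1, h2⟩
        by_cases hy : y = x
        · exact Or.inl hy
        · exact Or.inr ⟨⟨hy, h1⟩, ⟨hy, h2⟩⟩
      · rintro (rfl | ⟨⟨_, h1⟩, ⟨_, h2⟩⟩)
        · exact ⟨(hSS ha).2, (hSS hb).2⟩
        · exact ⟨h1, h2⟩
    · push Not at hx
      obtain ⟨S, hSmax⟩ := zorn_subset {S : Set ι | S ⊆ S₀ ∧ S.PairwiseDisjoint F} (by
        intro c hc hchain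
        refine ⟨⋃₀ c, ⟨?_, ?_⟩, fun s hs => subset_sUnion_of_mem hs⟩
        · exact sUnion_subset fun s hs => (hc hs).1
        · exact (pairwiseDisjoint_sUnion hchain.directedOn).mpr fun s hs => (hc hs).2)
      refine ⟨S, ∅, hSmax.prop.1, ?_, ?_⟩
      · intro hSc
        have hU : (⋃ a ∈ S, (F a : Set X)).Countable :=
          hSc.biUnion fun a _ => (F a).countable_toSet
        have hT : (⋃ x ∈ (⋃ a ∈ S, (F a : Set X)), {a ∈ S₀ | x ∈ F a}).Countable :=
          hU.biUnion fun x _ => hx x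
        have hne : ¬ (S₀ \ (S ∪ ⋃ x ∈ (⋃ a ∈ S, (F a : Set X)), {a ∈ S₀ | x ∈ F a})) = ∅ := by
          intro h
          rw [sdiff_eq_empty] at h
          exact hS ((hSc.union hT).mono h)
        obtain ⟨a, haS₀, ha⟩ := Set.nonempty_iff_ne_empty.mpr hne
        rw [mem_union, not_or] at ha
        have hins : insert a S ∈ {S : Set ι | S ⊆ S₀ ∧ S.PairwiseDisjoint F} := by
          refine ⟨insert_subset haS₀ hSmax.prop.1, ?_⟩
          rw [Set.pairwiseDisjoint_insert]
          refine ⟨hSmax.prop.2, fun b hb _ => ?_⟩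
          rw [Finset.disjoint_left]
          intro y hya hyb
          apply ha.2
          refine mem_biUnion (x := y) (mem_biUnion hb hyb) ⟨haS₀, hya⟩
        have := hSmax.le_of_ge hins (subset_insert a S)
        exact ha.1 (this (mem_insert a S))
      · intro a ha b hb hab
        exact Finset.disjoint_iff_inter_eq_empty.mp (hSmax.prop.2 ha hb hab)

theorem delta_system {ι : Type v} {X : Type u} [DecidableEq X] (S₀ : Set ι)
    (hS₀ : ¬ S₀.Countable) (F : ι → Finset X) :
    ∃ (S : Set ι) (R : Finset X), S ⊆ S₀ ∧ ¬ S.Countable ∧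
      ∀ a ∈ S, ∀ b ∈ S, a ≠ b → F a ∩ F b = R := by
  have : ∃ n, ¬ {a ∈ S₀ | (F a).card = n}.Countable := by
    by_contra hcon
    push Not at hcon
    apply hS₀
    refine (countable_iUnion hcon).mono ?_
    intro a ha
    exact mem_iUnion.mpr ⟨(F a).card, ha, rfl⟩
  obtain ⟨n, hn⟩ := this
  obtain ⟨S, R, hSS, hSc, hR⟩ := delta_system_card n _ F hn (fun a ha => ha.2)
  exact ⟨S, R, fun a ha => (hSS ha).1, hSc, hR⟩

/-- An uncountable set has an uncountable fibre under a map to a countable type. -/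
theorem exists_uncountable_fibre {ι : Type v} {κ : Type w} [Countable κ] (S₀ : Set ι)
    (hS₀ : ¬ S₀.Countable) (g : ι → κ) : ∃ k, ¬ {a ∈ S₀ | g a = k}.Countable := by
  by_contra hcon
  push Not at hcon
  apply hS₀
  refine (countable_iUnion hcon).mono ?_
  intro a ha
  exact mem_iUnion.mpr ⟨g a, ha, rfl⟩

/-! ### Boxes -/

/-- A constraint `(x, p, q)` on a function `f` says `p < f x < q`; a box is a finite set of
constraints. `Sat b f` says that `f` satisfies all the constraints of `b`. -/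
def Sat {X : Type u} (b : Finset (X × ℚ × ℚ)) (f : X → ℝ) : Prop :=
  ∀ c ∈ b, (c.2.1 : ℝ) < f c.1 ∧ f c.1 < (c.2.2 : ℝ)

/-- The constraints of `b` at points of `A` are satisfied by `f`. -/
def SatOn {X : Type u} (A : Set X) (b : Finset (X × ℚ × ℚ)) (f : X → ℝ) : Prop :=
  ∀ c ∈ b, c.1 ∈ A → (c.2.1 : ℝ) < f c.1 ∧ f c.1 < (c.2.2 : ℝ)

/-- The support of a box. -/
noncomputable def supp {X : Type u} (b : Finset (X × ℚ × ℚ)) : Finset X := by
  classical exact b.image Prod.fst

lemma mem_supp {X : Type u} {b : Finset (X × ℚ × ℚ)} {c : X × ℚ × ℚ} (hc : c ∈ b) :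
    c.1 ∈ supp b := by
  classical
  exact Finset.mem_image_of_mem _ hc

lemma sat_union {X : Type u} [DecidableEq X] {b b' : Finset (X × ℚ × ℚ)} {f : X → ℝ} :
    Sat (b ∪ b') f ↔ Sat b f ∧ Sat b' f := by
  simp only [Sat, Finset.mem_union]
  constructor
  · intro h
    exact ⟨fun c hc => h c (Or.inl hc), fun c hc => h c (Or.inr hc)⟩
  · rintro ⟨h1, h2⟩ c (hc | hc)
    · exact h1 c hc
    · exact h2 c hc

/-- The restriction of a box to a set of coordinates -/
noncomputable def restr {X : Type u} (A : Set X) (b : Finset (X × ℚ × ℚ)) :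
    Finset (X × ℚ × ℚ) := by
  classical exact b.filter (fun c => c.1 ∈ A)

lemma mem_restr {X : Type u} {A : Set X} {b : Finset (X × ℚ × ℚ)} {c : X × ℚ × ℚ} :
    c ∈ restr A b ↔ c ∈ b ∧ c.1 ∈ A := by
  classical
  simp [restr]

lemma sat_restr {X : Type u} {A : Set X} {b : Finset (X × ℚ × ℚ)} {f : X → ℝ} :
    Sat (restr A b) f ↔ SatOn A b f := by
  constructor
  · intro h c hc hA
    exact h c (mem_restr.mpr ⟨hc, hA⟩)
  · intro h c hc
    exact h c (mem_restr.mp hc).1 (mem_restr.mp hc).2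

/-- Any pairwise incompatible family of satisfiable boxes is countable. -/
theorem boxes_ccc {X : Type u} (M : Set (Finset (X × ℚ × ℚ))) (hM : ∀ b ∈ M, ∃ f, Sat b f)
    (hinc : ∀ b ∈ M, ∀ b' ∈ M, b ≠ b' → ¬ ∃ f, Sat b f ∧ Sat b' f) : M.Countable := by
  classical
  by_contra hMc
  obtain ⟨S, R, hSM, hSc, hR⟩ := delta_system M hMc supp
  have hcnt : Countable {r : Finset (X × ℚ × ℚ) // (∀ c ∈ r, c.1 ∈ R)} := by
    have hinj : Function.Injective
        (fun r : {r : Finset (X × ℚ × ℚ) // (∀ c ∈ r, c.1 ∈ R)} =>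
          (r.1.attach.image (fun c => ((⟨c.1.1, r.2 c.1 c.2⟩ : R), c.1.2)) :
            Finset (R × ℚ × ℚ))) := by
      intro r r' h
      apply Subtype.ext
      ext c
      have key : ∀ r : {r : Finset (X × ℚ × ℚ) // (∀ c ∈ r, c.1 ∈ R)}, c ∈ r.1 ↔
          ∃ hc : c.1 ∈ R, ((⟨c.1, hc⟩ : R), c.2) ∈
            (r.1.attach.image (fun c => ((⟨c.1.1, r.2 c.1 c.2⟩ : R), c.1.2)) :
            Finset (R × ℚ × ℚ)) := by
        intro r
        constructor
        · intro hc
          refine ⟨r.2 c hc, ?_⟩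
          rw [Finset.mem_image]
          exact ⟨⟨c, hc⟩, Finset.mem_attach _ _, rfl⟩
        · rintro ⟨hc, h⟩
          rw [Finset.mem_image] at h
          obtain ⟨⟨d, hd⟩, -, h⟩ := h
          have h1 : d.1 = c.1 := congrArg (fun z : R × ℚ × ℚ => z.1.1) h
          have h2 : d.2 = c.2 := congrArg (fun z : R × ℚ × ℚ => z.2) h
          have : d = c := Prod.ext h1 h2
          exact this ▸ hd
      rw [key r, key r']
      simp only at h
      rw [h]
    exact hinj.countable
  let g : Finset (X × ℚ × ℚ) → {r : Finset (X × ℚ × ℚ) // (∀ c ∈ r, c.1 ∈ R)} := fun b =>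
    ⟨b.filter (fun c => c.1 ∈ R), fun c hc => (Finset.mem_filter.mp hc).2⟩
  obtain ⟨r, hr⟩ := exists_uncountable_fibre S hSc g
  obtain ⟨b, hb⟩ : {a ∈ S | g a = r}.Nonempty := by
    rw [nonempty_iff_ne_empty]
    intro h
    rw [h] at hr
    exact hr countable_empty
  obtain ⟨b', hb', hne⟩ : ∃ b' ∈ {a ∈ S | g a = r}, b' ≠ b := by
    by_contra hcon
    push Not at hcon
    exact hr ((countable_singleton b).mono fun a ha => hcon a ha)
  obtain ⟨f, hf⟩ := hM b (hSM hb.1)
  obtain ⟨f', hf'⟩ := hM b' (hSM hb'.1)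
  apply hinc b (hSM hb.1) b' (hSM hb'.1) (Ne.symm hne)
  refine ⟨fun x => if x ∈ supp b then f x else f' x, ?_, ?_⟩
  · intro c hc
    have : c.1 ∈ supp b := mem_supp hc
    simp only [this, if_true]
    exact hf c hc
  · intro c hc
    have hc' : c.1 ∈ supp b' := mem_supp hc
    by_cases h : c.1 ∈ supp b
    · simp only [h, if_true]
      have hcR : c.1 ∈ R := by
        rw [← hR b hb.1 b' hb'.1 (Ne.symm hne)]
        exact Finset.mem_inter.mpr ⟨h, hc'⟩
      have h1 : c ∈ (g b').1 := Finset.mem_filter.mpr ⟨hc, hcR⟩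
      have h2 : g b' = g b := hb'.2.trans hb.2.symm
      rw [h2] at h1
      exact hf c (Finset.mem_filter.mp h1).1
    · simp only [h, if_false]
      exact hf' c hc

/-! ### The function space -/

/-- `C_p(X)` -/
abbrev Cp (X : Type u) [TopologicalSpace X] : Type u := {f : X → ℝ // Continuous f}

section

variable {X : Type u} [TopologicalSpace X]

theorem interpolate [T35Space X] (F : Finset X) (v : X → ℝ) :
    ∃ g : X → ℝ, Continuous g ∧ ∀ x ∈ F, g x = v x := by
  classical
  induction F using Finset.induction_on with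
  | empty => exact ⟨fun _ => 0, continuous_const, by simp⟩
  | insert a F ha ih =>
    obtain ⟨g, hg, hgF⟩ := ih
    obtain ⟨k, hk, hka, hkF⟩ := CompletelyRegularSpace.completely_regular a (F : Set X)
      F.finite_toSet.isClosed (by simpa using ha)
    refine ⟨fun x => g x + (v a - g a) * (1 - (k x : ℝ)), by fun_prop, ?_⟩
    intro x hx
    rcases Finset.mem_insert.mp hx with rfl | hx
    · simp [hka]
    · have : k x = 1 := hkF hx
      simp [this, hgF x hx]

theorem exists_sat [T35Space X] {b : Finset (X × ℚ × ℚ)} {f : X → ℝ} (hf : Sat b f) :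
    ∃ g : Cp X, Sat b g.1 := by
  obtain ⟨g, hg, hgf⟩ := interpolate (supp b) f
  refine ⟨⟨g, hg⟩, fun c hc => ?_⟩
  show _ < g c.1 ∧ g c.1 < _
  rw [hgf c.1 (mem_supp hc)]
  exact hf c hc

theorem exists_box {f : Cp X} {U : Set (Cp X)} (hU : U ∈ 𝓝 f) :
    ∃ b : Finset (X × ℚ × ℚ), Sat b f.1 ∧ ∀ f' : Cp X, Sat b f'.1 → f' ∈ U := by
  classical
  obtain ⟨V, hV, hVU⟩ := mem_nhds_subtype _ _ _ |>.mp hU
  obtain ⟨V', hV'V, hV'o, hfV'⟩ := mem_nhds_iff.mp hV
  obtain ⟨I, u, hu1, hu2⟩ := isOpen_pi_iff.mp hV'o f.1 hfV'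
  have h1 : ∀ x ∈ I, ∃ c : ℚ × ℚ, ((c.1 : ℝ) < f.1 x ∧ f.1 x < (c.2 : ℝ)) ∧
      ∀ y : ℝ, (c.1 : ℝ) < y → y < (c.2 : ℝ) → y ∈ u x := by
    intro x hx
    obtain ⟨ε, hε, hball⟩ := Metric.isOpen_iff.mp (hu1 x hx).1 _ (hu1 x hx).2
    obtain ⟨p, hp1, hp2⟩ := exists_rat_btwn (show f.1 x - ε < f.1 x by linarith)
    obtain ⟨q, hq1, hq2⟩ := exists_rat_btwn (show f.1 x < f.1 x + ε by linarith)
    refine ⟨(p, q), ⟨hp2, hq1⟩, fun y hy1 hy2 => hball ?_⟩
    rw [Metric.mem_ball, Real.dist_eq, abs_lt]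
    simp only at hy1 hy2
    constructor <;> linarith
  choose! c hc1 hc2 using h1
  refine ⟨I.image (fun x => (x, c x)), ?_, ?_⟩
  · intro d hd
    obtain ⟨x, hx, rfl⟩ := Finset.mem_image.mp hd
    exact hc1 x hx
  · intro f' hf'
    apply hVU
    apply hV'V
    apply hu2
    intro x hx
    have := hf' (x, c x) (Finset.mem_image_of_mem _ hx)
    exact hc2 x hx _ this.1 this.2

/-- `g` depends only on the coordinates in `A` (continuously). -/
def Det (A : Set X) (g : Cp X → ℝ) : Prop :=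
  ∀ p q : ℝ, p < q → ∀ b b' : Finset (X × ℚ × ℚ), (∀ f : Cp X, Sat b f.1 → g f ≤ p) →
    (∀ f : Cp X, Sat b' f.1 → q ≤ g f) → (∃ f, Sat b f) → (∃ f, Sat b' f) →
    ¬ ∃ f, SatOn A b f ∧ SatOn A b' f

theorem Det.mono {A B : Set X} (hAB : A ⊆ B) {g : Cp X → ℝ} (h : Det A g) : Det B g := by
  intro p q hpq b b' h1 h2 h3 h4 ⟨f, hf1, hf2⟩
  exact h p q hpq b b' h1 h2 h3 h4 ⟨f, fun c hc hA => hf1 c hc (hAB hA),
    fun c hc hA => hf2 c hc (hAB hA)⟩

/-- Every function (continuity is not even needed here) on `C_p(X)` is determined, in the sense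
of `Det`, by countably many coordinates. -/
theorem exists_det [T35Space X] (g : Cp X → ℝ) : ∃ A : Set X, A.Countable ∧ Det A g := by
  classical
  have hmax : ∀ r : ℚ, ∃ M : Set (Finset (X × ℚ × ℚ)), M.Countable ∧
      (∀ b ∈ M, ∀ f : Cp X, Sat b f.1 → g f ≤ r) ∧
      ∀ b : Finset (X × ℚ × ℚ), (∀ f : Cp X, Sat b f.1 → g f ≤ r) → (∃ f, Sat b f) →
        ∃ m ∈ M, ∃ f, Sat m f ∧ Sat b f := by
    intro r
    obtain ⟨M, hM⟩ := zorn_subset {M : Set (Finset (X × ℚ × ℚ)) |
        (∀ b ∈ M, (∃ f, Sat b f) ∧ ∀ f : Cp X, Sat b f.1 → g f ≤ r) ∧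
        ∀ b ∈ M, ∀ b' ∈ M, b ≠ b' → ¬ ∃ f, Sat b f ∧ Sat b' f} (by
      intro c hc hchain
      refine ⟨⋃₀ c, ⟨?_, ?_⟩, fun s hs => subset_sUnion_of_mem hs⟩
      · rintro b ⟨s, hs, hb⟩
        exact (hc hs).1 b hb
      · rintro b ⟨s, hs, hb⟩ b' ⟨s', hs', hb'⟩ hne
        rcases hchain.total hs hs' with h | h
        · exact (hc hs').2 b (h hb) b' hb' hne
        · exact (hc hs).2 b hb b' (h hb') hne)
    refine ⟨M, boxes_ccc M (fun b hb => (hM.prop.1 b hb).1) hM.prop.2,
      fun b hb => (hM.prop.1 b hb).2, ?_⟩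
    intro b hb hbs
    by_contra hcon
    push Not at hcon
    have hins : insert b M ∈ {M : Set (Finset (X × ℚ × ℚ)) |
        (∀ b ∈ M, (∃ f, Sat b f) ∧ ∀ f : Cp X, Sat b f.1 → g f ≤ r) ∧
        ∀ b ∈ M, ∀ b' ∈ M, b ≠ b' → ¬ ∃ f, Sat b f ∧ Sat b' f} := by
      refine ⟨?_, ?_⟩
      · rintro d (rfl | hd)
        · exact ⟨hbs, hb⟩
        · exact hM.prop.1 d hd
      · rintro d (rfl | hd) d' (rfl | hd') hne
        · exact absurd rfl hne
        · rintro ⟨f, hf1, hf2⟩
          exact hcon d' hd' f hf2 hf1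
        · rintro ⟨f, hf1, hf2⟩
          exact hcon d hd f hf1 hf2
        · exact hM.prop.2 d hd d' hd' hne
    have hbM : b ∈ M := hM.le_of_ge hins (subset_insert b M) (mem_insert b M)
    obtain ⟨f, hf⟩ := hbs
    exact hcon b hbM f hf hf
  choose M hMc hM1 hM2 using hmax
  refine ⟨⋃ r : ℚ, ⋃ b ∈ M r, (supp b : Set X), ?_, ?_⟩
  · exact countable_iUnion fun r => (hMc r).biUnion fun b _ => (supp b).countable_toSet
  · intro p q hpq b b' hb hb' hbs hbs' ⟨f₀, hf₀, hf₀'⟩
    set A : Set X := ⋃ r : ℚ, ⋃ b ∈ M r, (supp b : Set X) with hA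
    obtain ⟨r, hr1, hr2⟩ := exists_rat_btwn hpq
    obtain ⟨fb, hfb⟩ := hbs
    obtain ⟨fb', hfb'⟩ := hbs'
    -- the box b ∪ (b' restricted to A)
    have h1 : ∃ f, Sat (b ∪ restr A b') f := by
      refine ⟨fun x => if x ∈ A then f₀ x else fb x, ?_⟩
      rw [sat_union]
      constructor
      · intro c hc
        by_cases h : c.1 ∈ A
        · simp only [h, if_true]; exact hf₀ c hc h
        · simp only [h, if_false]; exact hfb c hc
      · intro c hc
        have hcA := (mem_restr.mp hc).2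
        simp only [hcA, if_true]
        exact hf₀' c (mem_restr.mp hc).1 hcA
    obtain ⟨m, hm, f₁, hf₁m, hf₁⟩ := hM2 r (b ∪ restr A b')
      (fun f hf => (hb f (sat_union.mp hf).1).trans hr1.le) h1
    have hsm : ∀ c ∈ m, c.1 ∈ A := fun c hc =>
      mem_iUnion.mpr ⟨r, mem_biUnion hm (mem_supp hc)⟩
    have h2 : Sat (m ∪ b') (fun x => if x ∈ A then f₁ x else fb' x) := by
      rw [sat_union]
      constructor
      · intro c hc
        simp only [hsm c hc, if_true]
        exact hf₁m c hc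
      · intro c hc
        by_cases h : c.1 ∈ A
        · simp only [h, if_true]
          exact (sat_union.mp hf₁).2 c (mem_restr.mpr ⟨hc, h⟩)
        · simp only [h, if_false]; exact hfb' c hc
    obtain ⟨k, hk⟩ := exists_sat h2
    have h3 := hM1 r m hm k (sat_union.mp hk).1
    have h4 := hb' k (sat_union.mp hk).2
    linarith

/-- A continuous function determined by `A` is continuous for the topology of pointwise
convergence on `A`. -/
theorem Det.exists_finset {A : Set X} {g : Cp X → ℝ} (hg : Continuous g) (hA : Det A g)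
    (f : Cp X) {ε : ℝ} (hε : 0 < ε) :
    ∃ b : Finset (X × ℚ × ℚ), (∀ c ∈ b, c.1 ∈ A) ∧ Sat b f.1 ∧
      ∀ f' : Cp X, Sat b f'.1 → |g f' - g f| ≤ ε := by
  classical
  -- a box around f on which g is close to g f
  have hU : {f' : Cp X | |g f' - g f| < ε / 2} ∈ 𝓝 f := by
    have hc : ContinuousAt (fun f' => |g f' - g f|) f :=
      (hg.continuousAt.sub continuousAt_const).abs
    exact hc.eventually_lt continuousAt_const (by rw [sub_self, abs_zero]; positivity)
  obtain ⟨b, hb1, hb2⟩ := exists_box hU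
  refine ⟨restr A b, fun c hc => (mem_restr.mp hc).2,
    fun c hc => hb1 c (mem_restr.mp hc).1, ?_⟩
  intro f' hf'
  by_contra hcon
  push Not at hcon
  have hU' : {k : Cp X | |g k - g f'| < ε / 4} ∈ 𝓝 f' := by
    have hc : ContinuousAt (fun k => |g k - g f'|) f' :=
      (hg.continuousAt.sub continuousAt_const).abs
    exact hc.eventually_lt continuousAt_const (by rw [sub_self, abs_zero]; positivity)
  obtain ⟨b', hb1', hb2'⟩ := exists_box hU'
  have hcomp : ∃ k, SatOn A b k ∧ SatOn A b' k :=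
    ⟨f'.1, sat_restr.mp hf', fun c hc _ => hb1' c hc⟩
  rcases lt_abs.mp hcon with h | h
  · refine hA (g f + ε / 2) (g f + 3 * ε / 4) (by linarith) b b' ?_ ?_ ⟨_, hb1⟩ ⟨_, hb1'⟩ hcomp
    · intro k hk
      have := abs_lt.mp (show |g k - g f| < ε / 2 from hb2 k hk)
      linarith [this.2]
    · intro k hk
      have := abs_lt.mp (show |g k - g f'| < ε / 4 from hb2' k hk)
      linarith [this.1]
  · refine hA (g f - 3 * ε / 4) (g f - ε / 2) (by linarith) b' b ?_ ?_ ⟨_, hb1'⟩ ⟨_, hb1⟩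
      ⟨hcomp.choose, hcomp.choose_spec.2, hcomp.choose_spec.1⟩
    · intro k hk
      have := abs_lt.mp (show |g k - g f'| < ε / 4 from hb2' k hk)
      linarith [this.2]
    · intro k hk
      have := abs_lt.mp (show |g k - g f| < ε / 2 from hb2 k hk)
      linarith [this.1]

end

section

variable {X : Type u} [TopologicalSpace X] {L : Type v} [TopologicalSpace L] [CompactSpace L]
  [T2Space L]

/-- If all functions `h ∘ φ` are determined by one countable set, `L` is metrizable. -/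
theorem metrizable_of_det {φ : Cp X → L} (hφ : Continuous φ) (hs : Function.Surjective φ)
    {A : Set X} (hA : A.Countable) (hdet : ∀ h : C(L, ℝ), Det A (fun f => h (φ f))) :
    TopologicalSpace.MetrizableSpace L := by
  classical
  -- the countable family of boxes supported by `A`
  have hAc : Countable A := hA.to_subtype
  let toBox : Finset (A × ℚ × ℚ) → Finset (X × ℚ × ℚ) := fun b =>
    b.image (fun c => (c.1.1, c.2))
  let good : Finset (A × ℚ × ℚ) × Finset (A × ℚ × ℚ) → C(L, ℝ) → Prop := fun bb h =>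
    (∀ f : Cp X, Sat (toBox bb.1) f.1 → h (φ f) ≤ 1 / 2) ∧
    (∀ f : Cp X, Sat (toBox bb.2) f.1 → 5 / 8 ≤ h (φ f))
  let H : Finset (A × ℚ × ℚ) × Finset (A × ℚ × ℚ) → C(L, ℝ) := fun bb =>
    if hh : ∃ h, good bb h then hh.choose else 0
  have hsep : Function.Injective (fun (y : L) (bb : Finset (A × ℚ × ℚ) × Finset (A × ℚ × ℚ)) =>
      H bb y) := by
    intro y y' hyy
    by_contra hne
    obtain ⟨f, rfl⟩ := hs y
    obtain ⟨f', rfl⟩ := hs y'
    obtain ⟨h, h0, h1, -⟩ := exists_continuous_zero_one_of_isClosed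
      (isClosed_singleton (x := φ f)) (isClosed_singleton (x := φ f'))
      (by rw [Set.disjoint_singleton]; exact hne)
    have h0' : h (φ f) = 0 := h0 rfl
    have h1' : h (φ f') = 1 := h1 rfl
    have hcont : Continuous (fun k => h (φ k)) := h.continuous.comp hφ
    obtain ⟨b, hbA, hb1, hb2⟩ := (hdet h).exists_finset hcont f (ε := 1 / 4) (by norm_num)
    obtain ⟨b', hbA', hb1', hb2'⟩ := (hdet h).exists_finset hcont f' (ε := 1 / 4) (by norm_num)
    have key : ∀ b : Finset (X × ℚ × ℚ), (∀ c ∈ b, c.1 ∈ A) →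
        ∃ d : Finset (A × ℚ × ℚ), toBox d = b := by
      intro b hb
      refine ⟨b.attach.image (fun c => ((⟨c.1.1, hb c.1 c.2⟩ : A), c.1.2)), ?_⟩
      ext c
      simp only [toBox, Finset.mem_image, Finset.mem_attach, true_and, Subtype.exists]
      constructor
      · rintro ⟨e, ⟨c', hc', rfl⟩, rfl⟩
        exact hc'
      · intro hc
        exact ⟨((⟨c.1, hb c hc⟩ : A), c.2), ⟨c, hc, rfl⟩, rfl⟩
    obtain ⟨d, hd⟩ := key b hbA
    obtain ⟨d', hd'⟩ := key b' hbA'
    have hgood : ∃ h, good (d, d') h := by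
      refine ⟨h, ?_, ?_⟩
      · intro k hk
        have hk' : Sat b k.1 := hd ▸ hk
        have := abs_le.mp (hb2 k hk')
        linarith [this.2]
      · intro k hk
        have hk' : Sat b' k.1 := hd' ▸ hk
        have := abs_le.mp (hb2' k hk')
        linarith [this.1]
    have hH : good (d, d') (H (d, d')) := by
      simp only [H]
      rw [dif_pos hgood]
      exact hgood.choose_spec
    have e1 := hH.1 f (by show Sat (toBox d) f.1; rw [hd]; exact hb1)
    have e2 := hH.2 f' (by show Sat (toBox d') f'.1; rw [hd']; exact hb1')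
    have e3 := congrFun hyy (d, d')
    simp only at e3
    linarith
  have hcont : Continuous (fun (y : L) (bb : Finset (A × ℚ × ℚ) × Finset (A × ℚ × ℚ)) =>
      H bb y) := continuous_pi fun bb => (H bb).continuous
  exact (hcont.isClosedEmbedding hsep).isEmbedding.metrizableSpace

end

/-! ### The first uncountable ordinal -/

/-- A well-ordered type of order type `ω₁`. -/
abbrev W : Type := (ℵ₁ : Cardinal.{0}).ord.ToType

lemma countable_Iio_W (a : W) : (Iio a).Countable := by
  have h : #(Iio a) < ℵ₁ := by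
    have h0 := Cardinal.mk_Iio_lt a (by
      rw [Cardinal.mk_ord_toType, Ordinal.type_toType])
    rwa [Cardinal.mk_ord_toType] at h0
  rw [← Set.countable_coe_iff, ← Cardinal.mk_le_aleph0_iff]
  exact Order.lt_succ_iff.mp (by rwa [Cardinal.succ_aleph0])

lemma mk_W : #W = ℵ₁ := Cardinal.mk_ord_toType _

lemma uncountable_W : ¬ (univ : Set W).Countable := by
  intro h
  have h1 : #W ≤ ℵ₀ := by
    have := Set.countable_univ_iff.mp h
    exact Cardinal.mk_le_aleph0_iff.mpr this
  rw [mk_W] at h1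
  exact absurd h1 (not_le.mpr Cardinal.aleph0_lt_aleph_one)

instance : Uncountable W := by
  rw [← not_countable_iff]
  intro h
  exact uncountable_W (Set.countable_univ)

lemma exists_gt_W {C : Set W} (hC : C.Countable) : ∃ a : W, ∀ c ∈ C, c < a := by
  by_contra hcon
  push Not at hcon
  apply uncountable_W
  have : (⋃ c ∈ C, insert c (Iio c)).Countable :=
    hC.biUnion fun c _ => (countable_Iio_W c).insert c
  refine this.mono ?_
  intro a _
  obtain ⟨c, hc, hac⟩ := hcon a
  refine mem_biUnion hc ?_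
  rcases hac.eq_or_lt with h | h
  · exact Or.inl h
  · exact Or.inr h

/-- transfinite construction -/
theorem exists_build {D : Type v} {X : Type u} (s : D → Set X) (hs : ∀ d, (s d).Countable)
    (P : Set X → D → Prop) (hP : ∀ A : Set X, A.Countable → ∃ d, P A d) :
    ∃ F : W → D, ∀ a, P (⋃ b ∈ Iio a, s (F b)) (F a) := by
  classical
  have hD : Nonempty D := by
    obtain ⟨d, -⟩ := hP ∅ countable_empty
    exact ⟨d⟩
  let step : Set X → D := fun A => if h : ∃ d, P A d then h.choose else Classical.arbitrary D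
  let F : W → D := WellFounded.fix (wellFounded_lt (α := W))
    (fun a ih => step (⋃ b : Iio a, s (ih b.1 b.2)))
  have hF : ∀ a, F a = step (⋃ b : Iio a, s (F b.1)) := by
    intro a
    exact WellFounded.fix_eq _ _ a
  refine ⟨F, fun a => ?_⟩
  have hcount : (⋃ b ∈ Iio a, s (F b)).Countable :=
    (countable_Iio_W a).biUnion fun b _ => hs (F b)
  have heq : (⋃ b : Iio a, s (F b.1)) = ⋃ b ∈ Iio a, s (F b) := by
    rw [Set.biUnion_eq_iUnion]
  have h := hP _ hcount
  have h2 : F a = h.choose := by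
    rw [hF a, heq]
    exact dif_pos h
  rw [h2]
  exact h.choose_spec

section

variable {X : Type u} [TopologicalSpace X] [T35Space X] {L : Type v} [TopologicalSpace L]
  [CompactSpace L] [T2Space L]

/-- If the compact continuous image `L` of `C_p(X)` is not metrizable, there is an uncountable
family of continuous functions on `L` all whose prescribed `0-1` patterns are attained. -/
theorem exists_independent {φ : Cp X → L} (hφ : Continuous φ) (hs : Function.Surjective φ)
    (hL : ¬ TopologicalSpace.MetrizableSpace L) :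
    ∃ H : W → C(L, ℝ), ∀ t : W → Prop, ∃ y : L, ∀ a, (t a → 1 ≤ H a y) ∧ (¬ t a → H a y ≤ 0) := by
  classical
  -- data: pairs of boxes and a function
  let D := (Finset (X × ℚ × ℚ) × Finset (X × ℚ × ℚ)) × C(L, ℝ)
  let s : D → Set X := fun d => (supp d.1.1 : Set X) ∪ (supp d.1.2 : Set X)
  let P : Set X → D → Prop := fun A d =>
    (∀ f : Cp X, Sat d.1.1 f.1 → d.2 (φ f) ≤ 0) ∧ (∀ f : Cp X, Sat d.1.2 f.1 → 1 ≤ d.2 (φ f)) ∧
    (∃ f, Sat d.1.1 f) ∧ (∃ f, Sat d.1.2 f) ∧ restr A d.1.1 = restr A d.1.2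
  have hP : ∀ A : Set X, A.Countable → ∃ d, P A d := by
    intro A hA
    by_contra hcon
    apply hL
    apply metrizable_of_det hφ hs hA
    intro h p q hpq b b' hb hb' ⟨fb, hfb⟩ ⟨fb', hfb'⟩ ⟨f₀, hf₀, hf₀'⟩
    apply hcon
    let h' : C(L, ℝ) := ⟨fun y => (h y - p) / (q - p), by
      have := h.continuous
      fun_prop⟩
    have hqp : 0 < q - p := by linarith
    refine ⟨((b ∪ restr A b', b' ∪ restr A b), h'), ?_, ?_, ?_, ?_, ?_⟩
    · intro f hf
      have := hb f (sat_union.mp hf).1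
      show (h (φ f) - p) / (q - p) ≤ 0
      apply div_nonpos_of_nonpos_of_nonneg <;> linarith
    · intro f hf
      have := hb' f (sat_union.mp hf).1
      show 1 ≤ (h (φ f) - p) / (q - p)
      rw [le_div_iff₀ hqp]
      linarith
    · refine ⟨fun x => if x ∈ A then f₀ x else fb x, ?_⟩
      rw [sat_union]
      constructor
      · intro c hc
        by_cases hcA : c.1 ∈ A
        · simp only [hcA, if_true]; exact hf₀ c hc hcA
        · simp only [hcA, if_false]; exact hfb c hc
      · intro c hc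
        have hcA := (mem_restr.mp hc).2
        simp only [hcA, if_true]
        exact hf₀' c (mem_restr.mp hc).1 hcA
    · refine ⟨fun x => if x ∈ A then f₀ x else fb' x, ?_⟩
      rw [sat_union]
      constructor
      · intro c hc
        by_cases hcA : c.1 ∈ A
        · simp only [hcA, if_true]; exact hf₀' c hc hcA
        · simp only [hcA, if_false]; exact hfb' c hc
      · intro c hc
        have hcA := (mem_restr.mp hc).2
        simp only [hcA, if_true]
        exact hf₀ c (mem_restr.mp hc).1 hcA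
    · ext c
      simp only [mem_restr, Finset.mem_union]
      tauto
  obtain ⟨F, hF⟩ := exists_build s (fun d => (supp d.1.1).countable_toSet.union
    (supp d.1.2).countable_toSet) P hP
  -- Delta-system
  obtain ⟨S, R, -, hSc, hR⟩ := delta_system (univ : Set W) uncountable_W
    (fun a => supp (F a).1.1 ∪ supp (F a).1.2)
  -- all but the first element of S have R inside the previous supports
  have hS' : ¬ {a ∈ S | ∃ b ∈ S, b < a}.Countable := by
    intro hc
    apply hSc
    by_cases hne : S.Nonempty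
    · obtain ⟨m, hm, hmin⟩ := WellFounded.has_min (wellFounded_lt (α := W)) S hne
      refine (hc.insert m).mono ?_
      intro a ha
      by_cases ham : a = m
      · exact Or.inl ham
      · refine Or.inr ⟨ha, m, hm, ?_⟩
        exact lt_of_le_of_ne (not_lt.mp (hmin a ha)) (Ne.symm ham)
    · rw [Set.not_nonempty_iff_eq_empty.mp hne]
      exact countable_empty
  have hroot : ∀ a ∈ {a ∈ S | ∃ b ∈ S, b < a},
      restr (R : Set X) (F a).1.1 = restr (R : Set X) (F a).1.2 := by
    rintro a ⟨ha, b, hb, hba⟩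
    have h1 := (hF a).2.2.2.2
    have hsub : (R : Set X) ⊆ ⋃ b ∈ Iio a, s (F b) := by
      intro x hx
      have hx' : x ∈ supp (F b).1.1 ∪ supp (F b).1.2 := by
        have : x ∈ R := hx
        rw [← hR a ha b hb (ne_of_gt hba)] at this
        exact (Finset.mem_inter.mp this).2
      refine mem_biUnion (x := b) hba ?_
      rcases Finset.mem_union.mp hx' with h | h
      · exact Or.inl h
      · exact Or.inr h
    ext c
    simp only [mem_restr]
    constructor
    · rintro ⟨hc, hcR⟩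
      have : c ∈ restr (⋃ b ∈ Iio a, s (F b)) (F a).1.1 := mem_restr.mpr ⟨hc, hsub hcR⟩
      rw [h1] at this
      exact ⟨(mem_restr.mp this).1, hcR⟩
    · rintro ⟨hc, hcR⟩
      have : c ∈ restr (⋃ b ∈ Iio a, s (F b)) (F a).1.2 := mem_restr.mpr ⟨hc, hsub hcR⟩
      rw [← h1] at this
      exact ⟨(mem_restr.mp this).1, hcR⟩
  -- pigeonhole on the root
  have hcnt : Countable {r : Finset (X × ℚ × ℚ) // (∀ c ∈ r, c.1 ∈ R)} := by
    have hinj : Function.Injective
        (fun r : {r : Finset (X × ℚ × ℚ) // (∀ c ∈ r, c.1 ∈ R)} =>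
          (r.1.attach.image (fun c => ((⟨c.1.1, r.2 c.1 c.2⟩ : R), c.1.2)) :
            Finset (R × ℚ × ℚ))) := by
      intro r r' h
      apply Subtype.ext
      ext c
      have key : ∀ r : {r : Finset (X × ℚ × ℚ) // (∀ c ∈ r, c.1 ∈ R)}, c ∈ r.1 ↔
          ∃ hc : c.1 ∈ R, ((⟨c.1, hc⟩ : R), c.2) ∈
            (r.1.attach.image (fun c => ((⟨c.1.1, r.2 c.1 c.2⟩ : R), c.1.2)) :
            Finset (R × ℚ × ℚ)) := by
        intro r
        constructor
        · intro hc
          refine ⟨r.2 c hc, ?_⟩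
          rw [Finset.mem_image]
          exact ⟨⟨c, hc⟩, Finset.mem_attach _ _, rfl⟩
        · rintro ⟨hc, h⟩
          rw [Finset.mem_image] at h
          obtain ⟨⟨d, hd⟩, -, h⟩ := h
          have h1 : d.1 = c.1 := congrArg (fun z : R × ℚ × ℚ => z.1.1) h
          have h2 : d.2 = c.2 := congrArg (fun z : R × ℚ × ℚ => z.2) h
          have : d = c := Prod.ext h1 h2
          exact this ▸ hd
      rw [key r, key r']
      simp only at h
      rw [h]
    exact hinj.countable
  let g : W → {r : Finset (X × ℚ × ℚ) // (∀ c ∈ r, c.1 ∈ R)} := fun a =>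
    ⟨restr (R : Set X) (F a).1.1, fun c hc => (mem_restr.mp hc).2⟩
  obtain ⟨r, hr⟩ := exists_uncountable_fibre _ hS' g
  set T : Set W := {a ∈ {a ∈ S | ∃ b ∈ S, b < a} | g a = r} with hT
  obtain ⟨a₀, ha₀⟩ : T.Nonempty := by
    rw [nonempty_iff_ne_empty]
    intro h
    rw [h] at hr
    exact hr countable_empty
  -- enumeration of T
  have hTemb : Nonempty (W ↪ T) := by
    rw [← Cardinal.le_def, mk_W]
    have : ℵ₀ < #T := by
      rw [← not_le, Cardinal.mk_le_aleph0_iff, Set.countable_coe_iff]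
      exact hr
    rw [← Cardinal.succ_aleph0]
    exact Order.succ_le_of_lt this
  obtain ⟨e⟩ := hTemb
  refine ⟨fun a => (F (e a).1).2, fun t => ?_⟩
  -- choose satisfying functions
  have hsat0 : ∀ a, ∃ f, Sat (F a).1.1 f := fun a => (hF a).2.2.1
  have hsat1 : ∀ a, ∃ f, Sat (F a).1.2 f := fun a => (hF a).2.2.2.1
  choose f0 hf0 using hsat0
  choose f1 hf1 using hsat1
  let bx : W → Finset (X × ℚ × ℚ) := fun a => if t a then (F (e a).1).1.2 else (F (e a).1).1.1
  let ff : W → X → ℝ := fun a => if t a then f1 (e a).1 else f0 (e a).1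
  have hff : ∀ a, Sat (bx a) (ff a) := by
    intro a
    by_cases h : t a
    · simp only [bx, ff, h, if_true]; exact hf1 _
    · simp only [bx, ff, h, if_false]; exact hf0 _
  -- global function
  let G : X → ℝ := fun x => if x ∈ R then f0 a₀ x else
    if hx : ∃ a, x ∈ supp (bx a) then ff hx.choose x else 0
  have hbxsupp : ∀ a x, x ∈ supp (bx a) → x ∈ supp (F (e a).1).1.1 ∪ supp (F (e a).1).1.2 := by
    intro a x hx
    by_cases h : t a
    · simp only [bx, h, if_true] at hx
      exact Finset.mem_union_right _ hx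
    · simp only [bx, h, if_false] at hx
      exact Finset.mem_union_left _ hx
  have hGsat : ∀ a, Sat (bx a) G := by
    intro a c hc
    by_cases hcR : c.1 ∈ R
    · have h1 : G c.1 = f0 a₀ c.1 := by simp only [G, hcR, if_true]
      rw [h1]
      have h2 : c ∈ restr (R : Set X) (F (e a).1).1.1 := by
        by_cases h : t a
        · simp only [bx, h, if_true] at hc
          rw [hroot _ (e a).2.1]
          exact mem_restr.mpr ⟨hc, hcR⟩
        · simp only [bx, h, if_false] at hc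
          exact mem_restr.mpr ⟨hc, hcR⟩
      have h3 : restr (R : Set X) (F (e a).1).1.1 = restr (R : Set X) (F a₀).1.1 := by
        have := (e a).2.2.trans ha₀.2.symm
        exact congrArg Subtype.val this
      rw [h3] at h2
      exact hf0 a₀ c (mem_restr.mp h2).1
    · have hex : ∃ a, c.1 ∈ supp (bx a) := ⟨a, mem_supp hc⟩
      have h1 : G c.1 = ff hex.choose c.1 := by
        simp only [G, hcR, if_false]
        rw [dif_pos hex]
      have h2 : hex.choose = a := by
        by_contra hne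
        apply hcR
        have hne' : (e hex.choose).1 ≠ (e a).1 := by
          intro h
          exact hne (e.injective (Subtype.ext h))
        rw [← hR _ (e hex.choose).2.1.1 _ (e a).2.1.1 hne']
        exact Finset.mem_inter.mpr ⟨hbxsupp _ _ hex.choose_spec, hbxsupp _ _ (mem_supp hc)⟩
      rw [h1, h2]
      exact hff a c hc
  -- compactness
  let C : W → Set L := fun a => if t a then {y | 1 ≤ (F (e a).1).2 y} else
    {y | (F (e a).1).2 y ≤ 0}
  have hCclosed : ∀ a, IsClosed (C a) := by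
    intro a
    by_cases h : t a
    · simp only [C, h, if_true]
      exact isClosed_le continuous_const (F (e a).1).2.continuous
    · simp only [C, h, if_false]
      exact isClosed_le (F (e a).1).2.continuous continuous_const
  have hfin : ∀ U : Finset W, (⋂ a ∈ U, C a).Nonempty := by
    intro U
    have hU : Sat (U.biUnion bx) G := by
      intro c hc
      obtain ⟨a, -, ha⟩ := Finset.mem_biUnion.mp hc
      exact hGsat a c ha
    obtain ⟨k, hk⟩ := exists_sat hU
    refine ⟨φ k, ?_⟩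
    rw [mem_iInter₂]
    intro a ha
    have hka : Sat (bx a) k.1 := fun c hc => hk c (Finset.mem_biUnion.mpr ⟨a, ha, hc⟩)
    by_cases h : t a
    · simp only [C, h, if_true]
      simp only [bx, h, if_true] at hka
      exact (hF _).2.1 k hka
    · simp only [C, h, if_false]
      simp only [bx, h, if_false] at hka
      exact (hF _).1 k hka
  obtain ⟨y, hy⟩ := CompactSpace.iInter_nonempty hCclosed hfin
  refine ⟨y, fun a => ?_⟩
  have hya := mem_iInter.mp hy a
  constructor
  · intro h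
    simp only [C, h, if_true] at hya
    exact hya
  · intro h
    simp only [C, h, if_false] at hya
    exact hya

end


/-! ### Small families of functions -/

section

variable {X : Type u} [TopologicalSpace X]

/-- The functions whose oscillation on `Y` is controlled by the sets `O b`, `b < a`. -/
def Ctrl (Y : Set X) (O : W → Set X) (a : W) : Set (Cp X) :=
  {f | ∀ n : ℕ, ∀ x ∈ Y, ∃ b < a, x ∈ O b ∧ ∀ y ∈ O b ∩ Y, |f.1 y - f.1 x| ≤ 1 / ((n : ℝ) + 1)}

theorem exists_ctrl {Y : Set X} (hY : IsLindelof Y) {O : W → Set X}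
    (hO : ∀ a, ∃ V : Set X, IsOpen V ∧ O a ∩ Y = V ∩ Y)
    (hbase : ∀ x ∈ Y, ∀ U : Set X, IsOpen U → x ∈ U → ∃ a, x ∈ O a ∧ O a ∩ Y ⊆ U) (f : Cp X) :
    ∃ a, f ∈ Ctrl Y O a := by
  classical
  have h1 : ∀ n : ℕ, ∀ x ∈ Y, ∃ b, x ∈ O b ∧ ∀ y ∈ O b ∩ Y,
      |f.1 y - f.1 x| < 1 / (2 * ((n : ℝ) + 1)) := by
    intro n x hx
    have hpos : (0 : ℝ) < 1 / (2 * ((n : ℝ) + 1)) := by positivity
    have hopen : IsOpen {y | |f.1 y - f.1 x| < 1 / (2 * ((n : ℝ) + 1))} := by
      have hc : Continuous (fun y => |f.1 y - f.1 x|) := (f.2.sub continuous_const).abs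
      exact isOpen_lt hc continuous_const
    obtain ⟨a, ha1, ha2⟩ := hbase x hx _ hopen (by simpa using hpos)
    exact ⟨a, ha1, fun y hy => ha2 hy⟩
  choose! b hb1 hb2 using h1
  choose V hVo hV using hO
  have h2 : ∀ n : ℕ, ∃ r : Set Y, r.Countable ∧ Y ⊆ ⋃ x ∈ r, V (b n x.1) := by
    intro n
    apply hY.elim_countable_subcover (fun x : Y => V (b n x.1)) (fun x => hVo _)
    intro x hx
    refine mem_iUnion.mpr ⟨⟨x, hx⟩, ?_⟩
    have : x ∈ O (b n x) ∩ Y := ⟨hb1 n x hx, hx⟩
    rw [hV] at this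
    exact this.1
  choose r hrc hr using h2
  obtain ⟨a, ha⟩ := exists_gt_W (C := ⋃ n, (fun x : Y => b n x.1) '' r n)
    (countable_iUnion fun n => (hrc n).image _)
  refine ⟨a, fun n x hx => ?_⟩
  obtain ⟨z, hz, hxz⟩ := mem_iUnion₂.mp (hr n hx)
  refine ⟨b n z.1, ha _ (mem_iUnion.mpr ⟨n, z, hz, rfl⟩), ?_, ?_⟩
  · have : x ∈ V (b n z.1) ∩ Y := ⟨hxz, hx⟩
    rw [← hV] at this
    exact this.1
  · intro y hy
    have hx' : x ∈ O (b n z.1) ∩ Y := by rw [hV]; exact ⟨hxz, hx⟩
    have e1 := hb2 n z.1 z.2 y hy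
    have e2 := hb2 n z.1 z.2 x hx'
    have : f.1 y - f.1 x = (f.1 y - f.1 z.1) - (f.1 x - f.1 z.1) := by ring
    rw [this]
    have e3 := abs_sub (f.1 y - f.1 z.1) (f.1 x - f.1 z.1)
    have e4 : (1 : ℝ) / (2 * ((n : ℝ) + 1)) + 1 / (2 * ((n : ℝ) + 1)) = 1 / ((n : ℝ) + 1) := by
      field_simp
      ring
    linarith

/-- `Ctrl Y O a` contains no uncountable discrete family in the topology of pointwise
convergence on `Y`. -/
theorem ctrl_no_discrete {Y : Set X} {O : W → Set X} {a : W} {ι : Type w} [Uncountable ι]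
    (f : ι → Cp X) (hf : ∀ i, f i ∈ Ctrl Y O a) (G : ι → Finset X) (hG : ∀ i, ∀ x ∈ G i, x ∈ Y)
    (ε : ι → ℝ) (hε : ∀ i, 0 < ε i)
    (hsep : ∀ i j, i ≠ j → ∃ x ∈ G i, ε i ≤ |(f j).1 x - (f i).1 x|) : False := by
  classical
  have h1 : ∀ i, ∃ n : ℕ, 3 * (1 / ((n : ℝ) + 1)) ≤ ε i := by
    intro i
    obtain ⟨n, hn⟩ := exists_nat_one_div_lt (show 0 < ε i / 3 by have := hε i; positivity)
    exact ⟨n, by linarith⟩
  choose n hn using h1
  have h2 : ∀ i, ∀ x ∈ G i, ∃ b : W, b < a ∧ x ∈ O b ∧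
      (∀ y ∈ O b ∩ Y, |(f i).1 y - (f i).1 x| ≤ 1 / ((n i : ℝ) + 1)) := by
    intro i x hx
    obtain ⟨b, hb1, hb2, hb3⟩ := hf i (n i) x (hG i x hx)
    exact ⟨b, hb1, hb2, hb3⟩
  choose! b hb1 hb2 hb3 using h2
  have h3 : ∀ i, ∀ x, ∃ r : ℚ, |(f i).1 x - r| < 1 / ((n i : ℝ) + 1) := by
    intro i x
    have hpos : (0 : ℝ) < 1 / ((n i : ℝ) + 1) := by positivity
    obtain ⟨r, hr1, hr2⟩ := exists_rat_btwn (show (f i).1 x < (f i).1 x + 1 / ((n i : ℝ) + 1) by
      linarith)
    refine ⟨r, ?_⟩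
    rw [abs_lt]
    constructor <;> linarith
  choose r hr using h3
  have hcI : Countable (Iio a) := (countable_Iio_W a).to_subtype
  let code : ι → ℕ × Finset (Iio a × ℚ) := fun i =>
    (n i, (G i).attach.image (fun x =>
      ((⟨b i x.1, mem_Iio.mpr (hb1 i x.1 x.2)⟩ : Iio a), r i x.1)))
  have hni : ¬ Function.Injective code := by
    intro hinj
    exact not_countable (α := ι) hinj.countable
  rw [Function.Injective] at hni
  push Not at hni
  obtain ⟨i, j, hij, hne⟩ := hni
  obtain ⟨x, hx, hle⟩ := hsep i j hne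
  have hnn : n i = n j := congrArg Prod.fst hij
  have hcode : ((⟨b i x, mem_Iio.mpr (hb1 i x hx)⟩ : Iio a), r i x) ∈ (code j).2 := by
    rw [← hij]
    exact Finset.mem_image.mpr ⟨⟨x, hx⟩, Finset.mem_attach _ _, rfl⟩
  obtain ⟨⟨x', hx'⟩, -, he⟩ := Finset.mem_image.mp hcode
  have heb : b j x' = b i x := congrArg (fun z => z.1.1) he
  have her : r j x' = r i x := congrArg (fun z => z.2) he
  have hxO : x ∈ O (b j x') ∩ Y := by
    rw [heb]; exact ⟨hb2 i x hx, hG i x hx⟩
  have e1 := hb3 j x' hx' x hxO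
  have e2 := hr j x'
  have e3 := hr i x
  have e4 := hn i
  rw [her, ← hnn] at e2
  rw [← hnn] at e1
  have hd : (f j).1 x - (f i).1 x =
      ((f j).1 x - (f j).1 x') + ((f j).1 x' - (r i x : ℝ)) - ((f i).1 x - (r i x : ℝ)) := by ring
  rw [hd] at hle
  have e5 := abs_sub ((f j).1 x - (f j).1 x' + ((f j).1 x' - (r i x : ℝ)))
    ((f i).1 x - (r i x : ℝ))
  have e6 := abs_add_le ((f j).1 x - (f j).1 x') ((f j).1 x' - (r i x : ℝ))
  linarith

end

/-! ### The main theorem -/

theorem exists_index {Y : Type u} [TopologicalSpace Y] {B : Set (Set Y)} (hB : #B ≤ ℵ₁) :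
    ∃ O : W → Set Y, (∀ V ∈ B, ∃ a, O a = V) ∧ ∀ a, O a ∈ B ∨ O a = ∅ := by
  classical
  have h : Nonempty (B ↪ W) := by
    rw [← Cardinal.lift_mk_le', mk_W]
    simpa using hB
  obtain ⟨e⟩ := h
  refine ⟨fun a => if h : ∃ V : B, e V = a then h.choose.1 else ∅, ?_, ?_⟩
  · intro V hV
    refine ⟨e ⟨V, hV⟩, ?_⟩
    have hex : ∃ V' : B, e V' = e ⟨V, hV⟩ := ⟨⟨V, hV⟩, rfl⟩
    simp only [dif_pos hex]
    have := e.injective hex.choose_spec
    rw [this]
  · intro a
    by_cases h : ∃ V : B, e V = a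
    · left
      simp only [dif_pos h]
      exact h.choose.2
    · right
      simp only [dif_neg h]

theorem main {X : Type u} [TopologicalSpace X] [T35Space X]
    (hX : ∀ A : Set X, #A ≤ ℵ₁ → ∃ Y : Set X, A ⊆ Y ∧ IsLindelof Y ∧
      ∃ B : Set (Set Y), TopologicalSpace.IsTopologicalBasis B ∧ #B ≤ ℵ₁)
    {L : Type v} [TopologicalSpace L] [CompactSpace L] [T2Space L]
    {φ : Cp X → L} (hφ : Continuous φ) (hs : Function.Surjective φ) :
    TopologicalSpace.MetrizableSpace L := by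
  classical
  by_contra hL
  obtain ⟨H, hH⟩ := exists_independent hφ hs hL
  -- the product indexing
  have hemb : Nonempty (W × W ↪ W) := by
    rw [← Cardinal.le_def, Cardinal.mk_prod, mk_W]
    simp [Cardinal.mul_eq_self (Cardinal.aleph0_le_aleph 1)]
  obtain ⟨e⟩ := hemb
  have hgc : ∀ a, Continuous (fun f : Cp X => H a (φ f)) := fun a => (H a).continuous.comp hφ
  choose A hAc hA using fun a : W => exists_det (fun f : Cp X => H a (φ f))
  have hAcard : #(⋃ a, A a) ≤ ℵ₁ := by
    have h1 := Cardinal.mk_iUnion_le_lift A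
    have h2 : (⨆ a, #(A a)) ≤ ℵ₀ := by
      apply ciSup_le'
      intro a
      exact Cardinal.mk_le_aleph0_iff.mpr (hAc a).to_subtype
    rw [mk_W] at h1
    simp only [Cardinal.lift_uzero, Cardinal.lift_aleph, Ordinal.lift_one] at h1
    refine h1.trans ?_
    refine (mul_le_mul' le_rfl (h2.trans (Cardinal.aleph0_le_aleph 1))).trans ?_
    rw [Cardinal.mul_eq_self (Cardinal.aleph0_le_aleph 1)]
  obtain ⟨Y, hAY, hYL, B, hB, hBc⟩ := hX _ hAcard
  obtain ⟨O', hO'1, hO'2⟩ := exists_index hBc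
  let O : W → Set X := fun a => Subtype.val '' (O' a)
  have hO : ∀ a, ∃ V : Set X, IsOpen V ∧ O a ∩ Y = V ∩ Y := by
    intro a
    have hop : IsOpen (O' a) := by
      rcases hO'2 a with h | h
      · exact hB.isOpen h
      · rw [h]; exact isOpen_empty
    obtain ⟨V, hV, hVO⟩ := isOpen_induced_iff.mp hop
    refine ⟨V, hV, ?_⟩
    ext x
    constructor
    · rintro ⟨⟨y, hy, rfl⟩, hx⟩
      rw [← hVO] at hy
      exact ⟨hy, hx⟩
    · rintro ⟨hxV, hx⟩
      refine ⟨⟨⟨x, hx⟩, ?_, rfl⟩, hx⟩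
      rw [← hVO]
      exact hxV
  have hbase : ∀ x ∈ Y, ∀ U : Set X, IsOpen U → x ∈ U → ∃ a, x ∈ O a ∧ O a ∩ Y ⊆ U := by
    intro x hx U hU hxU
    obtain ⟨V, hVB, hxV, hVU⟩ := hB.exists_subset_of_mem_open
      (show (⟨x, hx⟩ : Y) ∈ Subtype.val ⁻¹' U from hxU) (hU.preimage continuous_subtype_val)
    obtain ⟨a, rfl⟩ := hO'1 V hVB
    refine ⟨a, ⟨⟨x, hx⟩, hxV, rfl⟩, ?_⟩
    rintro y ⟨⟨z, hz, rfl⟩, -⟩
    exact hVU hz
  -- for each level there is a pattern which is not realised
  have hkey : ∀ c : W, ∃ d : W, ∀ f ∈ Ctrl Y O c,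
      ¬ (1 ≤ H (e (c, d)) (φ f) ∧ ∀ d' ≠ d, H (e (c, d')) (φ f) ≤ 0) := by
    intro c
    by_contra hcon
    push Not at hcon
    choose f hf1 hf2 hf3 using hcon
    have h4 : ∀ d : W, ∃ b : Finset (X × ℚ × ℚ), (∀ z ∈ b, z.1 ∈ A (e (c, d))) ∧ Sat b (f d).1 ∧
        ∀ f' : Cp X, Sat b f'.1 → |H (e (c, d)) (φ f') - H (e (c, d)) (φ (f d))| ≤ 1 / 2 := by
      intro d
      exact (hA (e (c, d))).exists_finset (hgc _) (f d) (by norm_num)
    choose b hb1 hb2 hb3 using h4
    -- positive distance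
    have h5 : ∀ d : W, ∃ ε > 0, ∀ f' : X → ℝ, (∀ x ∈ supp (b d), |f' x - (f d).1 x| < ε) →
        Sat (b d) f' := by
      intro d
      have hfin : ∀ b' : Finset (X × ℚ × ℚ), Sat b' (f d).1 → ∃ ε > 0, ∀ f' : X → ℝ,
          (∀ z ∈ b', |f' z.1 - (f d).1 z.1| < ε) → Sat b' f' := by
        intro b'
        induction b' using Finset.induction_on with
        | empty =>
          intro _
          exact ⟨1, one_pos, fun f' _ z hz => absurd hz (Finset.notMem_empty z)⟩
        | insert z b' hz ih =>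
          intro hsat
          obtain ⟨ε, hε, hε'⟩ := ih (fun c hc => hsat c (Finset.mem_insert_of_mem hc))
          have hz' := hsat z (Finset.mem_insert_self _ _)
          refine ⟨min ε (min ((f d).1 z.1 - z.2.1) (z.2.2 - (f d).1 z.1)),
            lt_min hε (lt_min (by linarith [hz'.1]) (by linarith [hz'.2])), ?_⟩
          intro f' hf' w hw
          rcases Finset.mem_insert.mp hw with rfl | hw
          · have h := hf' w (Finset.mem_insert_self _ _)
            have h1 := lt_of_lt_of_le h ((min_le_right _ _).trans (min_le_left _ _))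
            have h2 := lt_of_lt_of_le h ((min_le_right _ _).trans (min_le_right _ _))
            rw [abs_lt] at h1 h2
            constructor <;> linarith [h1.1, h2.2]
          · exact hε' f' (fun z hz => lt_of_lt_of_le (hf' z (Finset.mem_insert_of_mem hz))
              (min_le_left _ _)) w hw
      obtain ⟨ε, hε, h⟩ := hfin (b d) (hb2 d)
      exact ⟨ε, hε, fun f' hf' => h f' (fun z hz => hf' z.1 (mem_supp hz))⟩
    choose ε hε hε' using h5
    refine ctrl_no_discrete (Y := Y) (O := O) (a := c) f hf1 (fun d => supp (b d)) ?_ ε hε ?_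
    · intro d x hx
      have hx' : x ∈ (b d).image Prod.fst := by
        simpa [supp] using hx
      obtain ⟨z, hz, rfl⟩ := Finset.mem_image.mp hx'
      exact hAY (mem_iUnion.mpr ⟨_, hb1 d z hz⟩)
    · intro d d' hdd
      by_contra hcon2
      push Not at hcon2
      have h6 := hb3 d (f d') (hε' d (f d').1 hcon2)
      have h7 := hf2 d
      have h8 := hf3 d' d hdd
      rw [abs_le] at h6
      linarith [h6.1]
  choose δ hδ using hkey
  obtain ⟨y, hy⟩ := hH (fun a => ∃ c, a = e (c, δ c))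
  obtain ⟨f, rfl⟩ := hs y
  obtain ⟨c, hc⟩ := exists_ctrl hYL hO hbase f
  refine hδ c f hc ⟨(hy _).1 ⟨c, rfl⟩, fun d' hd' => (hy _).2 ?_⟩
  rintro ⟨c', hc'⟩
  have := e.injective hc'
  have h1 : c = c' := congrArg Prod.fst this
  have h2 : d' = δ c' := congrArg Prod.snd this
  rw [← h1] at h2
  exact hd' h2


/-- a compact Hausdorff space with a network of size ≤ ℵ₁ has a base of size ≤ ℵ₁ -/
theorem base_of_network {Y : Type u} [t : TopologicalSpace Y] [CompactSpace Y] [T2Space Y]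
    (N : Set (Set Y)) (hN : #N ≤ ℵ₁)
    (hnet : ∀ y : Y, ∀ U : Set Y, IsOpen U → y ∈ U → ∃ n ∈ N, y ∈ n ∧ n ⊆ U) :
    ∃ B : Set (Set Y), TopologicalSpace.IsTopologicalBasis B ∧ #B ≤ ℵ₁ := by
  classical
  -- separating open sets for pairs of network members
  let sep : N × N → Set Y × Set Y → Prop := fun nn UV =>
    IsOpen UV.1 ∧ IsOpen UV.2 ∧ nn.1.1 ⊆ UV.1 ∧ nn.2.1 ⊆ UV.2 ∧ Disjoint UV.1 UV.2
  let UV : N × N → Set Y × Set Y := fun nn => if h : ∃ P, sep nn P then h.choose else (∅, ∅)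
  have hUV : ∀ nn, (∃ P, sep nn P) → sep nn (UV nn) := by
    intro nn h
    simp only [UV, dif_pos h]
    exact h.choose_spec
  have hUVo : ∀ nn, IsOpen (UV nn).1 ∧ IsOpen (UV nn).2 := by
    intro nn
    by_cases h : ∃ P, sep nn P
    · exact ⟨(hUV nn h).1, (hUV nn h).2.1⟩
    · simp only [UV, dif_neg h]
      exact ⟨isOpen_empty, isOpen_empty⟩
  let S : Set (Set Y) := range (fun nn => (UV nn).1) ∪ range (fun nn => (UV nn).2)
  have hSo : ∀ s ∈ S, IsOpen s := by
    rintro s (⟨nn, rfl⟩ | ⟨nn, rfl⟩)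
    · exact (hUVo nn).1
    · exact (hUVo nn).2
  have hSc : #S ≤ ℵ₁ := by
    have h1 : #(N × N) ≤ ℵ₁ := by
      rw [Cardinal.mk_prod, Cardinal.lift_id]
      exact (mul_le_mul' hN hN).trans_eq (Cardinal.mul_eq_self (Cardinal.aleph0_le_aleph 1))
    calc #S ≤ #(range (fun nn => (UV nn).1)) + #(range (fun nn => (UV nn).2)) :=
          Cardinal.mk_union_le _ _
      _ ≤ ℵ₁ + ℵ₁ := add_le_add (Cardinal.mk_range_le.trans h1) (Cardinal.mk_range_le.trans h1)
      _ = ℵ₁ := Cardinal.add_eq_self (Cardinal.aleph0_le_aleph 1)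
  -- the generated topology is Hausdorff
  have hle : t ≤ TopologicalSpace.generateFrom S := by
    apply le_generateFrom
    exact hSo
  have hT2 : @T2Space Y (TopologicalSpace.generateFrom S) := by
    refine @T2Space.mk Y (TopologicalSpace.generateFrom S) ?_
    intro x y hxy
    obtain ⟨U, V, hU, hV, hxU, hyV, hd⟩ := t2_separation hxy
    obtain ⟨n, hn, hxn, hnU⟩ := hnet x U hU hxU
    obtain ⟨m, hm, hym, hmV⟩ := hnet y V hV hyV
    have h := hUV (⟨n, hn⟩, ⟨m, hm⟩) ⟨(U, V), hU, hV, hnU, hmV, hd⟩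
    refine ⟨(UV (⟨n, hn⟩, ⟨m, hm⟩)).1, (UV (⟨n, hn⟩, ⟨m, hm⟩)).2, ?_, ?_, h.2.2.1 hxn,
      h.2.2.2.1 hym, h.2.2.2.2⟩
    · exact TopologicalSpace.isOpen_generateFrom_of_mem (Or.inl ⟨_, rfl⟩)
    · exact TopologicalSpace.isOpen_generateFrom_of_mem (Or.inr ⟨_, rfl⟩)
  have heq : t = TopologicalSpace.generateFrom S := by
    apply le_antisymm hle
    -- the identity from t to the generated topology is a closed map
    intro U hU
    have hK : @IsCompact Y t Uᶜ := (isClosed_compl_iff.mpr hU).isCompact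
    have hcont : @Continuous Y Y t (TopologicalSpace.generateFrom S) id := continuous_id_iff_le.mpr hle
    have hK' : @IsCompact Y (TopologicalSpace.generateFrom S) Uᶜ := by
      have := @IsCompact.image Y Y t (TopologicalSpace.generateFrom S) Uᶜ id hK hcont
      rwa [image_id] at this
    have hcl : @IsClosed Y (TopologicalSpace.generateFrom S) Uᶜ :=
      @IsCompact.isClosed Y (TopologicalSpace.generateFrom S) hT2 _ hK'
    exact (@isClosed_compl_iff Y (TopologicalSpace.generateFrom S) U).mp hcl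
  refine ⟨_, TopologicalSpace.isTopologicalBasis_of_subbasis heq, ?_⟩
  refine Cardinal.mk_image_le.trans ?_
  -- finite subsets of S
  have hsurj : #{f : Set (Set Y) | f.Finite ∧ f ⊆ S} ≤ #(Finset S) := by
    refine Cardinal.mk_le_of_surjective (f := fun F : Finset S =>
      (⟨Subtype.val '' (F : Set S), F.finite_toSet.image _, by
        rintro _ ⟨s, -, rfl⟩; exact s.2⟩ : {f : Set (Set Y) | f.Finite ∧ f ⊆ S})) ?_
    rintro ⟨f, hf, hfS⟩
    have hfin : (Subtype.val ⁻¹' f : Set S).Finite := hf.preimage Subtype.val_injective.injOn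
    refine ⟨hfin.toFinset, ?_⟩
    apply Subtype.ext
    simp only [Finite.coe_toFinset]
    rw [Subtype.image_preimage_coe]
    exact inter_eq_right.mpr hfS
  refine hsurj.trans ?_
  rcases finite_or_infinite S with h | h
  · have : Finite (Finset S) := inferInstance
    exact (Cardinal.lt_aleph0_of_finite _).le.trans (Cardinal.aleph0_le_aleph 1)
  · rw [Cardinal.mk_finset_of_infinite]
    exact hSc


/-- Compact Fréchet–Urysohn spaces in which closures of countable sets have weight at most `ℵ₁`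
satisfy the hypothesis of `main`. -/
theorem cond_of_frechet {K : Type u} [TopologicalSpace K] [CompactSpace K] [T2Space K]
    [FrechetUrysohnSpace K]
    (hK : ∀ C : Set K, C.Countable → ∃ B : Set (Set (closure C)),
      TopologicalSpace.IsTopologicalBasis B ∧ #B ≤ ℵ₁) :
    ∀ A : Set K, #A ≤ ℵ₁ → ∃ Y : Set K, A ⊆ Y ∧ IsLindelof Y ∧
      ∃ B : Set (Set Y), TopologicalSpace.IsTopologicalBasis B ∧ #B ≤ ℵ₁ := by
  classical
  intro A hA
  have hcl : IsCompact (closure A) := isClosed_closure.isCompact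
  refine ⟨closure A, subset_closure, hcl.isLindelof, ?_⟩
  -- enumerate `A` along `W`
  have h : Nonempty (A ↪ W) := by
    rw [← Cardinal.lift_mk_le', mk_W]
    simpa using hA
  obtain ⟨e⟩ := h
  let Aw : W → Set K := fun w => {x | ∃ hx : x ∈ A, e ⟨x, hx⟩ < w}
  have hAwc : ∀ w, (Aw w).Countable := by
    intro w
    have h1 : (e ⁻¹' (Iio w)).Countable := (countable_Iio_W w).preimage e.injective
    refine (h1.image Subtype.val).mono ?_
    rintro x ⟨hx, hlt⟩
    exact ⟨⟨x, hx⟩, hlt, rfl⟩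
  choose B hB hBc using fun w => hK (Aw w) (hAwc w)
  have hAwA : ∀ w, Aw w ⊆ A := fun w x hx => hx.1
  have : CompactSpace (closure A) := isCompact_iff_compactSpace.mp hcl
  let N : Set (Set (closure A)) := ⋃ w, (fun V : Set (closure (Aw w)) =>
    (Subtype.val ⁻¹' (Subtype.val '' V) : Set (closure A))) '' B w
  apply base_of_network N
  · have h1 : Cardinal.lift.{0} #N ≤ Cardinal.lift.{u} #W *
        ⨆ w, Cardinal.lift.{0} #((fun V : Set (closure (Aw w)) =>
          (Subtype.val ⁻¹' (Subtype.val '' V) : Set (closure A))) '' B w) :=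
      Cardinal.mk_iUnion_le_lift _
    rw [mk_W] at h1
    simp only [Cardinal.lift_uzero, Cardinal.lift_aleph, Ordinal.lift_one] at h1
    refine h1.trans ?_
    have h2 : (⨆ w, #((fun V : Set (closure (Aw w)) =>
          (Subtype.val ⁻¹' (Subtype.val '' V) : Set (closure A))) '' B w)) ≤ ℵ₁ := by
      apply ciSup_le'
      intro w
      exact Cardinal.mk_image_le.trans (hBc w)
    exact (mul_le_mul' le_rfl h2).trans_eq (Cardinal.mul_eq_self (Cardinal.aleph0_le_aleph 1))
  · rintro ⟨y, hy⟩ U hU hyU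
    obtain ⟨V, hV, rfl⟩ := isOpen_induced_iff.mp hU
    obtain ⟨x, hxA, hxlim⟩ := mem_closure_iff_seq_limit.mp hy
    obtain ⟨w, hw⟩ := exists_gt_W (C := range (fun n => e ⟨x n, hxA n⟩)) (countable_range _)
    have hyw : y ∈ closure (Aw w) := by
      apply mem_closure_of_tendsto hxlim
      exact Eventually.of_forall fun n => ⟨hxA n, hw _ ⟨n, rfl⟩⟩
    obtain ⟨b, hb, hyb, hbV⟩ := (hB w).exists_subset_of_mem_open
      (show (⟨y, hyw⟩ : closure (Aw w)) ∈ Subtype.val ⁻¹' V from hyU)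
      (hV.preimage continuous_subtype_val)
    refine ⟨Subtype.val ⁻¹' (Subtype.val '' b), mem_iUnion.mpr ⟨w, b, hb, rfl⟩,
      ⟨⟨y, hyw⟩, hyb, rfl⟩, ?_⟩
    rintro ⟨z, hz⟩ ⟨z', hz', hzz⟩
    have h5 : z'.1 ∈ V := hbV hz'
    have h6 : z'.1 = z := hzz
    rw [h6] at h5
    exact h5

/-- First countable hereditarily Lindelöf spaces (for instance all perfectly normal
compacta) satisfy the hypothesis of `main`. -/
theorem cond_of_hereditarilyLindelof {X : Type u} [TopologicalSpace X]
    [FirstCountableTopology X] [HereditarilyLindelofSpace X] :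
    ∀ A : Set X, #A ≤ ℵ₁ → ∃ Y : Set X, A ⊆ Y ∧ IsLindelof Y ∧
      ∃ B : Set (Set Y), TopologicalSpace.IsTopologicalBasis B ∧ #B ≤ ℵ₁ := by
  classical
  intro A hA
  refine ⟨A, Subset.rfl, HereditarilyLindelofSpace.isHereditarilyLindelof_univ A
    (subset_univ A), ?_⟩
  have h1 : ∀ a : A, ∃ V : ℕ → Set A, (∀ n, IsOpen (V n)) ∧ ∀ U : Set A, IsOpen U → a ∈ U →
      ∃ n, a ∈ V n ∧ V n ⊆ U := by
    intro a
    obtain ⟨V, hV⟩ := (𝓝 a).exists_antitone_basis
    refine ⟨fun n => interior (V n), fun n => isOpen_interior, ?_⟩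
    intro U hU haU
    obtain ⟨n, hn⟩ := hV.mem_iff.mp (hU.mem_nhds haU)
    refine ⟨n, ?_, interior_subset.trans hn⟩
    rw [mem_interior_iff_mem_nhds]
    exact hV.mem n
  choose V hVo hV using h1
  refine ⟨range (fun p : A × ℕ => V p.1 p.2), ?_, ?_⟩
  · apply TopologicalSpace.isTopologicalBasis_of_isOpen_of_nhds
    · rintro _ ⟨p, rfl⟩
      exact hVo _ _
    · intro a U haU hU
      obtain ⟨n, hn1, hn2⟩ := hV a U hU haU
      exact ⟨_, ⟨(a, n), rfl⟩, hn1, hn2⟩
  · refine Cardinal.mk_range_le.trans ?_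
    rw [Cardinal.mk_prod]
    simp only [Cardinal.lift_uzero, Cardinal.mk_nat, Cardinal.lift_aleph0, Cardinal.lift_id]
    calc #A * ℵ₀ ≤ ℵ₁ * ℵ₁ := mul_le_mul' hA (Cardinal.aleph0_le_aleph 1)
      _ = ℵ₁ := Cardinal.mul_eq_self (Cardinal.aleph0_le_aleph 1)

end Pool.Agent.H64.CpImages
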