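import Pool.Agent.H64.BorsukUlam

/-!
# Consequences of the Borsuk–Ulam theorem

* `exists_zero_of_odd_on_sphere`: a continuous map of the closed unit ball of a finite-dimensional
  normed space `E` to `E`, odd on the unit sphere, has a zero.
* `exists_zero_of_homotopic`: the same for a continuous map of a closed ball which on the boundary
  sphere never points opposite to the position vector.
* `brouwer_ball`, `brouwer_convex`: the Brouwer fixed point theorem for closed balls and for
  compact convex sets.
* `not_retraction`: the sphere is not a retract of the closed ball.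
* `lyusternik_schnirelmann`: if `n + 1` closed sets cover the sphere of an `(n + 1)`-dimensional
  space, one of them contains a pair of antipodal points.
-/

open Metric Set Module

namespace Pool.Agent.H64.BU

section

variable {E : Type*} [NormedAddCommGroup E] [NormedSpace ℝ E] [FiniteDimensional ℝ E]

/-- A continuous self-map of the closed unit ball, odd on the sphere, has a zero. -/
theorem exists_zero_of_odd_on_sphere {f : E → E} (hf : ContinuousOn f (closedBall 0 1))
    (ho : ∀ x ∈ sphere (0 : E) 1, f (-x) = -f x) : ∃ x ∈ closedBall (0 : E) 1, f x = 0 := by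
  have hfin : finrank ℝ E < finrank ℝ (E × ℝ) := by
    rw [finrank_prod, finrank_self]; omega
  have hsub : ∀ p ∈ sphere (0 : E × ℝ) 1, p.1 ∈ closedBall (0 : E) 1 ∧ -p.1 ∈ closedBall (0 : E) 1
      ∧ (p.2 = 1 ∨ p.2 = -1 ∨ p.1 ∈ sphere (0 : E) 1) := by
    intro p hp
    rw [mem_sphere_zero_iff_norm, Prod.norm_def] at hp
    have h1 : ‖p.1‖ ≤ 1 := by rw [← hp]; exact le_max_left _ _
    refine ⟨by simpa using h1, by simpa using h1, ?_⟩
    rcases max_choice ‖p.1‖ ‖p.2‖ with h | h
    · right; right
      rw [mem_sphere_zero_iff_norm, ← h, hp]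
    · rw [h, Real.norm_eq_abs] at hp
      rcases abs_eq (zero_le_one' ℝ) |>.mp hp with h2 | h2
      · exact Or.inl h2
      · exact Or.inr (Or.inl h2)
  have key : ∃ p ∈ sphere (0 : E × ℝ) 1,
      (fun p : E × ℝ => ((1 + p.2) / 2) • f p.1 - ((1 - p.2) / 2) • f (-p.1)) p = 0 := by
    apply borsukUlam hfin
    · refine ContinuousOn.sub (ContinuousOn.smul (by fun_prop) ?_)
        (ContinuousOn.smul (by fun_prop) ?_)
      · exact hf.comp continuous_fst.continuousOn (fun p hp => (hsub p hp).1)
      · exact hf.comp (continuous_fst.neg).continuousOn (fun p hp => (hsub p hp).2.1)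
    · intro p _
      simp only [Prod.snd_neg, Prod.fst_neg, neg_neg]
      module
  obtain ⟨p, hp, h⟩ := key
  obtain ⟨h1, h2, h3 | h3 | h3⟩ := hsub p hp
  · refine ⟨p.1, h1, ?_⟩
    simpa [h3] using h
  · refine ⟨-p.1, h2, ?_⟩
    simpa [h3] using h
  · refine ⟨p.1, h1, ?_⟩
    have h' : ((1 + p.2) / 2) • f p.1 - ((1 - p.2) / 2) • f (-p.1) = 0 := h
    rw [ho _ h3] at h'
    rw [← h']
    module

/-- A continuous map of the closed ball of radius `R` which on the sphere of radius `R` never
points opposite to the position vector has a zero. -/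
theorem exists_zero_of_homotopic {f : E → E} {R : ℝ} (hR : 0 < R)
    (hf : ContinuousOn f (closedBall 0 R))
    (ho : ∀ x ∈ sphere (0 : E) R, ∀ c : ℝ, 0 < c → f x ≠ -(c • x)) :
    ∃ x ∈ closedBall (0 : E) R, f x = 0 := by
  by_contra hne
  push Not at hne
  -- extend to the ball of radius `2 R` by the straight homotopy to the identity
  let ρ : E → E := fun x => (R / max R ‖x‖) • x
  have hmax : ∀ x : E, 0 < max R ‖x‖ := fun x => lt_max_of_lt_left hR
  have hρc : Continuous ρ := by
    refine Continuous.smul (Continuous.div continuous_const (by fun_prop) ?_) continuous_id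
    intro x; exact (hmax x).ne'
  have hρm : ∀ x, ρ x ∈ closedBall (0 : E) R := by
    intro x
    rw [mem_closedBall_zero_iff, norm_smul, Real.norm_eq_abs,
      abs_of_nonneg (div_nonneg hR.le (hmax x).le), div_mul_eq_mul_div, div_le_iff₀ (hmax x)]
    exact mul_le_mul_of_nonneg_left (le_max_right _ _) hR.le
  let s : E → ℝ := fun x => min 1 (max R ‖x‖ / R - 1)
  have hsc : Continuous s := by
    refine Continuous.min continuous_const (Continuous.sub (Continuous.div_const (by fun_prop) _) continuous_const)
  let g : E → E := fun y => (1 - s ((2 * R) • y)) • f (ρ ((2 * R) • y)) + s ((2 * R) • y) • ((2 * R) • y)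
  have hgc : ContinuousOn g (closedBall 0 1) := by
    have hfρ : Continuous (fun y : E => f (ρ ((2 * R) • y))) := by
      have h1 : Continuous (fun y : E => ρ ((2 * R) • y)) := hρc.comp (continuous_const_smul _)
      exact hf.comp_continuous h1 (fun y => hρm _)
    have hs' : Continuous (fun y : E => s ((2 * R) • y)) := hsc.comp (continuous_const_smul _)
    exact ((continuous_const.sub hs').smul hfρ |>.add
      (hs'.smul (continuous_const_smul _))).continuousOn
  have hgo : ∀ x ∈ sphere (0 : E) 1, g (-x) = -g x := by
    intro x hx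
    rw [mem_sphere_zero_iff_norm] at hx
    have hs1 : ∀ y : E, ‖y‖ = 1 → s ((2 * R) • y) = 1 := by
      intro y hy
      simp only [s]
      rw [norm_smul, hy, Real.norm_eq_abs, abs_of_pos (by positivity), mul_one,
        max_eq_right (by linarith), mul_div_assoc, div_self hR.ne']
      norm_num
    simp only [g]
    rw [hs1 x hx, hs1 (-x) (by rw [norm_neg, hx])]
    simp
  obtain ⟨y, hy, hgy⟩ := exists_zero_of_odd_on_sphere hgc hgo
  set x := (2 * R) • y with hx
  have hgx : (1 - s x) • f (ρ x) + s x • x = 0 := hgy
  rcases le_or_gt ‖x‖ R with h | h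
  · have h1 : s x = 0 := by
      simp only [s]; rw [max_eq_left h, div_self hR.ne', sub_self]; norm_num
    have h2 : ρ x = x := by
      simp only [ρ]; rw [max_eq_left h, div_self hR.ne', one_smul]
    rw [h1, h2] at hgx
    refine hne x (mem_closedBall_zero_iff.mpr h) ?_
    simpa using hgx
  · have hxpos : 0 < ‖x‖ := hR.trans h
    have hs0 : 0 < s x := by
      simp only [s]
      refine lt_min one_pos ?_
      rw [max_eq_right h.le, sub_pos, lt_div_iff₀ hR, one_mul]; exact h
    have hs1 : s x ≤ 1 := min_le_left _ _
    rcases hs1.lt_or_eq with h1 | h1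
    · have h2 : f (ρ x) = -((s x / (1 - s x) * (‖x‖ / R)) • ρ x) := by
        have h3 : (1 - s x) ≠ 0 := by linarith
        have h4 : (1 - s x) • f (ρ x) = (1 - s x) • (-((s x / (1 - s x) * (‖x‖ / R)) • ρ x)) := by
          have h5 : (‖x‖ / R) • ρ x = x := by
            simp only [ρ]
            rw [max_eq_right h.le, smul_smul, div_mul_div_comm, mul_comm R, div_self
              (mul_ne_zero hxpos.ne' hR.ne'), one_smul]
          rw [mul_smul, h5, smul_neg, smul_smul, mul_div_cancel₀ _ h3]
          exact eq_neg_of_add_eq_zero_left hgx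
        exact smul_right_injective E h3 h4
      refine ho (ρ x) ?_ _ ?_ h2
      · rw [mem_sphere_zero_iff_norm]
        simp only [ρ]
        rw [norm_smul, max_eq_right h.le, Real.norm_eq_abs, abs_of_pos (by positivity),
          div_mul_cancel₀ _ hxpos.ne']
      · have : 0 < 1 - s x := by linarith
        positivity
    · rw [h1] at hgx
      have : x = 0 := by simpa using hgx
      rw [this, norm_zero] at hxpos
      exact lt_irrefl _ hxpos

/-- **Brouwer fixed point theorem** for the closed unit ball. -/
theorem brouwer_ball {f : E → E} (hf : ContinuousOn f (closedBall 0 1))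
    (hm : MapsTo f (closedBall 0 1) (closedBall 0 1)) : ∃ x ∈ closedBall (0 : E) 1, f x = x := by
  by_contra hne
  push Not at hne
  obtain ⟨x, hx, h⟩ := exists_zero_of_homotopic (f := fun x => x - f x) one_pos
    (continuousOn_id.sub hf) (by
      intro x hx c hc h
      have h1 : (1 + c) • x = f x := by
        have : x - f x = -(c • x) := h
        rw [add_smul, one_smul]
        have := congrArg (fun z => z + f x + c • x) this
        simp only [sub_add_cancel] at this
        rw [this]; abel
      have h2 := mem_closedBall_zero_iff.mp (hm (sphere_subset_closedBall hx))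
      rw [← h1, norm_smul, mem_sphere_zero_iff_norm.mp hx, Real.norm_eq_abs,
        abs_of_pos (by linarith)] at h2
      linarith)
  exact hne x hx (sub_eq_zero.mp h).symm

/-- The unit sphere is not a retract of the closed unit ball. -/
theorem not_retraction [Nontrivial E] {f : E → E} (hf : ContinuousOn f (closedBall 0 1))
    (hm : MapsTo f (closedBall 0 1) (sphere 0 1)) (hs : ∀ x ∈ sphere (0 : E) 1, f x = x) : False := by
  obtain ⟨x, hx, h⟩ := exists_zero_of_odd_on_sphere hf (fun x hx => by
    rw [hs x hx, hs (-x) (by simpa using hx)])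
  have := hm hx
  rw [h, mem_sphere_zero_iff_norm, norm_zero] at this
  exact zero_ne_one this

end

section Hilbert

variable {E : Type*} [NormedAddCommGroup E] [InnerProductSpace ℝ E] [FiniteDimensional ℝ E]

/-- The nearest-point retraction onto a closed convex set. -/
theorem exists_retraction {K : Set E} (hK : IsClosed K) (hc : Convex ℝ K) (hne : K.Nonempty) :
    ∃ r : E → E, Continuous r ∧ (∀ x, r x ∈ K) ∧ ∀ x ∈ K, r x = x := by
  have hex : ∀ u : E, ∃ v ∈ K, ‖u - v‖ = ⨅ w : K, ‖u - w‖ := fun u =>
    exists_norm_eq_iInf_of_complete_convex hne hK.isComplete hc u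
  choose r hr hmin using hex
  have hchar : ∀ u, ∀ w ∈ K, inner ℝ (u - r u) (w - r u) ≤ 0 := fun u =>
    (norm_eq_iInf_iff_real_inner_le_zero hc (hr u)).mp (hmin u)
  have hlip : LipschitzWith 1 r := by
    refine LipschitzWith.of_dist_le_mul (fun u v => ?_)
    rw [NNReal.coe_one, one_mul, dist_eq_norm, dist_eq_norm]
    have h1 := hchar u (r v) (hr v)
    have h2 := hchar v (r u) (hr u)
    have h3 : ‖r u - r v‖ ^ 2 ≤ inner ℝ (u - v) (r u - r v) := by
      rw [← real_inner_self_eq_norm_sq]
      have e1 : inner ℝ (u - r u) (r v - r u) + inner ℝ (v - r v) (r u - r v)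
          = inner ℝ (r u - r v) (r u - r v) - inner ℝ (u - v) (r u - r v) := by
        have : r v - r u = -(r u - r v) := by abel
        rw [this, inner_neg_right]
        have e2 : inner ℝ (u - r u) (r u - r v) = inner ℝ u (r u - r v) - inner ℝ (r u) (r u - r v) :=
          inner_sub_left _ _ _
        have e3 : inner ℝ (v - r v) (r u - r v) = inner ℝ v (r u - r v) - inner ℝ (r v) (r u - r v) :=
          inner_sub_left _ _ _
        have e4 : inner ℝ (u - v) (r u - r v) = inner ℝ u (r u - r v) - inner ℝ v (r u - r v) :=
          inner_sub_left _ _ _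
        have e5 : inner ℝ (r u - r v) (r u - r v)
            = inner ℝ (r u) (r u - r v) - inner ℝ (r v) (r u - r v) := inner_sub_left _ _ _
        rw [e2, e3, e4, e5]; ring
      linarith
    have h4 : inner ℝ (u - v) (r u - r v) ≤ ‖u - v‖ * ‖r u - r v‖ := real_inner_le_norm _ _
    rcases (norm_nonneg (r u - r v)).eq_or_lt with h5 | h5
    · rw [← h5]; exact norm_nonneg _
    · by_contra hlt
      push Not at hlt
      have : ‖u - v‖ * ‖r u - r v‖ < ‖r u - r v‖ ^ 2 := by
        rw [pow_two]
        exact mul_lt_mul_of_pos_right hlt h5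
      linarith
  refine ⟨r, hlip.continuous, hr, ?_⟩
  intro x hx
  have h1 := hchar x x hx
  rw [real_inner_self_nonpos, sub_eq_zero] at h1
  exact h1.symm

/-- **Brouwer fixed point theorem** for compact convex sets. -/
theorem brouwer_convex {K : Set E} (hK : IsCompact K) (hc : Convex ℝ K) (hne : K.Nonempty)
    {f : E → E} (hf : ContinuousOn f K) (hm : MapsTo f K K) : ∃ x ∈ K, f x = x := by
  obtain ⟨r, hrc, hrK, hrid⟩ := exists_retraction hK.isClosed hc hne
  obtain ⟨R, hR⟩ := hK.isBounded.exists_pos_norm_le
  obtain ⟨hR0, hR⟩ := hR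
  let g : E → E := fun y => R⁻¹ • f (r (R • y))
  have hgc : Continuous g := by
    have : Continuous (fun y : E => f (r (R • y))) :=
      hf.comp_continuous (hrc.comp (continuous_const_smul R)) (fun y => hrK _)
    exact continuous_const.smul this
  obtain ⟨y, _, hy⟩ := brouwer_ball (f := g) hgc.continuousOn (by
    intro y _
    rw [mem_closedBall_zero_iff]
    simp only [g]
    rw [norm_smul, norm_inv, Real.norm_eq_abs, abs_of_pos hR0, inv_mul_le_iff₀ hR0, mul_one]
    exact hR _ (hm (hrK _)))
  have h1 : f (r (R • y)) = R • y := by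
    have : R • g y = R • y := by rw [hy]
    simp only [g] at this
    rwa [smul_smul, mul_inv_cancel₀ hR0.ne', one_smul] at this
  have h2 : R • y ∈ K := h1 ▸ hm (hrK _)
  refine ⟨R • y, h2, ?_⟩
  rw [hrid _ h2] at h1
  exact h1

end Hilbert

section LS

variable {E : Type*} [NormedAddCommGroup E] [NormedSpace ℝ E] [FiniteDimensional ℝ E]

/-- **Lyusternik–Schnirelmann**: if the unit sphere of a space of dimension `> n` is covered by
`n + 1` closed sets, then one of them contains two antipodal points. -/
theorem lyusternik_schnirelmann {n : ℕ} (hn : n < finrank ℝ E) (A : Fin (n + 1) → Set E)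
    (hA : ∀ i, IsClosed (A i)) (hcov : sphere (0 : E) 1 ⊆ ⋃ i, A i) :
    ∃ i, ∃ x ∈ sphere (0 : E) 1, x ∈ A i ∧ -x ∈ A i := by
  classical
  by_contra hcon
  push Not at hcon
  -- distance functions, with an empty set replaced by distance one
  obtain ⟨dA, hdc, hdA⟩ : ∃ dA : Fin (n + 1) → E → ℝ, (∀ i, Continuous (dA i)) ∧
      ∀ i x, dA i x = 0 ↔ x ∈ A i := by
    refine ⟨fun i x => if (A i).Nonempty then infDist x (A i) else 1, ?_, ?_⟩
    · intro i
      by_cases h : (A i).Nonempty
      · simp only [h, if_true]; exact continuous_infDist_pt _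
      · simp only [h, if_false]; exact continuous_const
    · intro i x
      by_cases h : (A i).Nonempty
      · simp only [h, if_true]
        exact ((hA i).mem_iff_infDist_zero h).symm
      · simp only [h, if_false]
        rw [Set.not_nonempty_iff_eq_empty] at h
        simp [h]
  obtain ⟨x, hx, h⟩ := exists_neg_eq (E := E) (F := Fin n → ℝ) (by simpa using hn)
    (fun x => fun i : Fin n => dA i.castSucc x)
    (continuous_pi (fun i => hdc _)).continuousOn
  have hx' : -x ∈ sphere (0 : E) 1 := by simpa using hx
  have h0 : ∀ i : Fin n, dA i.castSucc (-x) = dA i.castSucc x := fun i => congrFun h i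
  have h1 : ∀ i : Fin n, x ∉ A i.castSucc := by
    intro i hi
    refine hcon i.castSucc x hx hi ?_
    rw [← hdA] at hi ⊢
    rw [h0, hi]
  have h2 : ∀ i : Fin n, -x ∉ A i.castSucc := by
    intro i hi
    refine h1 i ?_
    rw [← hdA] at hi ⊢
    rw [← h0, hi]
  obtain ⟨i, hi⟩ := mem_iUnion.mp (hcov hx)
  obtain ⟨j, hj⟩ := mem_iUnion.mp (hcov hx')
  have hil : i = Fin.last n := by
    induction i using Fin.lastCases with
    | last => rfl
    | cast k => exact absurd hi (h1 k)
  have hjl : j = Fin.last n := by
    induction j using Fin.lastCases with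
    | last => rfl
    | cast k => exact absurd hj (h2 k)
  subst hil hjl
  exact hcon _ x hx hi hj

end LS

end Pool.Agent.H64.BU
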