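import Mathlib

/-!
# The Borsuk–Ulam theorem

A short chain-level proof.  Chains with coefficients in `ZMod 2` are finitely supported functions
on lists of points.  Arbitrarily fine chains `z_k` with `∂ z_{k+1} = z_k + T z_k` (`T` the
antipode) are built by the prism operator of a fine subdivision of the homotopy
`H_t(x) = (1 - t) x + t e_{k+1}`.  For a nowhere vanishing odd map to `ℝ^n` the cup product of the
`n` cocycles (change of sign of the `i`-th coordinate) vanishes on small simplices, but its value on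
`z_n` is `1`.
-/

open Finset

namespace Pool.Agent.H64.BU

noncomputable section

variable {X Y : Type*}

/-- Chains: finitely supported `ZMod 2`-valued functions on lists of points. -/
abbrev Ch (X : Type*) := List X →₀ ZMod 2

/-- A single list as a chain. -/
abbrev one (l : List X) : Ch X := Finsupp.single l 1

/-- Put `a` in front of every list. -/
def cons (a : X) : Ch X →ₗ[ZMod 2] Ch X := Finsupp.lmapDomain (ZMod 2) (ZMod 2) (List.cons a)

/-- Apply `f` to every point. -/
def push (f : X → Y) : Ch X →ₗ[ZMod 2] Ch Y := Finsupp.lmapDomain (ZMod 2) (ZMod 2) (List.map f)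

@[simp] theorem cons_one (a : X) (l : List X) : cons a (one l) = one (a :: l) := by
  simp [cons, Finsupp.lmapDomain_apply, Finsupp.mapDomain_single]

@[simp] theorem push_one (f : X → Y) (l : List X) : push f (one l) = one (l.map f) := by
  simp [push, Finsupp.lmapDomain_apply, Finsupp.mapDomain_single]

/-- Boundary of a list. -/
def bdl : List X → Ch X
  | [] => 0
  | a :: l => one l + cons a (bdl l)

/-- The boundary operator. -/
def bd : Ch X →ₗ[ZMod 2] Ch X := Finsupp.linearCombination (ZMod 2) bdl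

@[simp] theorem bd_one (l : List X) : bd (one l) = bdl l := by
  simp [bd, Finsupp.linearCombination_single]

theorem ext_one {M : Type*} [AddCommMonoid M] [Module (ZMod 2) M] {f g : Ch X →ₗ[ZMod 2] M}
    (h : ∀ l, f (one l) = g (one l)) : f = g := by
  apply Finsupp.lhom_ext'
  intro l
  apply LinearMap.ext_ring
  exact h l

theorem add_self (c : Ch X) : c + c = 0 := by
  have : (2 : ZMod 2) • c = 0 := by
    rw [show (2 : ZMod 2) = 0 from rfl, zero_smul]
  rwa [two_smul] at this

theorem bd_cons (a : X) (c : Ch X) : bd (cons a c) = c + cons a (bd c) := by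
  have : bd ∘ₗ cons a = LinearMap.id + cons a ∘ₗ bd := by
    apply ext_one
    intro l
    simp [bdl]
  exact LinearMap.congr_fun this c

theorem bd_bd (c : Ch X) : bd (bd c) = 0 := by
  have : (bd ∘ₗ bd : Ch X →ₗ[ZMod 2] Ch X) = 0 := by
    apply ext_one
    intro l
    induction l with
    | nil => simp [bdl]
    | cons a l ih =>
      simp only [LinearMap.comp_apply, bd_one, LinearMap.zero_apply] at ih ⊢
      rw [bdl, map_add, bd_one, bd_cons, ih, map_zero, add_zero, add_self]
  exact LinearMap.congr_fun this c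

theorem push_cons (f : X → Y) (a : X) (c : Ch X) : push f (cons a c) = cons (f a) (push f c) := by
  have : push f ∘ₗ cons a = cons (f a) ∘ₗ push f := by
    apply ext_one
    intro l
    simp
  exact LinearMap.congr_fun this c

theorem bd_push (f : X → Y) (c : Ch X) : bd (push f c) = push f (bd c) := by
  have : bd ∘ₗ push f = push f ∘ₗ bd := by
    apply ext_one
    intro l
    induction l with
    | nil => simp [bdl]
    | cons a l ih =>
      simp only [LinearMap.comp_apply, bd_one, push_one, List.map_cons] at ih ⊢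
      rw [bdl, bdl, map_add, push_one, push_cons, ih]
  exact LinearMap.congr_fun this c

theorem push_push {Z : Type*} (g : Y → Z) (f : X → Y) (c : Ch X) :
    push g (push f c) = push (g ∘ f) c := by
  have : push g ∘ₗ push f = push (g ∘ f) := by
    apply ext_one
    intro l
    simp
  exact LinearMap.congr_fun this c

theorem push_id (c : Ch X) : push id c = c := by
  have : (push id : Ch X →ₗ[ZMod 2] Ch X) = LinearMap.id := by
    apply ext_one
    intro l
    simp
  exact LinearMap.congr_fun this c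

/-- Prism over a list. -/
def prl (s t : X → Y) : List X → Ch Y
  | [] => 0
  | a :: l => one (s a :: t a :: l.map t) + cons (s a) (prl s t l)

/-- The prism operator. -/
def pr (s t : X → Y) : Ch X →ₗ[ZMod 2] Ch Y := Finsupp.linearCombination (ZMod 2) (prl s t)

@[simp] theorem pr_one (s t : X → Y) (l : List X) : pr s t (one l) = prl s t l := by
  simp [pr, Finsupp.linearCombination_single]

theorem pr_cons (s t : X → Y) (a : X) (c : Ch X) :
    pr s t (cons a c) = cons (s a) (cons (t a) (push t c)) + cons (s a) (pr s t c) := by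
  have : pr s t ∘ₗ cons a = cons (s a) ∘ₗ cons (t a) ∘ₗ push t + cons (s a) ∘ₗ pr s t := by
    apply ext_one
    intro l
    simp [prl]
  exact LinearMap.congr_fun this c

/-- The prism identity. -/
theorem bd_pr (s t : X → Y) (c : Ch X) :
    bd (pr s t c) + pr s t (bd c) = push t c + push s c := by
  have : bd ∘ₗ pr s t + pr s t ∘ₗ bd = push t + push s := by
    apply ext_one
    intro l
    induction l with
    | nil => simp [bdl, prl, add_self]
    | cons a l ih =>
      simp only [LinearMap.comp_apply, LinearMap.add_apply, bd_one, pr_one, push_one] at ih ⊢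
      rw [prl, bdl, map_add, map_add, bd_one, pr_one, pr_cons, bd_cons, bdl, bdl]
      have h1 : push t (bdl l) = bdl (l.map t) := by
        have := bd_push t (one l)
        rw [push_one, bd_one, bd_one] at this
        exact this.symm
      rw [h1, map_add]
      have h2 : bd (prl s t l) = pr s t (bdl l) + one (l.map t) + one (l.map s) := by
        have : bd (prl s t l) + pr s t (bdl l) + pr s t (bdl l)
            = one (l.map t) + one (l.map s) + pr s t (bdl l) := by rw [ih]
        rw [add_assoc, add_self, add_zero] at this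
        rw [this]; abel
      rw [h2, map_add, map_add]
      simp only [cons_one, List.map_cons]
      have e : ∀ (A B C D E F G : Ch Y),
          A + (B + D) + (E + (F + B + C)) + (E + (D + F)) = A + C := by
        intro A B C D E F G
        have : A + (B + D) + (E + (F + B + C)) + (E + (D + F))
            = A + C + (B + B) + (D + D) + (E + E) + (F + F) := by abel
        rw [this, add_self, add_self, add_self, add_self]
        simp
      exact e _ _ _ _ _ _ 0
  exact LinearMap.congr_fun this c

/-- Evaluation of a cochain on a chain. -/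
def ev (φ : List X → ZMod 2) : Ch X →ₗ[ZMod 2] ZMod 2 := Finsupp.linearCombination (ZMod 2) φ

@[simp] theorem ev_one (φ : List X → ZMod 2) (l : List X) : ev φ (one l) = φ l := by
  simp [ev, Finsupp.linearCombination_single]

/-- Two linear maps agreeing on the lists of a set agree on the chains supported in it. -/
theorem eq_of_supp {M : Type*} [AddCommMonoid M] [Module (ZMod 2) M] {f g : Ch X →ₗ[ZMod 2] M}
    {S : Set (List X)} {c : Ch X} (hc : c ∈ Finsupp.supported (ZMod 2) (ZMod 2) S)
    (h : ∀ l ∈ S, f (one l) = g (one l)) : f c = g c := by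
  rw [Finsupp.supported_eq_span_single] at hc
  induction hc using Submodule.span_induction with
  | mem x hx =>
    obtain ⟨l, hl, rfl⟩ := hx
    exact h l hl
  | zero => simp
  | add x y _ _ hx hy => rw [map_add, map_add, hx, hy]
  | smul a x _ hx => rw [map_smul, map_smul, hx]

theorem mem_of_supp {f : Ch X →ₗ[ZMod 2] Ch Y}
    {S : Set (List X)} {S' : Set (List Y)} {c : Ch X}
    (hc : c ∈ Finsupp.supported (ZMod 2) (ZMod 2) S)
    (h : ∀ l ∈ S, f (one l) ∈ Finsupp.supported (ZMod 2) (ZMod 2) S') :
    f c ∈ Finsupp.supported (ZMod 2) (ZMod 2) S' := by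
  rw [Finsupp.supported_eq_span_single] at hc
  induction hc using Submodule.span_induction with
  | mem x hx =>
    obtain ⟨l, hl, rfl⟩ := hx
    exact h l hl
  | zero => simp
  | add x y _ _ hx hy => rw [map_add]; exact Submodule.add_mem _ hx hy
  | smul a x _ hx => rw [map_smul]; exact Submodule.smul_mem _ _ hx

theorem one_mem {S : Set (List X)} {l : List X} (h : l ∈ S) :
    one l ∈ Finsupp.supported (ZMod 2) (ZMod 2) S :=
  Finsupp.single_mem_supported _ _ h

/-- Every list of the prism over `l` has one more point, and all its points are images of points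
of `l` under `s` or `t`. -/
theorem prl_mem (s t : X → Y) (l : List X) :
    prl s t l ∈ Finsupp.supported (ZMod 2) (ZMod 2)
      {m | m.length = l.length + 1 ∧ ∀ y ∈ m, ∃ x ∈ l, y = s x ∨ y = t x} := by
  induction l with
  | nil => simp [prl]
  | cons a l ih =>
    rw [prl]
    refine Submodule.add_mem _ (one_mem ?_) (mem_of_supp ih ?_)
    · refine ⟨by simp, ?_⟩
      intro y hy
      simp only [List.mem_cons, List.mem_map] at hy
      rcases hy with rfl | rfl | ⟨x, hx, rfl⟩
      · exact ⟨a, by simp, Or.inl rfl⟩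
      · exact ⟨a, by simp, Or.inr rfl⟩
      · exact ⟨x, by simp [hx], Or.inr rfl⟩
    · rintro m ⟨hm1, hm2⟩
      rw [cons_one]
      refine one_mem ⟨by simp [hm1], ?_⟩
      intro y hy
      simp only [List.mem_cons] at hy
      rcases hy with rfl | hy
      · exact ⟨a, by simp, Or.inl rfl⟩
      · obtain ⟨x, hx, h⟩ := hm2 y hy
        exact ⟨x, by simp [hx], h⟩

/-- The cup product of the first `k` sign-change cocycles. -/
def W (α : ℕ → X → ZMod 2) : ℕ → List X → ZMod 2
  | 0, _ => 1
  | k + 1, u :: v :: l => (α k u + α k v) * W α k (v :: l)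
  | _ + 1, _ => 0

/-- The cochain `α_k ∪ W_k`. -/
def B (α : ℕ → X → ZMod 2) (k : ℕ) : List X → ZMod 2
  | [] => 0
  | v :: l => α k v * W α k (v :: l)

theorem ev_B_cons (α : ℕ → X → ZMod 2) (k : ℕ) (u : X) (c : Ch X) :
    ev (B α k) (cons u c) = α k u * ev (W α k) (cons u c) := by
  have : ev (B α k) ∘ₗ cons u = α k u • (ev (W α k) ∘ₗ cons u) := by
    apply ext_one
    intro l
    simp [B]
  exact LinearMap.congr_fun this c

theorem zmod_add_self (a : ZMod 2) : a + a = 0 := by
  have : (2 : ZMod 2) * a = 0 := by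
    rw [show (2 : ZMod 2) = 0 from rfl, zero_mul]
  rwa [two_mul] at this

theorem B_of_W (α : ℕ → X → ZMod 2) (k : ℕ) (u v : X) (l : List X)
    (h : ev (W α k) (bdl (u :: v :: l)) = 0) :
    ev (B α k) (bdl (u :: v :: l)) = W α (k + 1) (u :: v :: l) := by
  simp only [bdl, map_add, cons_one, ev_one] at h ⊢
  rw [ev_B_cons, W, B, B]
  set a := W α k (v :: l)
  set b := W α k (u :: l)
  set c := ev (W α k) ((cons u) ((cons v) (bdl l)))
  have : α k v * a + (α k u * b + α k u * c) = α k v * a + α k u * (a + (b + c)) - α k u * a := by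
    ring
  rw [this, h]
  have h2 := zmod_add_self (α k u * a)
  have : α k v * a + α k u * 0 - α k u * a = (α k u + α k v) * a - (α k u * a + α k u * a) := by
    ring
  rw [this, h2, sub_zero]

theorem ev_W_bdl (α : ℕ → X → ZMod 2) (k : ℕ) : ∀ l : List X, l.length = k + 2 →
    ev (W α k) (bdl l) = 0 := by
  induction k with
  | zero =>
    intro l hl
    obtain ⟨u, v, rfl⟩ := List.length_eq_two.mp (by simpa using hl)
    simp only [bdl, map_add, cons_one, ev_one, map_zero, W]
    decide
  | succ k ih =>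
    intro l hl
    have h1 : ev (W α (k + 1)) (bdl l) = ev (B α k) (bd (bdl l)) := by
      have hsupp : bdl l ∈ Finsupp.supported (ZMod 2) (ZMod 2) {m : List X | m.length = k + 2} := by
        have : ∀ m : List X, bdl m ∈ Finsupp.supported (ZMod 2) (ZMod 2)
            {m' : List X | m'.length + 1 = m.length} := by
          intro m
          induction m with
          | nil => simp [bdl]
          | cons a m ihm =>
            rw [bdl]
            refine Submodule.add_mem _ (one_mem (by simp)) (mem_of_supp ihm ?_)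
            intro m' hm'
            rw [cons_one]
            refine one_mem ?_
            simp only [Set.mem_ofPred_eq, List.length_cons] at hm' ⊢
            omega
        refine Finsupp.supported_mono ?_ (this l)
        intro m hm
        simp only [Set.mem_ofPred_eq] at hm ⊢
        omega
      have := eq_of_supp (f := ev (W α (k + 1))) (g := ev (B α k) ∘ₗ bd) hsupp ?_
      · exact this
      · intro m hm
        simp only [Set.mem_ofPred_eq] at hm
        rw [LinearMap.comp_apply, bd_one, ev_one]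
        obtain ⟨u, m', rfl⟩ := List.exists_cons_of_length_eq_add_one hm
        simp only [List.length_cons, add_left_inj] at hm
        obtain ⟨v, m'', rfl⟩ := List.exists_cons_of_length_eq_add_one hm
        exact (B_of_W α k u v m'' (ih _ (by simp at hm ⊢; omega))).symm
    rw [h1]
    have : bd (bdl l) = 0 := by rw [← bd_one, bd_bd]
    rw [this, map_zero]

theorem ev_B_bdl (α : ℕ → X → ZMod 2) (k : ℕ) (l : List X) (hl : l.length = k + 2) :
    ev (B α k) (bdl l) = W α (k + 1) l := by
  have h := ev_W_bdl α k l hl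
  obtain ⟨u, m', rfl⟩ := List.exists_cons_of_length_eq_add_one hl
  simp only [List.length_cons, add_left_inj] at hl
  obtain ⟨v, m'', rfl⟩ := List.exists_cons_of_length_eq_add_one hl
  exact B_of_W α k u v m'' h

/-- The product of sign changes vanishes if some sign does not change along the list. -/
theorem W_eq_zero (α : ℕ → X → ZMod 2) (k i : ℕ) (hi : i < k) : ∀ l : List X,
    l.length = k + 1 → (∀ u ∈ l, ∀ v ∈ l, α i u = α i v) → W α k l = 0 := by
  induction k with
  | zero => omega
  | succ k ih =>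
    intro l hl h
    obtain ⟨u, m', rfl⟩ := List.exists_cons_of_length_eq_add_one hl
    simp only [List.length_cons, add_left_inj] at hl
    obtain ⟨v, m'', rfl⟩ := List.exists_cons_of_length_eq_add_one hl
    rw [W]
    rcases Nat.lt_succ_iff_lt_or_eq.mp hi with h1 | rfl
    · rw [ih h1 (v :: m'') hl, mul_zero]
      intro a ha b hb
      exact h a (List.mem_cons_of_mem _ ha) b (List.mem_cons_of_mem _ hb)
    · rw [h u (by simp) v (by simp), zmod_add_self, zero_mul]

/-- Invariance of the product of sign changes under the antipode. -/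
theorem W_map (α : ℕ → X → ZMod 2) (T : X → X) (k : ℕ) : ∀ l : List X,
    l.length = k + 1 → (∀ i, ∀ v ∈ l, α i v + α i (T v) = 1) → W α k (l.map T) = W α k l := by
  induction k with
  | zero => intro l _ _; simp [W]
  | succ k ih =>
    intro l hl h
    obtain ⟨u, m', rfl⟩ := List.exists_cons_of_length_eq_add_one hl
    simp only [List.length_cons, add_left_inj] at hl
    obtain ⟨v, m'', rfl⟩ := List.exists_cons_of_length_eq_add_one hl
    have := ih (v :: m'') hl (fun i w hw => h i w (List.mem_cons_of_mem _ hw))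
    rw [List.map_cons] at this
    rw [List.map_cons, List.map_cons, W, W, this]
    have h1 := h k u (by simp)
    have h2 := h k v (by simp)
    have h3 : α k (T u) = 1 - α k u := by rw [← h1]; ring
    have h4 : α k (T v) = 1 - α k v := by rw [← h2]; ring
    rw [h3, h4]
    have h5 : (1 - α k u + (1 - α k v) : ZMod 2) = α k u + α k v := by
      have := zmod_add_self (α k u)
      have h6 := zmod_add_self (α k v)
      have : (1 - α k u + (1 - α k v) : ZMod 2) = α k u + α k v + 2 - (α k u + α k u)
          - (α k v + α k v) := by ring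
      rw [this, zmod_add_self, zmod_add_self, show (2 : ZMod 2) = 0 from rfl]
      ring
    rw [h5]

/-- The pairing step: `⟨W_{k+1}, z'⟩ = ⟨W_k, z⟩` if `∂ z' = z + T z`. -/
theorem pairing (α : ℕ → X → ZMod 2) (T : X → X) (k : ℕ) {S : Set X} {z z' : Ch X}
    (hα : ∀ i, ∀ v ∈ S, α i v + α i (T v) = 1)
    (hz : z ∈ Finsupp.supported (ZMod 2) (ZMod 2) {l : List X | l.length = k + 1 ∧ ∀ v ∈ l, v ∈ S})
    (hz' : z' ∈ Finsupp.supported (ZMod 2) (ZMod 2) {l : List X | l.length = k + 2})
    (h : bd z' = z + push T z) : ev (W α (k + 1)) z' = ev (W α k) z := by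
  have h1 : ev (W α (k + 1)) z' = ev (B α k) (bd z') := by
    have := eq_of_supp (f := ev (W α (k + 1))) (g := ev (B α k) ∘ₗ bd) hz' ?_
    · exact this
    · intro l hl
      rw [LinearMap.comp_apply, bd_one, ev_one, ev_B_bdl α k l hl]
  rw [h1, h]
  have := eq_of_supp (f := ev (B α k) ∘ₗ (LinearMap.id + push T)) (g := ev (W α k)) hz ?_
  · simpa using this
  · rintro l ⟨hl1, hl2⟩
    have hm := W_map α T k l hl1 (fun i v hv => hα i v (hl2 v hv))
    simp only [LinearMap.comp_apply, LinearMap.add_apply, LinearMap.id_apply, push_one, map_add,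
      ev_one]
    obtain ⟨u, m, rfl⟩ := List.exists_cons_of_length_eq_add_one hl1
    rw [List.map_cons] at hm ⊢
    rw [B, B, hm, ← add_mul, hα k u (hl2 u (by simp)), one_mul]

/-! ### Fine chains on the boundary of the cross-polytope -/

section Fine

variable {n : ℕ}

/-- Standard basis vectors (zero for `k > n`). -/
def e (n k : ℕ) : Fin (n + 1) → ℝ := fun i => if (i : ℕ) = k then 1 else 0

/-- The `ℓ¹` unit sphere of the span of the first `k + 1` basis vectors. -/
def K (n k : ℕ) : Set (Fin (n + 1) → ℝ) := {x | ∑ i, |x i| = 1 ∧ ∀ i : Fin (n + 1), k < i → x i = 0}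

/-- The straight homotopy to the basis vector `e_{k+1}`. -/
def H (n k : ℕ) (t : ℝ) (x : Fin (n + 1) → ℝ) : Fin (n + 1) → ℝ := (1 - t) • x + t • e n (k + 1)

theorem sum_e {k : ℕ} (hk : k ≤ n) : ∑ i, e n k i = 1 := by
  unfold e
  rw [Finset.sum_eq_single (⟨k, by omega⟩ : Fin (n + 1))]
  · simp
  · intro b _ hb
    have : (b : ℕ) ≠ k := fun h => hb (Fin.ext h)
    simp [this]
  · simp

theorem e_nonneg (k : ℕ) (i : Fin (n + 1)) : 0 ≤ e n k i := by
  unfold e; split_ifs <;> norm_num

theorem e_mem {k : ℕ} (hk : k ≤ n) : e n k ∈ K n k := by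
  refine ⟨?_, ?_⟩
  · rw [← sum_e hk]
    exact Finset.sum_congr rfl (fun i _ => abs_of_nonneg (e_nonneg k i))
  · intro i hi
    unfold e
    rw [if_neg (by omega)]

theorem H_mem {k : ℕ} (hk : k + 1 ≤ n) {t : ℝ} (h0 : 0 ≤ t) (h1 : t ≤ 1) {x : Fin (n + 1) → ℝ}
    (hx : x ∈ K n k) : H n k t x ∈ K n (k + 1) := by
  have h : ∀ i, |H n k t x i| = (1 - t) * |x i| + t * e n (k + 1) i := by
    intro i
    simp only [H, Pi.add_apply, Pi.smul_apply, smul_eq_mul]
    by_cases hi : k < (i : ℕ)
    · rw [hx.2 i hi]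
      simp only [mul_zero, zero_add, abs_zero]
      exact abs_of_nonneg (mul_nonneg h0 (e_nonneg _ i))
    · have : e n (k + 1) i = 0 := by unfold e; rw [if_neg (by omega)]
      rw [this, mul_zero, add_zero, add_zero, abs_mul, abs_of_nonneg (by linarith)]
  refine ⟨?_, ?_⟩
  · simp_rw [h]
    rw [Finset.sum_add_distrib, ← Finset.mul_sum, ← Finset.mul_sum, hx.1, sum_e hk]
    ring
  · intro i hi
    simp only [H, Pi.add_apply, Pi.smul_apply, smul_eq_mul]
    rw [hx.2 i (by omega)]
    unfold e
    rw [if_neg (by omega)]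
    ring

theorem neg_mem {k : ℕ} {x : Fin (n + 1) → ℝ} (hx : x ∈ K n k) : -x ∈ K n k := by
  refine ⟨?_, ?_⟩
  · simp only [Pi.neg_apply, abs_neg]; exact hx.1
  · intro i hi; simp [hx.2 i hi]

theorem K_mono {k : ℕ} : K n k ⊆ K n (k + 1) := by
  intro x hx
  exact ⟨hx.1, fun i hi => hx.2 i (by omega)⟩

theorem norm_le_one {k : ℕ} {x : Fin (n + 1) → ℝ} (hx : x ∈ K n k) : ‖x‖ ≤ 1 := by
  rw [pi_norm_le_iff_of_nonneg zero_le_one]
  intro i
  rw [← hx.1, Real.norm_eq_abs]
  exact Finset.single_le_sum (f := fun i => |x i|) (fun j _ => abs_nonneg _) (Finset.mem_univ i)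

theorem ne_zero {k : ℕ} {x : Fin (n + 1) → ℝ} (hx : x ∈ K n k) : x ≠ 0 := by
  rintro rfl
  have := hx.1
  simp at this

theorem dist_H {k : ℕ} (hk : k + 1 ≤ n) {s t m : ℝ} (h0 : 0 ≤ s) (h1 : s ≤ 1)
    {x y : Fin (n + 1) → ℝ} (hy : y ∈ K n k) (hm : dist x y ≤ m) :
    dist (H n k s x) (H n k t y) ≤ m + 2 * |s - t| := by
  have hm0 : 0 ≤ m := dist_nonneg.trans hm
  rw [dist_eq_norm] at hm ⊢
  have : H n k s x - H n k t y = (1 - s) • (x - y) + (t - s) • (y - e n (k + 1)) := by
    unfold H
    module
  rw [this]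
  refine (norm_add_le _ _).trans ?_
  rw [norm_smul, norm_smul, Real.norm_eq_abs, Real.norm_eq_abs, abs_of_nonneg (by linarith),
    abs_sub_comm t s]
  have h2 : ‖y - e n (k + 1)‖ ≤ 2 := by
    refine (norm_sub_le _ _).trans ?_
    have := norm_le_one hy
    have := norm_le_one (e_mem hk)
    linarith
  have h3 : (1 - s) * ‖x - y‖ ≤ m := by
    have : (1 - s) * ‖x - y‖ ≤ 1 * ‖x - y‖ := by
      apply mul_le_mul_of_nonneg_right _ (norm_nonneg _); linarith
    linarith
  have h4 : |s - t| * ‖y - e n (k + 1)‖ ≤ |s - t| * 2 :=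
    mul_le_mul_of_nonneg_left h2 (abs_nonneg _)
  linarith

/-- The chain homotopy of the subdivided homotopy. -/
def D (n N k : ℕ) : Ch (Fin (n + 1) → ℝ) →ₗ[ZMod 2] Ch (Fin (n + 1) → ℝ) :=
  ∑ j ∈ Finset.range N, pr (H n k ((j : ℝ) / N)) (H n k (((j + 1 : ℕ) : ℝ) / N))

theorem bd_D {N : ℕ} (hN : 0 < N) (k : ℕ) (c : Ch (Fin (n + 1) → ℝ)) :
    bd (D n N k c) + D n N k (bd c) = push (fun _ => e n (k + 1)) c + c := by
  have key : ∀ M : ℕ, bd ((∑ j ∈ Finset.range M,
        pr (H n k ((j : ℝ) / N)) (H n k (((j + 1 : ℕ) : ℝ) / N))) c)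
      + (∑ j ∈ Finset.range M,
        pr (H n k ((j : ℝ) / N)) (H n k (((j + 1 : ℕ) : ℝ) / N))) (bd c)
      = push (H n k ((M : ℝ) / N)) c + push (H n k ((0 : ℝ) / N)) c := by
    intro M
    induction M with
    | zero => simp [add_self]
    | succ M ih =>
      rw [Finset.sum_range_succ, LinearMap.add_apply, LinearMap.add_apply, map_add]
      have h1 := bd_pr (H n k ((M : ℝ) / N)) (H n k (((M + 1 : ℕ) : ℝ) / N)) c
      have e1 : ∀ a b c' d : Ch (Fin (n + 1) → ℝ), a + b + (c' + d) = (a + c') + (b + d) := by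
        intro a b c' d; abel
      rw [e1, ih, h1]
      have e2 : ∀ a b c' : Ch (Fin (n + 1) → ℝ), a + b + (c' + a) = c' + b := by
        intro a b c'
        have : a + b + (c' + a) = c' + b + (a + a) := by abel
        rw [this, add_self, add_zero]
      rw [e2]
  have hN' : (N : ℝ) ≠ 0 := by positivity
  have h := key N
  rw [div_self hN', zero_div] at h
  have hH1 : H n k 1 = fun _ => e n (k + 1) := by
    funext x; simp [H]
  have hH0 : H n k 0 = id := by
    funext x; simp [H]
  rw [hH1, hH0, push_id] at h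
  exact h

/-- The fine chains. -/
def z (n N : ℕ) : ℕ → Ch (Fin (n + 1) → ℝ)
  | 0 => one [e n 0]
  | k + 1 => D n N k (z n N k + push Neg.neg (z n N k))

theorem neg_neg_push (c : Ch (Fin (n + 1) → ℝ)) : push Neg.neg (push Neg.neg c) = c := by
  rw [push_push]
  have : (Neg.neg ∘ Neg.neg : (Fin (n + 1) → ℝ) → (Fin (n + 1) → ℝ)) = id := by
    funext x; simp
  rw [this, push_id]

theorem bd_z_aux {N : ℕ} (hN : 0 < N) (k : ℕ) :
    push Neg.neg (bd (z n N k)) = bd (z n N k) →
    bd (z n N (k + 1)) = z n N k + push Neg.neg (z n N k) := by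
  intro h
  have h1 := bd_D (n := n) hN k (z n N k + push Neg.neg (z n N k))
  have h2 : bd (z n N k + push Neg.neg (z n N k)) = 0 := by
    rw [map_add, bd_push, h, add_self]
  have h3 : push (fun _ : Fin (n + 1) → ℝ => e n (k + 1)) (z n N k + push Neg.neg (z n N k)) = 0 := by
    rw [map_add, push_push]
    have : ((fun _ : Fin (n + 1) → ℝ => e n (k + 1)) ∘ (Neg.neg : (Fin (n + 1) → ℝ) → _))
        = fun _ => e n (k + 1) := rfl
    rw [this, add_self]
  rw [h2, h3, map_zero, add_zero, zero_add] at h1
  exact h1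

theorem bd_z {N : ℕ} (hN : 0 < N) (k : ℕ) :
    bd (z n N (k + 1)) = z n N k + push Neg.neg (z n N k) := by
  have inv : ∀ k, push Neg.neg (bd (z n N k)) = bd (z n N k) := by
    intro k
    induction k with
    | zero => simp [z, bdl]
    | succ k ih =>
      rw [bd_z_aux hN k ih, map_add, neg_neg_push]
      exact add_comm _ _
  exact bd_z_aux hN k (inv k)

theorem z_supp {N : ℕ} (hN : 0 < N) (k : ℕ) (hk : k ≤ n) :
    z n N k ∈ Finsupp.supported (ZMod 2) (ZMod 2)
      {l | (l.length = k + 1 ∧ ∀ v ∈ l, v ∈ K n k) ∧ ∀ u ∈ l, ∀ v ∈ l, dist u v ≤ 2 * k / N} := by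
  induction k with
  | zero =>
    refine one_mem ⟨⟨by simp, ?_⟩, ?_⟩
    · intro v hv
      simp only [List.mem_singleton] at hv
      subst hv
      exact e_mem hk
    · intro u hu v hv
      simp only [List.mem_singleton] at hu hv
      subst hu hv
      simp
  | succ k ih =>
    have ih := ih (by omega)
    rw [z, D, LinearMap.sum_apply]
    refine Submodule.sum_mem _ (fun j hj => ?_)
    have hj' : j + 1 ≤ N := Finset.mem_range.mp hj
    have hNr : (0 : ℝ) < N := by exact_mod_cast hN
    have hjN : (((j + 1 : ℕ) : ℝ)) ≤ N := by exact_mod_cast hj'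
    have t0 : (0 : ℝ) ≤ (j : ℝ) / N := by positivity
    have t1 : (j : ℝ) / N ≤ 1 := by
      rw [div_le_one hNr]; push_cast at hjN; linarith
    have t2 : (0 : ℝ) ≤ ((j + 1 : ℕ) : ℝ) / N := by positivity
    have t3 : ((j + 1 : ℕ) : ℝ) / N ≤ 1 := by rw [div_le_one hNr]; exact hjN
    have t4 : |(j : ℝ) / N - ((j + 1 : ℕ) : ℝ) / N| = 1 / N := by
      rw [abs_sub_comm, ← sub_div]
      push_cast
      rw [add_sub_cancel_left, abs_of_nonneg (by positivity)]
    have hsup : z n N k + push Neg.neg (z n N k) ∈ Finsupp.supported (ZMod 2) (ZMod 2)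
        {l | (l.length = k + 1 ∧ ∀ v ∈ l, v ∈ K n k) ∧
          ∀ u ∈ l, ∀ v ∈ l, dist u v ≤ 2 * k / N} := by
      refine Submodule.add_mem _ ih (mem_of_supp ih ?_)
      rintro l ⟨⟨hl1, hl2⟩, hl3⟩
      rw [push_one]
      refine one_mem ⟨⟨by simp [hl1], ?_⟩, ?_⟩
      · intro v hv
        obtain ⟨w, hw, rfl⟩ := List.mem_map.mp hv
        exact neg_mem (hl2 w hw)
      · intro u hu v hv
        obtain ⟨w, hw, rfl⟩ := List.mem_map.mp hu
        obtain ⟨w', hw', rfl⟩ := List.mem_map.mp hv
        rw [dist_neg_neg]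
        exact hl3 w hw w' hw'
    refine mem_of_supp hsup ?_
    rintro l ⟨⟨hl1, hl2⟩, hl3⟩
    rw [pr_one]
    refine Finsupp.supported_mono ?_ (prl_mem _ _ l)
    rintro m ⟨hm1, hm2⟩
    refine ⟨⟨by rw [hm1, hl1], ?_⟩, ?_⟩
    · intro v hv
      obtain ⟨x, hx, rfl | rfl⟩ := hm2 v hv
      · exact H_mem hk t0 t1 (hl2 x hx)
      · exact H_mem hk t2 t3 (hl2 x hx)
    · intro u hu v hv
      have key : ∀ s t : ℝ, 0 ≤ s → s ≤ 1 → |s - t| ≤ 1 / N → ∀ x ∈ l, ∀ y ∈ l,
          dist (H n k s x) (H n k t y) ≤ 2 * ((k + 1 : ℕ) : ℝ) / N := by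
        intro s t h0 h1 h2 x hx y hy
        refine (dist_H hk h0 h1 (hl2 y hy) (hl3 x hx y hy)).trans ?_
        have : 2 * ((k + 1 : ℕ) : ℝ) / N = 2 * k / N + 2 * (1 / N) := by
          push_cast; ring
        rw [this]
        linarith
      have hN1 : (0 : ℝ) ≤ 1 / N := by positivity
      obtain ⟨x, hx, rfl | rfl⟩ := hm2 u hu <;> obtain ⟨y, hy, rfl | rfl⟩ := hm2 v hv
      · exact key _ _ t0 t1 (by rw [sub_self, abs_zero]; exact hN1) x hx y hy
      · exact key _ _ t0 t1 t4.le x hx y hy
      · exact key _ _ t2 t3 (by rw [abs_sub_comm]; exact t4.le) x hx y hy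
      · exact key _ _ t2 t3 (by rw [sub_self, abs_zero]; exact hN1) x hx y hy

theorem ev_z (α : ℕ → (Fin (n + 1) → ℝ) → ZMod 2) {N : ℕ} (hN : 0 < N)
    (hα : ∀ i, ∀ v ∈ K n n, α i v + α i (-v) = 1) (k : ℕ) (hk : k ≤ n) :
    ev (W α k) (z n N k) = 1 := by
  induction k with
  | zero => simp [z, W]
  | succ k ih =>
    rw [← ih (by omega)]
    have hKn : ∀ j, k ≤ j → K n k ⊆ K n j := by
      intro j hj
      induction j, hj using Nat.le_induction with
      | base => exact subset_rfl
      | succ j _ ihj => exact ihj.trans K_mono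
    refine pairing α Neg.neg k (S := K n k) (fun i v hv => hα i v (hKn n (by omega) hv)) ?_ ?_
      (bd_z hN k)
    · exact Finsupp.supported_mono (fun l hl => hl.1) (z_supp hN k (by omega))
    · exact Finsupp.supported_mono (fun l hl => hl.1.1) (z_supp hN (k + 1) hk)

theorem isCompact_K (k : ℕ) : IsCompact (K n k) := by
  refine Metric.isCompact_of_isClosed_isBounded ?_ ?_
  · have : K n k = {x | ∑ i, |x i| = 1} ∩ ⋂ i : Fin (n + 1), {x | k < i → x i = 0} := by
      ext x; simp [K]
    rw [this]
    refine IsClosed.inter (isClosed_eq (by fun_prop) continuous_const) ?_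
    refine isClosed_iInter (fun i => ?_)
    by_cases hi : k < i
    · simp only [hi, true_imp_iff]
      exact isClosed_eq (continuous_apply i) continuous_const
    · simp [hi]
  · refine (Metric.isBounded_closedBall (x := (0 : Fin (n + 1) → ℝ)) (r := 1)).subset ?_
    intro x hx
    rw [mem_closedBall_zero_iff]
    exact norm_le_one hx

end Fine

/-- **Borsuk–Ulam**, coordinate version: an odd map `ℝ^{n+1} ∖ 0 → ℝ^n`, continuous away from the
origin, has a zero. -/
theorem borsukUlam_pi (n : ℕ) (f : (Fin (n + 1) → ℝ) → (Fin n → ℝ))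
    (hc : ContinuousOn f {x | x ≠ 0}) (ho : ∀ x, x ≠ 0 → f (-x) = -f x) :
    ∃ x, x ≠ 0 ∧ f x = 0 := by
  classical
  by_contra hne
  push Not at hne
  -- the coordinates as a sequence of functions
  let g : ℕ → (Fin (n + 1) → ℝ) → ℝ := fun i v => if h : i < n then f v ⟨i, h⟩ else 0
  have hg : ∀ i, ∀ v, v ≠ 0 → g i (-v) = -g i v := by
    intro i v hv
    by_cases h : i < n
    · simp [g, h, ho v hv]
    · simp [g, h]
  let α : ℕ → (Fin (n + 1) → ℝ) → ZMod 2 := fun i v =>
    if 0 < g i v ∨ (g i v = 0 ∧ WellOrderingRel (-v) v) then 1 else 0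
  have hα : ∀ i, ∀ v ∈ K n n, α i v + α i (-v) = 1 := by
    intro i v hv
    have hv0 := ne_zero hv
    have hgi := hg i v hv0
    have hvv : -v ≠ v := by
      intro h
      apply hv0
      exact self_eq_neg.mp h.symm
    simp only [α, hgi, neg_neg]
    rcases lt_trichotomy (g i v) 0 with h | h | h
    · have h1 : ¬ (0 < g i v ∨ (g i v = 0 ∧ WellOrderingRel (-v) v)) := by
        rintro (h2 | h2)
        · linarith
        · linarith [h2.1]
      have h2 : (0 < -g i v ∨ (-g i v = 0 ∧ WellOrderingRel v (-v))) := Or.inl (by linarith)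
      rw [if_neg h1, if_pos h2, zero_add]
    · rw [h]
      simp only [lt_irrefl, false_or, neg_zero, true_and]
      rcases trichotomous_of (WellOrderingRel (α := Fin (n + 1) → ℝ)) (-v) v with h1 | h1 | h1
      · have h2 : ¬ WellOrderingRel v (-v) := asymm_of _ h1
        rw [if_pos h1, if_neg h2, add_zero]
      · exact absurd h1 hvv
      · have h2 : ¬ WellOrderingRel (-v) v := asymm_of _ h1
        rw [if_pos h1, if_neg h2, zero_add]
    · have h1 : (0 < g i v ∨ (g i v = 0 ∧ WellOrderingRel (-v) v)) := Or.inl h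
      have h2 : ¬ (0 < -g i v ∨ (-g i v = 0 ∧ WellOrderingRel v (-v))) := by
        rintro (h2 | h2)
        · linarith
        · linarith [h2.1]
      rw [if_neg h2, if_pos h1, add_zero]
  -- uniform constancy of a sign
  have hcover : ∀ x ∈ K n n, ∃ r > 0, ∃ i < n, ∀ y ∈ K n n, dist y x < r →
      α i y = α i x := by
    intro x hx
    have hx0 := ne_zero hx
    obtain ⟨i, hi⟩ : ∃ i, f x i ≠ 0 := by
      by_contra h
      push Not at h
      exact hne x hx0 (funext h)
    have hcont : ContinuousWithinAt (fun y => f y i) {x | x ≠ 0} x :=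
      ((continuous_apply i).continuousAt.comp_continuousWithinAt (hc x hx0))
    have hgi : ∀ y, g i y = f y i := by intro y; simp [g]
    rcases lt_or_gt_of_ne hi with h | h
    · have h1 := hcont.eventually_lt_const h
      rw [Metric.nhdsWithin_basis_ball.eventually_iff] at h1
      obtain ⟨r, hr, h1⟩ := h1
      refine ⟨r, hr, i, i.2, fun y hy hyx => ?_⟩
      have h2 : f y i < 0 := h1 ⟨hyx, ne_zero hy⟩
      have h3 : ∀ w : Fin (n + 1) → ℝ, f w i < 0 → α i w = 0 := by
        intro w hw
        have : ¬ (0 < g i w ∨ (g i w = 0 ∧ WellOrderingRel (-w) w)) := by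
          rw [hgi]
          rintro (h2 | h2)
          · linarith
          · linarith [h2.1]
        simp only [α]
        rw [if_neg this]
      rw [h3 y h2, h3 x h]
    · have h1 := hcont.eventually_const_lt h
      rw [Metric.nhdsWithin_basis_ball.eventually_iff] at h1
      obtain ⟨r, hr, h1⟩ := h1
      refine ⟨r, hr, i, i.2, fun y hy hyx => ?_⟩
      have h2 : 0 < f y i := h1 ⟨hyx, ne_zero hy⟩
      have h3 : ∀ w : Fin (n + 1) → ℝ, 0 < f w i → α i w = 1 := by
        intro w hw
        have : (0 < g i w ∨ (g i w = 0 ∧ WellOrderingRel (-w) w)) := by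
          rw [hgi]; exact Or.inl hw
        simp only [α]
        rw [if_pos this]
      rw [h3 y h2, h3 x h]
  choose! r hr i hi hri using hcover
  obtain ⟨δ, hδ, hleb⟩ := lebesgue_number_lemma_of_metric (s := K n n)
    (c := fun x : K n n => Metric.ball (x : Fin (n + 1) → ℝ) (r x)) (isCompact_K n)
    (fun x => Metric.isOpen_ball)
    (fun x hx => Set.mem_iUnion.mpr ⟨⟨x, hx⟩, Metric.mem_ball_self (hr x hx)⟩)
  -- a fine subdivision
  obtain ⟨N, hN⟩ := exists_nat_gt (2 * (n : ℝ) / δ)
  have hN0 : (0 : ℝ) < N := lt_of_le_of_lt (by positivity) hN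
  have hNpos : 0 < N := by exact_mod_cast hN0
  have hsmall : 2 * (n : ℝ) / N < δ := by
    rw [div_lt_iff₀ hN0]
    rw [div_lt_iff₀ hδ] at hN
    linarith
  have h1 := ev_z α hNpos hα n le_rfl
  have h0 : ev (W α n) (z n N n) = 0 := by
    have := eq_of_supp (f := ev (W α n)) (g := 0) (z_supp hNpos n le_rfl) ?_
    · simpa using this
    · rintro l ⟨⟨hl1, hl2⟩, hl3⟩
      rw [ev_one, LinearMap.zero_apply]
      obtain ⟨u, m, rfl⟩ := List.exists_cons_of_length_eq_add_one hl1
      obtain ⟨x, hx⟩ := hleb u (hl2 u (by simp))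
      have hall : ∀ v ∈ u :: m, α (i x) v = α (i x) x := by
        intro v hv
        refine hri x x.2 v (hl2 v hv) ?_
        have : v ∈ Metric.ball u δ := by
          rw [Metric.mem_ball]
          exact lt_of_le_of_lt (hl3 v hv u (by simp)) hsmall
        exact hx this
      refine W_eq_zero α n (i x) (hi x x.2) (u :: m) hl1 ?_
      intro a ha b hb
      rw [hall a ha, hall b hb]
  rw [h0] at h1
  exact zero_ne_one h1

section General

variable {E F : Type*} [NormedAddCommGroup E] [NormedSpace ℝ E] [FiniteDimensional ℝ E]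
  [NormedAddCommGroup F] [NormedSpace ℝ F] [FiniteDimensional ℝ F]

/-- **Borsuk–Ulam theorem**: an odd continuous map from the unit sphere of a finite-dimensional
normed space to a space of smaller dimension has a zero. -/
theorem borsukUlam (hd : Module.finrank ℝ F < Module.finrank ℝ E) (f : E → F)
    (hc : ContinuousOn f (Metric.sphere 0 1))
    (ho : ∀ x ∈ Metric.sphere (0 : E) 1, f (-x) = -f x) :
    ∃ x ∈ Metric.sphere (0 : E) 1, f x = 0 := by
  set n := Module.finrank ℝ F with hn
  have hle : n + 1 ≤ Module.finrank ℝ E := hd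
  let b := Module.finBasis ℝ E
  have hli : LinearIndependent ℝ (fun i : Fin (n + 1) => b (Fin.castLE hle i)) :=
    b.linearIndependent.comp _ (Fin.castLE_injective hle)
  let ι : (Fin (n + 1) → ℝ) →ₗ[ℝ] E :=
    Fintype.linearCombination ℝ (fun i : Fin (n + 1) => b (Fin.castLE hle i))
  have hι : ∀ x, x ≠ 0 → ι x ≠ 0 := by
    intro x hx h
    apply hx
    have := Fintype.linearIndependent_iff.mp hli x (by simpa [ι, Fintype.linearCombination_apply] using h)
    exact funext this
  have hιc : Continuous ι := ι.continuous_of_finiteDimensional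
  let φ : F ≃L[ℝ] (Fin n → ℝ) := ContinuousLinearEquiv.ofFinrankEq (by simp [hn])
  have hsph : ∀ x, x ≠ 0 → (‖ι x‖)⁻¹ • ι x ∈ Metric.sphere (0 : E) 1 := by
    intro x hx
    rw [mem_sphere_zero_iff_norm, norm_smul, norm_inv, norm_norm,
      inv_mul_cancel₀ (norm_ne_zero_iff.mpr (hι x hx))]
  have key : ∃ x, x ≠ 0 ∧ (fun x => φ (f ((‖ι x‖)⁻¹ • ι x))) x = 0 := by
    apply borsukUlam_pi n
    · refine φ.continuous.comp_continuousOn (hc.comp ?_ hsph)
      refine ContinuousOn.smul (ContinuousOn.inv₀ hιc.norm.continuousOn ?_) hιc.continuousOn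
      intro x hx
      exact norm_ne_zero_iff.mpr (hι x hx)
    · intro x hx
      have h1 : (‖ι (-x)‖)⁻¹ • ι (-x) = -((‖ι x‖)⁻¹ • ι x) := by
        rw [map_neg, norm_neg, smul_neg]
      change φ (f ((‖ι (-x)‖)⁻¹ • ι (-x))) = -φ (f ((‖ι x‖)⁻¹ • ι x))
      rw [h1, ho _ (hsph x hx), map_neg]
  obtain ⟨x, hx, hfx⟩ := key
  exact ⟨(‖ι x‖)⁻¹ • ι x, hsph x hx, by simpa using hfx⟩

/-- **Borsuk–Ulam theorem**, antipodal form. -/
theorem exists_neg_eq (hd : Module.finrank ℝ F < Module.finrank ℝ E) (f : E → F)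
    (hc : ContinuousOn f (Metric.sphere 0 1)) :
    ∃ x ∈ Metric.sphere (0 : E) 1, f (-x) = f x := by
  have key : ∃ x ∈ Metric.sphere (0 : E) 1, (fun x => f (-x) - f x) x = 0 := by
    apply borsukUlam hd
    · refine ContinuousOn.sub (hc.comp continuous_neg.continuousOn ?_) hc
      intro x hx
      rw [mem_sphere_zero_iff_norm] at hx ⊢
      rw [norm_neg, hx]
    · intro x _
      simp
  obtain ⟨x, hx, h⟩ := key
  exact ⟨x, hx, sub_eq_zero.mp h⟩

/-- **Borsuk–Ulam theorem**, version for maps defined away from the origin. -/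
theorem borsukUlam_ne_zero (hd : Module.finrank ℝ F < Module.finrank ℝ E) (f : E → F)
    (hc : ContinuousOn f {x | x ≠ 0}) (ho : ∀ x, x ≠ 0 → f (-x) = -f x) :
    ∃ x ∈ Metric.sphere (0 : E) 1, f x = 0 := by
  have hne : ∀ x ∈ Metric.sphere (0 : E) 1, x ≠ 0 := by
    rintro x hx rfl
    simp at hx
  exact borsukUlam hd f (hc.mono hne) (fun x hx => ho x (hne x hx))

end General

end

end Pool.Agent.H64.BU
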