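import Pool.Agent.H64.HBSqs

/-!
# The exit-only large step
-/

set_option linter.unusedSectionVars false
set_option linter.unusedVariables false
set_option linter.deprecated false

open Set Metric

namespace Pool.Agent.H64.HB

variable {X : Type*} [NormedAddCommGroup X] [NormedSpace ℝ X]
variable {D : Dec X} {P : Par}

/-- compatibility of the new box with the parameters of the large step -/
structure Mac (P : Par) (Cb Bz' Be' By' : ℝ) : Prop where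
  Bz0 : 0 ≤ Bz'
  Be0 : 0 ≤ Be'
  By0 : 0 ≤ By'
  Bz : 4 * (Cb * Bz') ≤ P.Bz
  n : 8 * (Cb * Bz') ≤ P.H
  U : 2 * Be' ≤ P.U
  al : 16 * Be' ≤ P.al * P.H
  By : 2 * By' ≤ P.By - 2 * P.U - P.ka

/-- centre of the large step -/
noncomputable def mctr (D : Dec X) (P : Par) : X := (P.H / 2) • D.up.n

lemma coords_mctr (D : Dec X) (P : Par) (v : X) :
    D.up.PZ (mctr D P + v) = D.up.PZ v ∧ D.up.nS (mctr D P + v) = P.H / 2 + D.up.nS v ∧
    D.eS (mctr D P + v) = D.eS v ∧ D.Q (mctr D P + v) = D.Q v := by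
  unfold mctr
  refine ⟨?_, ?_, ?_, ?_⟩
  · simp [D.PZn]
  · simp [D.nSn]
  · simp [D.eSn]
  · simp [D.Qn]

/-- position of the new box -/
lemma mac_pos (hP : P.OK) {Ce Cb Bz' Be' By' : ℝ} (hD : Bnd D Ce Cb) (hm : Mac P Cb Bz' Be' By')
    {w : X} (hw : w ∈ D.down.box Bz' Be' By') :
    ‖D.up.PZ (mctr D P + (2:ℝ) • w)‖ ≤ P.Bz / 2 ∧
    P.H / 4 ≤ D.up.nS (mctr D P + (2:ℝ) • w) ∧ D.up.nS (mctr D P + (2:ℝ) • w) ≤ P.H ∧
    |D.eS (mctr D P + (2:ℝ) • w)| ≤ P.U ∧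
    2 * |D.eS (mctr D P + (2:ℝ) • w)| ≤ P.al * D.up.nS (mctr D P + (2:ℝ) • w) ∧
    ‖D.Q (mctr D P + (2:ℝ) • w)‖ ≤ P.By - 2 * P.U - P.ka := by
  obtain ⟨h1, h2, h3⟩ := hw
  rw [down_nS] at h2
  rw [down_Yp] at h3
  obtain ⟨c1, c2, c3, c4⟩ := coords_mctr D P ((2:ℝ) • w)
  have hH := hP.H
  have hal := hP.al
  have hC : 0 ≤ Cb := by have := hD.one; have := hD.le; linarith
  have k1 : ‖D.up.PZ w‖ ≤ Cb * Bz' := by
    rw [← PZ_down]
    exact (hD.PZ _).trans (mul_le_mul_of_nonneg_left h1 hC)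
  have k2 : |D.up.nS w| ≤ Cb * Bz' := by
    rw [← nS_down]
    refine (hD.nS _).trans ?_
    exact mul_le_mul hD.le h1 (norm_nonneg _) hC
  obtain ⟨k3, k4⟩ := abs_le.mp k2
  have m1 := hm.Bz
  have m2 := hm.n
  have m3 := hm.U
  have m4 := hm.al
  have m5 := hm.By
  have t2 : ‖(2:ℝ)‖ = 2 := by norm_num
  rw [c1, c2, c3, c4, map_smul, map_smul, map_smul, map_smul, norm_smul, norm_smul, t2, smul_eq_mul,
    smul_eq_mul, abs_mul, abs_two]
  have e4 : P.H / 4 ≤ P.H / 2 + 2 * D.up.nS w := by linarith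
  refine ⟨by linarith, e4, by linarith, by linarith, ?_, by linarith⟩
  have := mul_le_mul_of_nonneg_left e4 hal.le
  nlinarith

lemma mac_obox (hP : P.OK) {Ce Cb Bz' Be' By' : ℝ} (hD : Bnd D Ce Cb) (hm : Mac P Cb Bz' Be' By')
    {w : X} (hw : w ∈ D.down.box Bz' Be' By') :
    mctr D P + (2:ℝ) • w ∈ D.up.obox P.Bz P.Be P.By := by
  obtain ⟨h1, h2, h3, h4, h5, h6⟩ := mac_pos hP hD hm hw
  have hH := hP.H
  have hBz := hP.Bz
  have hHB := hP.HBe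
  have hU := U_pos hP
  have hka := hP.ka
  refine ⟨by linarith, by linarith, by linarith, ?_⟩
  rw [D.hY]
  calc ‖D.eS (mctr D P + (2:ℝ) • w) • D.e + D.Q (mctr D P + (2:ℝ) • w)‖
      ≤ ‖D.eS (mctr D P + (2:ℝ) • w) • D.e‖ + ‖D.Q (mctr D P + (2:ℝ) • w)‖ := norm_add_le _ _
    _ = |D.eS (mctr D P + (2:ℝ) • w)| + ‖D.Q (mctr D P + (2:ℝ) • w)‖ := by
        rw [norm_smul, D.norm_e, mul_one, Real.norm_eq_abs]
    _ < P.By := by linarith

lemma Np_two (hP : P.OK) {w : X} (hN : 1 ≤ D.down.NG P.Lam' (D.down.Yp w)) :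
    1 + 4 * P.th ≤ Np D P (mctr D P + (2:ℝ) • w) := by
  unfold Up.NG at hN
  rw [down_Yp] at hN
  have c4 := (coords_mctr D P ((2:ℝ) • w)).2.2.2
  unfold Np
  have t2 : ‖(2:ℝ)‖ = 2 := by norm_num
  rw [c4, map_smul, norm_smul, t2]
  have hsc : infDist ((2:ℝ) • D.Q w) (D.G' : Set X) ≤ 2 * infDist (D.Q w) (D.G' : Set X) := by
    have : infDist ((2:ℝ) • D.Q w) (D.G' : Set X) / 2 ≤ infDist (D.Q w) (D.G' : Set X) := by
      rw [le_infDist ⟨0, D.G'.zero_mem⟩]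
      intro g hgm
      rw [div_le_iff₀ two_pos]
      have hmm : (2:ℝ) • g ∈ (D.G' : Set X) := D.G'.smul_mem _ hgm
      refine (infDist_le_dist_of_mem hmm).trans (le_of_eq ?_)
      rw [dist_smul₀, t2, mul_comm]
    linarith
  have hL0 : 0 ≤ P.Lam' := hP.Lam.trans hP.Lam'
  have h3 := mul_le_mul_of_nonneg_left hsc hL0
  have hth := hP.th'
  have hN2 : 1 ≤ ‖D.Q w‖ - P.Lam' * infDist (D.Q w) (D.G' : Set X) := hN
  nlinarith

/-- The large step. -/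
theorem big_step (hP : P.OK) {L Ce Cb Bz' Be' By' : ℝ} (hS : Size D P L) (hD : Bnd D Ce Cb)
    (hm : Mac P Cb Bz' Be' By') {lam : ℝ} (hlam : 1 ≤ lam) {r T : X → X}
    (hs : State D.up P.Lam P.Bz P.Be P.By lam r T) :
    Pair (flap D P r 1) (flap D P T (-1)) ∧
    (∀ x ∈ D.up.box P.Bz P.Be P.By, ∀ y ∈ D.up.box P.Bz P.Be P.By,
      ‖flap D P r 1 x - flap D P r 1 y‖ ≤ lam * L ^ 119 * ‖x - y‖) ∧
    (∀ x ∈ D.up.box P.Bz P.Be P.By, ∀ y ∈ D.up.box P.Bz P.Be P.By,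
      ‖flap D P T (-1) x - flap D P T (-1) y‖ ≤ lam * L ^ 119 * ‖x - y‖) ∧
    State D.down P.Lam' Bz' Be' By' (lam * L ^ 119)
      (zin (mctr D P) 2 (flap D P r 1)) (zin (mctr D P) 2 (flap D P T (-1))) := by
  have hpair := pair_flap hP hs.pair hs.below
  have a1 : |(1:ℝ)| ≤ 1 := abs_one.le
  have a2 : |(-1:ℝ)| ≤ 1 := by norm_num
  have hl1 := flap_lip hP hS a1 hlam hs.sr hs.lr
  have hl2 := flap_lip hP hS a2 hlam hs.sT hs.lT
  have Str : ∀ (f : X → X) (s : ℝ), D.down.Straight P.Lam' Bz' Be' By'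
      (zin (mctr D P) 2 (flap D P f s)) s := by
    intro f s w hw hN
    obtain ⟨h1, h2, h3, h4, h5, h6⟩ := mac_pos hP hD hm hw
    obtain ⟨c1, c2, c3, c4⟩ := coords_mctr D P ((2:ℝ) • w)
    have hfl := flap_straight (f := f) (s := s) hP h1 (by have := hP.H; linarith) h3 h4 h5 h6
      (Np_two hP hN)
    unfold zin
    rw [hfl, c1, c2, c4, down_PZ, down_Yp]
    unfold mctr
    rw [map_smul, map_smul, map_smul, smul_eq_mul]
    module
  have Lip : ∀ (f : X → X) (s : ℝ), (∀ x ∈ D.up.box P.Bz P.Be P.By,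
      ∀ y ∈ D.up.box P.Bz P.Be P.By,
      ‖flap D P f s x - flap D P f s y‖ ≤ lam * L ^ 119 * ‖x - y‖) →
      ∀ x ∈ D.down.box Bz' Be' By', ∀ y ∈ D.down.box Bz' Be' By',
      ‖zin (mctr D P) 2 (flap D P f s) x - zin (mctr D P) 2 (flap D P f s) y‖ ≤
        lam * L ^ 119 * ‖x - y‖ := by
    intro f s hf x hx y hy
    have h1 := hf _ (D.up.obox_subset _ _ _ (mac_obox hP hD hm hx)) _
      (D.up.obox_subset _ _ _ (mac_obox hP hD hm hy))
    have e : mctr D P + (2:ℝ) • x - (mctr D P + (2:ℝ) • y) = (2:ℝ) • (x - y) := by module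
    have t2 : ‖(2:ℝ)‖ = 2 := by norm_num
    rw [e, norm_smul, t2] at h1
    unfold zin
    rw [← smul_sub, sub_sub_sub_cancel_right, norm_smul, norm_inv, t2]
    calc (2:ℝ)⁻¹ * ‖flap D P f s (mctr D P + (2:ℝ) • x) - flap D P f s (mctr D P + (2:ℝ) • y)‖
        ≤ (2:ℝ)⁻¹ * (lam * L ^ 119 * (2 * ‖x - y‖)) := mul_le_mul_of_nonneg_left h1 (by norm_num)
      _ = _ := by ring
  refine ⟨hpair, hl1, hl2, hpair.zin two_pos, Str r 1, Str T (-1), ?_, Lip r 1 hl1,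
    Lip T (-1) hl2⟩
  intro k hk hbox
  have hfix : flap D P r 1 (mctr D P + (2:ℝ) • k) = mctr D P + (2:ℝ) • k := by
    have h3 := congrArg (fun v => mctr D P + (2:ℝ) • v) hk
    simp only [zin] at h3
    rwa [zA two_pos] at h3
  have hmem := mac_obox hP hD hm hbox
  have hz := below_flap hP hs.pair hs.below hfix (D.up.obox_subset _ _ _ hmem) hmem.2.1
  rw [(coords_mctr D P _).2.2.1, map_smul, smul_eq_mul] at hz
  rw [down_nS]
  linarith

end Pool.Agent.H64.HB
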