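import Pool.Agent.H64.HBLip

/-!
# Flat sheets, decompositions and the basic functions of the flap step
-/

set_option linter.unusedSectionVars false

open Set Metric

namespace Pool.Agent.H64.HB

variable {X : Type*} [NormedAddCommGroup X] [NormedSpace ℝ X]

/-- A flat sheet: projection `PZ` on the fixed directions, projection `Yp` on the reversed
directions, normal `n` with functional `nS`, core space `G`. -/
structure Up (X : Type*) [NormedAddCommGroup X] [NormedSpace ℝ X] where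
  PZ : X →L[ℝ] X
  Yp : X →L[ℝ] X
  n : X
  nS : X →L[ℝ] ℝ
  G : Submodule ℝ X

/-- the box of a sheet -/
def Up.box (W : Up X) (Bz Be By : ℝ) : Set X :=
  {x | ‖W.PZ x‖ ≤ Bz ∧ |W.nS x| ≤ Be ∧ ‖W.Yp x‖ ≤ By}

/-- the core function -/
noncomputable def Up.NG (W : Up X) (Lam : ℝ) (y : X) : ℝ := ‖y‖ - Lam * infDist y W.G

/-- `f` is straight with sign `s` on the box -/
def Up.Straight (W : Up X) (Lam Bz Be By : ℝ) (f : X → X) (s : ℝ) : Prop :=
  ∀ x ∈ W.box Bz Be By, 1 ≤ W.NG Lam (W.Yp x) → f x = W.PZ x + s • W.Yp x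

lemma Up.box_convex (W : Up X) (Bz Be By : ℝ) : Convex ℝ (W.box Bz Be By) := by
  have h1 : Convex ℝ {x | ‖W.PZ x‖ ≤ Bz} := by
    have : {x | ‖W.PZ x‖ ≤ Bz} = W.PZ ⁻¹' (closedBall 0 Bz) := by
      ext x; simp
    rw [this]
    exact (convex_closedBall (0 : X) Bz).linear_preimage (W.PZ : X →ₗ[ℝ] X)
  have h2 : Convex ℝ {x | |W.nS x| ≤ Be} := by
    have : {x | |W.nS x| ≤ Be} = W.nS ⁻¹' (closedBall 0 Be) := by
      ext x; simp
    rw [this]
    exact (convex_closedBall (0 : ℝ) Be).linear_preimage (W.nS : X →ₗ[ℝ] ℝ)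
  have h3 : Convex ℝ {x | ‖W.Yp x‖ ≤ By} := by
    have : {x | ‖W.Yp x‖ ≤ By} = W.Yp ⁻¹' (closedBall 0 By) := by
      ext x; simp
    rw [this]
    exact (convex_closedBall (0 : X) By).linear_preimage (W.Yp : X →ₗ[ℝ] X)
  exact h1.inter (h2.inter h3)

lemma Up.box_closed (W : Up X) (Bz Be By : ℝ) : IsClosed (W.box Bz Be By) := by
  have h1 : IsClosed {x | ‖W.PZ x‖ ≤ Bz} := isClosed_le (by fun_prop) continuous_const
  have h2 : IsClosed {x | |W.nS x| ≤ Be} := isClosed_le (by fun_prop) continuous_const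
  have h3 : IsClosed {x | ‖W.Yp x‖ ≤ By} := isClosed_le (by fun_prop) continuous_const
  exact h1.inter (h2.inter h3)

/-- A sheet together with a splitting of the reversed directions. -/
structure Dec (X : Type*) [NormedAddCommGroup X] [NormedSpace ℝ X] where
  up : Up X
  Q : X →L[ℝ] X
  e : X
  eS : X →L[ℝ] ℝ
  G' : Submodule ℝ X
  hsum : ∀ x, up.PZ x + up.nS x • up.n + eS x • e + Q x = x
  hY : ∀ x, up.Yp x = eS x • e + Q x
  PZPZ : ∀ x, up.PZ (up.PZ x) = up.PZ x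
  PZn : up.PZ up.n = 0
  PZe : up.PZ e = 0
  PZQ : ∀ x, up.PZ (Q x) = 0
  nSPZ : ∀ x, up.nS (up.PZ x) = 0
  nSn : up.nS up.n = 1
  nSe : up.nS e = 0
  nSQ : ∀ x, up.nS (Q x) = 0
  eSPZ : ∀ x, eS (up.PZ x) = 0
  eSn : eS up.n = 0
  eSe : eS e = 1
  eSQ : ∀ x, eS (Q x) = 0
  QPZ : ∀ x, Q (up.PZ x) = 0
  Qn : Q up.n = 0
  Qe : Q e = 0
  QQ : ∀ x, Q (Q x) = Q x
  hG' : G' ≤ up.G
  heG : e ∈ up.G
  norm_n : ‖up.n‖ = 1
  norm_e : ‖e‖ = 1

/-- the next sheet -/
def Dec.down (D : Dec X) : Up X where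
  PZ := D.up.PZ + D.up.nS.smulRight D.up.n
  Yp := D.Q
  n := D.e
  nS := D.eS
  G := D.G'

/-- parameters of the flap step -/
structure Par where
  Bz : ℝ
  Be : ℝ
  By : ℝ
  H : ℝ
  h : ℝ
  al : ℝ
  U : ℝ
  th : ℝ
  ka : ℝ
  rho : ℝ
  R : ℝ
  om : ℝ
  Lam : ℝ
  Lam' : ℝ

/-- admissible parameters -/
structure Par.OK (P : Par) : Prop where
  Bz : 0 < P.Bz
  Be : 0 < P.Be
  H : 0 < P.H
  h : 0 < P.h
  HBe : 2 * P.H ≤ P.Be
  al : 0 < P.al
  U : P.al * P.H ≤ P.U
  th : 0 < P.th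
  th' : P.th ≤ 1 / 16
  ka : 0 < P.ka
  By : 2 * P.U + P.ka ≤ P.By
  rho : 0 ≤ P.rho
  rhoBy : P.rho ≤ P.By
  R : 0 ≤ P.R
  RBy : P.R ≤ P.By
  om : P.om = 0 ∨ P.om = 1
  Lam : 0 ≤ P.Lam
  Lam' : P.Lam ≤ P.Lam'

variable (D : Dec X) (P : Par)

/-- new core function -/
noncomputable def Np (x : X) : ℝ := ‖D.Q x‖ - P.Lam' * infDist (D.Q x) D.G'

/-- exit parameter -/
noncomputable def tt (x : X) : ℝ := (1 + 3 * P.th - Np D P x) / P.th

/-- box cut-off -/
noncomputable def bb (x : X) : ℝ :=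
  cl (2 - 2 * ‖D.up.PZ x‖ / P.Bz) * cl (2 - 2 * D.up.nS x / P.Be) * cl (2 - |D.eS x| / P.U) *
    cl ((P.By - 2 * P.U - ‖D.Q x‖) / P.ka) * max P.om (cl (2 - tt D P x))

noncomputable def tau (x : X) : ℝ := max 0 (min (D.up.nS x) (P.H * bb D P x))

noncomputable def sig (x : X) : ℝ := max 0 (min (tau D P x) (2 * tau D P x - 2 * |D.eS x| / P.al))

noncomputable def sh (x : X) : ℝ := min (sig D P x / P.h) 1

noncomputable def sig1 (x : X) : ℝ := min (sig D P x) (P.H * cl (- tt D P x))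

/-- soft threshold -/
noncomputable def soft (r a : ℝ) : ℝ := r - max (-a) (min a r)

noncomputable def thc (x : X) : ℝ := cl (tt D P x - 1)

noncomputable def vth (x : X) : ℝ := min (cl (tt D P x)) (cl (3 - tt D P x))

noncomputable def mu (x : X) : ℝ :=
  1 + P.om * sh D P x * vth D P x * max 0 (P.rho * (max ‖D.Q x‖ (1 / 2))⁻¹ - 1)

/-- coefficient of the `Q`-part -/
noncomputable def cq (x : X) : ℝ := (1 - P.om * sh D P x * thc D P x) * mu D P x

/-- coefficient of `e` -/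
noncomputable def ce (x : X) : ℝ :=
  soft (D.eS x) (P.al * tau D P x) + P.om * sh D P x * thc D P x * P.R

noncomputable def cn (x : X) : ℝ := (1 - sh D P x) * (D.up.nS x - tau D P x)

noncomputable def AA (x : X) : X :=
  D.up.PZ x + cn D P x • D.up.n + ce D P x • D.e + cq D P x • D.Q x

/-- the flap point -/
noncomputable def FP (s : ℝ) (x : X) : X := D.up.PZ x + sig1 D P x • D.up.n + s • D.Q x

open Classical in
/-- the flap step -/
noncomputable def flap (f : X → X) (s : ℝ) (x : X) : X :=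
  if 0 < sig D P x ∧ tt D P x < 0 then FP D P s x else f (AA D P x)

variable {D P}

section basic

lemma Np_le (hP : P.OK) (x : X) : Np D P x ≤ ‖D.Q x‖ := by
  unfold Np
  have := hP.Lam.trans hP.Lam'
  have h2 : 0 ≤ infDist (D.Q x) (D.G' : Set X) := infDist_nonneg
  nlinarith [mul_nonneg this h2]

lemma Np_eq (hP : P.OK) (x : X) : Np D P x = 1 + 3 * P.th - P.th * tt D P x := by
  unfold tt
  have := hP.th
  field_simp
  ring

lemma bb_nonneg (x : X) : 0 ≤ bb D P x := by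
  unfold bb
  have := cl_nonneg (2 - 2 * ‖D.up.PZ x‖ / P.Bz)
  have := cl_nonneg (2 - 2 * D.up.nS x / P.Be)
  have := cl_nonneg (2 - |D.eS x| / P.U)
  have := cl_nonneg ((P.By - 2 * P.U - ‖D.Q x‖) / P.ka)
  have : 0 ≤ max P.om (cl (2 - tt D P x)) := le_max_of_le_right (cl_nonneg _)
  positivity

lemma om_mem (hP : P.OK) : 0 ≤ P.om ∧ P.om ≤ 1 := by
  rcases hP.om with h | h <;> rw [h] <;> norm_num

lemma bb_le_one (hP : P.OK) (x : X) : bb D P x ≤ 1 := by
  unfold bb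
  have h1 := cl_nonneg (2 - 2 * ‖D.up.PZ x‖ / P.Bz)
  have h2 := cl_nonneg (2 - 2 * D.up.nS x / P.Be)
  have h3 := cl_nonneg (2 - |D.eS x| / P.U)
  have h4 := cl_nonneg ((P.By - 2 * P.U - ‖D.Q x‖) / P.ka)
  have h5 : 0 ≤ max P.om (cl (2 - tt D P x)) := le_max_of_le_right (cl_nonneg _)
  have k1 := cl_le_one (2 - 2 * ‖D.up.PZ x‖ / P.Bz)
  have k2 := cl_le_one (2 - 2 * D.up.nS x / P.Be)
  have k3 := cl_le_one (2 - |D.eS x| / P.U)
  have k4 := cl_le_one ((P.By - 2 * P.U - ‖D.Q x‖) / P.ka)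
  have k5 : max P.om (cl (2 - tt D P x)) ≤ 1 := max_le (om_mem hP).2 (cl_le_one _)
  exact mul_le_one₀ (mul_le_one₀ (mul_le_one₀ (mul_le_one₀ k1 h2 k2) h3 k3) h4 k4) h5 k5

lemma U_pos (hP : P.OK) : 0 < P.U := lt_of_lt_of_le (mul_pos hP.al hP.H) hP.U

/-- where the cut-off is positive -/
lemma of_bb_pos (hP : P.OK) {x : X} (h : 0 < bb D P x) :
    ‖D.up.PZ x‖ < P.Bz ∧ D.up.nS x < P.Be ∧ |D.eS x| < 2 * P.U ∧ ‖D.Q x‖ < P.By - 2 * P.U ∧
      (P.om = 0 → tt D P x < 2) := by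
  have hU := U_pos hP
  have hBz := hP.Bz
  have hBe := hP.Be
  have hka := hP.ka
  unfold bb at h
  have h1 := cl_nonneg (2 - 2 * ‖D.up.PZ x‖ / P.Bz)
  have h2 := cl_nonneg (2 - 2 * D.up.nS x / P.Be)
  have h3 := cl_nonneg (2 - |D.eS x| / P.U)
  have h4 := cl_nonneg ((P.By - 2 * P.U - ‖D.Q x‖) / P.ka)
  have h5 : 0 ≤ max P.om (cl (2 - tt D P x)) := le_max_of_le_right (cl_nonneg _)
  have q5 := pos_of_mul_pos_right h (by positivity)
  have q := pos_of_mul_pos_left h h5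
  have q4 := pos_of_mul_pos_right q (by positivity)
  have q := pos_of_mul_pos_left q h4
  have q3 := pos_of_mul_pos_right q (by positivity)
  have q := pos_of_mul_pos_left q h3
  have q2 := pos_of_mul_pos_right q h1
  have q1 := pos_of_mul_pos_left q h2
  have r1 := pos_of_cl_pos q1
  have r2 := pos_of_cl_pos q2
  have r3 := pos_of_cl_pos q3
  have r4 := pos_of_cl_pos q4
  refine ⟨?_, ?_, ?_, ?_, ?_⟩
  · have : 2 * ‖D.up.PZ x‖ / P.Bz < 2 := by linarith
    rw [div_lt_iff₀ hBz] at this; linarith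
  · have : 2 * D.up.nS x / P.Be < 2 := by linarith
    rw [div_lt_iff₀ hBe] at this; linarith
  · have : |D.eS x| / P.U < 2 := by linarith
    rwa [div_lt_iff₀ hU] at this
  · have := (div_pos_iff_of_pos_right hka).mp r4
    linarith
  · intro hom
    rw [hom] at q5
    rcases lt_max_iff.mp q5 with h | h
    · exact absurd h (lt_irrefl _)
    · have := pos_of_cl_pos h; linarith

lemma tau_nonneg (x : X) : 0 ≤ tau D P x := le_max_left _ _

lemma tau_le (hP : P.OK) (x : X) : tau D P x ≤ P.H * bb D P x := by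
  unfold tau
  exact max_le (mul_nonneg hP.H.le (bb_nonneg x)) (min_le_right _ _)

lemma tau_le_H (hP : P.OK) (x : X) : tau D P x ≤ P.H :=
  (tau_le hP x).trans (mul_le_of_le_one_right hP.H.le (bb_le_one hP x))

lemma tau_pos_imp (hP : P.OK) {x : X} (h : 0 < tau D P x) :
    0 < D.up.nS x ∧ tau D P x ≤ D.up.nS x ∧ 0 < bb D P x := by
  unfold tau at h ⊢
  have h1 : 0 < min (D.up.nS x) (P.H * bb D P x) := by
    rcases lt_max_iff.mp h with h | h
    · exact absurd h (lt_irrefl _)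
    · exact h
  obtain ⟨h2, h3⟩ := lt_min_iff.mp h1
  refine ⟨h2, ?_, pos_of_mul_pos_right h3 hP.H.le⟩
  exact max_le h2.le (min_le_left _ _)

lemma tau_eq_zero_of_nonpos {x : X} (h : D.up.nS x ≤ 0) : tau D P x = 0 := by
  unfold tau
  exact max_eq_left ((min_le_left _ _).trans h)

lemma tau_eq_zero_of_bb {x : X} (h : bb D P x = 0) : tau D P x = 0 := by
  unfold tau
  rw [h, mul_zero]
  exact max_eq_left (min_le_right _ _)

lemma tau_le_max (x : X) : tau D P x ≤ max 0 (D.up.nS x) :=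
  max_le_max le_rfl (min_le_left _ _)

lemma sig_nonneg (x : X) : 0 ≤ sig D P x := le_max_left _ _

lemma sig_le_tau (x : X) : sig D P x ≤ tau D P x :=
  max_le (tau_nonneg x) (min_le_left _ _)

lemma sig_pos_imp (hP : P.OK) {x : X} (h : 0 < sig D P x) :
    0 < tau D P x ∧ |D.eS x| < P.al * tau D P x := by
  have hal := hP.al
  unfold sig at h
  have h1 : 0 < min (tau D P x) (2 * tau D P x - 2 * |D.eS x| / P.al) := by
    rcases lt_max_iff.mp h with h | h
    · exact absurd h (lt_irrefl _)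
    · exact h
  obtain ⟨h2, h3⟩ := lt_min_iff.mp h1
  refine ⟨h2, ?_⟩
  have : 2 * |D.eS x| / P.al < 2 * tau D P x := by linarith
  rw [div_lt_iff₀ hal] at this
  linarith

lemma sig_eq_zero_of_tau {x : X} (h : tau D P x = 0) : sig D P x = 0 :=
  le_antisymm (h ▸ sig_le_tau x) (sig_nonneg x)

lemma sh_nonneg (hP : P.OK) (x : X) : 0 ≤ sh D P x :=
  le_min (div_nonneg (sig_nonneg x) hP.h.le) zero_le_one

lemma sh_le_one (x : X) : sh D P x ≤ 1 := min_le_right _ _

lemma sh_eq_zero {x : X} (h : sig D P x = 0) : sh D P x = 0 := by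
  unfold sh; rw [h, zero_div]; exact min_eq_left zero_le_one

lemma sig1_nonneg (hP : P.OK) (x : X) : 0 ≤ sig1 D P x :=
  le_min (sig_nonneg x) (mul_nonneg hP.H.le (cl_nonneg _))

lemma soft_zero_of_abs {r a : ℝ} (h : |r| ≤ a) : soft r a = 0 := by
  obtain ⟨h1, h2⟩ := abs_le.mp h
  unfold soft
  rw [min_eq_right h2, max_eq_right h1, sub_self]

lemma soft_zero (r : ℝ) : soft r 0 = r := by
  unfold soft
  rcases le_total 0 r with h | h
  · rw [min_eq_left h]; simp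
  · rw [min_eq_right h, neg_zero, max_eq_left h]; simp

/-- soft thresholding is multiplication by a factor in `[0,1]` -/
lemma soft_eq_mul {r a : ℝ} (ha : 0 ≤ a) : ∃ c : ℝ, 0 ≤ c ∧ c ≤ 1 ∧ soft r a = c * r := by
  rcases le_or_gt |r| a with h | h
  · exact ⟨0, le_rfl, zero_le_one, by rw [soft_zero_of_abs h, zero_mul]⟩
  · have hr : 0 < |r| := lt_of_le_of_lt ha h
    refine ⟨1 - a / |r|, ?_, ?_, ?_⟩
    · have : a / |r| ≤ 1 := by rw [div_le_one hr]; exact h.le
      linarith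
    · have : 0 ≤ a / |r| := by positivity
      linarith
    · unfold soft
      rcases le_or_gt 0 r with h0 | h0
      · rw [abs_of_nonneg h0] at h hr ⊢
        rw [min_eq_left h.le, max_eq_right (by linarith)]
        field_simp
      · rw [abs_of_neg h0] at h hr ⊢
        rw [min_eq_right (by linarith), max_eq_left (by linarith)]
        have : r ≠ 0 := h0.ne
        field_simp

lemma thc_nonneg (x : X) : 0 ≤ thc D P x := cl_nonneg _
lemma thc_le_one (x : X) : thc D P x ≤ 1 := cl_le_one _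
lemma vth_nonneg (x : X) : 0 ≤ vth D P x := le_min (cl_nonneg _) (cl_nonneg _)
lemma vth_le_one (x : X) : vth D P x ≤ 1 := (min_le_left _ _).trans (cl_le_one _)

lemma one_le_mu (hP : P.OK) (x : X) : 1 ≤ mu D P x := by
  unfold mu
  have h1 := (om_mem hP).1
  have h2 := sh_nonneg (D := D) hP x
  have h3 := vth_nonneg (D := D) (P := P) x
  have h4 : 0 ≤ max 0 (P.rho * (max ‖D.Q x‖ (1 / 2))⁻¹ - 1) := le_max_left _ _
  have : 0 ≤ P.om * sh D P x * vth D P x * max 0 (P.rho * (max ‖D.Q x‖ (1 / 2))⁻¹ - 1) := by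
    positivity
  linarith

/-- the factor used in the cone part -/
lemma oms_mem (hP : P.OK) (x : X) :
    0 ≤ P.om * sh D P x * thc D P x ∧ P.om * sh D P x * thc D P x ≤ 1 := by
  have h1 := om_mem hP
  have h2 := sh_nonneg (D := D) hP x
  have h3 := sh_le_one (D := D) (P := P) x
  have h4 := thc_nonneg (D := D) (P := P) x
  have h5 := thc_le_one (D := D) (P := P) x
  refine ⟨mul_nonneg (mul_nonneg h1.1 h2) h4, ?_⟩
  exact mul_le_one₀ (mul_le_one₀ h1.2 h2 h3) h4 h5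

lemma cq_nonneg (hP : P.OK) (x : X) : 0 ≤ cq D P x := by
  unfold cq
  have h1 := oms_mem (D := D) hP x
  have h2 := one_le_mu (D := D) hP x
  exact mul_nonneg (by linarith [h1.2]) (by linarith)

/-- coordinates of a combination -/
lemma coords (z : X) (a b : ℝ) (y : X) :
    D.up.PZ (D.up.PZ z + a • D.up.n + b • D.e + D.Q y) = D.up.PZ z ∧
    D.up.nS (D.up.PZ z + a • D.up.n + b • D.e + D.Q y) = a ∧
    D.eS (D.up.PZ z + a • D.up.n + b • D.e + D.Q y) = b ∧
    D.Q (D.up.PZ z + a • D.up.n + b • D.e + D.Q y) = D.Q y := by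
  refine ⟨?_, ?_, ?_, ?_⟩
  · simp [D.PZPZ, D.PZn, D.PZe, D.PZQ]
  · simp [D.nSPZ, D.nSn, D.nSe, D.nSQ]
  · simp [D.eSPZ, D.eSn, D.eSe, D.eSQ]
  · simp [D.QPZ, D.Qn, D.Qe, D.QQ]

lemma coords_AA (x : X) :
    D.up.PZ (AA D P x) = D.up.PZ x ∧ D.up.nS (AA D P x) = cn D P x ∧
    D.eS (AA D P x) = ce D P x ∧ D.Q (AA D P x) = cq D P x • D.Q x := by
  have h := coords (D := D) x (cn D P x) (ce D P x) (cq D P x • x)
  rw [map_smul] at h
  exact h

lemma coords_FP (s : ℝ) (x : X) :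
    D.up.PZ (FP D P s x) = D.up.PZ x ∧ D.up.nS (FP D P s x) = sig1 D P x ∧
    D.eS (FP D P s x) = 0 ∧ D.Q (FP D P s x) = s • D.Q x := by
  have h := coords (D := D) x (sig1 D P x) 0 (s • x)
  rw [map_smul, zero_smul, add_zero] at h
  exact h

end basic

end Pool.Agent.H64.HB
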