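import Mathlib

/-!
# Biorthogonal sequences in infinite-dimensional normed spaces
-/

set_option linter.unusedSectionVars false
set_option linter.unusedVariables false
set_option linter.deprecated false

open Set Metric

namespace Pool.Agent.H64.HB

variable {X : Type*} [NormedAddCommGroup X] [NormedSpace ℝ X]

/-- a finite set of functionals which is norming up to the factor `2` -/
lemma exists_norming (E : Submodule ℝ X) [FiniteDimensional ℝ E] :
    ∃ Φ : Finset (X →L[ℝ] ℝ), ∀ x ∈ E, ∀ y : X, (∀ φ ∈ Φ, φ y = 0) → ‖x‖ ≤ 2 * ‖x + y‖ := by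
  classical
  have hc : IsCompact (sphere (0 : E) 1) := isCompact_sphere _ _
  obtain ⟨t, ht, hcov⟩ := hc.elim_nhds_subcover (fun c => ball c (1 / 2))
    (fun c _ => ball_mem_nhds c (by norm_num))
  choose g hg1 hg2 using fun c : E => exists_dual_vector'' ℝ (c : X)
  refine ⟨t.image g, ?_⟩
  intro x hx y hy
  by_cases hx0 : x = 0
  · rw [hx0, norm_zero]; positivity
  have hxn : 0 < ‖x‖ := norm_pos_iff.mpr hx0
  set u : E := ‖x‖⁻¹ • ⟨x, hx⟩ with hu
  have hun : u ∈ sphere (0 : E) 1 := by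
    rw [mem_sphere_zero_iff_norm, hu, norm_smul, norm_inv, norm_norm]
    have : ‖(⟨x, hx⟩ : E)‖ = ‖x‖ := rfl
    rw [this, inv_mul_cancel₀ hxn.ne']
  obtain ⟨c, hct, hcu⟩ := mem_iUnion₂.mp (hcov hun)
  have hc1 : ‖(c : X)‖ = 1 := by
    have := ht c hct
    rwa [mem_sphere_zero_iff_norm] at this
  have hdist : ‖(u : X) - c‖ < 1 / 2 := by
    rw [mem_ball, dist_eq_norm] at hcu
    exact hcu
  have h1 : g c (c : X) = 1 := by
    have := hg2 c
    rw [hc1] at this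
    simpa using this
  have h2 : |g c ((u : X) - c)| ≤ 1 / 2 := by
    have := (g c).le_opNorm ((u : X) - c)
    rw [Real.norm_eq_abs] at this
    have h3 : ‖g c‖ * ‖(u : X) - c‖ ≤ 1 * (1 / 2) :=
      mul_le_mul (hg1 c) hdist.le (norm_nonneg _) (by norm_num)
    linarith
  have h3 : 1 / 2 ≤ g c (u : X) := by
    rw [map_sub, h1] at h2
    have := (abs_le.mp h2).1
    linarith
  have h4 : g c x = ‖x‖ * g c (u : X) := by
    have : (u : X) = ‖x‖⁻¹ • x := rfl
    rw [this, map_smul, smul_eq_mul, ← mul_assoc, mul_inv_cancel₀ hxn.ne', one_mul]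
  have h5 : g c y = 0 := hy _ (Finset.mem_image_of_mem g hct)
  have h6 : g c (x + y) ≤ ‖x + y‖ := by
    have := (g c).le_opNorm (x + y)
    rw [Real.norm_eq_abs] at this
    have h7 : ‖g c‖ * ‖x + y‖ ≤ 1 * ‖x + y‖ :=
      mul_le_mul_of_nonneg_right (hg1 c) (norm_nonneg _)
    have := le_abs_self (g c (x + y))
    linarith
  rw [map_add, h5, add_zero, h4] at h6
  nlinarith

/-- a unit vector in the common kernel -/
lemma exists_unit_ker (h : ¬ FiniteDimensional ℝ X) (Φ : Finset (X →L[ℝ] ℝ)) :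
    ∃ v : X, ‖v‖ = 1 ∧ ∀ φ ∈ Φ, φ v = 0 := by
  classical
  have hex : ∃ v : X, v ≠ 0 ∧ ∀ φ ∈ Φ, φ v = 0 := by
    by_contra hcon
    push Not at hcon
    apply h
    let L : X →ₗ[ℝ] (Φ → ℝ) := LinearMap.pi fun φ => (φ.1 : X →ₗ[ℝ] ℝ)
    have hinj : Function.Injective L := by
      rw [← LinearMap.ker_eq_bot, LinearMap.ker_eq_bot']
      intro v hv
      by_contra hv0
      obtain ⟨φ, hφ, hφv⟩ := hcon v hv0
      apply hφv
      have := congrFun hv ⟨φ, hφ⟩
      exact this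
    exact FiniteDimensional.of_injective L hinj
  obtain ⟨v, hv0, hv⟩ := hex
  refine ⟨‖v‖⁻¹ • v, ?_, ?_⟩
  · rw [norm_smul, norm_inv, norm_norm, inv_mul_cancel₀ (norm_ne_zero_iff.mpr hv0)]
  · intro φ hφ
    rw [map_smul, hv φ hφ, smul_zero]

/-- a functional vanishing on a finite-dimensional subspace -/
lemma exists_functional (E : Submodule ℝ X) [FiniteDimensional ℝ E] {v : X}
    (hv : ∀ x ∈ E, 1 / 3 ≤ ‖v - x‖) :
    ∃ ψ : X →L[ℝ] ℝ, ψ v = 1 ∧ (∀ x ∈ E, ψ x = 0) ∧ ∀ x, |ψ x| ≤ 3 * ‖x‖ := by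
  have hcl : IsClosed (E : Set X) := E.closed_of_finiteDimensional
  have hd : 1 / 3 ≤ ‖(Submodule.Quotient.mk v : X ⧸ E)‖ := by
    have e : ‖(Submodule.Quotient.mk v : X ⧸ E)‖ = infDist v (E : Set X) :=
      QuotientAddGroup.norm_mk (S := E.toAddSubgroup) v
    rw [e, le_infDist ⟨0, E.zero_mem⟩]
    intro y hy
    rw [dist_eq_norm]
    exact hv y hy
  obtain ⟨g, hg1, hg2⟩ := exists_dual_vector'' ℝ (Submodule.Quotient.mk v : X ⧸ E)
  set d := ‖(Submodule.Quotient.mk v : X ⧸ E)‖ with hdd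
  have hd0 : 0 < d := by linarith
  set q : X →L[ℝ] X ⧸ E := E.mkQL with hq
  have hqn : ∀ x, ‖q x‖ ≤ ‖x‖ := fun x => Submodule.Quotient.norm_mk_le E x
  refine ⟨d⁻¹ • (g.comp q), ?_, ?_, ?_⟩
  · have : g (q v) = d := hg2
    simp only [ContinuousLinearMap.smul_apply, ContinuousLinearMap.comp_apply, smul_eq_mul]
    rw [this, inv_mul_cancel₀ hd0.ne']
  · intro x hx
    have : q x = 0 := (Submodule.Quotient.mk_eq_zero E).mpr hx
    simp only [ContinuousLinearMap.smul_apply, ContinuousLinearMap.comp_apply, smul_eq_mul]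
    rw [this, map_zero, mul_zero]
  · intro x
    simp only [ContinuousLinearMap.smul_apply, ContinuousLinearMap.comp_apply, smul_eq_mul]
    rw [abs_mul, abs_of_pos (inv_pos.mpr hd0)]
    have h1 : |g (q x)| ≤ ‖x‖ := by
      have := g.le_opNorm (q x)
      rw [Real.norm_eq_abs] at this
      have h2 : ‖g‖ * ‖q x‖ ≤ 1 * ‖x‖ := mul_le_mul hg1 (hqn x) (norm_nonneg _) (by norm_num)
      linarith
    have h3 : d⁻¹ ≤ 3 := by
      rw [inv_le_comm₀ hd0 (by norm_num)]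
      linarith
    exact mul_le_mul h3 h1 (abs_nonneg _) (by norm_num)

/-- stages of the construction -/
structure Stg (X : Type*) [NormedAddCommGroup X] [NormedSpace ℝ X] where
  E : Submodule ℝ X
  Φ : Finset (X →L[ℝ] ℝ)
  v : X
  ψ : X →L[ℝ] ℝ

/-- admissible stages -/
structure Stg.Good (a : Stg X) : Prop where
  fd : FiniteDimensional ℝ a.E
  vE : a.v ∈ a.E
  norm : ‖a.v‖ = 1
  ψv : a.ψ a.v = 1
  ψb : ∀ x, |a.ψ x| ≤ 3 * ‖x‖
  ψΦ : a.ψ ∈ a.Φ
  sep : ∀ x ∈ a.E, ∀ y : X, (∀ φ ∈ a.Φ, φ y = 0) → ‖x‖ ≤ 2 * ‖x + y‖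

/-- the relation between stages -/
structure Stg.Rel (a b : Stg X) : Prop where
  E : a.E ≤ b.E
  v : ∀ φ ∈ a.Φ, φ b.v = 0
  ψ : ∀ x ∈ a.E, b.ψ x = 0

lemma exists_stage (h : ¬ FiniteDimensional ℝ X) (s : Finset (Stg X)) (hs : ∀ a ∈ s, a.Good) :
    ∃ b : Stg X, b.Good ∧ ∀ a ∈ s, a.Rel b := by
  classical
  set Es : Submodule ℝ X := s.sup fun a => if a.Good then a.E else ⊥ with hEs
  have hfd : FiniteDimensional ℝ Es := by
    have : ∀ a : Stg X, FiniteDimensional ℝ (if a.Good then a.E else ⊥ : Submodule ℝ X) := by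
      intro a
      by_cases ha : a.Good
      · rw [if_pos ha]; exact ha.fd
      · rw [if_neg ha]; exact inferInstanceAs (FiniteDimensional ℝ (⊥ : Submodule ℝ X))
    exact Submodule.finiteDimensional_finset_sup s _
  have hle : ∀ a ∈ s, a.E ≤ Es := by
    intro a ha
    have h1 : (if a.Good then a.E else ⊥ : Submodule ℝ X) ≤ Es :=
      Finset.le_sup (f := fun a : Stg X => (if a.Good then a.E else ⊥ : Submodule ℝ X)) ha
    rwa [if_pos (hs a ha)] at h1
  obtain ⟨Φ', hΦ'⟩ := exists_norming Es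
  set Φs : Finset (X →L[ℝ] ℝ) := s.biUnion fun a => a.Φ with hΦs
  obtain ⟨v, hv1, hv⟩ := exists_unit_ker h (Φs ∪ Φ')
  have hv3 : ∀ x ∈ Es, 1 / 3 ≤ ‖v - x‖ := by
    intro x hx
    have h1 := hΦ' (-x) (Es.neg_mem hx) v fun φ hφ => hv φ (Finset.mem_union_right _ hφ)
    rw [norm_neg] at h1
    have e : -x + v = v - x := by abel
    rw [e] at h1
    have h2 : ‖v‖ ≤ ‖v - x‖ + ‖x‖ := by
      calc ‖v‖ = ‖(v - x) + x‖ := by rw [sub_add_cancel]
        _ ≤ _ := norm_add_le _ _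
    linarith
  obtain ⟨ψ, hψ1, hψ2, hψ3⟩ := exists_functional Es hv3
  have hfd2 : FiniteDimensional ℝ (Es ⊔ Submodule.span ℝ {v} : Submodule ℝ X) := by
    have : FiniteDimensional ℝ (Submodule.span ℝ {v}) := inferInstance
    exact Submodule.finiteDimensional_sup _ _
  obtain ⟨Φ'', hΦ''⟩ := exists_norming (Es ⊔ Submodule.span ℝ {v})
  refine ⟨⟨Es ⊔ Submodule.span ℝ {v}, insert ψ Φ'', v, ψ⟩, ?_, ?_⟩
  · constructor
    · exact hfd2
    · exact Submodule.mem_sup_right (Submodule.mem_span_singleton_self v)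
    · exact hv1
    · exact hψ1
    · exact hψ3
    · exact Finset.mem_insert_self _ _
    · intro x hx y hy
      exact hΦ'' x hx y fun φ hφ => hy φ (Finset.mem_insert_of_mem hφ)
  · intro a ha
    constructor
    · exact (hle a ha).trans le_sup_left
    · intro φ hφ
      exact hv φ (Finset.mem_union_left _ (Finset.mem_biUnion.mpr ⟨a, ha, hφ⟩))
    · intro x hx
      exact hψ2 x (hle a ha hx)

/-- Biorthogonal sequences with separated blocks. -/
theorem exists_biorth (h : ¬ FiniteDimensional ℝ X) :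
    ∃ (v : ℕ → X) (ψ : ℕ → X →L[ℝ] ℝ), (∀ j, ‖v j‖ = 1) ∧ (∀ j x, |ψ j x| ≤ 3 * ‖x‖) ∧
      (∀ j, ψ j (v j) = 1) ∧ (∀ i j, i ≠ j → ψ i (v j) = 0) ∧
      ∀ k, ∀ x ∈ Submodule.span ℝ (v '' {i | i ≤ k}),
        ∀ y ∈ Submodule.span ℝ (v '' {i | k < i}), ‖x‖ ≤ 2 * ‖x + y‖ := by
  obtain ⟨f, hf, hr⟩ := exists_seq_of_forall_finset_exists (fun a : Stg X => a.Good)
    (fun a b => a.Rel b) (exists_stage h)
  refine ⟨fun j => (f j).v, fun j => (f j).ψ, fun j => (hf j).norm, fun j => (hf j).ψb,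
    fun j => (hf j).ψv, ?_, ?_⟩
  · intro i j hij
    rcases lt_or_gt_of_ne hij with hlt | hlt
    · exact (hr i j hlt).v _ (hf i).ψΦ
    · exact (hr j i hlt).ψ _ (hf j).vE
  · intro k x hx y hy
    apply (hf k).sep x
    · have : Submodule.span ℝ ((fun j => (f j).v) '' {i | i ≤ k}) ≤ (f k).E := by
        rw [Submodule.span_le]
        rintro _ ⟨i, hi, rfl⟩
        rcases eq_or_lt_of_le (show i ≤ k from hi) with rfl | hlt
        · exact (hf i).vE
        · exact (hr i k hlt).E (hf i).vE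
      exact this hx
    · intro φ hφ
      have : Submodule.span ℝ ((fun j => (f j).v) '' {i | k < i}) ≤ LinearMap.ker (φ : X →ₗ[ℝ] ℝ) := by
        rw [Submodule.span_le]
        rintro _ ⟨i, hi, rfl⟩
        exact (hr k i hi).v φ hφ
      exact this hy

end Pool.Agent.H64.HB
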