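import Pool.Agent.H64.HBGlue
import Pool.Agent.H64.HBSeq

/-!
# Families of decompositions from biorthogonal sequences
-/

set_option linter.unusedSectionVars false
set_option linter.unusedVariables false
set_option linter.deprecated false

open Set Metric

namespace Pool.Agent.H64.HB

variable {X : Type*} [NormedAddCommGroup X] [NormedSpace ℝ X]

/-- normalized biorthogonal sequences -/
structure Bio (w : ℕ → X) (χ : ℕ → X →L[ℝ] ℝ) : Prop where
  norm : ∀ j, ‖w j‖ = 1
  bd : ∀ j x, |χ j x| ≤ 3 * ‖x‖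
  one : ∀ j, χ j (w j) = 1
  zero : ∀ i j, i ≠ j → χ i (w j) = 0

/-- sum projections -/
noncomputable def PP (w : ℕ → X) (χ : ℕ → X →L[ℝ] ℝ) : ℕ → (X →L[ℝ] X)
  | 0 => 0
  | k + 1 => PP w χ k + (χ k).smulRight (w k)

section
variable {w : ℕ → X} {χ : ℕ → X →L[ℝ] ℝ}

lemma PP_zero (x : X) : PP w χ 0 x = 0 := rfl

lemma PP_succ (k : ℕ) (x : X) : PP w χ (k + 1) x = PP w χ k x + χ k x • w k := rfl

lemma PP_w_of_le (hb : Bio w χ) {k j : ℕ} (h : k ≤ j) : PP w χ k (w j) = 0 := by
  induction k with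
  | zero => rfl
  | succ k ih => rw [PP_succ, ih (by omega), hb.zero k j (by omega), zero_smul, add_zero]

lemma χ_PP_of_le (hb : Bio w χ) {k j : ℕ} (h : k ≤ j) (x : X) : χ j (PP w χ k x) = 0 := by
  induction k with
  | zero => rw [PP_zero, map_zero]
  | succ k ih =>
    rw [PP_succ, map_add, ih (by omega), map_smul, hb.zero j k (by omega), smul_zero, add_zero]

lemma χ_PP_of_lt (hb : Bio w χ) {k j : ℕ} (h : j < k) (x : X) : χ j (PP w χ k x) = χ j x := by
  induction k with
  | zero => omega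
  | succ k ih =>
    rcases Nat.lt_succ_iff_lt_or_eq.mp h with hlt | rfl
    · rw [PP_succ, map_add, ih hlt, map_smul, hb.zero j k (by omega), smul_zero, add_zero]
    · rw [PP_succ, map_add, χ_PP_of_le hb le_rfl, map_smul, hb.one, zero_add, smul_eq_mul, mul_one]

lemma PP_PP_le (hb : Bio w χ) {k l : ℕ} (h : k ≤ l) (x : X) :
    PP w χ k (PP w χ l x) = PP w χ k x := by
  induction k with
  | zero => rfl
  | succ k ih => rw [PP_succ, PP_succ, ih (by omega), χ_PP_of_lt hb (by omega)]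

lemma PP_PP_ge (hb : Bio w χ) {k l : ℕ} (h : l ≤ k) (x : X) :
    PP w χ k (PP w χ l x) = PP w χ l x := by
  induction k, h using Nat.le_induction with
  | base => exact PP_PP_le hb le_rfl x
  | succ k hk ih => rw [PP_succ, ih, χ_PP_of_le hb hk, zero_smul, add_zero]

lemma norm_PP (hb : Bio w χ) (k : ℕ) (x : X) : ‖PP w χ k x‖ ≤ 3 * k * ‖x‖ := by
  induction k with
  | zero => rw [PP_zero, norm_zero]; simp
  | succ k ih =>
    rw [PP_succ]
    refine (norm_add_le _ _).trans ?_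
    rw [norm_smul, hb.norm, mul_one, Real.norm_eq_abs]
    have := hb.bd k x
    push_cast
    linarith

/-- the core spaces -/
def GG (w : ℕ → X) (M j : ℕ) : Submodule ℝ X := Submodule.span ℝ (w '' {l | j + 1 ≤ l ∧ l ≤ M})

/-- the decomposition at level `j` -/
noncomputable def decm (hb : Bio w χ) (M j : ℕ) (hj : j + 1 ≤ M) : Dec X where
  up :=
    { PZ := PP w χ j
      Yp := ContinuousLinearMap.id ℝ X - PP w χ (j + 1)
      n := w j
      nS := χ j
      G := GG w M j }
  Q := ContinuousLinearMap.id ℝ X - PP w χ (j + 2)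
  e := w (j + 1)
  eS := χ (j + 1)
  G' := GG w M (j + 1)
  hsum x := by
    show PP w χ j x + χ j x • w j + χ (j + 1) x • w (j + 1) + (x - PP w χ (j + 2) x) = x
    rw [PP_succ, PP_succ]; abel
  hY x := by
    show x - PP w χ (j + 1) x = χ (j + 1) x • w (j + 1) + (x - PP w χ (j + 2) x)
    rw [PP_succ (j + 1)]; abel
  PZPZ x := PP_PP_le hb le_rfl x
  PZn := PP_w_of_le hb le_rfl
  PZe := PP_w_of_le hb (by omega)
  PZQ x := by
    show PP w χ j (x - PP w χ (j + 2) x) = 0
    rw [map_sub, PP_PP_le hb (by omega), sub_self]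
  nSPZ x := χ_PP_of_le hb le_rfl x
  nSn := hb.one j
  nSe := hb.zero _ _ (by omega)
  nSQ x := by
    show χ j (x - PP w χ (j + 2) x) = 0
    rw [map_sub, χ_PP_of_lt hb (by omega), sub_self]
  eSPZ x := χ_PP_of_le hb (by omega) x
  eSn := hb.zero _ _ (by omega)
  eSe := hb.one _
  eSQ x := by
    show χ (j + 1) (x - PP w χ (j + 2) x) = 0
    rw [map_sub, χ_PP_of_lt hb (by omega), sub_self]
  QPZ x := by
    show PP w χ j x - PP w χ (j + 2) (PP w χ j x) = 0
    rw [PP_PP_ge hb (by omega), sub_self]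
  Qn := by
    show w j - PP w χ (j + 2) (w j) = 0
    rw [PP_succ, PP_succ, PP_w_of_le hb le_rfl, hb.one, hb.zero (j + 1) j (by omega)]
    simp
  Qe := by
    show w (j + 1) - PP w χ (j + 2) (w (j + 1)) = 0
    rw [PP_succ, PP_w_of_le hb le_rfl, hb.one]
    simp
  QQ x := by
    show (x - PP w χ (j + 2) x) - PP w χ (j + 2) (x - PP w χ (j + 2) x) = x - PP w χ (j + 2) x
    rw [map_sub, PP_PP_le hb le_rfl, sub_self, sub_zero]
  hG' := by
    apply Submodule.span_mono
    apply image_mono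
    intro l hl
    exact ⟨by have := hl.1; omega, hl.2⟩
  heG := by
    apply Submodule.subset_span
    exact ⟨j + 1, ⟨le_rfl, hj⟩, rfl⟩
  norm_n := hb.norm j
  norm_e := hb.norm (j + 1)

lemma decm_succ (hb : Bio w χ) (M j : ℕ) (hj : j + 1 ≤ M) (hj' : j + 1 + 1 ≤ M) :
    (decm hb M (j + 1) hj').up = (decm hb M j hj).down := rfl

lemma decm_bnd (hb : Bio w χ) (M j : ℕ) (hj : j + 1 ≤ M) {Cb : ℝ} (hC : 7 + 3 * (j : ℝ) ≤ Cb) :
    Bnd (decm hb M j hj) 3 Cb where
  one := by norm_num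
  le := by have : (0:ℝ) ≤ j := Nat.cast_nonneg j; linarith
  PZ x := by
    refine (norm_PP hb j x).trans (mul_le_mul_of_nonneg_right ?_ (norm_nonneg _))
    linarith
  nS x := hb.bd j x
  eS x := hb.bd (j + 1) x
  Q x := by
    show ‖x - PP w χ (j + 2) x‖ ≤ Cb * ‖x‖
    have h1 := norm_PP hb (j + 2) x
    push_cast at h1
    have h2 := norm_sub_le x (PP w χ (j + 2) x)
    have h3 := mul_le_mul_of_nonneg_right hC (norm_nonneg x)
    have h4 := norm_nonneg x
    nlinarith

/-- a family indexed by all levels -/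
noncomputable def fam (hb : Bio w χ) (M : ℕ) (hM : 1 ≤ M) (j : ℕ) : Dec X :=
  decm hb M (min j (M - 1)) (by omega)

lemma fam_eq (hb : Bio w χ) (M : ℕ) (hM : 1 ≤ M) (j : ℕ) (hj : j + 1 ≤ M) :
    fam hb M hM j = decm hb M j hj := by
  unfold fam
  congr 1
  omega

lemma fam_down (hb : Bio w χ) (M : ℕ) (hM : 1 ≤ M) (j : ℕ) (hj : j + 2 ≤ M) :
    (fam hb M hM (j + 1)).up = (fam hb M hM j).down := by
  rw [fam_eq hb M hM j (by omega), fam_eq hb M hM (j + 1) (by omega)]
  rfl

lemma pow_bound (i : ℕ) : 13 + 3 * (i : ℝ) ≤ 13 * 2 ^ i := by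
  induction i with
  | zero => norm_num
  | succ i ih =>
    rw [pow_succ]
    push_cast
    have : (1:ℝ) ≤ 2 ^ i := one_le_pow₀ (by norm_num)
    linarith

end

end Pool.Agent.H64.HB
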