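import Pool.Agent.H64.HBStep

/-!
# The fill step: flap, contraction, zoom
-/

set_option linter.unusedSectionVars false
set_option linter.unusedVariables false
set_option linter.deprecated false

open Set Metric

namespace Pool.Agent.H64.HB

variable {X : Type*} [NormedAddCommGroup X] [NormedSpace ℝ X]
variable {D : Dec X}

section down

lemma down_PZ (D : Dec X) (x : X) : D.down.PZ x = D.up.PZ x + D.up.nS x • D.up.n := by
  simp [Dec.down]

lemma down_Yp (D : Dec X) (x : X) : D.down.Yp x = D.Q x := rfl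
lemma down_nS (D : Dec X) (x : X) : D.down.nS x = D.eS x := rfl

lemma down_sum (D : Dec X) (x : X) : D.down.PZ x + D.eS x • D.e + D.Q x = x := by
  rw [down_PZ]; exact D.hsum x

lemma PZ_down (D : Dec X) (x : X) : D.up.PZ (D.down.PZ x) = D.up.PZ x := by
  rw [down_PZ, map_add, map_smul, D.PZn, D.PZPZ, smul_zero, add_zero]

lemma nS_down (D : Dec X) (x : X) : D.up.nS (D.down.PZ x) = D.up.nS x := by
  rw [down_PZ, map_add, map_smul, D.nSn, D.nSPZ, smul_eq_mul, mul_one, zero_add]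

lemma eS_down (D : Dec X) (x : X) : D.eS (D.down.PZ x) = 0 := by
  rw [down_PZ, map_add, map_smul, D.eSn, D.eSPZ, smul_zero, add_zero]

lemma Q_down (D : Dec X) (x : X) : D.Q (D.down.PZ x) = 0 := by
  rw [down_PZ, map_add, map_smul, D.Qn, D.QPZ, smul_zero, add_zero]

lemma down_down (D : Dec X) (x : X) : D.down.PZ (D.down.PZ x) = D.down.PZ x := by
  rw [down_PZ D (D.down.PZ x), PZ_down, nS_down, ← down_PZ]

lemma down_Q (D : Dec X) (x : X) : D.down.PZ (D.Q x) = 0 := by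
  rw [down_PZ, D.PZQ, D.nSQ, zero_smul, add_zero]

lemma down_e (D : Dec X) : D.down.PZ D.e = 0 := by
  rw [down_PZ, D.PZe, D.nSe, zero_smul, add_zero]

lemma norm_down (D : Dec X) {Ce Cb : ℝ} (hD : Bnd D Ce Cb) (x : X) :
    ‖D.down.PZ x‖ ≤ 2 * Cb * ‖x‖ := by
  rw [down_PZ]
  calc ‖D.up.PZ x + D.up.nS x • D.up.n‖ ≤ ‖D.up.PZ x‖ + ‖D.up.nS x • D.up.n‖ := norm_add_le _ _
    _ = ‖D.up.PZ x‖ + |D.up.nS x| := by
        rw [norm_smul, D.norm_n, mul_one, Real.norm_eq_abs]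
    _ ≤ Cb * ‖x‖ + Cb * ‖x‖ := add_le_add (hD.PZ x) ((hD.nS x).trans
        (mul_le_mul_of_nonneg_right hD.le (norm_nonneg _)))
    _ = _ := by ring

end down

/-- radius of the new box in the fixed directions -/
noncomputable def dl (Cb δ : ℝ) : ℝ := δ / (16 * (1 + Cb))

/-- the gauge -/
noncomputable def gg (D : Dec X) (Cb δ B : ℝ) (v : X) : ℝ :=
  max (max (‖D.down.PZ v‖ / dl Cb δ) (|D.eS v| / dl Cb δ)) (‖D.Q v‖ / (B - 4 * δ))

section
variable {Ce Cb δ B θ Lam L : ℝ}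

lemma dl_pos (h : Lev Ce Cb δ B θ Lam L) : 0 < dl Cb δ := by
  unfold dl
  have := h.C1
  have hCb1 := h.Cb1
  have hCC1 := h.CC
  exact div_pos h.δ0 (by linarith)

lemma dl_mul (h : Lev Ce Cb δ B θ Lam L) : (1 + Cb) * dl Cb δ = δ / 16 := by
  unfold dl
  have := h.C1
  have hCb1 := h.Cb1
  have hCC1 := h.CC
  have : 1 + Cb ≠ 0 := by linarith
  field_simp

lemma Cdl_le (h : Lev Ce Cb δ B θ Lam L) : Cb * dl Cb δ ≤ δ / 16 := by
  have h1 := dl_mul h
  have h2 := dl_pos h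
  nlinarith

lemma dl_le (h : Lev Ce Cb δ B θ Lam L) : dl Cb δ ≤ δ / 32 := by
  have h1 := dl_mul h
  have h2 := dl_pos h
  have h3 := h.C1
  have hCb1 := h.Cb1
  have hCC1 := h.CC
  nlinarith

lemma B8 (h : Lev Ce Cb δ B θ Lam L) : 8 ≤ B := by
  have := h.C1; have := h.B0; linarith

lemma gg_gauge (h : Lev Ce Cb δ B θ Lam L) (hD : Bnd D Ce Cb) :
    Gauge (gg D Cb δ B) (2 * Cb / dl Cb δ) B := by
  have hd := dl_pos h
  have hd2 := dl_le h
  have hB := B8 h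
  have hδ := h.δ0
  have hδ1 := h.δ1
  have hC := h.C1
  have hCb1 := h.Cb1
  have hCC1 := h.CC
  have hB4 : 0 < B - 4 * δ := by linarith
  constructor
  · intro v
    unfold gg
    exact le_max_of_le_right (div_nonneg (norm_nonneg _) hB4.le)
  · intro t v ht
    unfold gg
    rw [map_smul, map_smul, map_smul, norm_smul, norm_smul, smul_eq_mul, abs_mul,
      Real.norm_of_nonneg ht, abs_of_nonneg ht, mul_div_assoc, mul_div_assoc, mul_div_assoc,
      mul_max_of_nonneg _ _ ht, mul_max_of_nonneg _ _ ht]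
  · intro v w
    have hn := norm_nonneg (v - w)
    unfold gg
    refine (abs_max_sub_max_le_max _ _ _ _).trans (max_le ?_ ?_)
    · refine (abs_max_sub_max_le_max _ _ _ _).trans (max_le ?_ ?_)
      · rw [← sub_div, abs_div, abs_of_pos hd, div_mul_eq_mul_div]
        apply div_le_div_of_nonneg_right _ hd.le
        refine (abs_norm_sub_norm_le _ _).trans ?_
        rw [← map_sub]
        exact norm_down D hD _
      · rw [← sub_div, abs_div, abs_of_pos hd, div_mul_eq_mul_div]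
        apply div_le_div_of_nonneg_right _ hd.le
        refine (abs_abs_sub_abs_le _ _).trans ?_
        rw [← map_sub]
        refine (hD.eS _).trans (mul_le_mul_of_nonneg_right (by linarith) hn)
    · rw [← sub_div, abs_div, abs_of_pos hB4]
      have h1 : |‖D.Q v‖ - ‖D.Q w‖| ≤ 2 * Cb * ‖v - w‖ := by
        refine (abs_norm_sub_norm_le _ _).trans ?_
        rw [← map_sub]
        refine (hD.Q _).trans (mul_le_mul_of_nonneg_right (by linarith) hn)
      have h2 : dl Cb δ ≤ B - 4 * δ := by linarith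
      rw [div_mul_eq_mul_div]
      exact div_le_div₀ (by positivity) h1 hd h2
  · intro v
    have h1 : ‖D.down.PZ v‖ ≤ dl Cb δ * gg D Cb δ B v := by
      rw [mul_comm, ← div_le_iff₀ hd]
      exact le_max_of_le_left (le_max_left _ _)
    have h2 : |D.eS v| ≤ dl Cb δ * gg D Cb δ B v := by
      rw [mul_comm, ← div_le_iff₀ hd]
      exact le_max_of_le_left (le_max_right _ _)
    have h3 : ‖D.Q v‖ ≤ (B - 4 * δ) * gg D Cb δ B v := by
      rw [mul_comm, ← div_le_iff₀ hB4]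
      exact le_max_right _ _
    have h0 : 0 ≤ gg D Cb δ B v := by
      unfold gg
      exact le_max_of_le_right (div_nonneg (norm_nonneg _) hB4.le)
    calc ‖v‖ = ‖D.down.PZ v + D.eS v • D.e + D.Q v‖ := by rw [down_sum]
      _ ≤ ‖D.down.PZ v‖ + ‖D.eS v • D.e‖ + ‖D.Q v‖ := norm_add₃_le
      _ = ‖D.down.PZ v‖ + |D.eS v| + ‖D.Q v‖ := by
          rw [norm_smul, D.norm_e, mul_one, Real.norm_eq_abs]
      _ ≤ B * gg D Cb δ B v := by nlinarith
  · positivity
  · linarith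

lemma gg_le (h : Lev Ce Cb δ B θ Lam L) {v : X} {t : ℝ} (ht : gg D Cb δ B v ≤ t) :
    ‖D.down.PZ v‖ ≤ dl Cb δ * t ∧ |D.eS v| ≤ dl Cb δ * t ∧ ‖D.Q v‖ ≤ (B - 4 * δ) * t := by
  have hd := dl_pos h
  have hB := B8 h
  have hδ1 := h.δ1
  have hB4 : 0 < B - 4 * δ := by linarith
  refine ⟨?_, ?_, ?_⟩
  · rw [mul_comm, ← div_le_iff₀ hd]
    exact (le_max_of_le_left (le_max_left _ _)).trans ht
  · rw [mul_comm, ← div_le_iff₀ hd]
    exact (le_max_of_le_left (le_max_right _ _)).trans ht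
  · rw [mul_comm, ← div_le_iff₀ hB4]
    exact (le_max_right _ _).trans ht

lemma le_gg (h : Lev Ce Cb δ B θ Lam L) {v : X} {t : ℝ} (h1 : ‖D.down.PZ v‖ ≤ dl Cb δ * t)
    (h2 : |D.eS v| ≤ dl Cb δ * t) (h3 : ‖D.Q v‖ ≤ (B - 4 * δ) * t) : gg D Cb δ B v ≤ t := by
  have hd := dl_pos h
  have hB := B8 h
  have hδ1 := h.δ1
  have hB4 : 0 < B - 4 * δ := by linarith
  unfold gg
  refine max_le (max_le ?_ ?_) ?_
  · rw [div_le_iff₀ hd, mul_comm]; exact h1
  · rw [div_le_iff₀ hd, mul_comm]; exact h2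
  · rw [div_le_iff₀ hB4, mul_comm]; exact h3

/-- centre of the contraction -/
noncomputable def ctr (D : Dec X) (δ : ℝ) : X := (3 * δ / 8) • D.up.n

lemma coords_ctr (D : Dec X) (δ : ℝ) (v : X) :
    D.up.PZ (ctr D δ + v) = D.up.PZ v ∧ D.up.nS (ctr D δ + v) = 3 * δ / 8 + D.up.nS v ∧
    D.eS (ctr D δ + v) = D.eS v ∧ D.Q (ctr D δ + v) = D.Q v := by
  unfold ctr
  refine ⟨?_, ?_, ?_, ?_⟩
  · simp [D.PZn]
  · simp [D.nSn]
  · simp [D.eSn]
  · simp [D.Qn]

lemma mem_zone (h : Lev Ce Cb δ B θ Lam L) (hD : Bnd D Ce Cb) {v : X}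
    (hv : gg D Cb δ B v ≤ 1 + δ / B) : ctr D δ + v ∈ zone D (fillPar Ce δ B θ Lam) := by
  have hd := dl_pos h
  have hd2 := dl_le h
  have hd3 := Cdl_le h
  have hB := B8 h
  have hδ := h.δ0
  have hδ1 := h.δ1
  have hC := h.C1
  have hCb1 := h.Cb1
  have hCC1 := h.CC
  have hB0 : 0 < B := by linarith
  have hb : δ / B ≤ 1 / 8 := by rw [div_le_iff₀ hB0]; linarith
  have hb0 : 0 < δ / B := by positivity
  have hb2 : δ / B * B = δ := by field_simp
  obtain ⟨h1, h2, h3⟩ := gg_le h hv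
  obtain ⟨c1, c2, c3, c4⟩ := coords_ctr D δ v
  have h1' : ‖D.down.PZ v‖ ≤ 2 * dl Cb δ := by nlinarith
  have h2' : |D.eS v| ≤ 2 * dl Cb δ := by nlinarith
  have h3' : ‖D.Q v‖ ≤ B - 3 * δ := by nlinarith
  have h4 : ‖D.up.PZ v‖ ≤ δ / 8 := by
    rw [← PZ_down]
    refine (hD.PZ _).trans ?_
    nlinarith
  have h5 : |D.up.nS v| ≤ δ / 8 := by
    rw [← nS_down]
    refine (hD.nS _).trans ?_
    nlinarith
  obtain ⟨h6, h7⟩ := abs_le.mp h5
  refine ⟨?_, ?_, ?_, ?_, ?_, ?_⟩ <;> dsimp only [fillPar]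
  · rw [c1]; linarith
  · rw [c2]; linarith
  · rw [c2]; linarith
  · rw [c3]; linarith
  · rw [c2, c3]; linarith
  · rw [c4]; linarith

lemma zone_obox (h : Lev Ce Cb δ B θ Lam L) {x : X}
    (hx : x ∈ zone D (fillPar Ce δ B θ Lam)) : x ∈ D.up.obox δ δ B := by
  obtain ⟨h1, h2, h3, h4, h5, h6⟩ := hx
  dsimp only [fillPar] at h1 h2 h3 h4 h5 h6
  have hδ := h.δ0
  refine ⟨by linarith, by linarith, by linarith, ?_⟩
  rw [D.hY]
  calc ‖D.eS x • D.e + D.Q x‖ ≤ ‖D.eS x • D.e‖ + ‖D.Q x‖ := norm_add_le _ _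
    _ = |D.eS x| + ‖D.Q x‖ := by rw [norm_smul, D.norm_e, mul_one, Real.norm_eq_abs]
    _ < B := by linarith

lemma tau_obox (h : Lev Ce Cb δ B θ Lam L) {x : X}
    (hx : 0 < tau D (fillPar Ce δ B θ Lam) x) : x ∈ D.up.obox δ δ B := by
  obtain ⟨h1, _, h3⟩ := tau_pos_imp h.ok hx
  obtain ⟨h4, h5, h6, h7, _⟩ := of_bb_pos h.ok h3
  dsimp only [fillPar] at h4 h5 h6 h7
  refine ⟨h4, h1, h5, ?_⟩
  rw [D.hY]
  calc ‖D.eS x • D.e + D.Q x‖ ≤ ‖D.eS x • D.e‖ + ‖D.Q x‖ := norm_add_le _ _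
    _ = |D.eS x| + ‖D.Q x‖ := by rw [norm_smul, D.norm_e, mul_one, Real.norm_eq_abs]
    _ < B := by linarith

/-- the contraction factor and slope -/
noncomputable def cc (θ c' : ℝ) : ℝ := c' / (1 + 4 * θ)

noncomputable def ss (δ B θ c' : ℝ) : ℝ := (1 + δ / B - cc θ c') / (δ / B)

lemma prof (h : Lev Ce Cb δ B θ Lam L) {c' : ℝ} (hc : 0 < c') (hc1 : c' < 1) :
    Prof (cc θ c') (1 + δ / B) (ss δ B θ c') := by
  have hθ := h.θ0
  have hB := B8 h
  have hB0 : 0 < B := by linarith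
  have hb0 : 0 < δ / B := div_pos h.δ0 hB0
  have h14 : 1 < 1 + 4 * θ := by linarith
  constructor
  · unfold cc; positivity
  · unfold cc
    rw [div_lt_one (by linarith)]; linarith
  · linarith
  · unfold ss
    have : 1 + δ / B - 1 = δ / B := by ring
    rw [this, div_mul_cancel₀ _ hb0.ne']

lemma ss_le (h : Lev Ce Cb δ B θ Lam L) {c' : ℝ} (hc : 0 < c') (hc1 : c' < 1) :
    ss δ B θ c' ≤ L ^ 2 := by
  have hp := prof h hc hc1
  have hc0 := hp.c0
  have hB := B8 h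
  have hδ := h.δ0
  have hδ1 := h.δ1
  have hB0 : 0 < B := by linarith
  have hb0 : 0 < δ / B := div_pos hδ hB0
  have hb : δ / B ≤ 1 := by rw [div_le_one hB0]; linarith
  have hL := h.L8
  have h1 := h.Lδ
  have h2 := h.LB
  unfold ss
  rw [div_le_iff₀ hb0]
  have h3 : 2 ≤ L ^ 2 * (δ / B) := by
    have h4 : 2 * B ≤ L ^ 2 * δ := by
      calc 2 * B ≤ 8 * L := by linarith
        _ ≤ (L * δ) * L := mul_le_mul_of_nonneg_right h1 (by linarith)
        _ = _ := by ring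
    rw [← mul_div_assoc, le_div_iff₀ hB0]
    exact h4
  linarith

lemma gfac_le (h : Lev Ce Cb δ B θ Lam L) : 1 + 2 * B * (2 * Cb / dl Cb δ) ≤ L ^ 6 := by
  have hd := dl_pos h
  have hd1 := dl_mul h
  have hL := h.L8
  have h1 := h.Lδ
  have h2 := h.LB
  have h3 := h.LC
  have hC := h.C1
  have hCb1 := h.Cb1
  have hCC1 := h.CC
  have hδ := h.δ0
  have hB := B8 h
  -- 1 / dl = 16 (1 + Cb) / δ ≤ 4 L * L / 8
  have e1 : (dl Cb δ)⁻¹ ≤ L ^ 2 := by
    rw [inv_le_comm₀ hd (by positivity)]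
    unfold dl
    rw [inv_eq_one_div, div_le_div_iff₀ (by positivity) (by linarith)]
    calc 1 * (16 * (1 + Cb)) ≤ 4 * L := by linarith
      _ ≤ (L * δ) * L := by nlinarith
      _ = δ * L ^ 2 := by ring
  have e2 : 2 * B * (2 * Cb / dl Cb δ) ≤ L ^ 4 := by
    have : 2 * B * (2 * Cb / dl Cb δ) = (4 * Cb) * B * (dl Cb δ)⁻¹ := by
      rw [div_eq_mul_inv]; ring
    rw [this]
    have h4 : 4 * Cb * B ≤ L * L := by
      apply mul_le_mul _ h2 (by linarith) (by linarith)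
      linarith
    calc 4 * Cb * B * (dl Cb δ)⁻¹ ≤ (L * L) * L ^ 2 :=
          mul_le_mul h4 e1 (inv_nonneg.mpr hd.le) (by positivity)
      _ = _ := by ring
  have e3 : 1 + L ^ 4 ≤ L ^ 6 := by
    have : 1 ≤ L ^ 4 := one_le_pow₀ (by linarith)
    have h5 : L ^ 6 = L ^ 4 * (L * L) := by ring
    have h6 : 2 ≤ L * L := by nlinarith
    have h7 : L ^ 4 * 2 ≤ L ^ 4 * (L * L) := mul_le_mul_of_nonneg_left h6 (by positivity)
    rw [h5]
    linarith
  linarith

/-- the contraction -/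
noncomputable def phi (D : Dec X) (Cb δ B θ c' : ℝ) (x : X) : X :=
  ctr D δ + Rad (gg D Cb δ B) (mm (cc θ c') (1 + δ / B) (ss δ B θ c')) (x - ctr D δ)

/-- its inverse -/
noncomputable def psi (D : Dec X) (Cb δ B θ c' : ℝ) (x : X) : X :=
  ctr D δ + Rad (gg D Cb δ B) (mi (cc θ c') (1 + δ / B) (ss δ B θ c')) (x - ctr D δ)

lemma phi_psi (h : Lev Ce Cb δ B θ Lam L) (hD : Bnd D Ce Cb) {c' : ℝ} (hc : 0 < c') (hc1 : c' < 1)
    (x : X) : phi D Cb δ B θ c' (psi D Cb δ B θ c' x) = x := by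
  have hp := prof h hc hc1
  unfold phi psi
  rw [add_sub_cancel_left, Rad_Rad (gg_gauge h hD) (fun r hr => Prof.mi_nonneg hr) hp.mi_zero
    (fun r hr => hp.mm_mi hr) (fun r hr => Prof.mi_pos hr)]
  abel

lemma psi_phi (h : Lev Ce Cb δ B θ Lam L) (hD : Bnd D Ce Cb) {c' : ℝ} (hc : 0 < c') (hc1 : c' < 1)
    (x : X) : psi D Cb δ B θ c' (phi D Cb δ B θ c' x) = x := by
  have hp := prof h hc hc1
  unfold phi psi
  rw [add_sub_cancel_left, Rad_Rad (gg_gauge h hD) (fun r hr => hp.mm_nonneg hr) hp.mm_zero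
    (fun r hr => hp.mi_mm hr) (fun r hr => hp.mm_pos hr)]
  abel

lemma phi_lip (h : Lev Ce Cb δ B θ Lam L) (hD : Bnd D Ce Cb) {c' : ℝ} (hc : 0 < c') (hc1 : c' < 1)
    (x y : X) : ‖phi D Cb δ B θ c' x - phi D Cb δ B θ c' y‖ ≤ L ^ 8 * ‖x - y‖ := by
  have hp := prof h hc hc1
  have hL := h.L8
  have h1 := Rad_lip (gg_gauge h hD) (K := L ^ 2) (by positivity) hp.mm_zero
    (fun r s _ _ => (hp.mm_lip r s).trans
      (mul_le_mul_of_nonneg_right (ss_le h hc hc1) (abs_nonneg _))) (x - ctr D δ) (y - ctr D δ)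
  have e : phi D Cb δ B θ c' x - phi D Cb δ B θ c' y =
      Rad (gg D Cb δ B) (mm (cc θ c') (1 + δ / B) (ss δ B θ c')) (x - ctr D δ) -
      Rad (gg D Cb δ B) (mm (cc θ c') (1 + δ / B) (ss δ B θ c')) (y - ctr D δ) := by
    unfold phi; abel
  rw [e]
  refine h1.trans ?_
  rw [sub_sub_sub_cancel_right]
  apply mul_le_mul_of_nonneg_right _ (norm_nonneg _)
  calc L ^ 2 * (1 + 2 * B * (2 * Cb / dl Cb δ)) ≤ L ^ 2 * L ^ 6 :=
        mul_le_mul_of_nonneg_left (gfac_le h) (by positivity)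
    _ = _ := by ring

lemma inv_cc (h : Lev Ce Cb δ B θ Lam L) {c' : ℝ} (hc : 0 < c') : (cc θ c')⁻¹ ≤ L * c'⁻¹ := by
  unfold cc
  have := h.θ1
  have := h.θ0
  have := h.L8
  rw [inv_div, div_eq_mul_inv]
  exact mul_le_mul_of_nonneg_right (by linarith) (inv_nonneg.mpr hc.le)

lemma psi_lip (h : Lev Ce Cb δ B θ Lam L) (hD : Bnd D Ce Cb) {c' : ℝ} (hc : 0 < c') (hc1 : c' < 1)
    (x y : X) : ‖psi D Cb δ B θ c' x - psi D Cb δ B θ c' y‖ ≤ L ^ 7 / c' * ‖x - y‖ := by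
  have hp := prof h hc hc1
  have hL := h.L8
  have hi := inv_cc h hc
  have hc0 := hp.c0
  have h1 := Rad_lip (gg_gauge h hD) (K := L * c'⁻¹) (by positivity) hp.mi_zero
    (fun r s _ _ => (hp.mi_lip r s).trans
      (mul_le_mul_of_nonneg_right hi (abs_nonneg _))) (x - ctr D δ) (y - ctr D δ)
  have e : psi D Cb δ B θ c' x - psi D Cb δ B θ c' y =
      Rad (gg D Cb δ B) (mi (cc θ c') (1 + δ / B) (ss δ B θ c')) (x - ctr D δ) -
      Rad (gg D Cb δ B) (mi (cc θ c') (1 + δ / B) (ss δ B θ c')) (y - ctr D δ) := by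
    unfold psi; abel
  rw [e]
  refine h1.trans ?_
  rw [sub_sub_sub_cancel_right]
  apply mul_le_mul_of_nonneg_right _ (norm_nonneg _)
  calc L * c'⁻¹ * (1 + 2 * B * (2 * Cb / dl Cb δ)) ≤ L * c'⁻¹ * L ^ 6 :=
        mul_le_mul_of_nonneg_left (gfac_le h) (by positivity)
    _ = _ := by rw [div_eq_mul_inv]; ring

/-- outside the contracted region nothing happens -/
lemma phi_off (h : Lev Ce Cb δ B θ Lam L) (hD : Bnd D Ce Cb) {c' : ℝ} (hc : 0 < c') (hc1 : c' < 1)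
    {x : X} (hx : x ∉ D.up.obox δ δ B) : phi D Cb δ B θ c' x = x := by
  have hp := prof h hc hc1
  have h1 : 1 + δ / B ≤ gg D Cb δ B (x - ctr D δ) := by
    by_contra hcon
    push Not at hcon
    apply hx
    have := zone_obox h (mem_zone h hD hcon.le)
    rwa [add_sub_cancel] at this
  unfold phi
  rw [Rad_of_eq (gg_gauge h hD) (t := 1) (by rw [hp.mm_high h1, one_mul]), one_smul]
  abel

lemma psi_off (h : Lev Ce Cb δ B θ Lam L) (hD : Bnd D Ce Cb) {c' : ℝ} (hc : 0 < c') (hc1 : c' < 1)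
    {x : X} (hx : x ∉ D.up.obox δ δ B) : psi D Cb δ B θ c' x = x := by
  have := phi_off h hD hc hc1 hx
  calc psi D Cb δ B θ c' x = psi D Cb δ B θ c' (phi D Cb δ B θ c' x) := by rw [this]
    _ = x := psi_phi h hD hc hc1 x

lemma psi_box (h : Lev Ce Cb δ B θ Lam L) (hD : Bnd D Ce Cb) {c' : ℝ} (hc : 0 < c') (hc1 : c' < 1)
    {x : X} (hx : x ∈ D.up.box δ δ B) : psi D Cb δ B θ c' x ∈ D.up.box δ δ B := by
  have hp := prof h hc hc1
  have hg := gg_gauge (B := B) h hD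
  rcases le_total (gg D Cb δ B (x - ctr D δ)) (1 + δ / B) with h1 | h1
  · have h2 : gg D Cb δ B (Rad (gg D Cb δ B) (mi (cc θ c') (1 + δ / B) (ss δ B θ c'))
        (x - ctr D δ)) ≤ 1 + δ / B := by
      rw [g_Rad hg (fun r hr => Prof.mi_nonneg hr) hp.mi_zero]
      exact hp.mi_le_b (hg.nonneg _) h1
    exact D.up.obox_subset _ _ _ (zone_obox h (mem_zone h hD h2))
  · unfold psi
    rw [Rad_of_eq hg (t := 1) (by rw [hp.mi_high h1, one_mul]), one_smul, add_sub_cancel]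
    exact hx

/-- new box -/
noncomputable def dn (Cb δ : ℝ) : ℝ := δ / (32 * (1 + Cb))

lemma dn_eq (h : Lev Ce Cb δ B θ Lam L) : 2 * dn Cb δ = dl Cb δ := by
  unfold dn dl
  have := h.C1
  have hCb1 := h.Cb1
  have hCC1 := h.CC
  have : 1 + Cb ≠ 0 := by linarith
  field_simp
  ring

/-- scaling of the new box into the linear zone -/
lemma gg_new (h : Lev Ce Cb δ B θ Lam L) (hD : Bnd D Ce Cb) {w : X}
    (hw : w ∈ D.down.box (dn Cb δ) (dn Cb δ) (B - 5 * δ)) :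
    gg D Cb δ B ((1 + 4 * θ) • w) ≤ 1 := by
  obtain ⟨h1, h2, h3⟩ := hw
  rw [down_nS] at h2
  rw [down_Yp] at h3
  have hd := dl_pos h
  have e := dn_eq h
  have hθ := h.θ0
  have hθ1 := h.θ1
  have hθB := h.θB
  have hδ := h.δ0
  have hB := B8 h
  have ht : (0:ℝ) ≤ 1 + 4 * θ := by linarith
  apply le_gg h
  · rw [map_smul, norm_smul, Real.norm_of_nonneg ht]; nlinarith
  · rw [map_smul, smul_eq_mul, abs_mul, abs_of_nonneg ht]; nlinarith
  · rw [map_smul, norm_smul, Real.norm_of_nonneg ht]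
    have h4 : (1 + 4 * θ) * ‖D.Q w‖ ≤ (1 + 4 * θ) * (B - 5 * δ) :=
      mul_le_mul_of_nonneg_left h3 ht
    nlinarith

lemma psi_new (h : Lev Ce Cb δ B θ Lam L) (hD : Bnd D Ce Cb) {c' : ℝ} (hc : 0 < c') (hc1 : c' < 1)
    {w : X} (hw : w ∈ D.down.box (dn Cb δ) (dn Cb δ) (B - 5 * δ)) :
    psi D Cb δ B θ c' (ctr D δ + c' • w) = ctr D δ + (1 + 4 * θ) • w := by
  have hp := prof h hc hc1
  have hg := gg_gauge (B := B) h hD
  have hc0 := hp.c0
  have h1 := gg_new h hD hw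
  have hθ := h.θ0
  have ht : (0:ℝ) < 1 + 4 * θ := by linarith
  have e1 : c' • w = cc θ c' • ((1 + 4 * θ) • w) := by
    rw [smul_smul]; congr 1; unfold cc; field_simp
  have h2 : gg D Cb δ B (c' • w) ≤ cc θ c' := by
    rw [e1, hg.smul _ _ hc0.le]
    nlinarith [hg.nonneg ((1 + 4 * θ) • w)]
  unfold psi
  rw [add_sub_cancel_left, Rad_of_eq hg (t := (cc θ c')⁻¹) (hp.mi_low (hg.nonneg _) h2), e1,
    smul_smul, inv_mul_cancel₀ hc0.ne', one_smul]

lemma phi_new (h : Lev Ce Cb δ B θ Lam L) (hD : Bnd D Ce Cb) {c' : ℝ} (hc : 0 < c') (hc1 : c' < 1)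
    {u : X} (hu : gg D Cb δ B u ≤ 1) :
    phi D Cb δ B θ c' (ctr D δ + u) = ctr D δ + cc θ c' • u := by
  have hp := prof h hc hc1
  have hg := gg_gauge (B := B) h hD
  unfold phi
  rw [add_sub_cancel_left, Rad_of_eq hg (t := cc θ c') (hp.mm_low (hg.nonneg _) hu)]

lemma new_in_obox (h : Lev Ce Cb δ B θ Lam L) (hD : Bnd D Ce Cb) {c' : ℝ} (hc : 0 < c') (hc1 : c' < 1)
    {w : X} (hw : w ∈ D.down.box (dn Cb δ) (dn Cb δ) (B - 5 * δ)) :
    ctr D δ + c' • w ∈ D.up.obox δ δ B := by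
  have hg := gg_gauge (B := B) h hD
  have h1 := gg_new h hD hw
  have hθ := h.θ0
  have hB := B8 h
  have hδ := h.δ0
  have hb0 : 0 < δ / B := by positivity
  rw [hg.smul _ _ (by linarith)] at h1
  have h0 := hg.nonneg w
  apply zone_obox h
  apply mem_zone h hD
  rw [hg.smul _ _ hc.le]
  nlinarith

/-- straightness of the new sheet -/
lemma straight_new (h : Lev Ce Cb δ B θ Lam L) (hD : Bnd D Ce Cb) {c' : ℝ} (hc : 0 < c') (hc1 : c' < 1)
    (f : X → X) {s : ℝ} (hs : |s| = 1) :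
    D.down.Straight (4 * (1 + Ce) * Lam) (dn Cb δ) (dn Cb δ) (B - 5 * δ)
      (zin (ctr D δ) c' fun x => phi D Cb δ B θ c'
        (flap D (fillPar Ce δ B θ Lam) f s (psi D Cb δ B θ c' x))) s := by
  intro w hw hN
  have hg := gg_gauge (B := B) h hD
  have hp := prof h hc hc1
  have hθ := h.θ0
  have hB := B8 h
  have hδ := h.δ0
  have hb0 : 0 < δ / B := by positivity
  have ht : (0:ℝ) < 1 + 4 * θ := by linarith
  have h1 := gg_new h hD hw
  have hz := mem_zone h hD (v := (1 + 4 * θ) • w) (by linarith)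
  obtain ⟨z1, z2, z3, z4, z5, z6⟩ := hz
  obtain ⟨c1, c2, c3, c4⟩ := coords_ctr D δ ((1 + 4 * θ) • w)
  have hN' : 1 + 4 * (fillPar Ce δ B θ Lam).th ≤
      Np D (fillPar Ce δ B θ Lam) (ctr D δ + (1 + 4 * θ) • w) := by
    unfold Up.NG at hN
    rw [down_Yp] at hN
    unfold Np
    rw [c4, map_smul, norm_smul, Real.norm_of_nonneg ht.le]
    dsimp only [fillPar]
    have hsc : infDist ((1 + 4 * θ) • D.Q w) (D.G' : Set X) ≤
        (1 + 4 * θ) * infDist (D.Q w) (D.G' : Set X) := by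
      have : infDist ((1 + 4 * θ) • D.Q w) (D.G' : Set X) / (1 + 4 * θ) ≤
          infDist (D.Q w) (D.G' : Set X) := by
        rw [le_infDist ⟨0, D.G'.zero_mem⟩]
        intro g hgm
        rw [div_le_iff₀ ht]
        have hm : (1 + 4 * θ) • g ∈ (D.G' : Set X) := D.G'.smul_mem _ hgm
        refine (infDist_le_dist_of_mem hm).trans (le_of_eq ?_)
        rw [dist_smul₀, Real.norm_of_nonneg ht.le, mul_comm]
      rw [div_le_iff₀ ht] at this
      linarith
    have hL0 : 0 ≤ 4 * (1 + Ce) * Lam := by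
      have := h.C1; have := h.Lam0; positivity
    have h3 := mul_le_mul_of_nonneg_left hsc hL0
    have hN2 : 1 ≤ ‖D.Q w‖ - 4 * (1 + Ce) * Lam * infDist (D.Q w) (D.G' : Set X) := hN
    nlinarith
  have hn0 : 0 < D.up.nS (ctr D δ + (1 + 4 * θ) • w) := by
    dsimp only [fillPar] at z2
    linarith
  have hfl := flap_straight (f := f) (s := s) h.ok z1 hn0 z3 z4 z5 z6 hN'
  unfold zin
  beta_reduce
  rw [psi_new h hD hc hc1 hw, hfl, c1, c2, c4]
  have e1 : D.up.PZ ((1 + 4 * θ) • w) + (3 * δ / 8 + D.up.nS ((1 + 4 * θ) • w)) • D.up.n +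
      s • D.Q ((1 + 4 * θ) • w) =
      ctr D δ + (1 + 4 * θ) • (D.down.PZ w + s • D.Q w) := by
    unfold ctr
    rw [down_PZ, map_smul, map_smul, map_smul, smul_eq_mul]
    module
  rw [e1]
  have h2 : gg D Cb δ B ((1 + 4 * θ) • (D.down.PZ w + s • D.Q w)) ≤ 1 := by
    obtain ⟨g1, g2, g3⟩ := gg_le h h1
    apply le_gg h
    · rw [map_smul, map_add, down_down, map_smul, down_Q, smul_zero, add_zero, ← map_smul]
      exact g1
    · rw [map_smul, map_add, eS_down, map_smul, D.eSQ, smul_zero, add_zero, smul_zero, abs_zero]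
      have := dl_pos h
      positivity
    · rw [map_smul, map_add, Q_down, map_smul, D.QQ, zero_add, smul_comm, ← map_smul, norm_smul,
        Real.norm_eq_abs, hs, one_mul]
      exact g3
  rw [phi_new h hD hc hc1 h2, add_sub_cancel_left, smul_smul, smul_smul, down_Yp]
  have : c'⁻¹ * cc θ c' * (1 + 4 * θ) = 1 := by
    unfold cc
    field_simp
  rw [this, one_smul]

/-- The fill step. -/
theorem fill_step (h : Lev Ce Cb δ B θ Lam L) (hD : Bnd D Ce Cb) {c' lam : ℝ} (hc : 0 < c')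
    (hc1 : c' < 1) (hlam : 1 ≤ lam) {r T : X → X} (hs : State D.up Lam δ δ B lam r T) :
    ∃ r1 T1 : X → X, Pair r1 T1 ∧ (∀ x, x ∉ D.up.obox δ δ B → r1 x = r x) ∧
      (∀ x, x ∉ D.up.obox δ δ B → T1 x = T x) ∧
      (∀ x ∈ D.up.box δ δ B, ∀ y ∈ D.up.box δ δ B,
        ‖r1 x - r1 y‖ ≤ lam * L ^ 134 / c' * ‖x - y‖) ∧
      (∀ x ∈ D.up.box δ δ B, ∀ y ∈ D.up.box δ δ B,
        ‖T1 x - T1 y‖ ≤ lam * L ^ 134 / c' * ‖x - y‖) ∧
      State D.down (4 * (1 + Ce) * Lam) (dn Cb δ) (dn Cb δ) (B - 5 * δ) (L ^ 130 / c')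
        (zin (ctr D δ) c' r1) (zin (ctr D δ) c' T1) := by
  set P := fillPar Ce δ B θ Lam with hPdef
  have hP : P.OK := h.ok
  have hS : Size D P L := h.size hD
  have hF : Fill D P Ce := h.fill hD
  have hL := h.L8
  have hL0 : 0 < L := by linarith
  have hpair := pair_flap hP hs.pair hs.below
  have Lipb : ∀ (f : X → X) (s : ℝ), |s| = 1 → D.up.Straight Lam δ δ B f s →
      (∀ x ∈ D.up.box δ δ B, ∀ y ∈ D.up.box δ δ B, ‖f x - f y‖ ≤ lam * ‖x - y‖) →
      ∀ x ∈ D.up.box δ δ B, ∀ y ∈ D.up.box δ δ B,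
        ‖phi D Cb δ B θ c' (flap D P f s (psi D Cb δ B θ c' x)) -
          phi D Cb δ B θ c' (flap D P f s (psi D Cb δ B θ c' y))‖ ≤
          lam * L ^ 134 / c' * ‖x - y‖ := by
    intro f s hs1 hf hfl x hx y hy
    refine (phi_lip h hD hc hc1 _ _).trans ?_
    have h1 := flap_lip (f := f) (s := s) hP hS hs1.le hlam hf hfl _ (psi_box h hD hc hc1 hx) _
      (psi_box h hD hc hc1 hy)
    have h2 := psi_lip h hD hc hc1 x y
    calc L ^ 8 * ‖flap D P f s (psi D Cb δ B θ c' x) - flap D P f s (psi D Cb δ B θ c' y)‖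
        ≤ L ^ 8 * (lam * L ^ 119 * (L ^ 7 / c' * ‖x - y‖)) := by
          apply mul_le_mul_of_nonneg_left _ (by positivity)
          exact h1.trans (mul_le_mul_of_nonneg_left h2 (by positivity))
      _ = lam * L ^ 134 / c' * ‖x - y‖ := by ring
  have Offf : ∀ (f : X → X) (s : ℝ), (∀ x, r (f x) = f x) → ∀ x, x ∉ D.up.obox δ δ B →
      phi D Cb δ B θ c' (flap D P f s (psi D Cb δ B θ c' x)) = f x := by
    intro f s hrf x hx
    rw [psi_off h hD hc hc1 hx]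
    have h1 : tau D P x = 0 := by
      by_contra hne
      exact hx (tau_obox h (lt_of_le_of_ne (tau_nonneg x) (Ne.symm hne)))
    rw [flap_of_tau_zero h1]
    apply phi_off h hD hc hc1
    intro hm
    have h2 := hs.below (f x) (hrf x) (D.up.obox_subset _ _ _ hm)
    have h3 := hm.2.1
    linarith
  have Lipn : ∀ (f : X → X) (s : ℝ), |s| = 1 → D.up.Straight Lam δ δ B f s →
      ∀ x ∈ D.down.box (dn Cb δ) (dn Cb δ) (B - 5 * δ),
      ∀ y ∈ D.down.box (dn Cb δ) (dn Cb δ) (B - 5 * δ),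
        ‖zin (ctr D δ) c' (fun x => phi D Cb δ B θ c' (flap D P f s (psi D Cb δ B θ c' x))) x -
          zin (ctr D δ) c' (fun x => phi D Cb δ B θ c' (flap D P f s (psi D Cb δ B θ c' x))) y‖ ≤
          L ^ 130 / c' * ‖x - y‖ := by
    intro f s hs1 hf x hx y hy
    have hB := B8 h
    have hδ := h.δ0
    have hb0 : 0 < δ / B := by positivity
    have hθ := h.θ0
    have hθ1 := h.θ1
    have ht : (0:ℝ) < 1 + 4 * θ := by linarith
    have zx := mem_zone h hD (v := (1 + 4 * θ) • x) (by linarith [gg_new h hD hx])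
    have zy := mem_zone h hD (v := (1 + 4 * θ) • y) (by linarith [gg_new h hD hy])
    have h1 := flap_lip_zone (f := f) (s := s) hP hS hF hs1.le hf _ zx _ zy
    unfold zin
    beta_reduce
    rw [psi_new h hD hc hc1 hx, psi_new h hD hc hc1 hy, ← smul_sub, sub_sub_sub_cancel_right,
      norm_smul, Real.norm_of_nonneg (inv_nonneg.mpr hc.le)]
    have e : ctr D δ + (1 + 4 * θ) • x - (ctr D δ + (1 + 4 * θ) • y) = (1 + 4 * θ) • (x - y) := by
      module
    rw [e, norm_smul, Real.norm_of_nonneg ht.le] at h1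
    have h2 := (phi_lip h hD hc hc1 (flap D P f s (ctr D δ + (1 + 4 * θ) • x))
      (flap D P f s (ctr D δ + (1 + 4 * θ) • y))).trans
      (mul_le_mul_of_nonneg_left h1 (by positivity))
    calc _ ≤ c'⁻¹ * (L ^ 8 * (L ^ 121 * ((1 + 4 * θ) * ‖x - y‖))) :=
          mul_le_mul_of_nonneg_left h2 (inv_nonneg.mpr hc.le)
      _ = (1 + 4 * θ) * (L ^ 129 * c'⁻¹ * ‖x - y‖) := by ring
      _ ≤ L * (L ^ 129 * c'⁻¹ * ‖x - y‖) := by
          exact mul_le_mul_of_nonneg_right (by linarith) (mul_nonneg (mul_nonneg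
            (pow_nonneg hL0.le _) (inv_nonneg.mpr hc.le)) (norm_nonneg _))
      _ = _ := by rw [div_eq_mul_inv]; ring
  have a1 : |(1:ℝ)| = 1 := abs_one
  have a2 : |(-1:ℝ)| = 1 := by norm_num
  refine ⟨fun x => phi D Cb δ B θ c' (flap D P r 1 (psi D Cb δ B θ c' x)),
    fun x => phi D Cb δ B θ c' (flap D P T (-1) (psi D Cb δ B θ c' x)),
    hpair.conj (phi_psi h hD hc hc1) (psi_phi h hD hc hc1), Offf r 1 hs.pair.rr,
    Offf T (-1) hs.pair.rt, Lipb r 1 a1 hs.sr hs.lr, Lipb T (-1) a2 hs.sT hs.lT,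
    (hpair.conj (phi_psi h hD hc hc1) (psi_phi h hD hc hc1)).zin hc,
    straight_new h hD hc hc1 r a1, straight_new h hD hc hc1 T a2, ?_,
    Lipn r 1 a1 hs.sr, Lipn T (-1) a2 hs.sT⟩
  -- fixed points
  intro k hk hbox
  have hB := B8 h
  have hδ := h.δ0
  have hb0 : 0 < δ / B := by positivity
  have hθ := h.θ0
  have ht : (0:ℝ) < 1 + 4 * θ := by linarith
  have z := mem_zone h hD (v := (1 + 4 * θ) • k) (by linarith [gg_new h hD hbox])
  have hfix : flap D P r 1 (ctr D δ + (1 + 4 * θ) • k) = ctr D δ + (1 + 4 * θ) • k := by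
    have h1 : phi D Cb δ B θ c' (flap D P r 1 (psi D Cb δ B θ c' (ctr D δ + c' • k))) =
        ctr D δ + c' • k := by
      have h2 : zin (ctr D δ) c' (fun x => phi D Cb δ B θ c'
        (flap D P r 1 (psi D Cb δ B θ c' x))) k = k := hk
      unfold zin at h2
      have h3 := congrArg (fun v => ctr D δ + c' • v) h2
      simp only at h3
      rwa [zA hc] at h3
    rw [psi_new h hD hc hc1 hbox] at h1
    have h4 := congrArg (psi D Cb δ B θ c') h1
    rwa [psi_phi h hD hc hc1, psi_new h hD hc hc1 hbox] at h4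
  have hn : 0 < D.up.nS (ctr D δ + (1 + 4 * θ) • k) := (zone_obox h z).2.1
  have hz := below_flap hP hs.pair hs.below hfix (zone_subset_box hP z) hn
  rw [(coords_ctr D δ _).2.2.1, map_smul, smul_eq_mul] at hz
  have : D.eS k = 0 := by
    rcases mul_eq_zero.mp hz with h' | h'
    · exact absurd h' ht.ne'
    · exact h'
  rw [down_nS, this]

end

end Pool.Agent.H64.HB
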