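import Pool.Agent.H64.HBMain

/-!
# Property (H) for the unit ball of every infinite-dimensional normed space
-/

set_option linter.unusedSectionVars false
set_option linter.unusedVariables false
set_option linter.deprecated false

open Set Metric

namespace Pool.Agent.H64.HB

/-- Every infinite-dimensional real normed space: for all `α ∈ (0,1)` and `lam > 0` there is a
fixed point free self-map of the closed unit ball, all of whose iterates are `α`-Hölder with
constant `lam`, with minimal displacement zero. -/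
theorem strong_all (X : Type*) [NormedAddCommGroup X] [NormedSpace ℝ X]
    (h : ¬ FiniteDimensional ℝ X) (α : ℝ) (hα : 0 < α) (hα1 : α < 1) (lam : ℝ) (hlam : 0 < lam) :
    ∃ T : closedBall (0 : X) 1 → closedBall (0 : X) 1,
      (∀ n : ℕ, 1 ≤ n → ∀ x y : closedBall (0 : X) 1,
        ‖((T^[n] x : closedBall (0 : X) 1) : X) - (T^[n] y : closedBall (0 : X) 1)‖ ≤
          lam * ‖(x : X) - y‖ ^ α) ∧
      (∀ x : closedBall (0 : X) 1, T x ≠ x) ∧
      (⨅ x : closedBall (0 : X) 1, ‖(x : X) - T x‖) = 0 := by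
  obtain ⟨S, Mb, K, hK, hM, hS, hfix, hdisp⟩ := main h hα hα1
  have hM0 : 0 ≤ Mb := (norm_nonneg _).trans (hM 0)
  have h1α : 0 < 1 - α := by linarith
  set q : ℝ := (lam / (K + 1)) ^ (1 / (1 - α)) with hq
  have hq0 : 0 < q := Real.rpow_pos_of_pos (by positivity) _
  set ε : ℝ := min (1 / (Mb + 1)) q with hε
  have hε0 : 0 < ε := lt_min (by positivity) hq0
  have hεM : ε * Mb ≤ 1 := by
    have h1 : ε ≤ 1 / (Mb + 1) := min_le_left _ _
    have h2 : ε * (Mb + 1) ≤ 1 := by
      rwa [le_div_iff₀ (by linarith)] at h1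
    linarith
  have hε1 : ε ≤ 1 := by
    have h1 : ε ≤ 1 / (Mb + 1) := min_le_left _ _
    have h2 : 1 / (Mb + 1) ≤ 1 := by rw [div_le_one (by linarith)]; linarith
    linarith
  have hεK : ε ^ (1 - α) * K ≤ lam := by
    have h1 : ε ^ (1 - α) ≤ q ^ (1 - α) :=
      Real.rpow_le_rpow hε0.le (min_le_right _ _) h1α.le
    have h2 : q ^ (1 - α) = lam / (K + 1) := by
      rw [hq, ← Real.rpow_mul (by positivity), one_div_mul_cancel h1α.ne', Real.rpow_one]
    rw [h2] at h1
    calc ε ^ (1 - α) * K ≤ lam / (K + 1) * K := mul_le_mul_of_nonneg_right h1 hK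
      _ ≤ lam := by
          rw [div_mul_eq_mul_div, div_le_iff₀ (by linarith)]
          nlinarith
  set Tε : X → X := fun x => ε • S (ε⁻¹ • x) with hTε
  have hit : ∀ n : ℕ, ∀ x, Tε^[n] x = ε • (S^[n] (ε⁻¹ • x)) := by
    intro n
    induction n with
    | zero => intro x; simp [smul_smul, hε0.ne']
    | succ n ih =>
      intro x
      rw [Function.iterate_succ_apply', Function.iterate_succ_apply', ih]
      simp only [hTε]
      rw [smul_smul ε⁻¹ ε, inv_mul_cancel₀ hε0.ne', one_smul]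
  have hmaps : ∀ x : X, Tε x ∈ closedBall (0 : X) 1 := by
    intro x
    rw [mem_closedBall_zero_iff]
    simp only [hTε]
    rw [norm_smul, Real.norm_of_nonneg hε0.le]
    exact (mul_le_mul_of_nonneg_left (hM _) hε0.le).trans hεM
  set T : closedBall (0 : X) 1 → closedBall (0 : X) 1 := fun x => ⟨Tε x, hmaps x⟩ with hT
  have hTit : ∀ n : ℕ, ∀ x : closedBall (0 : X) 1,
      ((T^[n] x : closedBall (0 : X) 1) : X) = Tε^[n] x := by
    intro n
    induction n with
    | zero => intro x; rfl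
    | succ n ih =>
      intro x
      rw [Function.iterate_succ_apply', Function.iterate_succ_apply']
      simp only [hT]
      rw [ih]
  refine ⟨T, ?_, ?_, ?_⟩
  · intro n hn x y
    rw [hTit, hTit, hit, hit, ← smul_sub, norm_smul, Real.norm_of_nonneg hε0.le]
    have h1 := hS n hn (ε⁻¹ • (x : X)) (ε⁻¹ • (y : X))
    rw [← smul_sub, norm_smul, Real.norm_of_nonneg (inv_nonneg.mpr hε0.le)] at h1
    calc ε * ‖S^[n] (ε⁻¹ • (x : X)) - S^[n] (ε⁻¹ • (y : X))‖
        ≤ ε * (K * (ε⁻¹ * ‖(x : X) - y‖) ^ α) := mul_le_mul_of_nonneg_left h1 hε0.le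
      _ = ε ^ (1 - α) * K * ‖(x : X) - y‖ ^ α := zoom_holder hε0 (norm_nonneg _)
      _ ≤ lam * ‖(x : X) - y‖ ^ α :=
          mul_le_mul_of_nonneg_right hεK (Real.rpow_nonneg (norm_nonneg _) _)
  · intro x hx
    have h1 : Tε x = x := congrArg Subtype.val hx
    apply hfix (ε⁻¹ • (x : X))
    have h2 : ε⁻¹ • Tε (x : X) = ε⁻¹ • (x : X) := by rw [h1]
    simp only [hTε] at h2
    rwa [smul_smul, inv_mul_cancel₀ hε0.ne', one_smul] at h2
  · have hbdd : BddBelow (range fun x : closedBall (0 : X) 1 => ‖(x : X) - T x‖) :=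
      ⟨0, by rintro _ ⟨x, rfl⟩; exact norm_nonneg _⟩
    have : Nonempty (closedBall (0 : X) 1) := ⟨⟨0, by simp⟩⟩
    apply le_antisymm
    · apply le_of_forall_pos_lt_add
      intro d hd
      rw [zero_add]
      obtain ⟨x, hx1, hx2⟩ := hdisp d hd
      have hmem : ε • x ∈ closedBall (0 : X) 1 := by
        rw [mem_closedBall_zero_iff, norm_smul, Real.norm_of_nonneg hε0.le]
        exact (mul_le_mul_of_nonneg_left hx1 hε0.le).trans hεM
      refine lt_of_le_of_lt (ciInf_le hbdd ⟨ε • x, hmem⟩) ?_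
      show ‖ε • x - ε • S (ε⁻¹ • (ε • x))‖ < d
      rw [smul_smul ε⁻¹ ε, inv_mul_cancel₀ hε0.ne', one_smul, ← smul_sub, norm_smul,
        Real.norm_of_nonneg hε0.le]
      have h3 : ε * ‖x - S x‖ ≤ 1 * ‖x - S x‖ := mul_le_mul_of_nonneg_right hε1 (norm_nonneg _)
      linarith
    · exact le_ciInf fun x => norm_nonneg _

end Pool.Agent.H64.HB
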