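import Pool.Agent.H64.HBDec

/-!
# The flap step
-/

set_option linter.unusedSectionVars false

open Set Metric

namespace Pool.Agent.H64.HB

variable {X : Type*} [NormedAddCommGroup X] [NormedSpace ℝ X]
variable {D : Dec X} {P : Par}

lemma tt_ge_of_norm (hP : P.OK) {x : X} (h : ‖D.Q x‖ < 1 / 2) : 3 ≤ tt D P x := by
  have h1 := Np_le (D := D) hP x
  have h2 := Np_eq (D := D) hP x
  have hth := hP.th
  by_contra hc
  push Not at hc
  nlinarith

lemma norm_mu_Q (hP : P.OK) (x : X) : mu D P x * ‖D.Q x‖ ≤ max ‖D.Q x‖ P.rho := by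
  rcases lt_or_ge ‖D.Q x‖ (1 / 2) with h | h
  · have h1 := tt_ge_of_norm hP h
    have h2 : vth D P x = 0 := by
      unfold vth
      rw [cl_of_nonpos (by linarith : 3 - tt D P x ≤ 0)]
      exact min_eq_right (cl_nonneg _)
    have h3 : mu D P x = 1 := by unfold mu; rw [h2]; simp
    rw [h3, one_mul]
    exact le_max_left _ _
  · have hr : 0 < ‖D.Q x‖ := by linarith
    have h1 : max ‖D.Q x‖ (1 / 2) = ‖D.Q x‖ := max_eq_left h
    have h4 : 0 ≤ max 0 (P.rho * ‖D.Q x‖⁻¹ - 1) := le_max_left _ _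
    have h5 : P.om * sh D P x * vth D P x ≤ 1 := by
      refine mul_le_one₀ (mul_le_one₀ (om_mem hP).2 (sh_nonneg hP x) (sh_le_one x))
        (vth_nonneg x) (vth_le_one x)
    have h6 : mu D P x ≤ 1 + max 0 (P.rho * ‖D.Q x‖⁻¹ - 1) := by
      unfold mu
      rw [h1]
      have := mul_le_mul_of_nonneg_right h5 h4
      linarith
    calc mu D P x * ‖D.Q x‖ ≤ (1 + max 0 (P.rho * ‖D.Q x‖⁻¹ - 1)) * ‖D.Q x‖ :=
          mul_le_mul_of_nonneg_right h6 hr.le
      _ ≤ max ‖D.Q x‖ P.rho := by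
          rcases le_total (P.rho * ‖D.Q x‖⁻¹ - 1) 0 with h7 | h7
          · rw [max_eq_left h7]; simp
          · rw [max_eq_right h7]
            have : (1 + (P.rho * ‖D.Q x‖⁻¹ - 1)) * ‖D.Q x‖ = P.rho := by
              field_simp
              ring
            rw [this]
            exact le_max_right _ _

lemma abs_cn_le (hP : P.OK) (x : X) : |cn D P x| ≤ |D.up.nS x| := by
  unfold cn
  have h1 := sh_nonneg (D := D) hP x
  have h2 := sh_le_one (D := D) (P := P) x
  have h3 := tau_nonneg (D := D) (P := P) x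
  have h4 := tau_le_max (D := D) (P := P) x
  rw [abs_mul, abs_of_nonneg (by linarith : 0 ≤ 1 - sh D P x)]
  have h5 : |D.up.nS x - tau D P x| ≤ |D.up.nS x| := by
    rcases le_total (D.up.nS x) 0 with h | h
    · rw [tau_eq_zero_of_nonpos h, sub_zero]
    · rw [max_eq_right h] at h4
      rw [abs_of_nonneg h, abs_of_nonneg (by linarith)]
      linarith
  calc (1 - sh D P x) * |D.up.nS x - tau D P x| ≤ 1 * |D.up.nS x - tau D P x| :=
        mul_le_mul_of_nonneg_right (by linarith) (abs_nonneg _)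
    _ ≤ _ := by rw [one_mul]; exact h5

lemma Yp_AA (x : X) : D.up.Yp (AA D P x) = ce D P x • D.e + cq D P x • D.Q x := by
  obtain ⟨h1, h2, h3, h4⟩ := coords_AA (D := D) (P := P) x
  rw [D.hY, h3, h4]

lemma cq_of_sig_zero {x : X} (h : sig D P x = 0) : cq D P x = 1 := by
  unfold cq mu
  rw [sh_eq_zero h]
  simp

lemma ce_of_sig_zero {x : X} (h : sig D P x = 0) :
    ce D P x = soft (D.eS x) (P.al * tau D P x) := by
  unfold ce
  rw [sh_eq_zero h]
  simp

lemma cn_of_sig_zero {x : X} (h : sig D P x = 0) : cn D P x = D.up.nS x - tau D P x := by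
  unfold cn
  rw [sh_eq_zero h]
  simp

/-- `AA` maps the box to itself. -/
lemma AA_mem_box (hP : P.OK) {x : X} (hx : x ∈ D.up.box P.Bz P.Be P.By) :
    AA D P x ∈ D.up.box P.Bz P.Be P.By := by
  obtain ⟨hx1, hx2, hx3⟩ := hx
  obtain ⟨h1, h2, h3, h4⟩ := coords_AA (D := D) (P := P) x
  refine ⟨?_, ?_, ?_⟩
  · rw [h1]; exact hx1
  · rw [h2]; exact (abs_cn_le hP x).trans hx2
  · rw [Yp_AA]
    have hU := U_pos hP
    rcases eq_or_lt_of_le (sig_nonneg (D := D) (P := P) x) with h | h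
    · have h := h.symm
      rw [cq_of_sig_zero h, ce_of_sig_zero h, one_smul]
      rcases eq_or_lt_of_le (tau_nonneg (D := D) (P := P) x) with h' | h'
      · rw [← h', mul_zero, soft_zero, ← D.hY]; exact hx3
      · obtain ⟨_, _, h5⟩ := tau_pos_imp hP h'
        obtain ⟨_, _, _, h6, _⟩ := of_bb_pos hP h5
        obtain ⟨c, hc0, hc1, hc⟩ := soft_eq_mul (r := D.eS x) (mul_nonneg hP.al.le h'.le)
        rw [hc]
        have e : (c * D.eS x) • D.e + D.Q x = c • (D.up.Yp x) + (1 - c) • D.Q x := by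
          rw [D.hY]; module
        rw [e]
        calc ‖c • (D.up.Yp x) + (1 - c) • D.Q x‖ ≤ ‖c • (D.up.Yp x)‖ + ‖(1 - c) • D.Q x‖ :=
              norm_add_le _ _
          _ = c * ‖D.up.Yp x‖ + (1 - c) * ‖D.Q x‖ := by
              rw [norm_smul, norm_smul, Real.norm_of_nonneg hc0,
                Real.norm_of_nonneg (by linarith : 0 ≤ 1 - c)]
          _ ≤ c * P.By + (1 - c) * P.By :=
              add_le_add (mul_le_mul_of_nonneg_left hx3 hc0)
                (mul_le_mul_of_nonneg_left (by linarith) (by linarith))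
          _ = P.By := by ring
    · obtain ⟨h5, h6⟩ := sig_pos_imp hP h
      obtain ⟨_, _, h7⟩ := tau_pos_imp hP h5
      obtain ⟨_, _, _, h8, _⟩ := of_bb_pos hP h7
      obtain ⟨ha0, ha1⟩ := oms_mem (D := D) hP x
      have hs : soft (D.eS x) (P.al * tau D P x) = 0 := soft_zero_of_abs h6.le
      unfold ce cq
      rw [hs, zero_add]
      set a := P.om * sh D P x * thc D P x with ha
      have hm := norm_mu_Q (D := D) hP x
      have hmu := one_le_mu (D := D) hP x
      have hmax : max ‖D.Q x‖ P.rho ≤ P.By := max_le (by linarith) hP.rhoBy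
      calc ‖(a * P.R) • D.e + ((1 - a) * mu D P x) • D.Q x‖
          ≤ ‖(a * P.R) • D.e‖ + ‖((1 - a) * mu D P x) • D.Q x‖ := norm_add_le _ _
        _ = a * P.R + (1 - a) * (mu D P x * ‖D.Q x‖) := by
            rw [norm_smul, norm_smul, D.norm_e, Real.norm_of_nonneg (mul_nonneg ha0 hP.R),
              Real.norm_of_nonneg (mul_nonneg (by linarith) (by linarith))]
            ring
        _ ≤ a * P.By + (1 - a) * P.By :=
            add_le_add (mul_le_mul_of_nonneg_left hP.RBy ha0)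
              (mul_le_mul_of_nonneg_left (hm.trans hmax) (by linarith))
        _ = P.By := by ring

lemma AA_eq_self {x : X} (h : tau D P x = 0) : AA D P x = x := by
  have hs := sig_eq_zero_of_tau (D := D) (P := P) h
  unfold AA
  rw [cn_of_sig_zero hs, ce_of_sig_zero hs, cq_of_sig_zero hs, h, mul_zero, soft_zero, sub_zero,
    one_smul, D.hsum]

lemma flap_of_tau_zero {f : X → X} {s : ℝ} {x : X} (h : tau D P x = 0) :
    flap D P f s x = f x := by
  have hs := sig_eq_zero_of_tau (D := D) (P := P) h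
  unfold flap
  rw [if_neg (by rw [hs]; simp), AA_eq_self h]

/-- off the box the flap step does nothing -/
lemma flap_off_box (hP : P.OK) {f : X → X} {s : ℝ} {x : X}
    (hx : x ∉ D.up.box P.Bz P.Be P.By) : flap D P f s x = f x := by
  apply flap_of_tau_zero
  by_contra hne
  have h : 0 < tau D P x := lt_of_le_of_ne (tau_nonneg x) (Ne.symm hne)
  obtain ⟨h1, _, h3⟩ := tau_pos_imp hP h
  obtain ⟨h4, h5, h6, h7, _⟩ := of_bb_pos hP h3
  apply hx
  refine ⟨h4.le, ?_, ?_⟩
  · rw [abs_of_pos h1]; exact h5.le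
  · rw [D.hY]
    calc ‖D.eS x • D.e + D.Q x‖ ≤ ‖D.eS x • D.e‖ + ‖D.Q x‖ := norm_add_le _ _
      _ = |D.eS x| + ‖D.Q x‖ := by rw [norm_smul, D.norm_e, mul_one, Real.norm_eq_abs]
      _ ≤ P.By := by linarith

lemma NG_ge_Np (hP : P.OK) (x : X) : Np D P x ≤ D.up.NG P.Lam (D.Q x) := by
  unfold Np Up.NG
  have h1 : infDist (D.Q x) (D.up.G : Set X) ≤ infDist (D.Q x) (D.G' : Set X) :=
    infDist_le_infDist_of_subset D.hG' ⟨0, D.G'.zero_mem⟩
  have h2 : 0 ≤ infDist (D.Q x) (D.up.G : Set X) := infDist_nonneg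
  have h3 := mul_le_mul hP.Lam' h1 h2 (hP.Lam.trans hP.Lam')
  linarith

/-- the closed sets of the gluing -/
def C1 (D : Dec X) (P : Par) : Set X := {x | sig D P x ≤ 0} ∪ {x | 0 ≤ tt D P x}

def C2 (D : Dec X) (P : Par) : Set X :=
  {x | |D.eS x| ≤ P.al * tau D P x} ∩ {x | tt D P x ≤ 0} ∩ {x | ‖D.up.PZ x‖ ≤ P.Bz} ∩
    {x | 0 ≤ D.up.nS x} ∩ {x | D.up.nS x ≤ P.Be} ∩ {x | ‖D.Q x‖ ≤ P.By - 2 * P.U}

lemma continuous_tt : Continuous (tt D P) := by
  unfold tt Np
  have h : Continuous fun x => infDist (D.Q x) (D.G' : Set X) :=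
    (continuous_infDist_pt _).comp D.Q.continuous
  exact ((continuous_const.sub (D.Q.continuous.norm.sub (continuous_const.mul h)))).div_const _

lemma continuous_cl : Continuous cl := by unfold cl; fun_prop

lemma continuous_bb : Continuous (bb D P) := by
  unfold bb
  have h1 := continuous_tt (D := D) (P := P)
  have h2 := continuous_cl
  have k1 : Continuous fun x => cl (2 - 2 * ‖D.up.PZ x‖ / P.Bz) := h2.comp (by fun_prop)
  have k2 : Continuous fun x => cl (2 - 2 * D.up.nS x / P.Be) := h2.comp (by fun_prop)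
  have k3 : Continuous fun x => cl (2 - |D.eS x| / P.U) := h2.comp (by fun_prop)
  have k4 : Continuous fun x => cl ((P.By - 2 * P.U - ‖D.Q x‖) / P.ka) := h2.comp (by fun_prop)
  have k5 : Continuous fun x => cl (2 - tt D P x) := h2.comp (by fun_prop)
  exact (((k1.mul k2).mul k3).mul k4).mul (continuous_const.max k5)

lemma continuous_tau : Continuous (tau D P) := by
  unfold tau
  have := continuous_bb (D := D) (P := P)
  fun_prop

lemma continuous_sig : Continuous (sig D P) := by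
  unfold sig
  have := continuous_tau (D := D) (P := P)
  fun_prop

lemma isClosed_C1 : IsClosed (C1 D P) :=
  (isClosed_le continuous_sig continuous_const).union
    (isClosed_le continuous_const continuous_tt)

lemma isClosed_C2 : IsClosed (C2 D P) := by
  have ht := continuous_tt (D := D) (P := P)
  have hτ := continuous_tau (D := D) (P := P)
  unfold C2
  refine (((((?_ : IsClosed _).inter ?_).inter ?_).inter ?_).inter ?_).inter ?_
  · exact isClosed_le (by fun_prop) (by fun_prop)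
  · exact isClosed_le ht continuous_const
  · exact isClosed_le (by fun_prop) continuous_const
  · exact isClosed_le continuous_const (by fun_prop)
  · exact isClosed_le (by fun_prop) continuous_const
  · exact isClosed_le (by fun_prop) continuous_const

lemma not_C1_imp {x : X} (h : x ∉ C1 D P) : 0 < sig D P x ∧ tt D P x < 0 := by
  unfold C1 at h
  simp only [mem_union, mem_setOf_eq, not_or, not_le] at h
  exact h

lemma C2_of_pos (hP : P.OK) {x : X} (h : 0 < sig D P x) (h' : tt D P x ≤ 0) : x ∈ C2 D P := by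
  obtain ⟨h1, h2⟩ := sig_pos_imp hP h
  obtain ⟨h3, _, h5⟩ := tau_pos_imp hP h1
  obtain ⟨h6, h7, _, h8, _⟩ := of_bb_pos hP h5
  exact ⟨⟨⟨⟨⟨h2.le, h'⟩, h6.le⟩, h3.le⟩, h7.le⟩, h8.le⟩

lemma cover_C (hP : P.OK) : (univ : Set X) ⊆ C1 D P ∪ C2 D P := by
  intro x _
  by_cases h : x ∈ C1 D P
  · exact Or.inl h
  · obtain ⟨h1, h2⟩ := not_C1_imp h
    exact Or.inr (C2_of_pos hP h1 h2.le)

/-- on the nonpositive side of the exit parameter the argument is simple -/
lemma of_tt_nonpos {x : X} (h : tt D P x ≤ 0) : thc D P x = 0 ∧ mu D P x = 1 := by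
  have h1 : thc D P x = 0 := cl_of_nonpos (by linarith)
  have h2 : vth D P x = 0 := by
    unfold vth
    rw [cl_of_nonpos h]
    exact min_eq_left (cl_nonneg _)
  refine ⟨h1, ?_⟩
  unfold mu
  rw [h2]; simp

/-- agreement of the two formulas -/
lemma agree (hP : P.OK) {f : X → X} {s : ℝ}
    (hf : D.up.Straight P.Lam P.Bz P.Be P.By f s) {x : X} (h1 : x ∈ C1 D P) (h2 : x ∈ C2 D P) :
    f (AA D P x) = FP D P s x ∧ sig1 D P x = 0 := by
  obtain ⟨⟨⟨⟨⟨h3, h4⟩, h5⟩, h6⟩, h7⟩, h8⟩ := h2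
  simp only [mem_setOf_eq] at h3 h4 h5 h6 h7 h8
  obtain ⟨k1, k2⟩ := of_tt_nonpos h4
  have hce : ce D P x = 0 := by
    unfold ce; rw [k1, soft_zero_of_abs h3]; simp
  have hcq : cq D P x = 1 := by
    unfold cq; rw [k1, k2]; simp
  have hU := U_pos hP
  obtain ⟨c1, c2, c3, c4⟩ := coords_AA (D := D) (P := P) x
  have hY : D.up.Yp (AA D P x) = D.Q x := by rw [Yp_AA, hce, hcq]; simp
  have hbox : AA D P x ∈ D.up.box P.Bz P.Be P.By := by
    refine ⟨by rw [c1]; exact h5, ?_, ?_⟩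
    · rw [c2]
      refine (abs_cn_le hP x).trans ?_
      rw [abs_of_nonneg h6]; exact h7
    · rw [hY]; linarith
  have hNG : 1 ≤ D.up.NG P.Lam (D.up.Yp (AA D P x)) := by
    rw [hY]
    refine le_trans ?_ (NG_ge_Np hP x)
    rw [Np_eq hP]
    have := hP.th
    nlinarith
  have hs1 : sig1 D P x = 0 := by
    unfold sig1
    rcases h1 with h | h
    · have h : sig D P x = 0 := le_antisymm h (sig_nonneg x)
      rw [h]; exact min_eq_left (mul_nonneg hP.H.le (cl_nonneg _))
    · have h : tt D P x = 0 := le_antisymm h4 h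
      rw [h, neg_zero, cl_of_nonpos le_rfl, mul_zero]
      exact min_eq_right (sig_nonneg x)
  refine ⟨?_, hs1⟩
  rw [hf _ hbox hNG, hY, c1]
  unfold FP
  rw [hs1, zero_smul, add_zero]

lemma flap_of_C1 {f : X → X} {s : ℝ} {x : X} (h : x ∈ C1 D P) :
    flap D P f s x = f (AA D P x) := by
  unfold flap
  rw [if_neg]
  rintro ⟨h1, h2⟩
  rcases h with h | h
  · exact absurd h1 (not_lt.mpr h)
  · exact absurd h2 (not_lt.mpr h)

lemma flap_of_C2 (hP : P.OK) {f : X → X} {s : ℝ}
    (hf : D.up.Straight P.Lam P.Bz P.Be P.By f s) {x : X} (h : x ∈ C2 D P) :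
    flap D P f s x = FP D P s x := by
  by_cases h1 : x ∈ C1 D P
  · rw [flap_of_C1 h1]
    exact (agree hP hf h1 h).1
  · unfold flap
    rw [if_pos (not_C1_imp h1)]

/-! ### Sizes -/

/-- all quantities are controlled by `L` -/
structure Size (D : Dec X) (P : Par) (L : ℝ) : Prop where
  L2 : 2 ≤ L
  PZ : ∀ x, ‖D.up.PZ x‖ ≤ L * ‖x‖
  nS : ∀ x, |D.up.nS x| ≤ L * ‖x‖
  eS : ∀ x, |D.eS x| ≤ L * ‖x‖
  Q : ∀ x, ‖D.Q x‖ ≤ L * ‖x‖
  Bz : P.Bz ≤ L
  Be : P.Be ≤ L
  By : P.By ≤ L
  H : P.H ≤ L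
  al : P.al ≤ L
  Lam' : P.Lam' ≤ L
  rho : P.rho ≤ L
  R : P.R ≤ L
  iBz : P.Bz⁻¹ ≤ L
  iBe : P.Be⁻¹ ≤ L
  iU : P.U⁻¹ ≤ L
  ith : P.th⁻¹ ≤ L
  ika : P.ka⁻¹ ≤ L
  ih : P.h⁻¹ ≤ L
  ial : P.al⁻¹ ≤ L

section LBs

variable {L : ℝ}

lemma two_inv_le (hL : 2 ≤ L) {a : ℝ} (ha : a⁻¹ ≤ L) : 2 / a ≤ L ^ 2 := by
  rw [div_eq_mul_inv, pow_two]
  have : 2 * a⁻¹ ≤ 2 * L := by linarith
  nlinarith

lemma LB_PZ (hS : Size D P L) : LB L (D.up.box P.Bz P.Be P.By) (fun x => D.up.PZ x) 1 :=
  ⟨fun x hx => by rw [pow_one]; exact hx.1.trans hS.Bz, fun x _ y _ => by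
    rw [pow_one, ← map_sub]; exact hS.PZ _⟩

lemma LB_nS (hS : Size D P L) : LB L (D.up.box P.Bz P.Be P.By) (fun x => D.up.nS x) 1 :=
  ⟨fun x hx => by rw [pow_one]; exact hx.2.1.trans hS.Be, fun x _ y _ => by
    rw [pow_one, ← map_sub]; exact hS.nS _⟩

lemma eS_Yp (x : X) : D.eS (D.up.Yp x) = D.eS x := by
  rw [D.hY]; simp [D.eSe, D.eSQ]

lemma Q_Yp (x : X) : D.Q (D.up.Yp x) = D.Q x := by
  rw [D.hY]; simp [D.Qe, D.QQ]

lemma LB_eS (hS : Size D P L) : LB L (D.up.box P.Bz P.Be P.By) (fun x => D.eS x) 2 := by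
  have hL := hS.L2
  refine ⟨fun x hx => ?_, fun x _ y _ => ?_⟩
  · dsimp only
    rw [← eS_Yp, Real.norm_eq_abs, pow_two]
    exact (hS.eS _).trans (mul_le_mul_of_nonneg_left (hx.2.2.trans hS.By) (by linarith))
  · rw [← map_sub]
    refine (hS.eS _).trans (mul_le_mul_of_nonneg_right ?_ (norm_nonneg _))
    simpa using LB.pow_le hL (show 1 ≤ 2 by norm_num)

lemma LB_Q (hS : Size D P L) : LB L (D.up.box P.Bz P.Be P.By) (fun x => D.Q x) 2 := by
  have hL := hS.L2
  refine ⟨fun x hx => ?_, fun x _ y _ => ?_⟩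
  · dsimp only
    rw [← Q_Yp, pow_two]
    exact (hS.Q _).trans (mul_le_mul_of_nonneg_left (hx.2.2.trans hS.By) (by linarith))
  · rw [← map_sub]
    refine (hS.Q _).trans (mul_le_mul_of_nonneg_right ?_ (norm_nonneg _))
    simpa using LB.pow_le hL (show 1 ≤ 2 by norm_num)

lemma LB_tt (hP : P.OK) (hS : Size D P L) :
    LB L (D.up.box P.Bz P.Be P.By) (fun x => tt D P x) 8 := by
  have hL := hS.L2
  have hQ := LB_Q hS
  have h1 : LB L (D.up.box P.Bz P.Be P.By) (fun x => infDist (D.Q x) (D.G' : Set X)) 2 := by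
    refine ⟨fun x hx => ?_, fun x hx y hy => ?_⟩
    · rw [Real.norm_of_nonneg infDist_nonneg]
      have : infDist (D.Q x) (D.G' : Set X) ≤ dist (D.Q x) 0 := infDist_le_dist_of_mem D.G'.zero_mem
      rw [dist_zero_right] at this
      exact this.trans (hQ.1 x hx)
    · rw [Real.norm_eq_abs]
      have h2 : |infDist (D.Q x) (D.G' : Set X) - infDist (D.Q y) (D.G' : Set X)| ≤
          dist (D.Q x) (D.Q y) := by
        rw [abs_sub_le_iff]
        constructor
        · have := infDist_le_infDist_add_dist (s := (D.G' : Set X)) (x := D.Q x) (y := D.Q y)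
          linarith
        · have := infDist_le_infDist_add_dist (s := (D.G' : Set X)) (x := D.Q y) (y := D.Q x)
          rw [dist_comm (D.Q y)] at this
          linarith
      rw [dist_eq_norm] at h2
      exact h2.trans (hQ.2 x hx y hy)
  have hLam : 0 ≤ P.Lam' := hP.Lam.trans hP.Lam'
  have h3 := LB.mul hL (LB.constR (S := D.up.box P.Bz P.Be P.By) (k := 1) hL hLam
    (by simpa using hS.Lam')) h1
  have h4 := LB.sub hL hQ.norm h3
  have h5 := LB.sub hL (LB.constR (S := D.up.box P.Bz P.Be P.By) (k := 1) hL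
    (c := 1 + 3 * P.th) (by have := hP.th; linarith) (by have := hP.th'; rw [pow_one]; linarith)) h4
  have h6 := LB.mul hL h5 (LB.constR (S := D.up.box P.Bz P.Be P.By) (k := 1) hL
    (c := P.th⁻¹) (inv_nonneg.mpr hP.th.le) (by simpa using hS.ith))
  refine (h6.mono hL (by norm_num)).congr fun x _ => ?_
  unfold tt Np
  rw [div_eq_mul_inv]

lemma LB_bb (hP : P.OK) (hS : Size D P L) :
    LB L (D.up.box P.Bz P.Be P.By) (fun x => bb D P x) 33 := by
  have hL := hS.L2
  set S := D.up.box P.Bz P.Be P.By with hSdef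
  have hU := U_pos hP
  have c2 : LB L S (fun _ => (2:ℝ)) 1 := LB.constR hL (by norm_num) (by simpa using hL)
  have b1 : LB L S (fun x => cl (2 - 2 * ‖D.up.PZ x‖ / P.Bz)) 5 := by
    have h := LB.mul hL (LB_PZ hS).norm (LB.constR (S := S) (k := 2) hL (c := 2 / P.Bz)
      (by have := hP.Bz; positivity) (two_inv_le hL hS.iBz))
    have h2 := (LB.sub hL c2 h).cl hL
    refine (h2.mono hL (by norm_num)).congr fun x _ => ?_
    congr 2; ring
  have b2 : LB L S (fun x => cl (2 - 2 * D.up.nS x / P.Be)) 5 := by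
    have h := LB.mul hL (LB_nS hS) (LB.constR (S := S) (k := 2) hL (c := 2 / P.Be)
      (by have := hP.Be; positivity) (two_inv_le hL hS.iBe))
    have h2 := (LB.sub hL c2 h).cl hL
    refine (h2.mono hL (by norm_num)).congr fun x _ => ?_
    congr 2; ring
  have b3 : LB L S (fun x => cl (2 - |D.eS x| / P.U)) 5 := by
    have h := LB.mul hL (LB_eS hS).abs (LB.constR (S := S) (k := 1) hL (c := P.U⁻¹)
      (by positivity) (by simpa using hS.iU))
    exact ((LB.sub hL c2 h).cl hL).mono hL (by norm_num)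
  have b4 : LB L S (fun x => cl ((P.By - 2 * P.U - ‖D.Q x‖) / P.ka)) 5 := by
    have hB : 0 ≤ P.By - 2 * P.U := by have := hP.By; have := hP.ka; linarith
    have h := LB.sub hL (LB.constR (S := S) (k := 1) hL (c := P.By - 2 * P.U) hB
      (by rw [pow_one]; have := hS.By; linarith)) (LB_Q hS).norm
    have h2 := LB.mul hL h (LB.constR (S := S) (k := 1) hL (c := P.ka⁻¹)
      (inv_nonneg.mpr hP.ka.le) (by simpa using hS.ika))
    exact (h2.cl hL).mono hL (by norm_num)
  have b5 : LB L S (fun x => max P.om (cl (2 - tt D P x))) 9 := by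
    have h := (LB.sub hL c2 (LB_tt hP hS)).cl hL
    have h2 := LB.max hL (LB.constR (S := S) (k := 0) hL (om_mem hP).1
      (by simpa using (om_mem hP).2)) h
    exact h2.mono hL (by norm_num)
  have := LB.mul hL (LB.mul hL (LB.mul hL (LB.mul hL b1 b2) b3) b4) b5
  exact (this.mono hL (by norm_num)).congr fun x _ => rfl

lemma LB_tau (hP : P.OK) (hS : Size D P L) :
    LB L (D.up.box P.Bz P.Be P.By) (fun x => tau D P x) 35 := by
  have hL := hS.L2
  have h := LB.mul hL (LB.constR (S := D.up.box P.Bz P.Be P.By) (k := 1) hL hP.H.le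
    (by simpa using hS.H)) (LB_bb hP hS)
  have h2 := LB.max hL (LB.constR (S := D.up.box P.Bz P.Be P.By) (k := 0) hL (c := 0) le_rfl
    (by simp)) (LB.min hL (LB_nS hS) h)
  exact (h2.mono hL (by norm_num)).congr fun x _ => rfl

lemma LB_sig (hP : P.OK) (hS : Size D P L) :
    LB L (D.up.box P.Bz P.Be P.By) (fun x => sig D P x) 38 := by
  have hL := hS.L2
  have hal := hP.al
  set S := D.up.box P.Bz P.Be P.By with hSdef
  have c2 : LB L S (fun _ => (2:ℝ)) 1 := LB.constR hL (by norm_num) (by simpa using hL)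
  have h1 := LB.mul hL c2 (LB_tau hP hS)
  have h2 := LB.mul hL (LB_eS hS).abs (LB.constR (S := S) (k := 2) hL (c := 2 / P.al)
      (by positivity) (two_inv_le hL hS.ial))
  have h3 := LB.max hL (LB.constR (S := S) (k := 0) hL (c := 0) le_rfl
    (by simp)) (LB.min hL (LB_tau hP hS) (LB.sub hL h1 h2))
  refine (h3.mono hL (by norm_num)).congr fun x _ => ?_
  unfold sig
  congr 2; ring

lemma LB_sh (hP : P.OK) (hS : Size D P L) :
    LB L (D.up.box P.Bz P.Be P.By) (fun x => sh D P x) 40 := by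
  have hL := hS.L2
  set S := D.up.box P.Bz P.Be P.By with hSdef
  have h := LB.mul hL (LB_sig hP hS) (LB.constR (S := S) (k := 1) hL (c := P.h⁻¹)
    (inv_nonneg.mpr hP.h.le) (by simpa using hS.ih))
  have h1 := LB.min hL h (LB.constR (S := S) (k := 0) hL (c := 1) zero_le_one (by simp))
  exact (h1.mono hL (by norm_num)).congr fun x _ => rfl

lemma LB_sig1 (hP : P.OK) (hS : Size D P L) :
    LB L (D.up.box P.Bz P.Be P.By) (fun x => sig1 D P x) 38 := by
  have hL := hS.L2
  set S := D.up.box P.Bz P.Be P.By with hSdef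
  have h := LB.mul hL (LB.constR (S := S) (k := 1) hL hP.H.le (by simpa using hS.H))
    ((LB_tt hP hS).neg.cl hL)
  have h1 := LB.min hL (LB_sig hP hS) h
  exact (h1.mono hL (by norm_num)).congr fun x _ => rfl

lemma LB_FP (hP : P.OK) (hS : Size D P L) {s : ℝ} (hs : |s| ≤ 1) :
    LB L (D.up.box P.Bz P.Be P.By) (fun x => FP D P s x) 41 := by
  have hL := hS.L2
  set S := D.up.box P.Bz P.Be P.By with hSdef
  have h1 := LB.smul hL (LB_sig1 hP hS) (LB.const (S := S) (k := 0) hL (c := D.up.n)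
    (by rw [D.norm_n]; simp))
  have h2 := LB.smul hL (LB.const (S := S) (k := 0) hL (c := s)
    (by rw [Real.norm_eq_abs]; simpa using hs)) (LB_Q hS)
  have h3 := LB.add hL (LB.add hL (LB_PZ hS) h1) h2
  exact (h3.mono hL (by norm_num)).congr fun x _ => rfl

lemma LB_thc (hP : P.OK) (hS : Size D P L) :
    LB L (D.up.box P.Bz P.Be P.By) (fun x => thc D P x) 9 := by
  have hL := hS.L2
  have h := (LB.sub hL (LB_tt hP hS) (LB.constR (S := D.up.box P.Bz P.Be P.By) (k := 0) hL
    (c := 1) zero_le_one (by simp))).cl hL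
  exact (h.mono hL (by norm_num)).congr fun x _ => rfl

lemma LB_vth (hP : P.OK) (hS : Size D P L) :
    LB L (D.up.box P.Bz P.Be P.By) (fun x => vth D P x) 9 := by
  have hL := hS.L2
  have h3 : (3:ℝ) ≤ L ^ 2 := by nlinarith
  have h := (LB.sub hL (LB.constR (S := D.up.box P.Bz P.Be P.By) (k := 2) hL
    (c := 3) (by norm_num) h3) (LB_tt hP hS)).cl hL
  have h2 := LB.min hL ((LB_tt hP hS).cl hL) h
  exact (h2.mono hL (by norm_num)).congr fun x _ => rfl

lemma LB_mufac (hP : P.OK) (hS : Size D P L) :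
    LB L (D.up.box P.Bz P.Be P.By)
      (fun x => max 0 (P.rho * (max ‖D.Q x‖ (1 / 2))⁻¹ - 1)) 7 := by
  have hL := hS.L2
  set S := D.up.box P.Bz P.Be P.By with hSdef
  have h1 : LB L S (fun x => (max ‖D.Q x‖ (1 / 2))⁻¹) 4 := by
    have := LB.max hL (LB_Q hS).norm (LB.constR (S := S) (k := 0) hL (c := 1 / 2) (by norm_num)
      (by norm_num))
    have := LB.inv hL this (fun x _ => le_max_right _ _)
    exact this.mono hL (by norm_num)
  have h2 := LB.mul hL (LB.constR (S := S) (k := 1) hL hP.rho (by simpa using hS.rho)) h1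
  have h3 := LB.sub hL h2 (LB.constR (S := S) (k := 0) hL (c := 1) zero_le_one (by simp))
  have h4 := LB.max hL (LB.constR (S := S) (k := 0) hL (c := 0) le_rfl (by simp)) h3
  exact h4.mono hL (by norm_num)

lemma LB_omsh (hP : P.OK) (hS : Size D P L) :
    LB L (D.up.box P.Bz P.Be P.By) (fun x => P.om * sh D P x) 41 := by
  have hL := hS.L2
  have := LB.mul hL (LB.constR (S := D.up.box P.Bz P.Be P.By) (k := 0) hL (om_mem hP).1
      (by simpa using (om_mem hP).2)) (LB_sh hP hS)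
  exact this.mono hL (by norm_num)

lemma LB_cq (hP : P.OK) (hS : Size D P L) :
    LB L (D.up.box P.Bz P.Be P.By) (fun x => cq D P x) 113 := by
  have hL := hS.L2
  set S := D.up.box P.Bz P.Be P.By with hSdef
  have c1 : LB L S (fun _ => (1:ℝ)) 0 := LB.constR hL zero_le_one (by simp)
  have h1 := LB.sub hL c1 (LB.mul hL (LB_omsh hP hS) (LB_thc hP hS))
  have h2 := LB.add hL c1 (LB.mul hL (LB.mul hL (LB_omsh hP hS) (LB_vth hP hS)) (LB_mufac hP hS))
  have h3 := LB.mul hL h1 h2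
  exact (h3.mono hL (by norm_num)).congr fun x _ => rfl

lemma LB_ce (hP : P.OK) (hS : Size D P L) :
    LB L (D.up.box P.Bz P.Be P.By) (fun x => ce D P x) 54 := by
  have hL := hS.L2
  set S := D.up.box P.Bz P.Be P.By with hSdef
  have h1 := LB.mul hL (LB.constR (S := S) (k := 1) hL hP.al.le (by simpa using hS.al))
    (LB_tau hP hS)
  have h2 := LB.sub hL (LB_eS hS) (LB.max hL h1.neg (LB.min hL h1 (LB_eS hS)))
  have h3 := LB.mul hL (LB.mul hL (LB_omsh hP hS) (LB_thc hP hS))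
    (LB.constR (S := S) (k := 1) hL hP.R (by simpa using hS.R))
  have h4 := LB.add hL h2 h3
  exact (h4.mono hL (by norm_num)).congr fun x _ => rfl

lemma LB_cn (hP : P.OK) (hS : Size D P L) :
    LB L (D.up.box P.Bz P.Be P.By) (fun x => cn D P x) 78 := by
  have hL := hS.L2
  set S := D.up.box P.Bz P.Be P.By with hSdef
  have c1 : LB L S (fun _ => (1:ℝ)) 0 := LB.constR hL zero_le_one (by simp)
  have h1 := LB.sub hL c1 (LB_sh hP hS)
  have h2 := LB.sub hL (LB_nS hS) (LB_tau hP hS)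
  have h3 := LB.mul hL h1 h2
  exact (h3.mono hL (by norm_num)).congr fun x _ => rfl

lemma LB_AA (hP : P.OK) (hS : Size D P L) :
    LB L (D.up.box P.Bz P.Be P.By) (fun x => AA D P x) 118 := by
  have hL := hS.L2
  set S := D.up.box P.Bz P.Be P.By with hSdef
  have h1 := LB.smul hL (LB_cn hP hS) (LB.const (S := S) (k := 0) hL (c := D.up.n)
    (by rw [D.norm_n]; simp))
  have h2 := LB.smul hL (LB_ce hP hS) (LB.const (S := S) (k := 0) hL (c := D.e)
    (by rw [D.norm_e]; simp))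
  have h3 := LB.smul hL (LB_cq hP hS) (LB_Q hS)
  have h4 := LB.add hL (LB.add hL (LB.add hL (LB_PZ hS) h1) h2) h3
  exact (h4.mono hL (by norm_num)).congr fun x _ => rfl

/-- Lipschitz estimate for the flap step on the box. -/
theorem flap_lip (hP : P.OK) (hS : Size D P L) {f : X → X} {s lam : ℝ} (hs : |s| ≤ 1)
    (hlam : 1 ≤ lam) (hf : D.up.Straight P.Lam P.Bz P.Be P.By f s)
    (hfl : ∀ x ∈ D.up.box P.Bz P.Be P.By, ∀ y ∈ D.up.box P.Bz P.Be P.By,
      ‖f x - f y‖ ≤ lam * ‖x - y‖) :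
    ∀ x ∈ D.up.box P.Bz P.Be P.By, ∀ y ∈ D.up.box P.Bz P.Be P.By,
      ‖flap D P f s x - flap D P f s y‖ ≤ lam * L ^ 119 * ‖x - y‖ := by
  have hL := hS.L2
  have hp := LB.one_le_pow hL 118
  have hp41 := LB.one_le_pow hL 41
  refine glue_lip (g1 := fun x => f (AA D P x)) (g2 := fun x => FP D P s x)
    (D.up.box_convex _ _ _) isClosed_C1 isClosed_C2 ((subset_univ _).trans (cover_C hP))
    (fun x _ h => flap_of_C1 h) (fun x _ h => flap_of_C2 hP hf h)
    (K1 := lam * L ^ 118) (K2 := L ^ 41) (by positivity) (by positivity) ?_ ?_ ?_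
  · have h1 := LB.two_pow hL 118
    have h2 := LB.pow_le hL (show 41 ≤ 118 by norm_num)
    have h3 : L ^ 41 ≤ lam * L ^ 118 := by nlinarith
    have h4 : lam * (2 * L ^ 118) ≤ lam * L ^ 119 := mul_le_mul_of_nonneg_left h1 (by linarith)
    linarith
  · intro x hx y hy _ _
    refine (hfl _ (AA_mem_box hP hx) _ (AA_mem_box hP hy)).trans ?_
    rw [mul_assoc]
    exact mul_le_mul_of_nonneg_left ((LB_AA hP hS).2 x hx y hy) (by linarith)
  · intro x hx y hy _ _
    exact (LB_FP hP hS hs).2 x hx y hy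

end LBs

end Pool.Agent.H64.HB
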