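import Pool.Agent.H64.HBLeg

/-!
# Gluing infinitely many legs
-/

set_option linter.unusedSectionVars false
set_option linter.unusedVariables false
set_option linter.deprecated false

open Set Metric

namespace Pool.Agent.H64.HB

variable {X : Type*} [NormedAddCommGroup X] [NormedSpace ℝ X]

open Classical in
/-- patch the maps `f m` on the sets `O m` -/
noncomputable def patch (O : ℕ → Set X) (f : ℕ → X → X) (f₀ : X → X) (x : X) : X :=
  if h : ∃ m, x ∈ O m then f h.choose x else f₀ x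

lemma patch_of_mem {O : ℕ → Set X} (hd : ∀ m m', m ≠ m' → Disjoint (O m) (O m'))
    (f : ℕ → X → X) (f₀ : X → X) {m : ℕ} {x : X} (hx : x ∈ O m) : patch O f f₀ x = f m x := by
  have h : ∃ m, x ∈ O m := ⟨m, hx⟩
  unfold patch
  rw [dif_pos h]
  have : h.choose = m := by
    by_contra hne
    exact (Set.disjoint_left.mp (hd _ _ hne)) h.choose_spec hx
  rw [this]

lemma patch_of_not {O : ℕ → Set X} (f : ℕ → X → X) (f₀ : X → X) {x : X}
    (hx : ∀ m, x ∉ O m) : patch O f f₀ x = f₀ x := by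
  unfold patch
  rw [dif_neg]
  rintro ⟨m, hm⟩
  exact hx m hm

lemma patch_of_off {O : ℕ → Set X} (hd : ∀ m m', m ≠ m' → Disjoint (O m) (O m'))
    {f : ℕ → X → X} {f₀ : X → X} (hf : ∀ m x, x ∉ O m → f m x = f₀ x) {m : ℕ} {x : X}
    (hx : ∀ m', m' ≠ m → x ∉ O m') : patch O f f₀ x = f m x := by
  by_cases h : x ∈ O m
  · exact patch_of_mem hd f f₀ h
  · rw [patch_of_not f f₀, hf m x h]
    intro m' hm'
    by_cases e : m' = m
    · rw [e] at hm'; exact h hm'
    · exact hx m' e hm'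

lemma patch_holder {O : ℕ → Set X} (hO : ∀ m, IsOpen (O m))
    (hd : ∀ m m', m ≠ m' → Disjoint (O m) (O m')) {f : ℕ → X → X} {f₀ : X → X}
    (hf : ∀ m x, x ∉ O m → f m x = f₀ x) {K α : ℝ} (hK : 0 ≤ K) (hα : 0 < α)
    (h0 : ∀ x y, ‖f₀ x - f₀ y‖ ≤ K * ‖x - y‖ ^ α)
    (hm : ∀ m x y, ‖f m x - f m y‖ ≤ K * ‖x - y‖ ^ α) (x y : X) :
    ‖patch O f f₀ x - patch O f f₀ y‖ ≤ 2 * K * ‖x - y‖ ^ α := by
  have hpow : 0 ≤ ‖x - y‖ ^ α := Real.rpow_nonneg (norm_nonneg _) _
  have hle : K * ‖x - y‖ ^ α ≤ 2 * K * ‖x - y‖ ^ α := by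
    apply mul_le_mul_of_nonneg_right _ hpow; linarith
  by_cases hx : ∃ m, x ∈ O m
  · obtain ⟨m, hxm⟩ := hx
    by_cases hy : ∃ m', y ∈ O m'
    · obtain ⟨m', hym⟩ := hy
      by_cases e : m = m'
      · rw [← e] at hym
        rw [patch_of_mem hd f f₀ hxm, patch_of_mem hd f f₀ hym]
        exact (hm m x y).trans hle
      · rw [patch_of_mem hd f f₀ hxm, patch_of_mem hd f f₀ hym]
        -- a point of the segment outside both open sets
        have hex : ∃ z ∈ segment ℝ x y, z ∉ O m ∧ z ∉ O m' := by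
          by_contra hcon
          push Not at hcon
          have hcov : segment ℝ x y ⊆ O m ∪ O m' := by
            intro z hz
            by_cases hz1 : z ∈ O m
            · exact Or.inl hz1
            · exact Or.inr (hcon z hz hz1)
          have hconn : IsPreconnected (segment ℝ x y) := (convex_segment x y).isPreconnected
          obtain ⟨w, hw, hw1, hw2⟩ := hconn _ _ (hO m) (hO m') hcov
            ⟨x, left_mem_segment ℝ x y, hxm⟩ ⟨y, right_mem_segment ℝ x y, hym⟩
          exact (Set.disjoint_left.mp (hd m m' e)) hw1 hw2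
        obtain ⟨z, hz, hz1, hz2⟩ := hex
        have hd1 : ‖x - z‖ ≤ ‖x - y‖ := by
          obtain ⟨t, ⟨ht0, ht1⟩, rfl⟩ := (segment_eq_image ℝ x y).le hz
          have : x - ((1 - t) • x + t • y) = t • (x - y) := by module
          rw [this, norm_smul, Real.norm_of_nonneg ht0]
          nlinarith [norm_nonneg (x - y)]
        have hd2 : ‖z - y‖ ≤ ‖x - y‖ := by
          obtain ⟨t, ⟨ht0, ht1⟩, rfl⟩ := (segment_eq_image ℝ x y).le hz
          have : ((1 - t) • x + t • y) - y = (1 - t) • (x - y) := by module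
          rw [this, norm_smul, Real.norm_of_nonneg (by linarith)]
          nlinarith [norm_nonneg (x - y)]
        have p1 : ‖x - z‖ ^ α ≤ ‖x - y‖ ^ α := Real.rpow_le_rpow (norm_nonneg _) hd1 hα.le
        have p2 : ‖z - y‖ ^ α ≤ ‖x - y‖ ^ α := Real.rpow_le_rpow (norm_nonneg _) hd2 hα.le
        have e1 : f m z = f m' z := by rw [hf m z hz1, hf m' z hz2]
        calc ‖f m x - f m' y‖ = ‖(f m x - f m z) + (f m' z - f m' y)‖ := by
              rw [e1]; congr 1; abel
          _ ≤ ‖f m x - f m z‖ + ‖f m' z - f m' y‖ := norm_add_le _ _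
          _ ≤ K * ‖x - y‖ ^ α + K * ‖x - y‖ ^ α :=
              add_le_add ((hm m x z).trans (mul_le_mul_of_nonneg_left p1 hK))
                ((hm m' z y).trans (mul_le_mul_of_nonneg_left p2 hK))
          _ = _ := by ring
    · push Not at hy
      rw [patch_of_mem hd f f₀ hxm, patch_of_not f f₀ hy, ← hf m y (hy m)]
      exact (hm m x y).trans hle
  · push Not at hx
    by_cases hy : ∃ m', y ∈ O m'
    · obtain ⟨m', hym⟩ := hy
      rw [patch_of_not f f₀ hx, patch_of_mem hd f f₀ hym, ← hf m' x (hx m')]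
      exact (hm m' x y).trans hle
    · push Not at hy
      rw [patch_of_not f f₀ hx, patch_of_not f f₀ hy]
      exact (h0 x y).trans hle

/-- patched pairs are pairs -/
lemma patch_pair {O : ℕ → Set X} (hd : ∀ m m', m ≠ m' → Disjoint (O m) (O m'))
    {r T : ℕ → X → X} {r₀ T₀ : X → X} (h₀ : Pair r₀ T₀) (hp : ∀ m, Pair (r m) (T m))
    (hr : ∀ m x, x ∉ O m → r m x = r₀ x) (hT : ∀ m x, x ∉ O m → T m x = T₀ x)
    (hfix : ∀ m k, r₀ k = k → k ∉ O m) : Pair (patch O r r₀) (patch O T T₀) := by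
  -- the local pair at a point
  have loc : ∀ x : X, ∃ r' T' : X → X, Pair r' T' ∧ patch O r r₀ x = r' x ∧
      patch O T T₀ x = T' x ∧ ∀ k, r' k = k → patch O r r₀ k = r' k ∧ patch O T T₀ k = T' k := by
    intro x
    by_cases hx : ∃ m, x ∈ O m
    · obtain ⟨m, hm⟩ := hx
      refine ⟨r m, T m, hp m, patch_of_mem hd _ _ hm, patch_of_mem hd _ _ hm, ?_⟩
      intro k hk
      by_cases hkm : k ∈ O m
      · exact ⟨patch_of_mem hd _ _ hkm, patch_of_mem hd _ _ hkm⟩
      · have hk0 : r₀ k = k := by rw [← hr m k hkm]; exact hk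
        have hno : ∀ m', k ∉ O m' := fun m' => hfix m' k hk0
        rw [patch_of_not _ _ hno, patch_of_not _ _ hno, hr m k hkm, hT m k hkm]
        exact ⟨rfl, rfl⟩
    · push Not at hx
      refine ⟨r₀, T₀, h₀, patch_of_not _ _ hx, patch_of_not _ _ hx, ?_⟩
      intro k hk
      have hno : ∀ m', k ∉ O m' := fun m' => hfix m' k hk
      exact ⟨patch_of_not _ _ hno, patch_of_not _ _ hno⟩
  constructor
  · intro x
    obtain ⟨r', T', hp', h1, h2, h3⟩ := loc x
    rw [h1, (h3 _ (hp'.rr x)).1, hp'.rr]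
  · intro x
    obtain ⟨r', T', hp', h1, h2, h3⟩ := loc x
    rw [h2, (h3 _ (hp'.rt x)).2, hp'.tt, h1]
  · intro x
    obtain ⟨r', T', hp', h1, h2, h3⟩ := loc x
    rw [h2, (h3 _ (hp'.rt x)).1, hp'.rt]
  · intro x
    obtain ⟨r', T', hp', h1, h2, h3⟩ := loc x
    rw [h1, (h3 _ (hp'.rr x)).2, hp'.tr, h2]
  · intro x hx
    obtain ⟨r', T', hp', h1, h2, h3⟩ := loc x
    rw [h2] at hx
    exact hp'.fix x hx

/-- iterates of `T` in a pair -/
lemma Pair.iter {r T : X → X} (hp : Pair r T) (n : ℕ) (hn : 1 ≤ n) : T^[n] = T ∨ T^[n] = r := by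
  induction n, hn using Nat.le_induction with
  | base => left; simp
  | succ n hn ih =>
    rcases ih with h | h
    · right
      funext x
      rw [Function.iterate_succ_apply', h, hp.tt]
    · left
      funext x
      rw [Function.iterate_succ_apply', h, hp.tr]

/-- globalization of a leg -/
lemma out_global {W : Up X} {Bz Be By : ℝ} {O : Set X} {α S ε K : ℝ} {r T r' T' : X → X}
    (hα : 0 < α) (hS : 0 ≤ S) (hK : 0 ≤ K) (hO : O ⊆ W.obox Bz Be By)
    (h : Out W Bz Be By O α S ε r T r' T')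
    (hr : ∀ x y, ‖r x - r y‖ ≤ K * ‖x - y‖ ^ α) (hT : ∀ x y, ‖T x - T y‖ ≤ K * ‖x - y‖ ^ α) :
    (∀ x y, ‖r' x - r' y‖ ≤ (K + S) * ‖x - y‖ ^ α) ∧
      ∀ x y, ‖T' x - T' y‖ ≤ (K + S) * ‖x - y‖ ^ α := by
  have hcov : (univ : Set X) ⊆ (W.obox Bz Be By)ᶜ ∪ W.box Bz Be By := by
    intro x _
    by_cases hx : x ∈ W.obox Bz Be By
    · exact Or.inr (W.obox_subset _ _ _ hx)
    · exact Or.inl hx
  constructor
  · intro x y
    exact glue_two (f := r') (g1 := r) (g2 := r') hα convex_univ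
      (W.obox_open _ _ _).isClosed_compl (W.box_closed _ _ _) hcov
      (fun x _ hx => h.offr x fun hx' => hx (hO hx')) (fun _ _ _ => rfl) hK hS rfl
      (fun x _ y _ _ _ => hr x y) (fun x _ y _ hx hy => h.hr x hx y hy) x (mem_univ _) y
      (mem_univ _)
  · intro x y
    exact glue_two (f := T') (g1 := T) (g2 := T') hα convex_univ
      (W.obox_open _ _ _).isClosed_compl (W.box_closed _ _ _) hcov
      (fun x _ hx => h.offT x fun hx' => hx (hO hx')) (fun _ _ _ => rfl) hK hS rfl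
      (fun x _ y _ _ _ => hT x y) (fun x _ y _ hx hy => h.hT x hx y hy) x (mem_univ _) y
      (mem_univ _)

end Pool.Agent.H64.HB
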