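import Pool.Agent.H64.HBFam
import Pool.Agent.H30.Retract

/-!
# The hub
-/

set_option linter.unusedSectionVars false
set_option linter.unusedVariables false
set_option linter.deprecated false

open Set Metric

namespace Pool.Agent.H64.HB

variable {X : Type*} [NormedAddCommGroup X] [NormedSpace ℝ X]

section hubg

variable {Y : Type*} [NormedAddCommGroup Y] [NormedSpace ℝ Y]

/-- retraction onto the shell `1 ≤ ‖y‖ ≤ Rm` -/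
noncomputable def hubg (R : Y → Y) (Rm : ℝ) (y : Y) : Y := (max 1 (min ‖y‖ Rm)) • R y

variable {R : Y → Y} {Rm K : ℝ}

lemma hubg_of_mem (hR : ∀ x : Y, 1 ≤ ‖x‖ → R x = ‖x‖⁻¹ • x) {y : Y} (h1 : 1 ≤ ‖y‖)
    (h2 : ‖y‖ ≤ Rm) : hubg R Rm y = y := by
  unfold hubg
  rw [hR y h1, min_eq_left h2, max_eq_right h1, smul_smul, mul_inv_cancel₀ (by linarith), one_smul]

lemma norm_hubg (hR1 : ∀ x : Y, ‖R x‖ = 1) (y : Y) : ‖hubg R Rm y‖ = max 1 (min ‖y‖ Rm) := by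
  unfold hubg
  rw [norm_smul, hR1, mul_one, Real.norm_of_nonneg]
  exact le_max_of_le_left zero_le_one

lemma hubg_lip (hR1 : ∀ x : Y, ‖R x‖ = 1) (hK : 0 ≤ K) (hRL : ∀ x y : Y, ‖R x - R y‖ ≤ K * ‖x - y‖)
    (hRm : 1 ≤ Rm) (x y : Y) : ‖hubg R Rm x - hubg R Rm y‖ ≤ (1 + Rm * K) * ‖x - y‖ := by
  have e : hubg R Rm x - hubg R Rm y =
      (max 1 (min ‖x‖ Rm)) • (R x - R y) + (max 1 (min ‖x‖ Rm) - max 1 (min ‖y‖ Rm)) • R y := by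
    unfold hubg; module
  have h1 : max 1 (min ‖x‖ Rm) ≤ Rm := max_le hRm (min_le_right _ _)
  have h0 : 0 ≤ max 1 (min ‖x‖ Rm) := le_max_of_le_left zero_le_one
  have h2 : |max 1 (min ‖x‖ Rm) - max 1 (min ‖y‖ Rm)| ≤ ‖x - y‖ := by
    refine (abs_max_sub_max_le_max _ _ _ _).trans (max_le (by simp) ?_)
    refine (abs_min_sub_min_le_max _ _ _ _).trans (max_le ?_ (by simp))
    exact abs_norm_sub_norm_le _ _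
  rw [e]
  refine (norm_add_le _ _).trans ?_
  rw [norm_smul, norm_smul, hR1, mul_one, Real.norm_of_nonneg h0, Real.norm_eq_abs]
  have h3 : max 1 (min ‖x‖ Rm) * ‖R x - R y‖ ≤ Rm * (K * ‖x - y‖) :=
    mul_le_mul h1 (hRL x y) (norm_nonneg _) (by linarith)
  linarith

end hubg

/-- projection onto the kernel -/
noncomputable def kproj (v₀ : X) (ψ₀ : X →L[ℝ] ℝ) (h1 : ψ₀ v₀ = 1) (x : X) :
    LinearMap.ker (ψ₀ : X →ₗ[ℝ] ℝ) :=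
  ⟨x - ψ₀ x • v₀, by
    rw [LinearMap.mem_ker]
    show ψ₀ (x - ψ₀ x • v₀) = 0
    rw [map_sub, map_smul, h1, smul_eq_mul, mul_one, sub_self]⟩

/-- the hub map with sign `s` -/
noncomputable def hub (v₀ : X) (ψ₀ : X →L[ℝ] ℝ) (h1 : ψ₀ v₀ = 1)
    (R : LinearMap.ker (ψ₀ : X →ₗ[ℝ] ℝ) → LinearMap.ker (ψ₀ : X →ₗ[ℝ] ℝ)) (Rm s : ℝ) (x : X) : X :=
  s • (hubg R Rm (kproj v₀ ψ₀ h1 x)).1

section hub

variable {v₀ : X} {ψ₀ : X →L[ℝ] ℝ} (h1 : ψ₀ v₀ = 1)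
variable {R : LinearMap.ker (ψ₀ : X →ₗ[ℝ] ℝ) → LinearMap.ker (ψ₀ : X →ₗ[ℝ] ℝ)} {Rm K : ℝ}

lemma ψ_coe (y : LinearMap.ker (ψ₀ : X →ₗ[ℝ] ℝ)) : ψ₀ (y : X) = 0 := y.2

lemma kproj_coe (y : LinearMap.ker (ψ₀ : X →ₗ[ℝ] ℝ)) : kproj v₀ ψ₀ h1 (y : X) = y := by
  apply Subtype.ext
  show (y : X) - ψ₀ (y : X) • v₀ = y
  rw [ψ_coe, zero_smul, sub_zero]

lemma hubg_idem (hR1 : ∀ x : LinearMap.ker (ψ₀ : X →ₗ[ℝ] ℝ), ‖R x‖ = 1)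
    (hR : ∀ x : LinearMap.ker (ψ₀ : X →ₗ[ℝ] ℝ), 1 ≤ ‖x‖ → R x = ‖x‖⁻¹ • x) (hRm : 1 ≤ Rm)
    {s : ℝ} (hs : |s| = 1) (y : LinearMap.ker (ψ₀ : X →ₗ[ℝ] ℝ)) :
    hubg R Rm (s • hubg R Rm y) = s • hubg R Rm y := by
  have hn : ‖s • hubg R Rm y‖ = max 1 (min ‖y‖ Rm) := by
    rw [norm_smul, norm_hubg hR1, Real.norm_eq_abs, hs, one_mul]
  apply hubg_of_mem hR
  · rw [hn]; exact le_max_left _ _
  · rw [hn]; exact max_le hRm (min_le_right _ _)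

lemma hub_hub (hR1 : ∀ x : LinearMap.ker (ψ₀ : X →ₗ[ℝ] ℝ), ‖R x‖ = 1)
    (hR : ∀ x : LinearMap.ker (ψ₀ : X →ₗ[ℝ] ℝ), 1 ≤ ‖x‖ → R x = ‖x‖⁻¹ • x) (hRm : 1 ≤ Rm)
    {s s' : ℝ} (hs : |s| = 1) (x : X) :
    hub v₀ ψ₀ h1 R Rm s' (hub v₀ ψ₀ h1 R Rm s x) = hub v₀ ψ₀ h1 R Rm (s' * s) x := by
  unfold hub
  have e : s • (hubg R Rm (kproj v₀ ψ₀ h1 x)).1 =
      ((s • hubg R Rm (kproj v₀ ψ₀ h1 x) : LinearMap.ker (ψ₀ : X →ₗ[ℝ] ℝ)) : X) := rfl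
  rw [e, kproj_coe, hubg_idem hR1 hR hRm hs]
  rw [← e, smul_smul]

lemma norm_hub (hR1 : ∀ x : LinearMap.ker (ψ₀ : X →ₗ[ℝ] ℝ), ‖R x‖ = 1) (hRm : 1 ≤ Rm)
    {s : ℝ} (hs : |s| = 1) (x : X) :
    1 ≤ ‖hub v₀ ψ₀ h1 R Rm s x‖ ∧ ‖hub v₀ ψ₀ h1 R Rm s x‖ ≤ Rm := by
  unfold hub
  rw [norm_smul, Real.norm_eq_abs, hs, one_mul, ← Submodule.coe_norm, norm_hubg hR1]
  exact ⟨le_max_left _ _, max_le hRm (min_le_right _ _)⟩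

lemma hub_pair (hR1 : ∀ x : LinearMap.ker (ψ₀ : X →ₗ[ℝ] ℝ), ‖R x‖ = 1)
    (hR : ∀ x : LinearMap.ker (ψ₀ : X →ₗ[ℝ] ℝ), 1 ≤ ‖x‖ → R x = ‖x‖⁻¹ • x) (hRm : 1 ≤ Rm) :
    Pair (hub v₀ ψ₀ h1 R Rm 1) (hub v₀ ψ₀ h1 R Rm (-1)) := by
  have a1 : |(1:ℝ)| = 1 := abs_one
  have a2 : |(-1:ℝ)| = 1 := by norm_num
  constructor
  · intro x; rw [hub_hub h1 hR1 hR hRm a1, mul_one]
  · intro x; rw [hub_hub h1 hR1 hR hRm a2]; norm_num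
  · intro x; rw [hub_hub h1 hR1 hR hRm a2, one_mul]
  · intro x; rw [hub_hub h1 hR1 hR hRm a1, mul_one]
  · intro x hx
    -- then `x = -g` with `g` in the kernel, so `g (-g) = -g`
    have h2 : hub v₀ ψ₀ h1 R Rm 1 x = x := by
      conv_rhs => rw [← hx]
      nth_rewrite 1 [← hx]
      rw [hub_hub h1 hR1 hR hRm a2, one_mul]
    have h3 : hub v₀ ψ₀ h1 R Rm (-1) x = - hub v₀ ψ₀ h1 R Rm 1 x := by
      unfold hub; module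
    rw [h2, hx] at h3
    have h4 : x = 0 := by
      have h5 : (2:ℝ) • x = 0 := by
        rw [two_smul]; nth_rewrite 1 [h3]; exact neg_add_cancel _
      exact (smul_eq_zero.mp h5).resolve_left (by norm_num)
    have h6 := (norm_hub h1 hR1 hRm a1 x).1
    rw [h2, h4, norm_zero] at h6
    linarith

lemma hub_lip (hψ : ∀ x, |ψ₀ x| ≤ 3 * ‖x‖) (hv : ‖v₀‖ = 1)
    (hR1 : ∀ x : LinearMap.ker (ψ₀ : X →ₗ[ℝ] ℝ), ‖R x‖ = 1) (hK : 0 ≤ K)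
    (hRL : ∀ x y : LinearMap.ker (ψ₀ : X →ₗ[ℝ] ℝ), ‖R x - R y‖ ≤ K * ‖x - y‖)
    (hRm : 1 ≤ Rm) {s : ℝ} (hs : |s| = 1) (x y : X) :
    ‖hub v₀ ψ₀ h1 R Rm s x - hub v₀ ψ₀ h1 R Rm s y‖ ≤ (1 + Rm * K) * 4 * ‖x - y‖ := by
  unfold hub
  rw [← smul_sub, norm_smul, Real.norm_eq_abs, hs, one_mul, ← Submodule.coe_sub, ← Submodule.coe_norm]
  refine (hubg_lip hR1 hK hRL hRm _ _).trans ?_
  rw [mul_assoc]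
  apply mul_le_mul_of_nonneg_left _ (by positivity)
  rw [Submodule.coe_norm, Submodule.coe_sub]
  have e : ((kproj v₀ ψ₀ h1 x : LinearMap.ker (ψ₀ : X →ₗ[ℝ] ℝ)) : X) - (kproj v₀ ψ₀ h1 y : X) =
      (x - y) - ψ₀ (x - y) • v₀ := by
    show (x - ψ₀ x • v₀) - (y - ψ₀ y • v₀) = _
    rw [map_sub]; module
  rw [e]
  refine (norm_sub_le _ _).trans ?_
  rw [norm_smul, hv, mul_one, Real.norm_eq_abs]
  have := hψ (x - y)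
  linarith

lemma hub_straight (hR : ∀ x : LinearMap.ker (ψ₀ : X →ₗ[ℝ] ℝ), 1 ≤ ‖x‖ → R x = ‖x‖⁻¹ • x)
    (s : ℝ) {x : X} (hx1 : 1 ≤ ‖x - ψ₀ x • v₀‖) (hx2 : ‖x - ψ₀ x • v₀‖ ≤ Rm) :
    hub v₀ ψ₀ h1 R Rm s x = s • (x - ψ₀ x • v₀) := by
  unfold hub
  rw [hubg_of_mem hR]
  · rfl
  · exact hx1
  · exact hx2

/-- state of the hub -/
lemma hub_state (hψ : ∀ x, |ψ₀ x| ≤ 3 * ‖x‖) (hv : ‖v₀‖ = 1)
    (hR1 : ∀ x : LinearMap.ker (ψ₀ : X →ₗ[ℝ] ℝ), ‖R x‖ = 1) (hK : 0 ≤ K)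
    (hRL : ∀ x y : LinearMap.ker (ψ₀ : X →ₗ[ℝ] ℝ), ‖R x - R y‖ ≤ K * ‖x - y‖)
    (hR : ∀ x : LinearMap.ker (ψ₀ : X →ₗ[ℝ] ℝ), 1 ≤ ‖x‖ → R x = ‖x‖⁻¹ • x)
    (hRm : 1 ≤ Rm) {W : Up X} (hW1 : ∀ x, W.PZ x = 0) (hW2 : W.nS = ψ₀)
    (hW3 : ∀ x, W.Yp x = x - ψ₀ x • v₀) (Bz Be : ℝ) :
    State W 0 Bz Be Rm ((1 + Rm * K) * 4) (hub v₀ ψ₀ h1 R Rm 1) (hub v₀ ψ₀ h1 R Rm (-1)) := by
  have a1 : |(1:ℝ)| = 1 := abs_one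
  have a2 : |(-1:ℝ)| = 1 := by norm_num
  have st : ∀ s : ℝ, W.Straight 0 Bz Be Rm (hub v₀ ψ₀ h1 R Rm s) s := by
    intro s x hx hN
    unfold Up.NG at hN
    rw [zero_mul, sub_zero, hW3] at hN
    have hx3 := hx.2.2
    rw [hW3] at hx3
    rw [hub_straight h1 hR s hN hx3, hW1, hW3, zero_add]
  refine ⟨hub_pair h1 hR1 hR hRm, st 1, st (-1), ?_,
    fun x _ y _ => hub_lip h1 hψ hv hR1 hK hRL hRm a1 x y,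
    fun x _ y _ => hub_lip h1 hψ hv hR1 hK hRL hRm a2 x y⟩
  intro k hk _
  rw [hW2, ← hk]
  unfold hub
  rw [one_smul, ψ_coe]

end hub

end Pool.Agent.H64.HB
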