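import Pool.Agent.H64.HBBig

/-!
# One leg: two large steps followed by the fill recursion
-/

set_option linter.unusedSectionVars false
set_option linter.unusedVariables false
set_option linter.deprecated false

open Set Metric

namespace Pool.Agent.H64.HB

variable {X : Type*} [NormedAddCommGroup X] [NormedSpace ℝ X]

/-- constants of the legs -/
noncomputable def k2 (Ce : ℝ) : ℝ := 4 * (1 + Ce) * (16 + 4 * (1 + Ce))
noncomputable def D1 (Ce : ℝ) : ℝ := 6 * k2 Ce + 3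
noncomputable def de (C₀ : ℝ) : ℝ := 1 / (4 * C₀)
noncomputable def B2 (Ce C₀ : ℝ) : ℝ := 4 * (1 + Ce) + 10 * de C₀
noncomputable def By1 (Ce C₀ : ℝ) : ℝ := 2 * D1 Ce + 1 + 2 * B2 Ce C₀
noncomputable def By0 (Ce C₀ : ℝ) : ℝ := 64 * D1 Ce + 1 + 2 * By1 Ce C₀
noncomputable def La (Ce C₀ : ℝ) : ℝ := 7 * C₀ * By0 Ce C₀

/-- parameters of the first large step -/
noncomputable def par0 (Ce C₀ : ℝ) : Par where
  Bz := 4 * C₀
  Be := 16 * C₀
  By := By0 Ce C₀
  H := 8 * C₀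
  h := 1
  al := 4 * D1 Ce / C₀
  U := 32 * D1 Ce
  th := 1 / 16
  ka := 1
  rho := 0
  R := 0
  om := 0
  Lam := 0
  Lam' := La Ce C₀

/-- parameters of the second large step -/
noncomputable def par1 (Ce C₀ : ℝ) : Par where
  Bz := 1
  Be := 2 * D1 Ce
  By := By1 Ce C₀
  H := D1 Ce
  h := 1
  al := 1
  U := D1 Ce
  th := 1 / 16
  ka := 1
  rho := 0
  R := 0
  om := 0
  Lam := La Ce C₀
  Lam' := La Ce C₀

/-- basic inequalities for the constants -/
structure Cst (Ce C₀ : ℝ) : Prop where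
  h1 : 1 ≤ Ce
  h2 : Ce ≤ C₀

namespace Cst
variable {Ce C₀ : ℝ}

lemma C0 (h : Cst Ce C₀) : 1 ≤ C₀ := h.h1.trans h.h2

lemma k2_ge (h : Cst Ce C₀) : 128 ≤ k2 Ce := by
  unfold k2
  have := h.h1
  nlinarith

lemma D1_ge (h : Cst Ce C₀) : 700 ≤ D1 Ce := by
  unfold D1
  have := h.k2_ge
  linarith

lemma de_pos (h : Cst Ce C₀) : 0 < de C₀ := by
  unfold de; have := h.C0; positivity

lemma de_mul (h : Cst Ce C₀) : C₀ * de C₀ = 1 / 4 := by
  unfold de; have := h.C0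
  have : C₀ ≠ 0 := by linarith
  field_simp

lemma de_le (h : Cst Ce C₀) : de C₀ ≤ 1 / 4 := by
  have := h.de_mul
  have := h.de_pos
  have := h.C0
  nlinarith

lemma B2_ge (h : Cst Ce C₀) : 8 ≤ B2 Ce C₀ := by
  unfold B2; have := h.de_pos; have := h.h1; linarith

lemma B2_le (h : Cst Ce C₀) : 2 * de C₀ + B2 Ce C₀ ≤ 4 * (1 + Ce) + 3 := by
  unfold B2; have := h.de_le; linarith

lemma By1_ge (h : Cst Ce C₀) : 1400 ≤ By1 Ce C₀ := by
  unfold By1; have := h.D1_ge; have := h.B2_ge; linarith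

lemma By0_ge (h : Cst Ce C₀) : 44000 ≤ By0 Ce C₀ := by
  unfold By0; have := h.D1_ge; have := h.By1_ge; linarith

lemma D1_le (h : Cst Ce C₀) : 64 * D1 Ce ≤ By0 Ce C₀ := by
  unfold By0; have := h.D1_ge; have := h.By1_ge; linarith

lemma By1_le (h : Cst Ce C₀) : 2 * By1 Ce C₀ ≤ By0 Ce C₀ := by
  unfold By0; have := h.D1_ge; linarith

lemma La_ge (h : Cst Ce C₀) : 7 * By0 Ce C₀ ≤ La Ce C₀ := by
  unfold La
  have := h.C0
  have := h.By0_ge
  nlinarith

lemma La_ge' (h : Cst Ce C₀) : 1000 * C₀ ≤ La Ce C₀ := by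
  unfold La
  have := h.C0
  have := h.By0_ge
  nlinarith

lemma ok0 (h : Cst Ce C₀) : (par0 Ce C₀).OK := by
  have h1 := h.h1
  have h0 := h.C0
  have h2 := h.D1_ge
  have h3 := h.By0_ge
  have h4 := h.La_ge
  have h5 := h.By1_ge
  have h6 : 4 * D1 Ce / C₀ * (8 * C₀) = 32 * D1 Ce := by
    have : C₀ ≠ 0 := by linarith
    field_simp; ring
  have h7 : 0 < 4 * D1 Ce / C₀ := by positivity
  constructor <;> dsimp only [par0] <;> try linarith
  · unfold By0; linarith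
  · left; rfl

lemma ok1 (h : Cst Ce C₀) : (par1 Ce C₀).OK := by
  have h1 := h.h1
  have h0 := h.C0
  have h2 := h.D1_ge
  have h3 := h.By0_ge
  have h4 := h.La_ge
  have h5 := h.By1_ge
  have h6 := h.B2_ge
  constructor <;> dsimp only [par1] <;> try linarith
  · unfold By1; linarith
  · left; rfl

variable {X : Type*} [NormedAddCommGroup X] [NormedSpace ℝ X]

lemma size0 (h : Cst Ce C₀) {D : Dec X} (hD : Bnd D Ce C₀) :
    Size D (par0 Ce C₀) (La Ce C₀) := by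
  have h1 := h.h1
  have h0 := h.C0
  have h00 := h.h2
  have h2 := h.D1_ge
  have h2' := h.D1_le
  have h3 := h.By0_ge
  have h4 := h.La_ge
  have h4' := h.La_ge'
  have h5 := h.By1_ge
  have hCL : C₀ ≤ La Ce C₀ := by linarith
  have hCL' : Ce ≤ La Ce C₀ := by linarith
  have hC0 : 0 < C₀ := by linarith
  constructor
  · linarith
  · exact fun x => (hD.PZ x).trans (mul_le_mul_of_nonneg_right hCL (norm_nonneg _))
  · exact fun x => (hD.nS x).trans (mul_le_mul_of_nonneg_right hCL' (norm_nonneg _))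
  · exact fun x => (hD.eS x).trans (mul_le_mul_of_nonneg_right hCL' (norm_nonneg _))
  · exact fun x => (hD.Q x).trans (mul_le_mul_of_nonneg_right hCL (norm_nonneg _))
  all_goals dsimp only [par0]
  · linarith
  · linarith
  · linarith
  · linarith
  · have : 4 * D1 Ce / C₀ ≤ 4 * D1 Ce := div_le_self (by linarith) h0
    linarith
  · exact le_rfl
  · linarith
  · linarith
  · exact (inv_le_one_of_one_le₀ (by linarith)).trans (by linarith)
  · exact (inv_le_one_of_one_le₀ (by linarith)).trans (by linarith)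
  · exact (inv_le_one_of_one_le₀ (by linarith)).trans (by linarith)
  · norm_num; linarith
  · norm_num; linarith
  · norm_num; linarith
  · rw [inv_div]
    have : C₀ / (4 * D1 Ce) ≤ C₀ := div_le_self hC0.le (by linarith)
    linarith

lemma size1 (h : Cst Ce C₀) {D : Dec X} (hD : Bnd D Ce C₀) :
    Size D (par1 Ce C₀) (La Ce C₀) := by
  have h1 := h.h1
  have h0 := h.C0
  have h00 := h.h2
  have h2 := h.D1_ge
  have h2' := h.D1_le
  have h3 := h.By0_ge
  have h4 := h.La_ge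
  have h4' := h.La_ge'
  have h5 := h.By1_ge
  have h5' := h.By1_le
  have hCL : C₀ ≤ La Ce C₀ := by linarith
  have hCL' : Ce ≤ La Ce C₀ := by linarith
  have hC0 : 0 < C₀ := by linarith
  constructor
  · linarith
  · exact fun x => (hD.PZ x).trans (mul_le_mul_of_nonneg_right hCL (norm_nonneg _))
  · exact fun x => (hD.nS x).trans (mul_le_mul_of_nonneg_right hCL' (norm_nonneg _))
  · exact fun x => (hD.eS x).trans (mul_le_mul_of_nonneg_right hCL' (norm_nonneg _))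
  · exact fun x => (hD.Q x).trans (mul_le_mul_of_nonneg_right hCL (norm_nonneg _))
  all_goals dsimp only [par1]
  · linarith
  · linarith
  · linarith
  · linarith
  · linarith
  · exact le_rfl
  · linarith
  · linarith
  · norm_num; linarith
  · exact (inv_le_one_of_one_le₀ (by linarith)).trans (by linarith)
  · exact (inv_le_one_of_one_le₀ (by linarith)).trans (by linarith)
  · norm_num; linarith
  · norm_num; linarith
  · norm_num; linarith
  · norm_num; linarith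

lemma mac0 (h : Cst Ce C₀) :
    Mac (par0 Ce C₀) C₀ (par1 Ce C₀).Bz (par1 Ce C₀).Be (par1 Ce C₀).By := by
  have h1 := h.h1
  have h0 := h.C0
  have h2 := h.D1_ge
  have h3 := h.By0_ge
  have h5 := h.By1_ge
  have h6 : 4 * D1 Ce / C₀ * (8 * C₀) = 32 * D1 Ce := by
    have : C₀ ≠ 0 := by linarith
    field_simp; ring
  constructor <;> (try dsimp only [par0, par1]) <;> (try linarith)
  unfold By0; linarith

lemma mac1 (h : Cst Ce C₀) :
    Mac (par1 Ce C₀) C₀ (de C₀) (de C₀) (B2 Ce C₀) := by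
  have h1 := h.h1
  have h0 := h.C0
  have h2 := h.D1_ge
  have h3 := h.de_pos
  have h4 := h.de_le
  have h5 := h.B2_ge
  have h6 := h.de_mul
  constructor <;> (try dsimp only [par1]) <;> (try linarith)
  unfold By1; linarith

end Cst

lemma tau_obox' {D : Dec X} {P : Par} (hP : P.OK) {x : X} (hx : 0 < tau D P x) :
    x ∈ D.up.obox P.Bz P.Be P.By := by
  obtain ⟨h1, _, h3⟩ := tau_pos_imp hP hx
  obtain ⟨h4, h5, h6, h7, _⟩ := of_bb_pos hP h3
  refine ⟨h4, h1, h5, ?_⟩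
  rw [D.hY]
  calc ‖D.eS x • D.e + D.Q x‖ ≤ ‖D.eS x • D.e‖ + ‖D.Q x‖ := norm_add_le _ _
    _ = |D.eS x| + ‖D.Q x‖ := by rw [norm_smul, D.norm_e, mul_one, Real.norm_eq_abs]
    _ < P.By := by linarith

/-- location of the modification of an exit-only step -/
lemma tau_loc {D : Dec X} {P : Par} (hP : P.OK) (hom : P.om = 0) {x : X} (hx : 0 < tau D P x) :
    1 < ‖D.Q x‖ ∧ P.Lam' * infDist (D.Q x) (D.G' : Set X) < P.By ∧ 0 < D.up.nS x := by
  obtain ⟨h1, _, h3⟩ := tau_pos_imp hP hx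
  obtain ⟨h4, h5, h6, h7, h8⟩ := of_bb_pos hP h3
  have h9 := h8 hom
  have h10 := Np_eq (D := D) hP x
  have h11 := Np_le (D := D) hP x
  have hth := hP.th
  have hU := U_pos hP
  have h12 : 1 < Np D P x := by rw [h10]; nlinarith
  refine ⟨by linarith, ?_, h1⟩
  unfold Np at h12
  linarith

/-- the region in which a leg lives -/
def Reg (D : Dec X) (Ce C₀ : ℝ) : Set X :=
  {x | 0 < D.up.nS x ∧ ((1 / C₀ < ‖D.up.Yp x‖ ∧
    infDist (D.up.Yp x) (D.up.G : Set X) < 1 / (7 * C₀)) ∨ ‖D.up.Yp x - D1 Ce • D.e‖ < k2 Ce)}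

lemma infDist_Yp (D : Dec X) (x : X) :
    infDist (D.up.Yp x) (D.up.G : Set X) ≤ infDist (D.Q x) (D.G' : Set X) := by
  have := infDist_comb (D := D) (D.eS x) zero_le_one x
  rw [one_smul, one_mul, ← D.hY] at this
  exact this

lemma norm_Q_le {D : Dec X} {Ce Cb : ℝ} (hD : Bnd D Ce Cb) (x : X) :
    ‖D.Q x‖ ≤ Cb * ‖D.up.Yp x‖ := by
  rw [← Q_Yp]; exact hD.Q _

lemma infDist_two (G : Submodule ℝ X) (v : X) :
    infDist ((2:ℝ) • v) (G : Set X) ≤ 2 * infDist v (G : Set X) := by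
  have t2 : ‖(2:ℝ)‖ = 2 := by norm_num
  have : infDist ((2:ℝ) • v) (G : Set X) / 2 ≤ infDist v (G : Set X) := by
    rw [le_infDist ⟨0, G.zero_mem⟩]
    intro g hgm
    rw [div_le_iff₀ two_pos]
    have hmm : (2:ℝ) • g ∈ (G : Set X) := G.smul_mem _ hgm
    refine (infDist_le_dist_of_mem hmm).trans (le_of_eq ?_)
    rw [dist_smul₀, t2, mul_comm]
  linarith

/-- One leg. -/
theorem leg_exists {Ce C₀ α lam : ℝ} (hC : Cst Ce C₀) (hα : 0 < α) (hα1 : α < 1)
    (hlam : 1 ≤ lam) :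
    ∃ S c₀ : ℝ, 0 ≤ S ∧ 0 < c₀ ∧ c₀ < 1 ∧ ∀ (N : ℕ) (DD : ℕ → Dec X),
      Bnd (DD 0) Ce C₀ → Bnd (DD 1) Ce C₀ → (∀ i, i ≤ N → Bnd (DD (i + 2)) Ce (C₀ * 2 ^ i)) →
      (∀ j, j < N + 2 → (DD (j + 1)).up = (DD j).down) → (∀ x, (DD 0).up.PZ x = 0) →
      ∀ r T : X → X, State (DD 0).up 0 (4 * C₀) (16 * C₀) (By0 Ce C₀) lam r T →
      ∃ r' T' : X → X, Out (DD 0).up (4 * C₀) (16 * C₀) (By0 Ce C₀)
        ((DD 0).up.obox (4 * C₀) (16 * C₀) (By0 Ce C₀) ∩ Reg (DD 0) Ce C₀) α S (12 * c₀ ^ N)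
        r T r' T' := by
  have h1 := hC.h1
  have h0 := hC.C0
  have hLa := hC.La_ge
  have hLa' := hC.La_ge'
  have hBy0 := hC.By0_ge
  have hde := hC.de_pos
  have hde1 := hC.de_le
  have hLa1 : 1 ≤ La Ce C₀ := by linarith
  set LL := La Ce C₀ with hLL
  set l1 := lam * LL ^ 119 with hl1
  set l2 := l1 * LL ^ 119 with hl2
  have hl1' : 1 ≤ l1 := one_le_mul_of_one_le_of_one_le hlam (one_le_pow₀ hLa1)
  have hl2' : 1 ≤ l2 := one_le_mul_of_one_le_of_one_le hl1' (one_le_pow₀ hLa1)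
  obtain ⟨δ, B, θ, Lam, L, c, hsq, hδ0, hB0, hLam0, hl0, hcc⟩ :=
    exists_sqs (Ce := Ce) (C₀ := C₀) (δ₀ := de C₀) (Lam₀ := LL) (l₀ := l2) (α := α) h1 hC.h2 hde
      (by linarith) (by linarith) (by linarith) hα hα1
  -- Hölder constants
  set S2 := 2 * (L 0 ^ 266 / c 0 ^ 2) with hS2
  have hL0 := (hsq.lev 0).L8
  have hc0 := hsq.c0 0
  have hS2' : 0 ≤ S2 := mul_nonneg (by norm_num) (div_nonneg (pow_nonneg (by linarith) _)
    (by positivity))
  have h2a : 0 ≤ (2:ℝ) ^ (1 - α) := Real.rpow_nonneg (by norm_num) _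
  set Dm1 := 2 * ((par1 Ce C₀).Bz + (par1 Ce C₀).Be + (par1 Ce C₀).By) with hDm1
  set Dm0 := 2 * ((par0 Ce C₀).Bz + (par0 Ce C₀).Be + (par0 Ce C₀).By) with hDm0
  have hD1 := hC.D1_ge
  have hBy1 := hC.By1_ge
  have hDm1' : 1 ≤ Dm1 := by rw [hDm1]; dsimp only [par1]; linarith
  have hDm0' : 1 ≤ Dm0 := by rw [hDm0]; dsimp only [par0]; linarith
  set S1 := l2 * Dm1 + 2 ^ (1 - α) * S2 with hS1
  have hS1' : 0 ≤ S1 := by positivity
  set S0 := l1 * Dm0 + 2 ^ (1 - α) * S1 with hS0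
  have hS0' : 0 ≤ S0 := by positivity
  refine ⟨S0, c 0, hS0', hc0, hsq.c1 0, ?_⟩
  intro N DD hb0 hb1 hb hd hPZ0 r T hs
  have ok0 := hC.ok0
  have ok1 := hC.ok1
  have hmac0 := hC.mac0
  have hmac1 := hC.mac1
  -- first large step
  obtain ⟨hp1, hlr1, hlT1, hs1⟩ := big_step ok0 (hC.size0 hb0) hb0 hmac0 hlam hs
  rw [← hd 0 (by omega)] at hs1
  -- second large step
  obtain ⟨hp2, hlr2, hlT2, hs2⟩ := big_step ok1 (hC.size1 hb1) hb1 hmac1 hl1' hs1
  rw [← hd 1 (by omega)] at hs2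
  -- recursion
  obtain ⟨r2, T2, hout2⟩ := fill_rec hα hα1 hsq hcc N (fun i => DD (i + 2)) hb
    (fun i hi => hd (i + 2) (by omega)) N 0 (by omega) _ _ (by
      rw [hδ0, hB0, hLam0]
      exact hs2.mono le_rfl le_rfl le_rfl le_rfl hl0)
  rw [hδ0, hB0] at hout2
  have hO2 : (DD 2).up.obox (de C₀) (de C₀) (B2 Ce C₀) ⊆
      (DD 2).up.obox (de C₀) (de C₀) (B2 Ce C₀) := Subset.rfl
  -- first descent
  have hout1 := descend (W := (DD 1).up) (O1 := {x | 0 < tau (DD 1) (par1 Ce C₀) x}) hα hα1 two_pos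
    (by linarith : 0 ≤ l2) hDm1' hS2' (fun x hx y hy => diam_box (DD 1) hx hy)
    (fun x hx => flap_of_tau_zero (le_antisymm (not_lt.mp hx) (tau_nonneg x)))
    (fun x hx => flap_of_tau_zero (le_antisymm (not_lt.mp hx) (tau_nonneg x)))
    hlr2 hlT2 hO2 hout2
  have hinc1 : ∀ x : X, (2:ℝ)⁻¹ • (x - mctr (DD 1) (par1 Ce C₀)) ∈
      (DD 2).up.obox (de C₀) (de C₀) (B2 Ce C₀) →
      x ∈ (DD 1).up.obox (par1 Ce C₀).Bz (par1 Ce C₀).Be (par1 Ce C₀).By := by
    intro x hx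
    have hx2 := (DD 2).up.obox_subset _ _ _ hx
    rw [hd 1 (by omega)] at hx2
    have := mac_obox ok1 hb1 hmac1 hx2
    rwa [zA two_pos] at this
  have hO1 : {x | 0 < tau (DD 1) (par1 Ce C₀) x} ∪
      (fun x => (2:ℝ)⁻¹ • (x - mctr (DD 1) (par1 Ce C₀))) ⁻¹'
        ((DD 2).up.obox (de C₀) (de C₀) (B2 Ce C₀)) ⊆
      (DD 1).up.obox (par1 Ce C₀).Bz (par1 Ce C₀).Be (par1 Ce C₀).By := by
    apply union_subset
    · intro x hx; exact tau_obox' ok1 hx
    · intro x hx; exact hinc1 x hx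
  -- second descent
  have hout0 := descend (W := (DD 0).up) (O1 := {x | 0 < tau (DD 0) (par0 Ce C₀) x}) hα hα1 two_pos
    (by linarith : 0 ≤ l1) hDm0' hS1' (fun x hx y hy => diam_box (DD 0) hx hy)
    (fun x hx => flap_of_tau_zero (le_antisymm (not_lt.mp hx) (tau_nonneg x)))
    (fun x hx => flap_of_tau_zero (le_antisymm (not_lt.mp hx) (tau_nonneg x)))
    hlr1 hlT1 hO1 hout1
  refine ⟨_, _, hout0.mono ?_ le_rfl (by linarith)⟩
  -- location
  have hinc0 : ∀ x : X, (2:ℝ)⁻¹ • (x - mctr (DD 0) (par0 Ce C₀)) ∈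
      (DD 1).up.obox (par1 Ce C₀).Bz (par1 Ce C₀).Be (par1 Ce C₀).By →
      x ∈ (DD 0).up.obox (4 * C₀) (16 * C₀) (By0 Ce C₀) := by
    intro x hx
    have hx2 := (DD 1).up.obox_subset _ _ _ hx
    rw [hd 0 (by omega)] at hx2
    have := mac_obox ok0 hb0 hmac0 hx2
    rwa [zA two_pos] at this
  have hC0pos : 0 < C₀ := by linarith
  have e01 : (DD 0).Q = (DD 1).up.Yp := by rw [hd 0 (by omega)]; rfl
  have hG01 : (DD 1).up.G = (DD 0).G' := by rw [hd 0 (by omega)]; rfl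
  apply union_subset
  · intro x hx
    refine ⟨tau_obox' ok0 hx, ?_⟩
    obtain ⟨t1, t2, t3⟩ := tau_loc ok0 rfl hx
    refine ⟨t3, Or.inl ⟨?_, ?_⟩⟩
    · rw [div_lt_iff₀ hC0pos, mul_comm]
      exact t1.trans_le (norm_Q_le hb0 x)
    · refine (infDist_Yp (DD 0) x).trans_lt ?_
      rw [lt_div_iff₀ (by linarith)]
      dsimp only [par0] at t2
      unfold La at t2
      have t4 : By0 Ce C₀ * (infDist ((DD 0).Q x) ((DD 0).G' : Set X) * (7 * C₀)) <
          By0 Ce C₀ * 1 := by linarith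
      exact lt_of_mul_lt_mul_left t4 (by linarith)
  · intro x hx
    have hx' : (2:ℝ)⁻¹ • (x - mctr (DD 0) (par0 Ce C₀)) ∈
      {x | 0 < tau (DD 1) (par1 Ce C₀) x} ∪
      (fun x => (2:ℝ)⁻¹ • (x - mctr (DD 1) (par1 Ce C₀))) ⁻¹'
        ((DD 2).up.obox (de C₀) (de C₀) (B2 Ce C₀)) := hx
    have hob := hinc0 x (hO1 hx')
    refine ⟨hob, hob.2.1, ?_⟩
    set y := (2:ℝ)⁻¹ • (x - mctr (DD 0) (par0 Ce C₀)) with hy
    have hxy : x = mctr (DD 0) (par0 Ce C₀) + (2:ℝ) • y := by rw [hy, zA two_pos]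
    have hYc : (DD 0).up.Yp (mctr (DD 0) (par0 Ce C₀)) = 0 := by
      rw [(DD 0).hY]
      unfold mctr
      simp [(DD 0).eSn, (DD 0).Qn]
    have hYx : (DD 0).up.Yp x = (2:ℝ) • (DD 0).up.Yp y := by
      rw [hxy, map_add, hYc, map_smul, zero_add]
    have t2n : ‖(2:ℝ)‖ = 2 := by norm_num
    have hQY : ‖(DD 1).up.Yp y‖ ≤ C₀ * ‖(DD 0).up.Yp y‖ := by
      rw [← e01]; exact norm_Q_le hb0 y
    rcases hx' with hx' | hx'
    · left
      obtain ⟨t1, t2, t3⟩ := tau_loc ok1 rfl hx'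
      constructor
      · rw [hYx, norm_smul, t2n, div_lt_iff₀ hC0pos]
        -- ‖Q₁ y‖ ≤ C₀ ‖Yp₀ y‖ since Q₁ y = Q₁ Yp₀ y
        have hQ1 : (DD 1).Q ((DD 0).up.Yp y) = (DD 1).Q y := by
          have e1 : (DD 1).Q y = (DD 1).Q ((DD 1).up.Yp y) := (Q_Yp y).symm
          rw [e1, ← e01, ← Q_Yp (D := DD 0) y, e01]
          rw [Q_Yp]
        have h3 := hb1.Q ((DD 0).up.Yp y)
        rw [hQ1] at h3
        have h4 := norm_nonneg ((DD 0).up.Yp y)
        nlinarith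
      · rw [hYx]
        refine (infDist_two _ _).trans_lt ?_
        have h3 := infDist_Yp (DD 0) y
        have h4 := infDist_Yp (DD 1) y
        rw [← e01, hG01] at h4
        rw [lt_div_iff₀ (by linarith)]
        have t2' : La Ce C₀ * infDist ((DD 1).Q y) ((DD 1).G' : Set X) < By1 Ce C₀ := t2
        unfold La at t2'
        have hb := hC.By1_le
        set i0 := infDist ((DD 0).up.Yp y) ((DD 0).up.G : Set X)
        set i1 := infDist ((DD 1).Q y) ((DD 1).G' : Set X)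
        have h5 : i0 ≤ i1 := h3.trans h4
        have t4 : By0 Ce C₀ * (2 * i0 * (7 * C₀)) < By0 Ce C₀ * 1 := by
          have t5 : 7 * C₀ * By0 Ce C₀ * i0 ≤ 7 * C₀ * By0 Ce C₀ * i1 :=
            mul_le_mul_of_nonneg_left h5 (by positivity)
          linarith
        exact lt_of_mul_lt_mul_left t4 (by linarith)
    · right
      set w := (2:ℝ)⁻¹ • (y - mctr (DD 1) (par1 Ce C₀)) with hw
      have hyw : y = mctr (DD 1) (par1 Ce C₀) + (2:ℝ) • w := by rw [hw, zA two_pos]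
      have hwo : w ∈ (DD 2).up.obox (de C₀) (de C₀) (B2 Ce C₀) := hx'
      have hwn := norm_le_box (DD 2) ((DD 2).up.obox_subset _ _ _ hwo)
      have hn1 : (DD 1).up.n = (DD 0).e := by rw [hd 0 (by omega)]; rfl
      have hYe : (DD 0).up.Yp (DD 0).e = (DD 0).e := by
        rw [(DD 0).hY, (DD 0).eSe, (DD 0).Qe, one_smul, add_zero]
      have hYm : (DD 0).up.Yp (mctr (DD 1) (par1 Ce C₀)) = (D1 Ce / 2) • (DD 0).e := by
        unfold mctr
        rw [hn1, map_smul, hYe]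
        rfl
      have hYx2 : (DD 0).up.Yp x - D1 Ce • (DD 0).e = (4:ℝ) • (DD 0).up.Yp w := by
        rw [hYx, hyw, map_add, hYm, map_smul]
        module
      have hYw : ‖(DD 0).up.Yp w‖ ≤ (1 + Ce) * ‖w‖ := by
        have e : (DD 0).up.Yp w = w - (DD 0).up.nS w • (DD 0).up.n := by
          have := (DD 0).hsum w
          rw [add_assoc, ← (DD 0).hY, hPZ0, zero_add] at this
          rw [eq_sub_iff_add_eq, add_comm]
          exact this
        rw [e]
        refine (norm_sub_le _ _).trans ?_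
        rw [norm_smul ((DD 0).up.nS w) ((DD 0).up.n), (DD 0).norm_n, mul_one, Real.norm_eq_abs]
        have := hb0.nS w
        linarith
      have hB2 := hC.B2_le
      have t4n : ‖(4:ℝ)‖ = 4 := by norm_num
      rw [hYx2, norm_smul (4:ℝ), t4n]
      unfold k2
      have h5 : (1 + Ce) * ‖w‖ ≤ (1 + Ce) * (4 * (1 + Ce) + 3) :=
        mul_le_mul_of_nonneg_left (by linarith) (by linarith)
      nlinarith

end Pool.Agent.H64.HB
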