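import Mathlib

/-!
# A small calculus of bounded Lipschitz functions and gluing lemmas
-/

set_option linter.unusedSectionVars false

open Set Metric

namespace Pool.Agent.H64.HB

variable {X : Type*} [NormedAddCommGroup X] [NormedSpace ℝ X]
variable {E : Type*} [NormedAddCommGroup E] [NormedSpace ℝ E]

/-- `F` is bounded by `L ^ k` and Lipschitz with constant `L ^ k` on `S`. -/
def LB (L : ℝ) (S : Set X) (F : X → E) (k : ℕ) : Prop :=
  (∀ x ∈ S, ‖F x‖ ≤ L ^ k) ∧ ∀ x ∈ S, ∀ y ∈ S, ‖F x - F y‖ ≤ L ^ k * ‖x - y‖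

namespace LB

variable {L : ℝ} {S : Set X} {F G : X → E} {f g : X → ℝ} {k l : ℕ}

lemma one_le_pow (hL : 2 ≤ L) (k : ℕ) : 1 ≤ L ^ k := one_le_pow₀ (by linarith)

lemma pow_le (hL : 2 ≤ L) {k l : ℕ} (h : k ≤ l) : L ^ k ≤ L ^ l :=
  pow_le_pow_right₀ (by linarith) h

lemma two_pow (hL : 2 ≤ L) (k : ℕ) : 2 * L ^ k ≤ L ^ (k + 1) := by
  rw [pow_succ, mul_comm]
  exact mul_le_mul_of_nonneg_left hL (by positivity)

lemma mono (hL : 2 ≤ L) (h : LB L S F k) (hkl : k ≤ l) : LB L S F l :=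
  ⟨fun x hx => (h.1 x hx).trans (pow_le hL hkl), fun x hx y hy =>
    (h.2 x hx y hy).trans (mul_le_mul_of_nonneg_right (pow_le hL hkl) (norm_nonneg _))⟩

lemma subset {S' : Set X} (h : LB L S F k) (hs : S' ⊆ S) : LB L S' F k :=
  ⟨fun x hx => h.1 x (hs hx), fun x hx y hy => h.2 x (hs hx) y (hs hy)⟩

lemma const (hL : 2 ≤ L) {c : E} (h : ‖c‖ ≤ L ^ k) : LB L S (fun _ => c) k :=
  ⟨fun _ _ => h, fun x _ y _ => by
    rw [sub_self, norm_zero]
    have : 0 ≤ L ^ k := by have := one_le_pow hL k; linarith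
    positivity⟩

lemma constR (hL : 2 ≤ L) {c : ℝ} (h0 : 0 ≤ c) (h : c ≤ L ^ k) : LB L S (fun _ => c) k :=
  const hL (by rwa [Real.norm_of_nonneg h0])

lemma congr (h : LB L S F k) (hFG : ∀ x ∈ S, F x = G x) : LB L S G k :=
  ⟨fun x hx => by rw [← hFG x hx]; exact h.1 x hx, fun x hx y hy => by
    rw [← hFG x hx, ← hFG y hy]; exact h.2 x hx y hy⟩

lemma add (hL : 2 ≤ L) (hF : LB L S F k) (hG : LB L S G l) :
    LB L S (fun x => F x + G x) (max k l + 1) := by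
  have h1 := pow_le hL (le_max_left k l)
  have h2 := pow_le hL (le_max_right k l)
  have h3 := two_pow hL (max k l)
  refine ⟨fun x hx => ?_, fun x hx y hy => ?_⟩
  · calc ‖F x + G x‖ ≤ ‖F x‖ + ‖G x‖ := norm_add_le _ _
      _ ≤ L ^ k + L ^ l := add_le_add (hF.1 x hx) (hG.1 x hx)
      _ ≤ _ := by linarith
  · have e : F x + G x - (F y + G y) = (F x - F y) + (G x - G y) := by abel
    rw [e]
    calc _ ≤ ‖F x - F y‖ + ‖G x - G y‖ := norm_add_le _ _
      _ ≤ L ^ k * ‖x - y‖ + L ^ l * ‖x - y‖ := add_le_add (hF.2 x hx y hy) (hG.2 x hx y hy)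
      _ = (L ^ k + L ^ l) * ‖x - y‖ := by ring
      _ ≤ _ := mul_le_mul_of_nonneg_right (by linarith) (norm_nonneg _)

lemma neg (hF : LB L S F k) : LB L S (fun x => - F x) k :=
  ⟨fun x hx => by rw [norm_neg]; exact hF.1 x hx, fun x hx y hy => by
    have e : - F x - - F y = -(F x - F y) := by abel
    rw [e, norm_neg]; exact hF.2 x hx y hy⟩

lemma sub (hL : 2 ≤ L) (hF : LB L S F k) (hG : LB L S G l) :
    LB L S (fun x => F x - G x) (max k l + 1) := by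
  have := add hL hF hG.neg
  exact this.congr fun x _ => (sub_eq_add_neg _ _).symm

lemma smul (hL : 2 ≤ L) (hf : LB L S f k) (hF : LB L S F l) :
    LB L S (fun x => f x • F x) (k + l + 1) := by
  have hp : 0 ≤ L ^ k := by have := one_le_pow hL k; linarith
  have hq : 0 ≤ L ^ l := by have := one_le_pow hL l; linarith
  have h3 := two_pow hL (k + l)
  refine ⟨fun x hx => ?_, fun x hx y hy => ?_⟩
  · rw [norm_smul]
    calc ‖f x‖ * ‖F x‖ ≤ L ^ k * L ^ l := mul_le_mul (hf.1 x hx) (hF.1 x hx) (norm_nonneg _) hp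
      _ = L ^ (k + l) := (pow_add _ _ _).symm
      _ ≤ _ := pow_le hL (by omega)
  · have e : f x • F x - f y • F y = f x • (F x - F y) + (f x - f y) • F y := by
      rw [smul_sub, sub_smul]; abel
    rw [e]
    calc _ ≤ ‖f x • (F x - F y)‖ + ‖(f x - f y) • F y‖ := norm_add_le _ _
      _ = ‖f x‖ * ‖F x - F y‖ + ‖f x - f y‖ * ‖F y‖ := by rw [norm_smul, norm_smul]
      _ ≤ L ^ k * (L ^ l * ‖x - y‖) + (L ^ k * ‖x - y‖) * L ^ l :=
          add_le_add (mul_le_mul (hf.1 x hx) (hF.2 x hx y hy) (norm_nonneg _) hp)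
            (mul_le_mul (hf.2 x hx y hy) (hF.1 y hy) (norm_nonneg _) (by positivity))
      _ = 2 * L ^ (k + l) * ‖x - y‖ := by rw [pow_add]; ring
      _ ≤ _ := mul_le_mul_of_nonneg_right h3 (norm_nonneg _)

lemma mul (hL : 2 ≤ L) (hf : LB L S f k) (hg : LB L S g l) :
    LB L S (fun x => f x * g x) (k + l + 1) := by
  have := smul hL hf hg
  simpa only [smul_eq_mul] using this

lemma norm (hF : LB L S F k) : LB L S (fun x => ‖F x‖) k :=
  ⟨fun x hx => by rw [norm_norm]; exact hF.1 x hx, fun x hx y hy => by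
    rw [Real.norm_eq_abs]; exact (abs_norm_sub_norm_le _ _).trans (hF.2 x hx y hy)⟩

lemma abs (hf : LB L S f k) : LB L S (fun x => |f x|) k := by
  simpa only [Real.norm_eq_abs] using hf.norm

lemma max (hL : 2 ≤ L) (hf : LB L S f k) (hg : LB L S g l) :
    LB L S (fun x => max (f x) (g x)) (max k l) := by
  have h1 := pow_le hL (le_max_left k l)
  have h2 := pow_le hL (le_max_right k l)
  refine ⟨fun x hx => ?_, fun x hx y hy => ?_⟩
  · rw [Real.norm_eq_abs]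
    have a1 := hf.1 x hx
    have a2 := hg.1 x hx
    rw [Real.norm_eq_abs] at a1 a2
    exact (abs_max_le_max_abs_abs).trans (max_le (a1.trans h1) (a2.trans h2))
  · rw [Real.norm_eq_abs]
    have a1 := hf.2 x hx y hy
    have a2 := hg.2 x hx y hy
    rw [Real.norm_eq_abs] at a1 a2
    refine (abs_max_sub_max_le_max _ _ _ _).trans (max_le (a1.trans ?_) (a2.trans ?_))
    · exact mul_le_mul_of_nonneg_right h1 (norm_nonneg _)
    · exact mul_le_mul_of_nonneg_right h2 (norm_nonneg _)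

lemma min (hL : 2 ≤ L) (hf : LB L S f k) (hg : LB L S g l) :
    LB L S (fun x => min (f x) (g x)) (Max.max k l) := by
  have h1 := pow_le hL (le_max_left k l)
  have h2 := pow_le hL (le_max_right k l)
  refine ⟨fun x hx => ?_, fun x hx y hy => ?_⟩
  · rw [Real.norm_eq_abs]
    have a1 := hf.1 x hx
    have a2 := hg.1 x hx
    rw [Real.norm_eq_abs] at a1 a2
    exact (abs_min_le_max_abs_abs).trans (max_le (a1.trans h1) (a2.trans h2))
  · rw [Real.norm_eq_abs]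
    have a1 := hf.2 x hx y hy
    have a2 := hg.2 x hx y hy
    rw [Real.norm_eq_abs] at a1 a2
    refine (abs_min_sub_min_le_max _ _ _ _).trans (max_le (a1.trans ?_) (a2.trans ?_))
    · exact mul_le_mul_of_nonneg_right h1 (norm_nonneg _)
    · exact mul_le_mul_of_nonneg_right h2 (norm_nonneg _)

lemma inv (hL : 2 ≤ L) (hf : LB L S f k) (h : ∀ x ∈ S, 1 / 2 ≤ f x) :
    LB L S (fun x => (f x)⁻¹) (k + 2) := by
  refine ⟨fun x hx => ?_, fun x hx y hy => ?_⟩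
  · have h1 := h x hx
    rw [norm_inv, Real.norm_of_nonneg (by linarith)]
    calc (f x)⁻¹ ≤ (1 / 2)⁻¹ := inv_anti₀ (by norm_num) h1
      _ = 2 := by norm_num
      _ ≤ L ^ 1 := by simpa using hL
      _ ≤ _ := pow_le hL (by omega)
  · have h1 := h x hx
    have h2 := h y hy
    have e : (f x)⁻¹ - (f y)⁻¹ = (f x)⁻¹ * (f y)⁻¹ * (f y - f x) := by
      have : f x ≠ 0 := by linarith
      have : f y ≠ 0 := by linarith
      field_simp
    have i1 : (f x)⁻¹ ≤ 2 := by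
      calc (f x)⁻¹ ≤ (1 / 2)⁻¹ := inv_anti₀ (by norm_num) h1
        _ = 2 := by norm_num
    have i2 : (f y)⁻¹ ≤ 2 := by
      calc (f y)⁻¹ ≤ (1 / 2)⁻¹ := inv_anti₀ (by norm_num) h2
        _ = 2 := by norm_num
    have p1 : 0 ≤ (f x)⁻¹ := inv_nonneg.mpr (by linarith)
    have p2 : 0 ≤ (f y)⁻¹ := inv_nonneg.mpr (by linarith)
    rw [e, norm_mul, norm_mul, Real.norm_of_nonneg p1, Real.norm_of_nonneg p2, norm_sub_rev]
    calc (f x)⁻¹ * (f y)⁻¹ * ‖f x - f y‖ ≤ 2 * 2 * (L ^ k * ‖x - y‖) :=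
          mul_le_mul (mul_le_mul i1 i2 p2 (by norm_num)) (hf.2 x hx y hy) (norm_nonneg _)
            (by norm_num)
      _ ≤ L ^ (k + 2) * ‖x - y‖ := by
          have h3 := two_pow hL k
          have h4 := two_pow hL (k + 1)
          have : 4 * L ^ k ≤ L ^ (k + 2) := by
            calc 4 * L ^ k = 2 * (2 * L ^ k) := by ring
              _ ≤ 2 * L ^ (k + 1) := by linarith
              _ ≤ _ := h4
          calc 2 * 2 * (L ^ k * ‖x - y‖) = 4 * L ^ k * ‖x - y‖ := by ring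
            _ ≤ _ := mul_le_mul_of_nonneg_right this (norm_nonneg _)

end LB

/-- clipping to `[0,1]` -/
noncomputable def cl (r : ℝ) : ℝ := max 0 (min 1 r)

lemma cl_nonneg (r : ℝ) : 0 ≤ cl r := le_max_left _ _

lemma cl_le_one (r : ℝ) : cl r ≤ 1 := max_le zero_le_one (min_le_left _ _)

lemma cl_of_nonpos {r : ℝ} (h : r ≤ 0) : cl r = 0 := by
  unfold cl; rw [max_eq_left]; exact (min_le_right _ _).trans h

lemma cl_of_one_le {r : ℝ} (h : 1 ≤ r) : cl r = 1 := by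
  unfold cl; rw [min_eq_left h]; norm_num

lemma cl_of_mem {r : ℝ} (h0 : 0 ≤ r) (h1 : r ≤ 1) : cl r = r := by
  unfold cl; rw [min_eq_right h1, max_eq_right h0]

lemma pos_of_cl_pos {r : ℝ} (h : 0 < cl r) : 0 < r := by
  by_contra hr
  push Not at hr
  rw [cl_of_nonpos hr] at h
  exact lt_irrefl _ h

lemma cl_le_self {r : ℝ} (h : 0 ≤ r) : cl r ≤ r := max_le h (min_le_right _ _)

lemma cl_mono {r s : ℝ} (h : r ≤ s) : cl r ≤ cl s :=
  max_le_max le_rfl (min_le_min le_rfl h)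

lemma LB.cl {L : ℝ} {S : Set X} {f : X → ℝ} {k : ℕ} (hL : 2 ≤ L) (hf : LB L S f k) :
    LB L S (fun x => cl (f x)) k := by
  have h1 := LB.constR (S := S) (k := 0) hL (c := 1) zero_le_one (by simp)
  have h0 := LB.constR (S := S) (k := 0) hL (c := 0) le_rfl (by simp)
  have := LB.max hL h0 (LB.min hL h1 hf)
  simpa [HB.cl] using this

/-- Gluing of Lipschitz maps along a closed cover by two sets, on a convex set. -/
lemma glue_two {C1 C2 B : Set X} {f g1 g2 : X → E} {α K : ℝ} (hα : 0 < α)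
    (hB : Convex ℝ B) (h1 : IsClosed C1) (h2 : IsClosed C2) (hcov : B ⊆ C1 ∪ C2)
    (hf1 : ∀ x ∈ B, x ∈ C1 → f x = g1 x) (hf2 : ∀ x ∈ B, x ∈ C2 → f x = g2 x)
    {K1 K2 : ℝ} (hK1 : 0 ≤ K1) (hK2 : 0 ≤ K2) (hK : K = K1 + K2)
    (hg1 : ∀ x ∈ B, ∀ y ∈ B, x ∈ C1 → y ∈ C1 → ‖g1 x - g1 y‖ ≤ K1 * ‖x - y‖ ^ α)
    (hg2 : ∀ x ∈ B, ∀ y ∈ B, x ∈ C2 → y ∈ C2 → ‖g2 x - g2 y‖ ≤ K2 * ‖x - y‖ ^ α) :
    ∀ x ∈ B, ∀ y ∈ B, ‖f x - f y‖ ≤ K * ‖x - y‖ ^ α := by
  have key : ∀ x ∈ B, ∀ y ∈ B, x ∈ C1 → y ∈ C2 → ‖f x - f y‖ ≤ K * ‖x - y‖ ^ α := by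
    intro x hx y hy hx1 hy2
    -- a point of the segment in both closed sets
    have hseg : segment ℝ x y ⊆ B := hB.segment_subset hx hy
    have hconn : IsPreconnected (segment ℝ x y) := (convex_segment x y).isPreconnected
    obtain ⟨w, hw, hw1, hw2⟩ := isPreconnected_closed_iff.mp hconn C1 C2 h1 h2
      (hseg.trans hcov) ⟨x, left_mem_segment ℝ x y, hx1⟩ ⟨y, right_mem_segment ℝ x y, hy2⟩
    have hwB := hseg hw
    have hd1 : ‖x - w‖ ≤ ‖x - y‖ := by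
      obtain ⟨t, ⟨ht0, ht1⟩, rfl⟩ := (segment_eq_image ℝ x y).le hw
      have : x - ((1 - t) • x + t • y) = t • (x - y) := by module
      rw [this, norm_smul, Real.norm_of_nonneg ht0]
      nlinarith [norm_nonneg (x - y)]
    have hd2 : ‖w - y‖ ≤ ‖x - y‖ := by
      obtain ⟨t, ⟨ht0, ht1⟩, rfl⟩ := (segment_eq_image ℝ x y).le hw
      have : ((1 - t) • x + t • y) - y = (1 - t) • (x - y) := by module
      rw [this, norm_smul, Real.norm_of_nonneg (by linarith)]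
      nlinarith [norm_nonneg (x - y)]
    have p1 : ‖x - w‖ ^ α ≤ ‖x - y‖ ^ α := Real.rpow_le_rpow (norm_nonneg _) hd1 hα.le
    have p2 : ‖w - y‖ ^ α ≤ ‖x - y‖ ^ α := Real.rpow_le_rpow (norm_nonneg _) hd2 hα.le
    have q1 := hg1 x hx w hwB hx1 hw1
    have q2 := hg2 w hwB y hy hw2 hy2
    rw [← hf1 x hx hx1, ← hf1 w hwB hw1] at q1
    rw [← hf2 w hwB hw2, ← hf2 y hy hy2] at q2
    calc ‖f x - f y‖ = ‖(f x - f w) + (f w - f y)‖ := by congr 1; abel
      _ ≤ ‖f x - f w‖ + ‖f w - f y‖ := norm_add_le _ _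
      _ ≤ K1 * ‖x - y‖ ^ α + K2 * ‖x - y‖ ^ α :=
          add_le_add (q1.trans (mul_le_mul_of_nonneg_left p1 hK1))
            (q2.trans (mul_le_mul_of_nonneg_left p2 hK2))
      _ = _ := by rw [hK]; ring
  intro x hx y hy
  have hpow : 0 ≤ ‖x - y‖ ^ α := Real.rpow_nonneg (norm_nonneg _) _
  rcases hcov hx with hx1 | hx2
  · rcases hcov hy with hy1 | hy2
    · rw [hf1 x hx hx1, hf1 y hy hy1]
      refine (hg1 x hx y hy hx1 hy1).trans (mul_le_mul_of_nonneg_right ?_ hpow)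
      linarith
    · exact key x hx y hy hx1 hy2
  · rcases hcov hy with hy1 | hy2
    · rw [norm_sub_rev, norm_sub_rev x y]
      exact key y hy x hx hy1 hx2
    · rw [hf2 x hx hx2, hf2 y hy hy2]
      refine (hg2 x hx y hy hx2 hy2).trans (mul_le_mul_of_nonneg_right ?_ hpow)
      linarith

/-- Lipschitz version of the gluing lemma. -/
lemma glue_lip {C1 C2 B : Set X} {f g1 g2 : X → E}
    (hB : Convex ℝ B) (h1 : IsClosed C1) (h2 : IsClosed C2) (hcov : B ⊆ C1 ∪ C2)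
    (hf1 : ∀ x ∈ B, x ∈ C1 → f x = g1 x) (hf2 : ∀ x ∈ B, x ∈ C2 → f x = g2 x)
    {K1 K2 K : ℝ} (hK1 : 0 ≤ K1) (hK2 : 0 ≤ K2) (hK : K1 + K2 ≤ K)
    (hg1 : ∀ x ∈ B, ∀ y ∈ B, x ∈ C1 → y ∈ C1 → ‖g1 x - g1 y‖ ≤ K1 * ‖x - y‖)
    (hg2 : ∀ x ∈ B, ∀ y ∈ B, x ∈ C2 → y ∈ C2 → ‖g2 x - g2 y‖ ≤ K2 * ‖x - y‖) :
    ∀ x ∈ B, ∀ y ∈ B, ‖f x - f y‖ ≤ K * ‖x - y‖ := by
  intro x hx y hy
  have := glue_two (α := 1) (f := f) one_pos hB h1 h2 hcov hf1 hf2 hK1 hK2 rfl
    (by simpa only [Real.rpow_one] using hg1) (by simpa only [Real.rpow_one] using hg2) x hx y hy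
  rw [Real.rpow_one] at this
  exact this.trans (mul_le_mul_of_nonneg_right hK (norm_nonneg _))

end Pool.Agent.H64.HB
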