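import Pool.Agent.H64.HBHub

/-!
# Assembly
-/

set_option linter.unusedSectionVars false
set_option linter.unusedVariables false
set_option linter.deprecated false

open Set Metric

namespace Pool.Agent.H64.HB

variable {X : Type*} [NormedAddCommGroup X] [NormedSpace ℝ X]

/-- separated cores give disjoint regions -/
lemma reg_disjoint {Ce C₀ : ℝ} (hC : Cst Ce C₀) {D D' : Dec X}
    (hY : ∀ x, D.up.Yp x = D'.up.Yp x)
    (hsep : ∀ f ∈ D.up.G, ∀ f' ∈ D'.up.G, ‖f‖ ≤ 3 * ‖f - f'‖)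
    (hsep' : ∀ f ∈ D'.up.G, ∀ f' ∈ D.up.G, ‖f‖ ≤ 3 * ‖f - f'‖) :
    Disjoint (Reg D Ce C₀) (Reg D' Ce C₀) := by
  have h0 := hC.C0
  have hC0 : 0 < C₀ := by linarith
  have hk := hC.k2_ge
  have hD1 : D1 Ce = 6 * k2 Ce + 3 := rfl
  have hκ : 1 / (7 * C₀) ≤ 1 := by
    rw [div_le_one (by linarith)]; linarith
  have hκ7 : 7 * (1 / (7 * C₀)) = 1 / C₀ := by field_simp
  have hne : ∀ E : Dec X, (E.up.G : Set X).Nonempty := fun E => ⟨0, E.up.G.zero_mem⟩
  have scal : ∀ E : Dec X, D1 Ce • E.e ∈ E.up.G ∧ ‖D1 Ce • E.e‖ = D1 Ce := by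
    intro E
    refine ⟨E.up.G.smul_mem _ E.heG, ?_⟩
    rw [norm_smul, E.norm_e, mul_one, Real.norm_of_nonneg (by linarith)]
  rw [Set.disjoint_left]
  rintro x ⟨_, hx⟩ ⟨_, hx'⟩
  rw [← hY] at hx'
  generalize D.up.Yp x = v at hx hx'
  have tri : ∀ f f' : X, ‖f - f'‖ ≤ ‖v - f‖ + ‖v - f'‖ := by
    intro f f'
    have e : f - f' = (v - f') - (v - f) := by abel
    rw [e]
    have := norm_sub_le (v - f') (v - f)
    linarith
  rcases hx with ⟨a1, a2⟩ | a
  · obtain ⟨f, hf, hfv⟩ := (infDist_lt_iff (hne D)).mp a2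
    rw [dist_eq_norm] at hfv
    rcases hx' with ⟨b1, b2⟩ | b
    · obtain ⟨f', hf', hfv'⟩ := (infDist_lt_iff (hne D')).mp b2
      rw [dist_eq_norm] at hfv'
      have h1 := hsep f hf f' hf'
      have h2 := tri f f'
      have h3 : ‖v‖ ≤ ‖v - f‖ + ‖f‖ := by
        calc ‖v‖ = ‖(v - f) + f‖ := by rw [sub_add_cancel]
          _ ≤ _ := norm_add_le _ _
      linarith
    · obtain ⟨s1, s2⟩ := scal D'
      have h1 := hsep' _ s1 f hf
      have h2 := tri (D1 Ce • D'.e) f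
      rw [s2] at h1
      linarith
  · obtain ⟨s1, s2⟩ := scal D
    rcases hx' with ⟨b1, b2⟩ | b
    · obtain ⟨f', hf', hfv'⟩ := (infDist_lt_iff (hne D')).mp b2
      rw [dist_eq_norm] at hfv'
      have h1 := hsep _ s1 f' hf'
      have h2 := tri (D1 Ce • D.e) f'
      rw [s2] at h1
      linarith
    · obtain ⟨s1', s2'⟩ := scal D'
      have h1 := hsep _ s1 _ s1'
      have h2 := tri (D1 Ce • D.e) (D1 Ce • D'.e)
      rw [s2] at h1
      linarith

lemma reg_open (D : Dec X) (Ce C₀ : ℝ) : IsOpen (Reg D Ce C₀) := by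
  have h1 : IsOpen {x | 0 < D.up.nS x} := isOpen_lt continuous_const (by fun_prop)
  have h2 : IsOpen {x | 1 / C₀ < ‖D.up.Yp x‖} := isOpen_lt continuous_const (by fun_prop)
  have h3 : IsOpen {x | infDist (D.up.Yp x) (D.up.G : Set X) < 1 / (7 * C₀)} :=
    isOpen_lt ((continuous_infDist_pt _).comp D.up.Yp.continuous) continuous_const
  have h4 : IsOpen {x | ‖D.up.Yp x - D1 Ce • D.e‖ < k2 Ce} :=
    isOpen_lt (by fun_prop) continuous_const
  exact h1.inter ((h2.inter h3).union h4)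

lemma holder_of_lip_bdd {M B α a t : ℝ} (hα : 0 < α) (hα1 : α < 1) (hM : 0 ≤ M) (hB : 0 ≤ B)
    (ht : 0 ≤ t) (h1 : a ≤ M * t) (h2 : a ≤ B) : a ≤ (M + B) * t ^ α := by
  have hp : 0 ≤ t ^ α := Real.rpow_nonneg ht _
  rcases le_total t 1 with h | h
  · have h3 : t ≤ t ^ α := by
      rcases eq_or_lt_of_le ht with h0 | h0
      · rw [← h0] at hp ⊢; exact hp
      · calc t = t ^ (1:ℝ) := (Real.rpow_one t).symm
          _ ≤ t ^ α := Real.rpow_le_rpow_of_exponent_ge h0 h hα1.le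
    have h4 : M * t ≤ M * t ^ α := mul_le_mul_of_nonneg_left h3 hM
    have h5 : 0 ≤ B * t ^ α := mul_nonneg hB hp
    nlinarith
  · have h3 : 1 ≤ t ^ α := Real.one_le_rpow h hα.le
    have h4 : B * 1 ≤ B * t ^ α := mul_le_mul_of_nonneg_left h3 hB
    have h5 : 0 ≤ M * t ^ α := mul_nonneg hM hp
    nlinarith

/-- index of the block of leg `m` -/
def bi (m : ℕ) : ℕ → ℕ
  | 0 => 0
  | l + 1 => (m + 3) ^ 2 + l

lemma bi_inj (m : ℕ) {i j : ℕ} (h : i ≠ j) : bi m i ≠ bi m j := by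
  have hp : 0 < (m + 3) ^ 2 := by positivity
  cases i with
  | zero =>
    cases j with
    | zero => exact absurd rfl h
    | succ j => simp only [bi]; omega
  | succ i =>
    cases j with
    | zero => simp only [bi]; omega
    | succ j => simp only [bi]; omega

/-- Main theorem: a bounded fixed point free map on `X` with uniformly Hölder iterates and
minimal displacement zero. -/
theorem main (h : ¬ FiniteDimensional ℝ X) {α : ℝ} (hα : 0 < α) (hα1 : α < 1) :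
    ∃ (T : X → X) (Mb K : ℝ), 0 ≤ K ∧ (∀ x, ‖T x‖ ≤ Mb) ∧
      (∀ n : ℕ, 1 ≤ n → ∀ x y, ‖T^[n] x - T^[n] y‖ ≤ K * ‖x - y‖ ^ α) ∧ (∀ x, T x ≠ x) ∧
      ∀ d : ℝ, 0 < d → ∃ x, ‖x‖ ≤ Mb ∧ ‖x - T x‖ < d := by
  obtain ⟨v, ψ, hv, hψ, hψ1, hψ0, hsp⟩ := exists_biorth h
  -- the kernel is infinite dimensional
  have hker : ¬ FiniteDimensional ℝ (LinearMap.ker (ψ 0 : X →ₗ[ℝ] ℝ)) := by
    intro hfd
    apply h
    let L : (LinearMap.ker (ψ 0 : X →ₗ[ℝ] ℝ) × ℝ) →ₗ[ℝ] X :=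
      (LinearMap.ker (ψ 0 : X →ₗ[ℝ] ℝ)).subtype.coprod (LinearMap.toSpanSingleton ℝ X (v 0))
    apply Module.Finite.of_surjective L
    intro x
    refine ⟨(kproj (v 0) (ψ 0) (hψ1 0) x, ψ 0 x), ?_⟩
    show (x - ψ 0 x • v 0) + ψ 0 x • v 0 = x
    abel
  obtain ⟨K, R, hK, hRL, hR1, hR⟩ := Pool.Agent.H30.exists_sphere_retraction hker
  have hC : Cst 3 13 := ⟨by norm_num, by norm_num⟩
  set Rm := By0 3 13 with hRm
  have hRm1 : 44000 ≤ Rm := hC.By0_ge
  have hRm' : 1 ≤ Rm := by linarith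
  set lam := (1 + Rm * K) * 4 with hlam
  have hlam1 : 1 ≤ lam := by
    have : 0 ≤ Rm * K := by positivity
    rw [hlam]; linarith
  obtain ⟨S, c₀, hS, hc0, hc1, hleg⟩ := leg_exists (X := X) hC hα hα1 hlam1
  -- families
  have hbio : ∀ m : ℕ, Bio (fun l => v (bi m l)) (fun l => ψ (bi m l)) := fun m =>
    ⟨fun j => hv _, fun j x => hψ _ x, fun j => hψ1 _, fun i j hij => hψ0 _ _ (bi_inj m hij)⟩
  set DD : ℕ → ℕ → Dec X := fun m => fam (hbio m) (m + 3) (by omega) with hDD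
  have hDD0 : ∀ m, DD m 0 = decm (hbio m) (m + 3) 0 (by omega) := fun m =>
    fam_eq (hbio m) (m + 3) (by omega) 0 (by omega)
  have hPZ : ∀ m x, (DD m 0).up.PZ x = 0 := by
    intro m x; rw [hDD0]; rfl
  have hnS : ∀ m, (DD m 0).up.nS = ψ 0 := by
    intro m; rw [hDD0]; rfl
  have hYp : ∀ m x, (DD m 0).up.Yp x = x - ψ 0 x • v 0 := by
    intro m x; rw [hDD0]
    show x - (0 + ψ 0 x • v 0) = _
    rw [zero_add]
  set r₀ := hub (v 0) (ψ 0) (hψ1 0) R Rm 1 with hr₀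
  set T₀ := hub (v 0) (ψ 0) (hψ1 0) R Rm (-1) with hT₀
  have hp₀ : Pair r₀ T₀ := hub_pair (hψ1 0) hR1 hR hRm'
  have hleg2 : ∀ m, ∃ r' T' : X → X, Out (DD m 0).up (4 * 13) (16 * 13) Rm
      ((DD m 0).up.obox (4 * 13) (16 * 13) Rm ∩ Reg (DD m 0) 3 13) α S (12 * c₀ ^ m)
      r₀ T₀ r' T' := by
    intro m
    refine hleg m (DD m) ?_ ?_ ?_ ?_ (hPZ m) r₀ T₀ ?_
    · rw [hDD0]
      exact decm_bnd _ _ _ _ (by norm_num)
    · have : DD m 1 = decm (hbio m) (m + 3) 1 (by omega) :=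
        fam_eq (hbio m) (m + 3) (by omega) 1 (by omega)
      rw [this]
      exact decm_bnd _ _ _ _ (by norm_num)
    · intro i hi
      have : DD m (i + 2) = decm (hbio m) (m + 3) (i + 2) (by omega) :=
        fam_eq (hbio m) (m + 3) (by omega) (i + 2) (by omega)
      rw [this]
      apply decm_bnd
      have := pow_bound i
      push_cast
      linarith
    · intro j hj
      exact fam_down (hbio m) (m + 3) (by omega) j (by omega)
    · exact hub_state (hψ1 0) (hψ 0) (hv 0) hR1 hK hRL hR hRm' (hPZ m) (hnS m) (hYp m) _ _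
  choose r T hout using hleg2
  set O : ℕ → Set X := fun m => (DD m 0).up.obox (4 * 13) (16 * 13) Rm ∩ Reg (DD m 0) 3 13 with hO
  have hOo : ∀ m, IsOpen (O m) := fun m => ((DD m 0).up.obox_open _ _ _).inter (reg_open _ _ _)
  -- separation of the blocks
  have hG : ∀ m, (DD m 0).up.G = Submodule.span ℝ ((fun l => v (bi m l)) '' {l | 1 ≤ l ∧ l ≤ m + 3}) := by
    intro m; rw [hDD0]; rfl
  have hlow : ∀ m k, (m + 3) ^ 2 + m + 2 ≤ k →
      (DD m 0).up.G ≤ Submodule.span ℝ (v '' {i | i ≤ k}) := by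
    intro m k hk
    rw [hG]
    apply Submodule.span_mono
    rintro _ ⟨l, ⟨hl1, hl2⟩, rfl⟩
    refine ⟨bi m l, ?_, rfl⟩
    show bi m l ≤ k
    cases l with
    | zero => omega
    | succ l => simp only [bi]; omega
  have hhigh : ∀ m k, k < (m + 3) ^ 2 →
      (DD m 0).up.G ≤ Submodule.span ℝ (v '' {i | k < i}) := by
    intro m k hk
    rw [hG]
    apply Submodule.span_mono
    rintro _ ⟨l, ⟨hl1, hl2⟩, rfl⟩
    refine ⟨bi m l, ?_, rfl⟩
    show k < bi m l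
    cases l with
    | zero => omega
    | succ l => simp only [bi]; omega
  have hsep : ∀ m m', m ≠ m' → ∀ f ∈ (DD m 0).up.G, ∀ f' ∈ (DD m' 0).up.G,
      ‖f‖ ≤ 3 * ‖f - f'‖ := by
    intro m m' hmm f hf f' hf'
    rcases lt_or_gt_of_ne hmm with hlt | hlt
    · have hk : (m + 3) ^ 2 + m + 2 < (m' + 3) ^ 2 := by nlinarith
      have h1 := hsp ((m + 3) ^ 2 + m + 2) f (hlow m _ le_rfl hf) (-f')
        (Submodule.neg_mem _ (hhigh m' _ hk hf'))
      rw [← sub_eq_add_neg] at h1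
      have := norm_nonneg (f - f')
      linarith
    · have hk : (m' + 3) ^ 2 + m' + 2 < (m + 3) ^ 2 := by nlinarith
      have h1 := hsp ((m' + 3) ^ 2 + m' + 2) f' (hlow m' _ le_rfl hf') (-f)
        (Submodule.neg_mem _ (hhigh m _ hk hf))
      rw [← sub_eq_add_neg, norm_sub_rev f' f] at h1
      have h2 : ‖f‖ ≤ ‖f - f'‖ + ‖f'‖ := by
        calc ‖f‖ = ‖(f - f') + f'‖ := by rw [sub_add_cancel]
          _ ≤ _ := norm_add_le _ _
      linarith
  have hdis : ∀ m m', m ≠ m' → Disjoint (O m) (O m') := by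
    intro m m' hmm
    have := reg_disjoint hC (D := DD m 0) (D' := DD m' 0) (fun x => by rw [hYp, hYp])
      (hsep m m' hmm) (hsep m' m hmm.symm)
    exact this.mono inter_subset_right inter_subset_right
  have hfix : ∀ m k, r₀ k = k → k ∉ O m := by
    intro m k hk hmem
    have h1 := hmem.1.2.1
    rw [hnS, ← hk, hr₀] at h1
    unfold hub at h1
    rw [one_smul, ψ_coe] at h1
    exact lt_irrefl _ h1
  -- Hölder estimates
  have a1 : |(1:ℝ)| = 1 := abs_one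
  have a2 : |(-1:ℝ)| = 1 := by norm_num
  have hub_hold : ∀ s : ℝ, |s| = 1 → ∀ x y, ‖hub (v 0) (ψ 0) (hψ1 0) R Rm s x -
      hub (v 0) (ψ 0) (hψ1 0) R Rm s y‖ ≤ (lam + 2 * Rm) * ‖x - y‖ ^ α := by
    intro s hs x y
    apply holder_of_lip_bdd hα hα1 (by linarith) (by linarith) (norm_nonneg _)
      (hub_lip (hψ1 0) (hψ 0) (hv 0) hR1 hK hRL hRm' hs x y)
    have h1 := (norm_hub (hψ1 0) hR1 hRm' hs x).2
    have h2 := (norm_hub (hψ1 0) hR1 hRm' hs y).2
    have := norm_sub_le (hub (v 0) (ψ 0) (hψ1 0) R Rm s x) (hub (v 0) (ψ 0) (hψ1 0) R Rm s y)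
    linarith
  set K0 := lam + 2 * Rm with hK0
  have hK0' : 0 ≤ K0 := by linarith
  have hglob := fun m => out_global hα hS hK0' inter_subset_left (hout m)
    (hub_hold 1 a1) (hub_hold (-1) a2)
  set K1 := K0 + S with hK1
  have hK1' : 0 ≤ K1 := by linarith
  have h0hold : ∀ x y, ‖r₀ x - r₀ y‖ ≤ K1 * ‖x - y‖ ^ α := fun x y =>
    (hub_hold 1 a1 x y).trans (mul_le_mul_of_nonneg_right (by linarith)
      (Real.rpow_nonneg (norm_nonneg _) _))
  have h0hold' : ∀ x y, ‖T₀ x - T₀ y‖ ≤ K1 * ‖x - y‖ ^ α := fun x y =>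
    (hub_hold (-1) a2 x y).trans (mul_le_mul_of_nonneg_right (by linarith)
      (Real.rpow_nonneg (norm_nonneg _) _))
  have hPr := patch_holder hOo hdis (fun m => (hout m).offr) hK1' hα h0hold
    (fun m => (hglob m).1)
  have hPT := patch_holder hOo hdis (fun m => (hout m).offT) hK1' hα h0hold'
    (fun m => (hglob m).2)
  have hpair := patch_pair hdis hp₀ (fun m => (hout m).pair) (fun m => (hout m).offr)
    (fun m => (hout m).offT) hfix
  -- bounds
  set ρ := 4 * 13 + 16 * 13 + Rm with hρ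
  have hρ0 : 0 ≤ ρ := by linarith
  have hρα : 0 ≤ ρ ^ α := Real.rpow_nonneg hρ0 _
  have hO0 : ∀ m, (0 : X) ∉ O m := by
    intro m hmem
    have h1 := hmem.1.2.1
    rw [map_zero] at h1
    exact lt_irrefl _ h1
  refine ⟨patch O T T₀, Rm + K1 * ρ ^ α + ρ, 2 * K1, by linarith, ?_, ?_, hpair.fix, ?_⟩
  · intro x
    by_cases hx : ∃ m, x ∈ O m
    · obtain ⟨m, hm⟩ := hx
      rw [patch_of_mem hdis _ _ hm]
      have h1 := (hglob m).2 x 0
      rw [sub_zero] at h1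
      have h2 : ‖x‖ ≤ ρ := norm_le_box (DD m 0) ((DD m 0).up.obox_subset _ _ _ hm.1)
      have h3 : ‖x‖ ^ α ≤ ρ ^ α := Real.rpow_le_rpow (norm_nonneg _) h2 hα.le
      have h4 : ‖T m 0‖ ≤ Rm := by
        rw [(hout m).offT 0 (hO0 m)]
        exact (norm_hub (hψ1 0) hR1 hRm' a2 0).2
      have h5 : ‖T m x‖ ≤ ‖T m x - T m 0‖ + ‖T m 0‖ := by
        calc ‖T m x‖ = ‖(T m x - T m 0) + T m 0‖ := by rw [sub_add_cancel]
          _ ≤ _ := norm_add_le _ _
      have h6 := mul_le_mul_of_nonneg_left h3 hK1'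
      linarith
    · push Not at hx
      rw [patch_of_not _ _ hx]
      have h1 := (norm_hub (hψ1 0) hR1 hRm' a2 x).2
      have h2 : 0 ≤ K1 * ρ ^ α := by positivity
      linarith
  · intro n hn x y
    rcases hpair.iter n hn with he | he
    · rw [he]; exact hPT x y
    · rw [he]; exact hPr x y
  · intro d hd
    obtain ⟨m, hm⟩ := exists_pow_lt_of_lt_one (show 0 < d / 12 by positivity) hc1
    obtain ⟨x, hx, hxd⟩ := (hout m).pt
    refine ⟨x, ?_, ?_⟩
    · have h2 : ‖x‖ ≤ ρ := norm_le_box (DD m 0) ((DD m 0).up.obox_subset _ _ _ hx.1)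
      have h3 : 0 ≤ K1 * ρ ^ α := by positivity
      linarith
    · rw [norm_sub_rev, patch_of_mem hdis _ _ hx]
      refine hxd.trans_lt ?_
      linarith

end Pool.Agent.H64.HB
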