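import Pool.Agent.H64.HBFlap

/-!
# Algebra of the flap step, straightness of the new sheet, the explicit zone
-/

set_option linter.unusedSectionVars false
set_option linter.unusedVariables false
set_option linter.unusedSimpArgs false
set_option linter.deprecated false

open Set Metric

namespace Pool.Agent.H64.HB

variable {X : Type*} [NormedAddCommGroup X] [NormedSpace ℝ X]
variable {D : Dec X} {P : Par}

/-- a retraction `r` and a fixed point free map `T` with `T ∘ T = r` -/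
structure Pair (r T : X → X) : Prop where
  rr : ∀ x, r (r x) = r x
  tt : ∀ x, T (T x) = r x
  rt : ∀ x, r (T x) = T x
  tr : ∀ x, T (r x) = T x
  fix : ∀ x, T x ≠ x

/-- the fixed points of `r` in the box lie below the sheet -/
def Below (W : Up X) (Bz Be By : ℝ) (r : X → X) : Prop :=
  ∀ k, r k = k → k ∈ W.box Bz Be By → W.nS k ≤ 0

lemma box_of_tau (hP : P.OK) {x : X} (h : 0 < tau D P x) : x ∈ D.up.box P.Bz P.Be P.By := by
  by_contra hx
  have h1 : flap D P (fun y => y + D.e) 1 x = x + D.e := flap_off_box hP hx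
  obtain ⟨h1, _, h3⟩ := tau_pos_imp hP h
  obtain ⟨h4, h5, h6, h7, _⟩ := of_bb_pos hP h3
  apply hx
  refine ⟨h4.le, ?_, ?_⟩
  · rw [abs_of_pos h1]; exact h5.le
  · rw [D.hY]
    calc ‖D.eS x • D.e + D.Q x‖ ≤ ‖D.eS x • D.e‖ + ‖D.Q x‖ := norm_add_le _ _
      _ = |D.eS x| + ‖D.Q x‖ := by rw [norm_smul, D.norm_e, mul_one, Real.norm_eq_abs]
      _ ≤ P.By := by linarith

lemma tau_of_below (hP : P.OK) {r : X → X} (hb : Below D.up P.Bz P.Be P.By r) {k : X}
    (hk : r k = k) : tau D P k = 0 := by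
  by_contra hne
  have h : 0 < tau D P k := lt_of_le_of_ne (tau_nonneg k) (Ne.symm hne)
  have h1 := hb k hk (box_of_tau hP h)
  have h2 := (tau_pos_imp hP h).1
  linarith

lemma sign_abs {s : ℝ} (hs : s = 1 ∨ s = -1) : |s| = 1 := by
  rcases hs with h | h <;> rw [h] <;> simp

lemma Np_FP {s : ℝ} (hs : s = 1 ∨ s = -1) (x : X) : Np D P (FP D P s x) = Np D P x := by
  obtain ⟨_, _, _, h4⟩ := coords_FP (D := D) (P := P) s x
  unfold Np
  rw [h4]
  have h1 : ‖s • D.Q x‖ = ‖D.Q x‖ := by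
    rw [norm_smul, Real.norm_eq_abs, sign_abs hs, one_mul]
  have h2 : infDist (s • D.Q x) (D.G' : Set X) = infDist (D.Q x) (D.G' : Set X) := by
    rcases hs with h | h
    · rw [h, one_smul]
    · rw [h, neg_one_smul]
      have key : ∀ y : X, infDist (-y) (D.G' : Set X) ≤ infDist y (D.G' : Set X) := by
        intro y
        rw [le_infDist ⟨0, D.G'.zero_mem⟩]
        intro g hg
        have hg' : -g ∈ (D.G' : Set X) := D.G'.neg_mem hg
        refine (infDist_le_dist_of_mem hg').trans (le_of_eq ?_)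
        rw [dist_neg_neg]
      apply le_antisymm (key _)
      have := key (-D.Q x)
      rwa [neg_neg] at this
  rw [h1, h2]

lemma tt_FP {s : ℝ} (hs : s = 1 ∨ s = -1) (x : X) : tt D P (FP D P s x) = tt D P x := by
  unfold tt; rw [Np_FP hs]

lemma sig1_le_sig (x : X) : sig1 D P x ≤ sig D P x := min_le_left _ _

lemma bb_FP (hP : P.OK) {s : ℝ} (hs : s = 1 ∨ s = -1) {x : X} (h : 0 < tau D P x) :
    bb D P x ≤ bb D P (FP D P s x) := by
  obtain ⟨h1, h2, h3, h4⟩ := coords_FP (D := D) (P := P) s x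
  have hn : sig1 D P x ≤ D.up.nS x :=
    (sig1_le_sig x).trans ((sig_le_tau x).trans (tau_pos_imp hP h).2.1)
  have hU := U_pos hP
  have hBe := hP.Be
  have hQ : ‖s • D.Q x‖ = ‖D.Q x‖ := by
    rw [norm_smul, Real.norm_eq_abs, sign_abs hs, one_mul]
  unfold bb
  rw [h1, h2, h3, h4, tt_FP hs, hQ]
  have k1 := cl_nonneg (2 - 2 * ‖D.up.PZ x‖ / P.Bz)
  have k2 := cl_nonneg (2 - 2 * D.up.nS x / P.Be)
  have k3 := cl_nonneg (2 - |D.eS x| / P.U)
  have k4 := cl_nonneg ((P.By - 2 * P.U - ‖D.Q x‖) / P.ka)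
  have k5 : 0 ≤ max P.om (cl (2 - tt D P x)) := le_max_of_le_right (cl_nonneg _)
  have l2 : cl (2 - 2 * D.up.nS x / P.Be) ≤ cl (2 - 2 * sig1 D P x / P.Be) := by
    apply cl_mono
    have : 2 * sig1 D P x / P.Be ≤ 2 * D.up.nS x / P.Be := by
      apply div_le_div_of_nonneg_right _ hBe.le
      linarith
    linarith
  have l3 : cl (2 - |D.eS x| / P.U) ≤ cl (2 - |(0:ℝ)| / P.U) := by
    apply cl_mono
    have : 0 ≤ |D.eS x| / P.U := by positivity
    rw [abs_zero, zero_div]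
    linarith
  have k2' := cl_nonneg (2 - 2 * sig1 D P x / P.Be)
  gcongr

lemma tau_FP (hP : P.OK) {s : ℝ} (hs : s = 1 ∨ s = -1) {x : X} (h : 0 < tau D P x) :
    tau D P (FP D P s x) = sig1 D P x := by
  obtain ⟨h1, h2, h3, h4⟩ := coords_FP (D := D) (P := P) s x
  have h5 := bb_FP hP hs h
  have h6 : sig1 D P x ≤ P.H * bb D P (FP D P s x) :=
    (sig1_le_sig x).trans ((sig_le_tau x).trans ((tau_le hP x).trans
      (mul_le_mul_of_nonneg_left h5 hP.H.le)))
  unfold tau
  rw [h2, min_eq_left h6, max_eq_right (sig1_nonneg hP x)]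

lemma sig_FP (hP : P.OK) {s : ℝ} (hs : s = 1 ∨ s = -1) {x : X} (h : 0 < tau D P x) :
    sig D P (FP D P s x) = sig1 D P x := by
  obtain ⟨h1, h2, h3, h4⟩ := coords_FP (D := D) (P := P) s x
  have h5 := sig1_nonneg (D := D) hP x
  unfold sig
  rw [tau_FP hP hs h, h3, abs_zero, mul_zero, zero_div, sub_zero, min_eq_left (by linarith),
    max_eq_right h5]

lemma sig1_FP (hP : P.OK) {s : ℝ} (hs : s = 1 ∨ s = -1) {x : X} (h : 0 < tau D P x) :
    sig1 D P (FP D P s x) = sig1 D P x := by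
  have h1 : sig1 D P x ≤ P.H * cl (- tt D P x) := min_le_right _ _
  conv_lhs => unfold sig1
  rw [sig_FP hP hs h, tt_FP hs, min_eq_left h1]

lemma FP_FP (hP : P.OK) {s s' : ℝ} (hs : s = 1 ∨ s = -1) {x : X} (h : 0 < tau D P x) :
    FP D P s' (FP D P s x) = FP D P (s' * s) x := by
  obtain ⟨h1, h2, h3, h4⟩ := coords_FP (D := D) (P := P) s x
  show D.up.PZ (FP D P s x) + sig1 D P (FP D P s x) • D.up.n + s' • D.Q (FP D P s x) = _
  rw [sig1_FP hP hs h, h1, h4, smul_smul]
  rfl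

lemma sig1_pos (hP : P.OK) {x : X} (h : 0 < sig D P x) (ht : tt D P x < 0) :
    0 < sig1 D P x := by
  unfold sig1
  refine lt_min h (mul_pos hP.H ?_)
  unfold cl
  exact lt_max_of_lt_right (lt_min one_pos (by linarith))

lemma flap_FP (hP : P.OK) {f : X → X} {s s' : ℝ} (hs : s = 1 ∨ s = -1) {x : X}
    (h : 0 < sig D P x) (ht : tt D P x < 0) :
    flap D P f s' (FP D P s x) = FP D P (s' * s) x := by
  have hτ := (sig_pos_imp hP h).1
  unfold flap
  rw [if_pos ⟨by rw [sig_FP hP hs hτ]; exact sig1_pos hP h ht, by rw [tt_FP hs]; exact ht⟩,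
    FP_FP hP hs hτ]

lemma flap_of_pos {f : X → X} {s : ℝ} {x : X} (h : 0 < sig D P x) (ht : tt D P x < 0) :
    flap D P f s x = FP D P s x := by
  unfold flap
  rw [if_pos ⟨h, ht⟩]

/-- The flap step preserves pairs. -/
theorem pair_flap (hP : P.OK) {r T : X → X} (hp : Pair r T)
    (hb : Below D.up P.Bz P.Be P.By r) :
    Pair (flap D P r 1) (flap D P T (-1)) := by
  have K : ∀ (f : X → X) (s : ℝ) (k : X), r k = k → flap D P f s k = f k :=
    fun f s k hk => flap_of_tau_zero (tau_of_below hP hb hk)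
  have o1 : (1:ℝ) = 1 ∨ (1:ℝ) = -1 := Or.inl rfl
  have o2 : (-1:ℝ) = 1 ∨ (-1:ℝ) = -1 := Or.inr rfl
  constructor
  · intro x
    by_cases h : x ∈ C1 D P
    · rw [flap_of_C1 h, K _ _ _ (hp.rr _), hp.rr]
    · obtain ⟨h1, h2⟩ := not_C1_imp h
      rw [flap_of_pos h1 h2, flap_FP hP o1 h1 h2, mul_one]
  · intro x
    by_cases h : x ∈ C1 D P
    · rw [flap_of_C1 h, flap_of_C1 h, K _ _ _ (hp.rt _), hp.tt]
    · obtain ⟨h1, h2⟩ := not_C1_imp h
      rw [flap_of_pos h1 h2, flap_FP hP o2 h1 h2, flap_of_pos h1 h2]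
      norm_num
  · intro x
    by_cases h : x ∈ C1 D P
    · rw [flap_of_C1 h, K _ _ _ (hp.rt _), hp.rt]
    · obtain ⟨h1, h2⟩ := not_C1_imp h
      rw [flap_of_pos h1 h2, flap_FP hP o2 h1 h2, one_mul]
  · intro x
    by_cases h : x ∈ C1 D P
    · rw [flap_of_C1 h, flap_of_C1 h, K _ _ _ (hp.rr _), hp.tr]
    · obtain ⟨h1, h2⟩ := not_C1_imp h
      rw [flap_of_pos h1 h2, flap_FP hP o1 h1 h2, flap_of_pos h1 h2, mul_one]
  · intro x hx
    by_cases h : x ∈ C1 D P
    · rw [flap_of_C1 h] at hx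
      have hk : r x = x := by rw [← hx, hp.rt]
      have h2 : AA D P x = x := AA_eq_self (tau_of_below hP hb hk)
      rw [h2] at hx
      exact hp.fix x hx
    · obtain ⟨h1, h2⟩ := not_C1_imp h
      rw [flap_of_pos h1 h2] at hx
      have h3 := (coords_FP (D := D) (P := P) (-1) x).2.2.2
      rw [hx, neg_one_smul] at h3
      have h4 : D.Q x = 0 := by
        have h5 : (2:ℝ) • D.Q x = 0 := by
          rw [two_smul]; nth_rewrite 1 [h3]; exact neg_add_cancel _
        exact (smul_eq_zero.mp h5).resolve_left (by norm_num)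
      have h5 := tt_ge_of_norm (D := D) hP (x := x) (by rw [h4, norm_zero]; norm_num)
      linarith

/-- where the cut-off equals one -/
lemma bb_eq_one (hP : P.OK) {x : X} (h1 : ‖D.up.PZ x‖ ≤ P.Bz / 2) (h2 : D.up.nS x ≤ P.H)
    (h3 : |D.eS x| ≤ P.U) (h4 : ‖D.Q x‖ ≤ P.By - 2 * P.U - P.ka)
    (h5 : P.om = 1 ∨ tt D P x ≤ 1) : bb D P x = 1 := by
  have hU := U_pos hP
  have hBz := hP.Bz
  have hBe := hP.Be
  have hka := hP.ka
  have hHB := hP.HBe
  have e1 : cl (2 - 2 * ‖D.up.PZ x‖ / P.Bz) = 1 := by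
    apply cl_of_one_le
    have : 2 * ‖D.up.PZ x‖ / P.Bz ≤ 1 := by rw [div_le_one hBz]; linarith
    linarith
  have e2 : cl (2 - 2 * D.up.nS x / P.Be) = 1 := by
    apply cl_of_one_le
    have : 2 * D.up.nS x / P.Be ≤ 1 := by rw [div_le_one hBe]; linarith
    linarith
  have e3 : cl (2 - |D.eS x| / P.U) = 1 := by
    apply cl_of_one_le
    have : |D.eS x| / P.U ≤ 1 := by rw [div_le_one hU]; exact h3
    linarith
  have e4 : cl ((P.By - 2 * P.U - ‖D.Q x‖) / P.ka) = 1 := by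
    apply cl_of_one_le
    rw [le_div_iff₀ hka]; linarith
  have e5 : max P.om (cl (2 - tt D P x)) = 1 := by
    rcases h5 with h | h
    · rw [h]; exact max_eq_left (cl_le_one _)
    · rw [cl_of_one_le (by linarith)]; exact max_eq_right (om_mem hP).2
  unfold bb
  rw [e1, e2, e3, e4, e5]; norm_num

lemma tau_eq_nS (hP : P.OK) {x : X} (hb : bb D P x = 1) (h0 : 0 ≤ D.up.nS x)
    (h1 : D.up.nS x ≤ P.H) : tau D P x = D.up.nS x := by
  unfold tau
  rw [hb, mul_one, min_eq_left h1, max_eq_right h0]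

lemma sig_eq_nS (hP : P.OK) {x : X} (hb : bb D P x = 1) (h0 : 0 ≤ D.up.nS x)
    (h1 : D.up.nS x ≤ P.H) (h2 : 2 * |D.eS x| ≤ P.al * D.up.nS x) :
    sig D P x = D.up.nS x := by
  unfold sig
  rw [tau_eq_nS hP hb h0 h1]
  have hal := hP.al
  have : 2 * |D.eS x| / P.al ≤ D.up.nS x := by
    rw [div_le_iff₀ hal]; linarith
  rw [min_eq_left (by linarith), max_eq_right h0]

/-- straightness of the flap -/
lemma flap_straight (hP : P.OK) {f : X → X} {s : ℝ} {x : X}
    (h1 : ‖D.up.PZ x‖ ≤ P.Bz / 2) (h0 : 0 < D.up.nS x) (h2 : D.up.nS x ≤ P.H)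
    (h3 : |D.eS x| ≤ P.U) (h3' : 2 * |D.eS x| ≤ P.al * D.up.nS x)
    (h4 : ‖D.Q x‖ ≤ P.By - 2 * P.U - P.ka) (h5 : 1 + 4 * P.th ≤ Np D P x) :
    flap D P f s x = D.up.PZ x + D.up.nS x • D.up.n + s • D.Q x := by
  have hth := hP.th
  have ht : tt D P x ≤ -1 := by
    have := Np_eq (D := D) hP x
    by_contra hc
    push Not at hc
    nlinarith
  have hb := bb_eq_one hP h1 h2 h3 h4 (Or.inr (by linarith))
  have hs := sig_eq_nS hP hb h0.le h2 h3'
  rw [flap_of_pos (by rw [hs]; exact h0) (by linarith)]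
  unfold FP sig1
  rw [hs, cl_of_one_le (by linarith), mul_one, min_eq_left h2]

/-- fixed points above the sheet lie on the flap -/
lemma below_flap (hP : P.OK) {r T : X → X} (hp : Pair r T)
    (hb : Below D.up P.Bz P.Be P.By r) {k : X} (hk : flap D P r 1 k = k)
    (hbox : k ∈ D.up.box P.Bz P.Be P.By) (hn : 0 < D.up.nS k) : D.eS k = 0 := by
  by_cases h : k ∈ C1 D P
  · rw [flap_of_C1 h] at hk
    have h1 : r k = k := by rw [← hk, hp.rr]
    have h2 := hb k h1 hbox
    linarith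
  · obtain ⟨h1, h2⟩ := not_C1_imp h
    rw [flap_of_pos h1 h2] at hk
    have := (coords_FP (D := D) (P := P) 1 k).2.2.1
    rwa [hk] at this

/-- new fixed points -/
lemma range_flap (hP : P.OK) {r T : X → X} (hp : Pair r T)
    {k : X} (hk : flap D P r 1 k = k) : r k = k ∨ 0 < tau D P k := by
  by_cases h : k ∈ C1 D P
  · rw [flap_of_C1 h] at hk
    exact Or.inl (by rw [← hk, hp.rr])
  · obtain ⟨h1, h2⟩ := not_C1_imp h
    exact Or.inr (sig_pos_imp hP h1).1

/-! ### The explicit zone -/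

/-- the zone above the sheet where the flap step is explicit (with `om = 1`) -/
def zone (D : Dec X) (P : Par) : Set X :=
  {x | ‖D.up.PZ x‖ ≤ P.Bz / 2 ∧ P.h ≤ D.up.nS x ∧ D.up.nS x ≤ P.H ∧ |D.eS x| ≤ P.U ∧
    2 * |D.eS x| ≤ P.al * D.up.nS x ∧ ‖D.Q x‖ ≤ P.By - 2 * P.U - P.ka}

/-- parameters allow the filling of the hole -/
structure Fill (D : Dec X) (P : Par) (Ce : ℝ) : Prop where
  om : P.om = 1
  one_le : 1 ≤ Ce
  eS : ∀ x, |D.eS x| ≤ Ce * ‖x‖
  rho : 4 * (1 + Ce) ≤ P.rho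
  R : 4 * Ce ≤ P.R
  q : 4 * (1 + Ce) * P.Lam ≤ P.Lam'

lemma zone_subset_box (hP : P.OK) : zone D P ⊆ D.up.box P.Bz P.Be P.By := by
  rintro x ⟨h1, h2, h3, h4, h5, h6⟩
  have hh := hP.h
  have := hP.HBe
  have hH := hP.H
  have hU := U_pos hP
  have hka := hP.ka
  refine ⟨by have := hP.Bz; linarith, ?_, ?_⟩
  · rw [abs_of_nonneg (by linarith)]; linarith
  · rw [D.hY]
    calc ‖D.eS x • D.e + D.Q x‖ ≤ ‖D.eS x • D.e‖ + ‖D.Q x‖ := norm_add_le _ _
      _ = |D.eS x| + ‖D.Q x‖ := by rw [norm_smul, D.norm_e, mul_one, Real.norm_eq_abs]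
      _ ≤ P.By := by linarith

lemma zone_facts (hP : P.OK) (hom : P.om = 1) {x : X} (hx : x ∈ zone D P) :
    bb D P x = 1 ∧ tau D P x = D.up.nS x ∧ sig D P x = D.up.nS x ∧ sh D P x = 1 := by
  obtain ⟨h1, h2, h3, h4, h5, h6⟩ := hx
  have hh := hP.h
  have hb := bb_eq_one hP h1 h3 h4 h6 (Or.inl hom)
  have h0 : 0 ≤ D.up.nS x := by linarith
  have hs := sig_eq_nS hP hb h0 h3 h5
  refine ⟨hb, tau_eq_nS hP hb h0 h3, hs, ?_⟩
  unfold sh
  rw [hs]
  apply min_eq_right
  rw [le_div_iff₀ hh]; linarith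

/-- explicit value -/
noncomputable def EZ (D : Dec X) (P : Par) (s : ℝ) (x : X) : X :=
  D.up.PZ x + s • ((thc D P x * P.R) • D.e + cq D P x • D.Q x)

lemma norm_ge_of_Dec {Ce : ℝ} (hCe : 1 ≤ Ce) (heS : ∀ x, |D.eS x| ≤ Ce * ‖x‖) (a b : ℝ) (y : X) :
    |a| ≤ Ce * ‖a • D.e + b • D.Q y‖ ∧ ‖b • D.Q y‖ ≤ (1 + Ce) * ‖a • D.e + b • D.Q y‖ := by
  have h1 : D.eS (a • D.e + b • D.Q y) = a := by simp [D.eSe, D.eSQ]
  have h2 := heS (a • D.e + b • D.Q y)
  rw [h1] at h2
  refine ⟨h2, ?_⟩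
  have e : b • D.Q y = (a • D.e + b • D.Q y) - a • D.e := by abel
  calc ‖b • D.Q y‖ = ‖(a • D.e + b • D.Q y) - a • D.e‖ := by rw [← e]
    _ ≤ ‖a • D.e + b • D.Q y‖ + ‖a • D.e‖ := norm_sub_le _ _
    _ = ‖a • D.e + b • D.Q y‖ + |a| := by rw [norm_smul, D.norm_e, mul_one, Real.norm_eq_abs]
    _ ≤ _ := by linarith

lemma infDist_comb (a : ℝ) {c : ℝ} (hc : 0 ≤ c) (y : X) :
    infDist (a • D.e + c • D.Q y) (D.up.G : Set X) ≤ c * infDist (D.Q y) (D.G' : Set X) := by
  have key : ∀ g ∈ (D.G' : Set X),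
      infDist (a • D.e + c • D.Q y) (D.up.G : Set X) ≤ c * dist (D.Q y) g := by
    intro g hg
    have hm : a • D.e + c • g ∈ (D.up.G : Set X) :=
      D.up.G.add_mem (D.up.G.smul_mem _ D.heG) (D.up.G.smul_mem _ (D.hG' hg))
    refine (infDist_le_dist_of_mem hm).trans (le_of_eq ?_)
    rw [dist_add_left, dist_smul₀, Real.norm_of_nonneg hc]
  rcases eq_or_lt_of_le hc with h | h
  · have := key 0 D.G'.zero_mem
    rw [← h, zero_mul] at this ⊢
    exact this
  · have : infDist (a • D.e + c • D.Q y) (D.up.G : Set X) / c ≤ infDist (D.Q y) (D.G' : Set X) := by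
      rw [le_infDist ⟨0, D.G'.zero_mem⟩]
      intro g hg
      rw [div_le_iff₀ h, mul_comm]
      exact key g hg
    rw [div_le_iff₀ h] at this
    linarith

/-- the argument lies in the straight region -/
lemma NG_AA (hP : P.OK) {Ce : ℝ} (hF : Fill D P Ce) {x : X} (hx : x ∈ zone D P)
    (ht : 0 ≤ tt D P x) :
    1 ≤ D.up.NG P.Lam ((thc D P x * P.R) • D.e + cq D P x • D.Q x) := by
  obtain ⟨_, _, _, hsh⟩ := zone_facts hP hF.om hx
  have hth := hP.th
  have hth' := hP.th'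
  have hCe := hF.one_le
  have hNp := Np_eq (D := D) hP x
  have hr := Np_le (D := D) hP x
  have hLam := hP.Lam
  have hR := hF.R
  have hcq := cq_nonneg (D := D) hP x
  have hd0 : 0 ≤ infDist (D.Q x) (D.G' : Set X) := infDist_nonneg
  have hcomb := infDist_comb (D := D) (thc D P x * P.R) hcq x
  have hcqe : cq D P x = (1 - thc D P x) * mu D P x := by
    unfold cq; rw [hF.om, hsh]; ring
  unfold Up.NG
  set d := infDist (D.Q x) (D.G' : Set X) with hd
  set y := (thc D P x * P.R) • D.e + cq D P x • D.Q x with hy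
  have hNpd : Np D P x = ‖D.Q x‖ - P.Lam' * d := rfl
  rcases le_total (tt D P x) 1 with h1 | h1
  · -- scaling part
    have ha : thc D P x = 0 := cl_of_nonpos (by linarith)
    have hm := one_le_mu (D := D) hP x
    have hcq1 : cq D P x = mu D P x := by rw [hcqe, ha]; ring
    have hyn : ‖y‖ = mu D P x * ‖D.Q x‖ := by
      rw [hy, ha, zero_mul, zero_smul, zero_add, hcq1, norm_smul, Real.norm_of_nonneg (by linarith)]
    rw [hcq1] at hcomb
    have h2 : P.Lam * infDist y (D.up.G : Set X) ≤ mu D P x * (P.Lam' * d) := by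
      calc P.Lam * infDist y (D.up.G : Set X) ≤ P.Lam * (mu D P x * d) :=
            mul_le_mul_of_nonneg_left hcomb hLam
        _ = mu D P x * (P.Lam * d) := by ring
        _ ≤ mu D P x * (P.Lam' * d) :=
            mul_le_mul_of_nonneg_left (mul_le_mul_of_nonneg_right hP.Lam' hd0) (by linarith)
    have h3 : mu D P x * ‖D.Q x‖ - mu D P x * (P.Lam' * d) = mu D P x * Np D P x := by
      rw [hNpd]; ring
    have h4 : 1 ≤ Np D P x := by rw [hNp]; nlinarith
    have h5 : 1 ≤ mu D P x * Np D P x := one_le_mul_of_one_le_of_one_le hm h4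
    rw [hyn]; linarith
  · rcases le_total (tt D P x) 2 with h2 | h2
    · -- cone part
      have ha : thc D P x = tt D P x - 1 := cl_of_mem (by linarith) (by linarith)
      set a := thc D P x with hadef
      have ha0 : 0 ≤ a := by rw [ha]; linarith
      have ha1 : a ≤ 1 := by rw [ha]; linarith
      have hvth : vth D P x = 1 := by
        unfold vth
        rw [cl_of_one_le h1, cl_of_one_le (by linarith)]; simp
      have hr1 : 1 / 2 ≤ ‖D.Q x‖ := by
        have : 1 ≤ Np D P x := by rw [hNp]; nlinarith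
        linarith
      have hrpos : 0 < ‖D.Q x‖ := by linarith
      have hmr : P.rho ≤ mu D P x * ‖D.Q x‖ := by
        unfold mu
        rw [hF.om, hsh, hvth, max_eq_left hr1]
        have : P.rho * ‖D.Q x‖⁻¹ - 1 ≤ max 0 (P.rho * ‖D.Q x‖⁻¹ - 1) := le_max_right _ _
        calc P.rho = (1 + 1 * 1 * 1 * (P.rho * ‖D.Q x‖⁻¹ - 1)) * ‖D.Q x‖ := by
              field_simp; ring
          _ ≤ _ := by
              apply mul_le_mul_of_nonneg_right _ hrpos.le
              linarith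
      have hLd : P.Lam' * d ≤ ‖D.Q x‖ := by
        have : 0 ≤ Np D P x := by rw [hNp]; nlinarith
        rw [hNpd] at this; linarith
      have h4C : 0 < 4 * (1 + Ce) := by linarith
      have hq : 4 * (1 + Ce) * (P.Lam * d) ≤ ‖D.Q x‖ := by
        calc 4 * (1 + Ce) * (P.Lam * d) = (4 * (1 + Ce) * P.Lam) * d := by ring
          _ ≤ P.Lam' * d := mul_le_mul_of_nonneg_right hF.q hd0
          _ ≤ _ := hLd
      obtain ⟨n1, n2⟩ := norm_ge_of_Dec (D := D) hCe hF.eS (a * P.R) (cq D P x) x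
      rw [← hy] at n1 n2
      rw [norm_smul, Real.norm_of_nonneg hcq] at n2
      rw [abs_of_nonneg (mul_nonneg ha0 hP.R)] at n1
      -- the correction term
      have h6 : 4 * (P.Lam * infDist y (D.up.G : Set X)) ≤ ‖y‖ := by
        have h7 : (1 + Ce) * (4 * (P.Lam * infDist y (D.up.G : Set X))) ≤ (1 + Ce) * ‖y‖ := by
          calc (1 + Ce) * (4 * (P.Lam * infDist y (D.up.G : Set X)))
              ≤ (1 + Ce) * (4 * (P.Lam * (cq D P x * d))) := by
                apply mul_le_mul_of_nonneg_left _ (by linarith)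
                apply mul_le_mul_of_nonneg_left _ (by norm_num)
                exact mul_le_mul_of_nonneg_left hcomb hLam
            _ = cq D P x * (4 * (1 + Ce) * (P.Lam * d)) := by ring
            _ ≤ cq D P x * ‖D.Q x‖ := mul_le_mul_of_nonneg_left hq hcq
            _ ≤ _ := n2
        exact le_of_mul_le_mul_left h7 (by linarith)
      -- lower bound for the norm
      have h8 : 4 * a ≤ ‖y‖ := by
        have : Ce * (4 * a) ≤ Ce * ‖y‖ := by
          calc Ce * (4 * a) = a * (4 * Ce) := by ring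
            _ ≤ a * P.R := mul_le_mul_of_nonneg_left hR ha0
            _ ≤ _ := n1
        exact le_of_mul_le_mul_left this (by linarith)
      have h9 : 4 * (1 - a) ≤ ‖y‖ := by
        have : (1 + Ce) * (4 * (1 - a)) ≤ (1 + Ce) * ‖y‖ := by
          calc (1 + Ce) * (4 * (1 - a)) = (1 - a) * (4 * (1 + Ce)) := by ring
            _ ≤ (1 - a) * (mu D P x * ‖D.Q x‖) :=
                mul_le_mul_of_nonneg_left (hF.rho.trans hmr) (by linarith)
            _ = cq D P x * ‖D.Q x‖ := by rw [hcqe]; ring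
            _ ≤ _ := n2
        exact le_of_mul_le_mul_left this (by linarith)
      linarith
    · have ha : thc D P x = 1 := cl_of_one_le (by linarith)
      have hcq0 : cq D P x = 0 := by rw [hcqe, ha]; ring
      have hyn : ‖y‖ = P.R := by
        rw [hy, ha, one_mul, hcq0, zero_smul, add_zero, norm_smul, D.norm_e, mul_one,
          Real.norm_of_nonneg hP.R]
      rw [hcq0, zero_mul] at hcomb
      have h3 : infDist y (D.up.G : Set X) = 0 := le_antisymm hcomb infDist_nonneg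
      rw [hyn, h3]; linarith

/-- explicit form in the zone -/
lemma flap_zone (hP : P.OK) {Ce : ℝ} (hF : Fill D P Ce) {f : X → X} {s : ℝ}
    (hf : D.up.Straight P.Lam P.Bz P.Be P.By f s) {x : X} (hx : x ∈ zone D P)
    (ht : 0 ≤ tt D P x) : flap D P f s x = EZ D P s x := by
  obtain ⟨z1, z2, z3, z4⟩ := zone_facts hP hF.om hx
  have hbox := AA_mem_box hP (zone_subset_box hP hx)
  have hn : 0 < D.up.nS x := lt_of_lt_of_le hP.h hx.2.1
  have hs0 : soft (D.eS x) (P.al * tau D P x) = 0 := by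
    apply soft_zero_of_abs
    rw [z2]
    have := hx.2.2.2.2.1
    have := abs_nonneg (D.eS x)
    linarith
  have hce : ce D P x = thc D P x * P.R := by
    unfold ce; rw [hs0, hF.om, z4]; ring
  rw [flap_of_C1 (Or.inr ht), hf _ hbox, (coords_AA x).1, Yp_AA, hce]
  · rfl
  · rw [Yp_AA, hce]
    exact NG_AA hP hF hx ht

lemma zone_convex (D : Dec X) (P : Par) : Convex ℝ (zone D P) := by
  have h1 : Convex ℝ {x | ‖D.up.PZ x‖ ≤ P.Bz / 2} := by
    have : {x | ‖D.up.PZ x‖ ≤ P.Bz / 2} = D.up.PZ ⁻¹' (closedBall 0 (P.Bz / 2)) := by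
      ext x; simp
    rw [this]
    exact (convex_closedBall (0 : X) _).linear_preimage (D.up.PZ : X →ₗ[ℝ] X)
  have h2 : Convex ℝ {x | P.h ≤ D.up.nS x} :=
    convex_halfSpace_ge (D.up.nS : X →ₗ[ℝ] ℝ).isLinear _
  have h3 : Convex ℝ {x | D.up.nS x ≤ P.H} :=
    convex_halfSpace_le (D.up.nS : X →ₗ[ℝ] ℝ).isLinear _
  have h4 : Convex ℝ {x | |D.eS x| ≤ P.U} := by
    have : {x | |D.eS x| ≤ P.U} = D.eS ⁻¹' (closedBall 0 P.U) := by
      ext x; simp
    rw [this]
    exact (convex_closedBall (0 : ℝ) _).linear_preimage (D.eS : X →ₗ[ℝ] ℝ)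
  have h5 : Convex ℝ {x | 2 * |D.eS x| ≤ P.al * D.up.nS x} := by
    have e : {x | 2 * |D.eS x| ≤ P.al * D.up.nS x} =
        {x | ((2:ℝ) • D.eS - P.al • D.up.nS) x ≤ 0} ∩
          {x | (-(2:ℝ) • D.eS - P.al • D.up.nS) x ≤ 0} := by
      ext x
      simp only [mem_inter_iff, mem_setOf_eq]
      simp only [ContinuousLinearMap.sub_apply, ContinuousLinearMap.smul_apply, smul_eq_mul,
        neg_mul, neg_smul, ContinuousLinearMap.neg_apply]
      constructor
      · intro h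
        have h6 := le_abs_self (D.eS x)
        have h7 := neg_abs_le (D.eS x)
        constructor <;> linarith
      · rintro ⟨h6, h7⟩
        rcases abs_cases (D.eS x) with ⟨h, _⟩ | ⟨h, _⟩ <;> rw [h] <;> linarith
    rw [e]
    exact (convex_halfSpace_le ((2:ℝ) • D.eS - P.al • D.up.nS : X →ₗ[ℝ] ℝ).isLinear _).inter
      (convex_halfSpace_le (-(2:ℝ) • D.eS - P.al • D.up.nS : X →ₗ[ℝ] ℝ).isLinear _)
  have h6 : Convex ℝ {x | ‖D.Q x‖ ≤ P.By - 2 * P.U - P.ka} := by
    have : {x | ‖D.Q x‖ ≤ P.By - 2 * P.U - P.ka} =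
        D.Q ⁻¹' (closedBall 0 (P.By - 2 * P.U - P.ka)) := by
      ext x; simp
    rw [this]
    exact (convex_closedBall (0 : X) _).linear_preimage (D.Q : X →ₗ[ℝ] X)
  exact h1.inter (h2.inter (h3.inter (h4.inter (h5.inter h6))))

/-- Lipschitz estimate in the zone, independent of `f`. -/
theorem flap_lip_zone (hP : P.OK) {L Ce : ℝ} (hS : Size D P L) (hF : Fill D P Ce)
    {f : X → X} {s : ℝ} (hs : |s| ≤ 1) (hf : D.up.Straight P.Lam P.Bz P.Be P.By f s) :
    ∀ x ∈ zone D P, ∀ y ∈ zone D P,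
      ‖flap D P f s x - flap D P f s y‖ ≤ L ^ 121 * ‖x - y‖ := by
  have hL := hS.L2
  have hsub := zone_subset_box (D := D) hP
  have hp := LB.one_le_pow hL 120
  have hp41 := LB.one_le_pow hL 41
  have hEZ : LB L (D.up.box P.Bz P.Be P.By) (fun x => EZ D P s x) 120 := by
    set S := D.up.box P.Bz P.Be P.By with hSdef
    have a1 := LB.smul hL (LB.mul hL (LB_thc hP hS) (LB.constR (S := S) (k := 1) hL hP.R
      (by simpa using hS.R))) (LB.const (S := S) (k := 0) hL (c := D.e) (by rw [D.norm_e]; simp))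
    have a2 := LB.add hL a1 (LB.smul hL (LB_cq hP hS) (LB_Q hS))
    have a3 := LB.smul hL (LB.const (S := S) (k := 0) hL (c := s)
      (by rw [Real.norm_eq_abs]; simpa using hs)) a2
    have a4 := LB.add hL (LB_PZ hS) a3
    exact (a4.mono hL (by norm_num)).congr fun x _ => rfl
  refine glue_lip (g1 := fun x => EZ D P s x) (g2 := fun x => FP D P s x)
    (C1 := {x | 0 ≤ tt D P x}) (C2 := {x | tt D P x ≤ 0})
    (zone_convex D P) (isClosed_le continuous_const continuous_tt)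
    (isClosed_le continuous_tt continuous_const) (fun x _ => le_total 0 (tt D P x))
    (fun x hx h => flap_zone hP hF hf hx h) (fun x hx h => ?_)
    (K1 := L ^ 120) (K2 := L ^ 41) (by positivity) (by positivity) ?_ ?_ ?_
  · apply flap_of_C2 hP hf
    apply C2_of_pos hP _ h
    rw [(zone_facts hP hF.om hx).2.2.1]
    exact lt_of_lt_of_le hP.h hx.2.1
  · have h1 : 2 * L ^ 120 ≤ L ^ 121 := LB.two_pow hL 120
    have h2 := LB.pow_le hL (show 41 ≤ 120 by norm_num)
    linarith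
  · intro x hx y hy _ _
    exact hEZ.2 x (hsub hx) y (hsub hy)
  · intro x hx y hy _ _
    exact (LB_FP hP hS hs).2 x (hsub hx) y (hsub hy)

end Pool.Agent.H64.HB
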