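import Pool.Agent.H64.HBPair

/-!
# Radial contractions
-/

set_option linter.unusedSectionVars false
set_option linter.unusedVariables false
set_option linter.deprecated false

open Set Metric

namespace Pool.Agent.H64.HB

variable {X : Type*} [NormedAddCommGroup X] [NormedSpace ℝ X]

/-- a gauge equivalent to the norm -/
structure Gauge (g : X → ℝ) (Lg Cg : ℝ) : Prop where
  nonneg : ∀ v, 0 ≤ g v
  smul : ∀ (t : ℝ) (v : X), 0 ≤ t → g (t • v) = t * g v
  lip : ∀ v w, |g v - g w| ≤ Lg * ‖v - w‖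
  norm : ∀ v, ‖v‖ ≤ Cg * g v
  Lg0 : 0 ≤ Lg
  Cg0 : 0 ≤ Cg

/-- radial map -/
noncomputable def Rad (g : X → ℝ) (m : ℝ → ℝ) (v : X) : X := (m (g v) / g v) • v

section
variable {g : X → ℝ} {Lg Cg : ℝ}

lemma Gauge.eq_zero (hg : Gauge g Lg Cg) {v : X} (h : g v = 0) : v = 0 := by
  have := hg.norm v
  rw [h, mul_zero] at this
  exact norm_le_zero_iff.mp this

lemma Gauge.zero (hg : Gauge g Lg Cg) : g 0 = 0 := by
  have := hg.smul 0 0 le_rfl
  rwa [zero_smul, zero_mul] at this

lemma Rad_zero (m : ℝ → ℝ) : Rad g m (0 : X) = 0 := by unfold Rad; rw [smul_zero]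

lemma g_Rad (hg : Gauge g Lg Cg) {m : ℝ → ℝ} (hm : ∀ r, 0 ≤ r → 0 ≤ m r) (hm0 : m 0 = 0) (v : X) :
    g (Rad g m v) = m (g v) := by
  have h0 := hg.nonneg v
  rcases eq_or_lt_of_le h0 with h | h
  · have hv := hg.eq_zero h.symm
    rw [hv, Rad_zero, hg.zero, hm0]
  · unfold Rad
    rw [hg.smul _ _ (div_nonneg (hm _ h0) h0)]
    field_simp

lemma Rad_Rad (hg : Gauge g Lg Cg) {m m' : ℝ → ℝ} (hm : ∀ r, 0 ≤ r → 0 ≤ m' r) (hm0 : m' 0 = 0)
    (hinv : ∀ r, 0 ≤ r → m (m' r) = r) (hpos : ∀ r, 0 < r → 0 < m' r) (v : X) :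
    Rad g m (Rad g m' v) = v := by
  have h0 := hg.nonneg v
  rcases eq_or_lt_of_le h0 with h | h
  · have hv := hg.eq_zero h.symm
    rw [hv, Rad_zero, Rad_zero]
  · have h1 := g_Rad hg hm hm0 v
    have h2 := hpos _ h
    unfold Rad at h1 ⊢
    rw [h1, smul_smul, hinv _ h0]
    have : g v / m' (g v) * (m' (g v) / g v) = 1 := by field_simp
    rw [this, one_smul]

lemma Rad_of_eq (hg : Gauge g Lg Cg) {m : ℝ → ℝ} {t : ℝ} {v : X} (h : m (g v) = t * g v) :
    Rad g m v = t • v := by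
  rcases eq_or_ne (g v) 0 with h0 | h0
  · have hv := hg.eq_zero h0
    rw [hv, Rad_zero, smul_zero]
  · unfold Rad
    rw [h]
    congr 1
    field_simp

lemma Rad_eq_smul (m : ℝ → ℝ) (v : X) : Rad g m v = (m (g v) / g v) • v := rfl

lemma Rad_lip (hg : Gauge g Lg Cg) {m : ℝ → ℝ} {K : ℝ} (hK : 0 ≤ K) (hm0 : m 0 = 0)
    (hm : ∀ r s, 0 ≤ r → 0 ≤ s → |m r - m s| ≤ K * |r - s|) (v w : X) :
    ‖Rad g m v - Rad g m w‖ ≤ K * (1 + 2 * Cg * Lg) * ‖v - w‖ := by
  have hb : ∀ u : X, |m (g u)| ≤ K * g u := by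
    intro u
    have := hm (g u) 0 (hg.nonneg u) le_rfl
    rw [hm0, sub_zero, sub_zero, abs_of_nonneg (hg.nonneg u)] at this
    exact this
  have hq : ∀ u : X, |m (g u) / g u| ≤ K := by
    intro u
    rcases eq_or_lt_of_le (hg.nonneg u) with h | h
    · rw [← h, div_zero, abs_zero]; exact hK
    · rw [abs_div, abs_of_pos h, div_le_iff₀ h]; exact hb u
  have hC : 0 ≤ 2 * Cg * Lg := by have := hg.Cg0; have := hg.Lg0; positivity
  have hvw : 0 ≤ ‖v - w‖ := norm_nonneg _
  rcases eq_or_lt_of_le (hg.nonneg w) with h | hw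
  · have hw0 := hg.eq_zero h.symm
    rw [hw0, Rad_zero, sub_zero, sub_zero, Rad_eq_smul, norm_smul, Real.norm_eq_abs]
    have h1 := mul_le_mul_of_nonneg_right (hq v) (norm_nonneg v)
    have h2 : K * ‖v‖ ≤ K * (1 + 2 * Cg * Lg) * ‖v‖ := by
      apply mul_le_mul_of_nonneg_right _ (norm_nonneg v)
      nlinarith
    linarith
  rcases eq_or_lt_of_le (hg.nonneg v) with h | hv
  · have hv0 := hg.eq_zero h.symm
    rw [hv0, Rad_zero, zero_sub, zero_sub, norm_neg, norm_neg, Rad_eq_smul, norm_smul,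
      Real.norm_eq_abs]
    have h1 := mul_le_mul_of_nonneg_right (hq w) (norm_nonneg w)
    have h2 : K * ‖w‖ ≤ K * (1 + 2 * Cg * Lg) * ‖w‖ := by
      apply mul_le_mul_of_nonneg_right _ (norm_nonneg w)
      nlinarith
    linarith
  have e : Rad g m v - Rad g m w =
      (m (g v) / g v) • (v - w) + (m (g v) / g v - m (g w) / g w) • w := by
    rw [Rad_eq_smul, Rad_eq_smul]; module
  have h1 : ‖(m (g v) / g v) • (v - w)‖ ≤ K * ‖v - w‖ := by
    rw [norm_smul, Real.norm_eq_abs]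
    exact mul_le_mul_of_nonneg_right (hq v) hvw
  have h2 : |m (g v) / g v - m (g w) / g w| * g w ≤ 2 * K * |g v - g w| := by
    have e2 : (m (g v) / g v - m (g w) / g w) * g w =
        (m (g v) - m (g w)) + (m (g v) / g v) * (g w - g v) := by
      field_simp
      ring
    calc |m (g v) / g v - m (g w) / g w| * g w
        = |(m (g v) / g v - m (g w) / g w) * g w| := by rw [abs_mul, abs_of_pos hw]
      _ = |(m (g v) - m (g w)) + (m (g v) / g v) * (g w - g v)| := by rw [e2]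
      _ ≤ |m (g v) - m (g w)| + |(m (g v) / g v) * (g w - g v)| := abs_add_le _ _
      _ ≤ K * |g v - g w| + K * |g v - g w| := by
          apply add_le_add (hm _ _ hv.le hw.le)
          rw [abs_mul, abs_sub_comm (g w)]
          exact mul_le_mul_of_nonneg_right (hq v) (abs_nonneg _)
      _ = _ := by ring
  have h3 : ‖(m (g v) / g v - m (g w) / g w) • w‖ ≤ K * (2 * Cg * Lg) * ‖v - w‖ := by
    rw [norm_smul, Real.norm_eq_abs]
    calc |m (g v) / g v - m (g w) / g w| * ‖w‖
        ≤ |m (g v) / g v - m (g w) / g w| * (Cg * g w) :=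
          mul_le_mul_of_nonneg_left (hg.norm w) (abs_nonneg _)
      _ = Cg * (|m (g v) / g v - m (g w) / g w| * g w) := by ring
      _ ≤ Cg * (2 * K * |g v - g w|) := mul_le_mul_of_nonneg_left h2 hg.Cg0
      _ ≤ Cg * (2 * K * (Lg * ‖v - w‖)) := by
          apply mul_le_mul_of_nonneg_left _ hg.Cg0
          exact mul_le_mul_of_nonneg_left (hg.lip v w) (by positivity)
      _ = _ := by ring
  rw [e]
  refine (norm_add_le _ _).trans ?_
  calc _ ≤ K * ‖v - w‖ + K * (2 * Cg * Lg) * ‖v - w‖ := add_le_add h1 h3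
    _ = _ := by ring

end

/-! ### The radial profile -/

/-- contraction profile -/
noncomputable def mm (c b s r : ℝ) : ℝ := min r (max (c * r) (b - s * (b - r)))

/-- inverse profile -/
noncomputable def mi (c b s r : ℝ) : ℝ := max r (min (r / c) (b - (b - r) / s))

/-- admissible profile constants -/
structure Prof (c b s : ℝ) : Prop where
  c0 : 0 < c
  c1 : c < 1
  b1 : 1 < b
  sb : s * (b - 1) = b - c

namespace Prof
variable {c b s : ℝ}

lemma s1 (h : Prof c b s) : 1 < s := by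
  have h1 := h.c1
  have h2 := h.b1
  have h3 := h.sb
  by_contra hc
  push Not at hc
  nlinarith

lemma id1 (h : Prof c b s) (r : ℝ) : (b - s * (b - r)) - c * r = (s - c) * (r - 1) := by
  have := h.sb; linear_combination (-1 : ℝ) * this

lemma id2 (r : ℝ) : r - (b - s * (b - r)) = (s - 1) * (b - r) := by ring

lemma mm_low (h : Prof c b s) {r : ℝ} (h0 : 0 ≤ r) (h1 : r ≤ 1) : mm c b s r = c * r := by
  have := h.id1 r
  have hs := h.s1
  have hc := h.c1
  unfold mm
  rw [max_eq_left (by nlinarith), min_eq_right (by nlinarith)]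

lemma mm_mid (h : Prof c b s) {r : ℝ} (h0 : 1 ≤ r) (h1 : r ≤ b) : mm c b s r = b - s * (b - r) := by
  have := h.id1 r
  have := id2 (b := b) (s := s) r
  have hs := h.s1
  have hc := h.c1
  unfold mm
  rw [max_eq_right (by nlinarith), min_eq_right (by nlinarith)]

lemma mm_high (h : Prof c b s) {r : ℝ} (h0 : b ≤ r) : mm c b s r = r := by
  have := id2 (b := b) (s := s) r
  have hs := h.s1
  unfold mm
  apply min_eq_left
  apply le_max_of_le_right
  nlinarith

lemma mm_nonneg (h : Prof c b s) {r : ℝ} (h0 : 0 ≤ r) : 0 ≤ mm c b s r :=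
  le_min h0 (le_max_of_le_left (mul_nonneg h.c0.le h0))

lemma mm_pos (h : Prof c b s) {r : ℝ} (h0 : 0 < r) : 0 < mm c b s r :=
  lt_min h0 (lt_max_of_lt_left (mul_pos h.c0 h0))

lemma mm_le (r : ℝ) : mm c b s r ≤ r := min_le_left _ _

lemma le_mi (r : ℝ) : r ≤ mi c b s r := le_max_left _ _

lemma mm_zero (h : Prof c b s) : mm c b s 0 = 0 := by
  rw [h.mm_low le_rfl zero_le_one, mul_zero]

lemma mi_mm (h : Prof c b s) {r : ℝ} (h0 : 0 ≤ r) : mi c b s (mm c b s r) = r := by
  have hs := h.s1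
  have hc0 := h.c0
  have hc := h.c1
  have hb := h.b1
  have hs0 : 0 < s := by linarith
  rcases le_total r 1 with h1 | h1
  · rw [h.mm_low h0 h1]
    unfold mi
    have e1 : c * r / c = r := by field_simp
    have e2 : r ≤ b - (b - c * r) / s := by
      have := h.id1 r
      have h3 : (b - c * r) / s ≤ b - r := by
        rw [div_le_iff₀ hs0]; nlinarith
      linarith
    rw [e1, min_eq_left e2, max_eq_right (by nlinarith)]
  · rcases le_total r b with h2 | h2
    · rw [h.mm_mid h1 h2]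
      unfold mi
      have e1 : b - (b - (b - s * (b - r))) / s = r := by field_simp; ring
      have e2 : r ≤ (b - s * (b - r)) / c := by
        rw [le_div_iff₀ hc0]
        have := h.id1 r
        nlinarith
      rw [e1, min_eq_right e2]
      apply max_eq_right
      have := id2 (b := b) (s := s) r
      nlinarith
    · rw [h.mm_high h2]
      unfold mi
      apply max_eq_left
      apply min_le_of_right_le
      have h3 : b - r ≤ (b - r) / s := by
        rw [le_div_iff₀ hs0]; nlinarith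
      linarith

lemma mm_surj (h : Prof c b s) {u : ℝ} (h0 : 0 ≤ u) : ∃ r, 0 ≤ r ∧ mm c b s r = u := by
  have hs := h.s1
  have hc0 := h.c0
  have hc := h.c1
  have hb := h.b1
  have hs0 : 0 < s := by linarith
  rcases le_total u c with h1 | h1
  · refine ⟨u / c, div_nonneg h0 hc0.le, ?_⟩
    rw [h.mm_low (div_nonneg h0 hc0.le) (by rw [div_le_one hc0]; exact h1)]
    field_simp
  · rcases le_total u b with h2 | h2
    · have e1 : 1 ≤ b - (b - u) / s := by
        have : (b - u) / s ≤ b - 1 := by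
          rw [div_le_iff₀ hs0, mul_comm, h.sb]; linarith
        linarith
      refine ⟨b - (b - u) / s, by linarith, ?_⟩
      rw [h.mm_mid e1]
      · field_simp; ring
      · have : 0 ≤ (b - u) / s := div_nonneg (by linarith) hs0.le
        linarith
    · exact ⟨u, h0, h.mm_high h2⟩

lemma mm_mi (h : Prof c b s) {u : ℝ} (h0 : 0 ≤ u) : mm c b s (mi c b s u) = u := by
  obtain ⟨r, hr, rfl⟩ := h.mm_surj h0
  rw [h.mi_mm hr]

lemma mi_nonneg {u : ℝ} (h0 : 0 ≤ u) : 0 ≤ mi c b s u := h0.trans (le_max_left _ _)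

lemma mi_pos {u : ℝ} (h0 : 0 < u) : 0 < mi c b s u := lt_of_lt_of_le h0 (le_max_left _ _)

lemma mi_zero (h : Prof c b s) : mi c b s 0 = 0 := by
  have := h.mi_mm le_rfl
  rwa [h.mm_zero] at this

lemma mi_low (h : Prof c b s) {u : ℝ} (h0 : 0 ≤ u) (h1 : u ≤ c) : mi c b s u = c⁻¹ * u := by
  have hc0 := h.c0
  have e : mm c b s (c⁻¹ * u) = u := by
    have h2 : 0 ≤ c⁻¹ * u := mul_nonneg (inv_nonneg.mpr hc0.le) h0
    rw [h.mm_low h2]
    · field_simp
    · rw [inv_mul_le_iff₀ hc0, mul_one]; exact h1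
  calc mi c b s u = mi c b s (mm c b s (c⁻¹ * u)) := by rw [e]
    _ = _ := h.mi_mm (mul_nonneg (inv_nonneg.mpr hc0.le) h0)

lemma mi_high (h : Prof c b s) {u : ℝ} (h1 : b ≤ u) : mi c b s u = u := by
  have hb := h.b1
  have e := h.mi_mm (r := u) (by linarith)
  rwa [h.mm_high h1] at e

lemma mi_le_b (h : Prof c b s) {u : ℝ} (h0 : 0 ≤ u) (h1 : u ≤ b) : mi c b s u ≤ b := by
  by_contra hc
  push Not at hc
  have := h.mm_mi h0
  rw [h.mm_high hc.le] at this
  linarith

lemma mi_lt_b (h : Prof c b s) {u : ℝ} (h0 : 0 ≤ u) (h1 : u < b) : mi c b s u < b := by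
  by_contra hc
  push Not at hc
  have := h.mm_mi h0
  rw [h.mm_high hc] at this
  linarith

lemma mm_lip (h : Prof c b s) (r t : ℝ) : |mm c b s r - mm c b s t| ≤ s * |r - t| := by
  have hs := h.s1
  have hc0 := h.c0
  have hc := h.c1
  have h0 := abs_nonneg (r - t)
  unfold mm
  refine (abs_min_sub_min_le_max _ _ _ _).trans (max_le (by nlinarith) ?_)
  refine (abs_max_sub_max_le_max _ _ _ _).trans (max_le ?_ ?_)
  · have : c * r - c * t = c * (r - t) := by ring
    rw [this, abs_mul, abs_of_pos hc0]; nlinarith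
  · have : b - s * (b - r) - (b - s * (b - t)) = s * (r - t) := by ring
    rw [this, abs_mul, abs_of_pos (by linarith)]

lemma mi_lip (h : Prof c b s) (r t : ℝ) : |mi c b s r - mi c b s t| ≤ c⁻¹ * |r - t| := by
  have hs := h.s1
  have hc0 := h.c0
  have hc := h.c1
  have h0 := abs_nonneg (r - t)
  have hci : 1 ≤ c⁻¹ := (one_le_inv₀ hc0).mpr hc.le
  unfold mi
  refine (abs_max_sub_max_le_max _ _ _ _).trans (max_le (by nlinarith) ?_)
  refine (abs_min_sub_min_le_max _ _ _ _).trans (max_le ?_ ?_)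
  · have : r / c - t / c = c⁻¹ * (r - t) := by field_simp
    rw [this, abs_mul, abs_of_pos (by positivity)]
  · have : b - (b - r) / s - (b - (b - t) / s) = s⁻¹ * (r - t) := by
      have : s ≠ 0 := by linarith
      field_simp; ring
    rw [this, abs_mul, abs_of_pos (inv_pos.mpr (by linarith))]
    apply mul_le_mul_of_nonneg_right _ h0
    have : s⁻¹ ≤ 1 := inv_le_one_of_one_le₀ hs.le
    linarith

end Prof

/-! ### Conjugation -/

/-- conjugation of a pair -/
lemma Pair.conj {r T : X → X} (hp : Pair r T) {φ ψ : X → X} (h1 : ∀ x, φ (ψ x) = x)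
    (h2 : ∀ x, ψ (φ x) = x) : Pair (fun x => φ (r (ψ x))) (fun x => φ (T (ψ x))) where
  rr x := by rw [h2, hp.rr]
  tt x := by rw [h2, hp.tt]
  rt x := by rw [h2, hp.rt]
  tr x := by rw [h2, hp.tr]
  fix x hx := by
    apply hp.fix (ψ x)
    calc T (ψ x) = ψ (φ (T (ψ x))) := (h2 _).symm
      _ = ψ x := by rw [hx]

/-- zoom in at `p` by the factor `c` -/
noncomputable def zin (p : X) (c : ℝ) (f : X → X) (w : X) : X := c⁻¹ • (f (p + c • w) - p)

/-- zoom out -/
noncomputable def zout (p : X) (c : ℝ) (f : X → X) (x : X) : X := p + c • f (c⁻¹ • (x - p))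

lemma zA {p : X} {c : ℝ} (hc : 0 < c) (x : X) : p + c • (c⁻¹ • (x - p)) = x := by
  rw [smul_smul, mul_inv_cancel₀ hc.ne', one_smul]; abel

lemma zB {p : X} {c : ℝ} (hc : 0 < c) (w : X) : c⁻¹ • ((p + c • w) - p) = w := by
  rw [add_sub_cancel_left, smul_smul, inv_mul_cancel₀ hc.ne', one_smul]

lemma Pair.zin {r T : X → X} (hp : Pair r T) {p : X} {c : ℝ} (hc : 0 < c) :
    Pair (zin p c r) (zin p c T) :=
  hp.conj (φ := fun x => c⁻¹ • (x - p)) (ψ := fun w => p + c • w) (fun x => zB hc x)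
    (fun x => zA hc x)

lemma Pair.zout {r T : X → X} (hp : Pair r T) {p : X} {c : ℝ} (hc : 0 < c) :
    Pair (zout p c r) (zout p c T) :=
  hp.conj (φ := fun w => p + c • w) (ψ := fun x => c⁻¹ • (x - p)) (fun x => zA hc x)
    (fun x => zB hc x)

end Pool.Agent.H64.HB
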