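import Pool.Agent.H64.HBFill

/-!
# The recursion of fill steps
-/

set_option linter.unusedSectionVars false
set_option linter.unusedVariables false
set_option linter.deprecated false

open Set Metric

namespace Pool.Agent.H64.HB

variable {X : Type*} [NormedAddCommGroup X] [NormedSpace ℝ X]

/-- sequences of level constants -/
structure Sqs (Ce α : ℝ) (C δ B θ Lam L c : ℕ → ℝ) : Prop where
  lev : ∀ i, Lev Ce (C i) (δ i) (B i) (θ i) (Lam i) (L i)
  hδ : ∀ i, δ (i + 1) ≤ dn (C i) (δ i)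
  hB : ∀ i, B (i + 1) ≤ B i - 5 * δ i
  hLam : ∀ i, 4 * (1 + Ce) * Lam i ≤ Lam (i + 1)
  c0 : ∀ i, 0 < c i
  c1 : ∀ i, c i < 1
  cm : ∀ i, c (i + 1) ≤ c i
  Lm : ∀ i, L i ≤ L (i + 1)
  hS : ∀ i, c i ^ (1 - α) * (2 * (L (i + 1) ^ 266 / c (i + 1) ^ 2)) ≤ L i ^ 266 / c i ^ 2

lemma Up.box_mono (W : Up X) {Bz Be By Bz' Be' By' : ℝ} (h1 : Bz' ≤ Bz) (h2 : Be' ≤ Be)
    (h3 : By' ≤ By) : W.box Bz' Be' By' ⊆ W.box Bz Be By := by
  rintro x ⟨a, b, c⟩
  exact ⟨a.trans h1, b.trans h2, c.trans h3⟩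

lemma Up.obox_mono (W : Up X) {Bz Be By Bz' Be' By' : ℝ} (h1 : Bz' ≤ Bz) (h2 : Be' ≤ Be)
    (h3 : By' ≤ By) : W.obox Bz' Be' By' ⊆ W.obox Bz Be By := by
  rintro x ⟨a, b, c, d⟩
  exact ⟨a.trans_le h1, b, c.trans_le h2, d.trans_le h3⟩

lemma State.mono {W : Up X} {Lam Bz Be By lam Lam' Bz' Be' By' lam' : ℝ} {r T : X → X}
    (h : State W Lam Bz Be By lam r T) (h0 : Lam ≤ Lam') (h1 : Bz' ≤ Bz) (h2 : Be' ≤ Be)
    (h3 : By' ≤ By) (hl : lam ≤ lam') : State W Lam' Bz' Be' By' lam' r T := by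
  have hsub := W.box_mono h1 h2 h3
  have hNG : ∀ y : X, 1 ≤ W.NG Lam' y → 1 ≤ W.NG Lam y := by
    intro y hy
    unfold Up.NG at hy ⊢
    have := mul_le_mul_of_nonneg_right h0 (infDist_nonneg (x := y) (s := (W.G : Set X)))
    linarith
  exact ⟨h.pair, fun x hx hN => h.sr x (hsub hx) (hNG _ hN),
    fun x hx hN => h.sT x (hsub hx) (hNG _ hN), fun k hk hx => h.below k hk (hsub hx),
    fun x hx y hy => (h.lr x (hsub hx) y (hsub hy)).trans
      (mul_le_mul_of_nonneg_right hl (norm_nonneg _)),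
    fun x hx y hy => (h.lT x (hsub hx) y (hsub hy)).trans
      (mul_le_mul_of_nonneg_right hl (norm_nonneg _))⟩

lemma Out.mono {W : Up X} {Bz Be By : ℝ} {O O' : Set X} {α S S' ε ε' : ℝ} {r T r' T' : X → X}
    (h : Out W Bz Be By O α S ε r T r' T') (hO : O ⊆ O') (hS : S ≤ S') (hε : ε ≤ ε') :
    Out W Bz Be By O' α S' ε' r T r' T' where
  pair := h.pair
  offr x hx := h.offr x fun hx' => hx (hO hx')
  offT x hx := h.offT x fun hx' => hx (hO hx')
  hr x hx y hy := (h.hr x hx y hy).trans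
    (mul_le_mul_of_nonneg_right hS (Real.rpow_nonneg (norm_nonneg _) _))
  hT x hx y hy := (h.hT x hx y hy).trans
    (mul_le_mul_of_nonneg_right hS (Real.rpow_nonneg (norm_nonneg _) _))
  pt := by
    obtain ⟨x, hx, h1⟩ := h.pt
    exact ⟨x, hO hx, h1.trans hε⟩

lemma norm_le_box (D : Dec X) {Bz Be By : ℝ} {x : X} (hx : x ∈ D.up.box Bz Be By) :
    ‖x‖ ≤ Bz + Be + By := by
  obtain ⟨h1, h2, h3⟩ := hx
  have e : x = D.up.PZ x + D.up.nS x • D.up.n + D.up.Yp x := by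
    rw [D.hY, ← add_assoc]; exact (D.hsum x).symm
  calc ‖x‖ = ‖D.up.PZ x + D.up.nS x • D.up.n + D.up.Yp x‖ := by rw [← e]
    _ ≤ ‖D.up.PZ x‖ + ‖D.up.nS x • D.up.n‖ + ‖D.up.Yp x‖ := norm_add₃_le
    _ = ‖D.up.PZ x‖ + |D.up.nS x| + ‖D.up.Yp x‖ := by
        rw [norm_smul, D.norm_n, mul_one, Real.norm_eq_abs]
    _ ≤ _ := by linarith

lemma diam_box (D : Dec X) {Bz Be By : ℝ} {x y : X} (hx : x ∈ D.up.box Bz Be By)
    (hy : y ∈ D.up.box Bz Be By) : ‖x - y‖ ≤ 2 * (Bz + Be + By) := by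
  have h1 := norm_le_box D hx
  have h2 := norm_le_box D hy
  have := norm_sub_le x y
  linarith

/-- The recursion of fill steps. -/
theorem fill_rec {Ce α : ℝ} {C δ B θ Lam L c : ℕ → ℝ} (hα : 0 < α) (hα1 : α < 1)
    (hst : Sqs Ce α C δ B θ Lam L c) {c₀ : ℝ} (hc₀ : ∀ i, c i ≤ c₀) (N : ℕ) (DD : ℕ → Dec X)
    (hb : ∀ i, i ≤ N → Bnd (DD i) Ce (C i)) (hd : ∀ i, i < N → (DD (i + 1)).up = (DD i).down) :
    ∀ k i : ℕ, i + k = N → ∀ r T : X → X,
      State (DD i).up (Lam i) (δ i) (δ i) (B i) (L i ^ 130 / c i) r T →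
      ∃ r' T' : X → X, Out (DD i).up (δ i) (δ i) (B i) ((DD i).up.obox (δ i) (δ i) (B i)) α
        (2 * (L i ^ 266 / c i ^ 2)) (3 * c₀ ^ k) r T r' T' := by
  intro k
  induction k with
  | zero =>
    intro i hi r T hs
    have hlev := hst.lev i
    have hL := hlev.L8
    have hδ := hlev.δ0
    have hδ1 := hlev.δ1
    have hB := B8 hlev
    have hBL := hlev.LB
    have hc := hst.c0 i
    have hc1 := hst.c1 i
    generalize hLi : L i = L' at *
    generalize hδi : δ i = δ' at *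
    generalize hBi : B i = B' at *
    generalize hci : c i = c' at *
    have hD : ∀ x ∈ (DD i).up.box δ' δ' B', ∀ y ∈ (DD i).up.box δ' δ' B', ‖x - y‖ ≤ L' ^ 2 := by
      intro x hx y hy
      refine (diam_box (DD i) hx hy).trans ?_
      nlinarith
    have hci : 1 ≤ c'⁻¹ := (one_le_inv₀ hc).mpr hc1.le
    have hSle : L' ^ 130 / c' * L' ^ 2 ≤ 2 * (L' ^ 266 / c' ^ 2) := by
      rw [div_eq_mul_inv, div_eq_mul_inv, ← inv_pow]
      have h1 : L' ^ 132 ≤ L' ^ 266 := pow_le_pow_right₀ (by linarith) (by norm_num)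
      have h2 : c'⁻¹ ≤ c'⁻¹ ^ 2 := by nlinarith
      calc L' ^ 130 * c'⁻¹ * L' ^ 2 = L' ^ 132 * c'⁻¹ := by ring
        _ ≤ L' ^ 266 * c'⁻¹ ^ 2 := mul_le_mul h1 h2 (by positivity) (pow_nonneg (by linarith) _)
        _ ≤ 2 * (L' ^ 266 * c'⁻¹ ^ 2) := by
            have : 0 ≤ L' ^ 266 * c'⁻¹ ^ 2 := mul_nonneg (pow_nonneg (by linarith) _) (by positivity)
            linarith
    have hM : 0 ≤ L' ^ 130 / c' := div_nonneg (pow_nonneg (by linarith) _) hc.le
    have hL2 : 1 ≤ L' ^ 2 := by nlinarith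
    refine ⟨r, T, ⟨hs.pair, fun _ _ => rfl, fun _ _ => rfl, ?_, ?_, ?_⟩⟩
    · intro x hx y hy
      exact (holder_of_lip hα hα1 hM hL2 (norm_nonneg _) (hD x hx y hy) (hs.lr x hx y hy)).trans
        (mul_le_mul_of_nonneg_right hSle (Real.rpow_nonneg (norm_nonneg _) _))
    · intro x hx y hy
      exact (holder_of_lip hα hα1 hM hL2 (norm_nonneg _) (hD x hx y hy) (hs.lT x hx y hy)).trans
        (mul_le_mul_of_nonneg_right hSle (Real.rpow_nonneg (norm_nonneg _) _))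
    · have p1 : (DD i).up.PZ ((δ' / 2) • (DD i).up.n + (DD i).e) = 0 := by
        simp [(DD i).PZn, (DD i).PZe]
      have p2 : (DD i).up.nS ((δ' / 2) • (DD i).up.n + (DD i).e) = δ' / 2 := by
        simp [(DD i).nSn, (DD i).nSe]
      have p3 : (DD i).up.Yp ((δ' / 2) • (DD i).up.n + (DD i).e) = (DD i).e := by
        rw [(DD i).hY]
        simp [(DD i).eSn, (DD i).eSe, (DD i).Qn, (DD i).Qe]
      have hmem : (δ' / 2) • (DD i).up.n + (DD i).e ∈ (DD i).up.obox δ' δ' B' := by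
        refine ⟨?_, ?_, ?_, ?_⟩
        · rw [p1, norm_zero]; exact hδ
        · rw [p2]; linarith
        · rw [p2]; linarith
        · rw [p3, (DD i).norm_e]; linarith
      refine ⟨_, hmem, ?_⟩
      have hst := hs.sT _ ((DD i).up.obox_subset _ _ _ hmem) (by
        rw [p3]
        unfold Up.NG
        have : infDist (DD i).e ((DD i).up.G : Set X) = 0 := infDist_zero_of_mem (DD i).heG
        rw [this, (DD i).norm_e, mul_zero, sub_zero])
      rw [hst, p1, p3]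
      have e : (0 : X) + (-1 : ℝ) • (DD i).e - ((δ' / 2) • (DD i).up.n + (DD i).e) =
          (-2 : ℝ) • (DD i).e + (-(δ' / 2)) • (DD i).up.n := by module
      rw [e]
      refine (norm_add_le _ _).trans ?_
      rw [norm_smul, norm_smul, (DD i).norm_e, (DD i).norm_n, Real.norm_eq_abs, Real.norm_eq_abs,
        abs_neg, abs_neg, abs_of_pos (by linarith : 0 < δ' / 2)]
      norm_num
      linarith
  | succ k ih =>
    intro i hi r T hs
    have hlev := hst.lev i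
    have hlev1 := hst.lev (i + 1)
    have hL := hlev.L8
    have hL1 := hlev1.L8
    have hδ := hlev.δ0
    have hδ1 := hlev.δ1
    have hB := B8 hlev
    have hBL := hlev.LB
    have hc := hst.c0 i
    have hc1 := hst.c1 i
    have hcs := hst.c0 (i + 1)
    have hLm := hst.Lm i
    have hcm := hst.cm i
    have hbi := hb i (by omega)
    have hci : 1 ≤ (c i)⁻¹ := (one_le_inv₀ hc).mpr hc1.le
    have hlam : 1 ≤ L i ^ 130 / c i := by
      rw [div_eq_mul_inv]
      exact one_le_mul_of_one_le_of_one_le (one_le_pow₀ (by linarith)) hci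
    obtain ⟨r1, T1, hp1, ho1, ho2, hl1, hl2, hs1⟩ := fill_step hlev hbi hc hc1 hlam hs
    rw [← hd i (by omega)] at hs1
    have hs2 := hs1.mono (hst.hLam i) (hst.hδ i) (hst.hδ i) (hst.hB i)
      (lam' := L (i + 1) ^ 130 / c (i + 1)) (by
      apply div_le_div₀ (pow_nonneg (by linarith) _) _ hcs hcm
      exact pow_le_pow_left₀ (by linarith) hLm _)
    obtain ⟨r', T', hout⟩ := ih (i + 1) (by omega) _ _ hs2
    have hD : ∀ x ∈ (DD i).up.box (δ i) (δ i) (B i),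
        ∀ y ∈ (DD i).up.box (δ i) (δ i) (B i), ‖x - y‖ ≤ L i ^ 2 := by
      intro x hx y hy
      refine (diam_box (DD i) hx hy).trans ?_
      nlinarith
    have hL2 : 1 ≤ L i ^ 2 := by nlinarith
    have h130 : 0 ≤ L i ^ 130 := pow_nonneg (by linarith) _
    have h134 : 0 ≤ L i ^ 134 := pow_nonneg (by linarith) _
    have h266 : 0 ≤ L i ^ 266 := pow_nonneg (by linarith) _
    have h266' : 0 ≤ L (i + 1) ^ 266 := pow_nonneg (by linarith) _
    have hM : 0 ≤ L i ^ 130 / c i * L i ^ 134 / c i :=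
      div_nonneg (mul_nonneg (div_nonneg h130 hc.le) h134) hc.le
    have hS' : 0 ≤ 2 * (L (i + 1) ^ 266 / c (i + 1) ^ 2) :=
      mul_nonneg (by norm_num) (div_nonneg h266' (by positivity))
    have hfin := descend (W := (DD i).up) (O' := (DD (i + 1)).up.obox (δ (i + 1))
      (δ (i + 1)) (B (i + 1))) hα hα1 hc hM hL2 hS' hD ho1 ho2 hl1 hl2 Subset.rfl hout
    refine ⟨_, _, hfin.mono ?_ ?_ ?_⟩
    · apply union_subset Subset.rfl
      intro x hx
      have hx1 : (c i)⁻¹ • (x - ctr (DD i) (δ i)) ∈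
          (DD (i + 1)).up.obox (δ (i + 1)) (δ (i + 1)) (B (i + 1)) := hx
      have hx2 := (DD (i + 1)).up.obox_subset _ _ _ hx1
      rw [hd i (by omega)] at hx2
      have := new_in_obox hlev hbi hc hc1 ((DD i).down.box_mono (hst.hδ i) (hst.hδ i) (hst.hB i) hx2)
      rwa [zA hc] at this
    · have e1 : L i ^ 130 / c i * L i ^ 134 / c i * L i ^ 2 = L i ^ 266 / c i ^ 2 := by
        field_simp
      rw [e1]
      have := hst.hS i
      linarith
    · have h1 : 0 ≤ 3 * c₀ ^ k := by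
        have := hc.le.trans (hc₀ i)
        positivity
      calc c i * (3 * c₀ ^ k) ≤ c₀ * (3 * c₀ ^ k) := mul_le_mul_of_nonneg_right (hc₀ i) h1
        _ = 3 * c₀ ^ (k + 1) := by rw [pow_succ]; ring

end Pool.Agent.H64.HB
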