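import Pool.Agent.H64.HBRec

/-!
# Existence of the sequences of level constants
-/

set_option linter.unusedSectionVars false
set_option linter.unusedVariables false
set_option linter.deprecated false

open Set Metric

namespace Pool.Agent.H64.HB

lemma exists_small {K α : ℝ} (hK : 1 < K) (hα1 : α < 1) :
    ∃ c : ℝ, 0 < c ∧ c < 1 ∧ c ^ (1 - α) * K ≤ 1 := by
  have h1 : 0 < 1 - α := by linarith
  refine ⟨K ^ (-(1 / (1 - α))), Real.rpow_pos_of_pos (by linarith) _, ?_, ?_⟩
  · apply Real.rpow_lt_one_of_one_lt_of_neg hK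
    have : 0 < 1 / (1 - α) := by positivity
    linarith
  · rw [← Real.rpow_mul (by linarith)]
    have : -(1 / (1 - α)) * (1 - α) = -1 := by field_simp
    rw [this, Real.rpow_neg_one, inv_mul_cancel₀ (by linarith)]

/-- the box sizes -/
noncomputable def dRec (C₀ δ₀ : ℝ) : ℕ → ℝ
  | 0 => δ₀
  | i + 1 => dn (C₀ * 2 ^ i) (dRec C₀ δ₀ i)

theorem exists_sqs {Ce C₀ δ₀ Lam₀ l₀ α : ℝ} (h1 : 1 ≤ Ce) (h2 : Ce ≤ C₀) (hδ0 : 0 < δ₀)
    (hδ1 : δ₀ ≤ 1) (hL : 0 ≤ Lam₀) (hl : 0 ≤ l₀) (hα : 0 < α) (hα1 : α < 1) :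
    ∃ δ B θ Lam L c : ℕ → ℝ, Sqs Ce α (fun i => C₀ * 2 ^ i) δ B θ Lam L c ∧ δ 0 = δ₀ ∧
      B 0 = 4 * (1 + Ce) + 10 * δ₀ ∧ Lam 0 = Lam₀ ∧ l₀ ≤ L 0 ^ 130 / c 0 ∧
      ∀ i, c i ≤ c 0 := by
  have hC0 : 1 ≤ C₀ := h1.trans h2
  obtain ⟨β, hβ0, hβ1, hβ⟩ := exists_small (K := 2 ^ 266) (α := α)
    (one_lt_pow₀ (by norm_num) (by norm_num)) hα1
  have hK : (1:ℝ) < 2 * (64 * C₀) ^ 266 / β ^ 2 := by
    rw [lt_div_iff₀ (by positivity)]
    have e1 : (1:ℝ) ≤ (64 * C₀) ^ 266 := one_le_pow₀ (by linarith)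
    have e2 : β ^ 2 < 1 := by nlinarith
    linarith
  obtain ⟨c₀, hc0, hc1, hc⟩ := exists_small hK hα1
  have hC : ∀ i : ℕ, C₀ ≤ C₀ * 2 ^ i := fun i =>
    le_mul_of_one_le_right (by linarith) (one_le_pow₀ (by norm_num))
  have hCi : ∀ i : ℕ, 1 ≤ C₀ * 2 ^ i := fun i => hC0.trans (hC i)
  set δ : ℕ → ℝ := dRec C₀ δ₀ with hδdef
  have hδs : ∀ i, δ (i + 1) = δ i / (32 * (1 + C₀ * 2 ^ i)) := fun i => rfl
  have hδpos : ∀ i, 0 < δ i := by
    intro i
    induction i with
    | zero => exact hδ0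
    | succ i ih =>
      rw [hδs]
      have := hCi i
      positivity
  have hδle64 : ∀ i, δ (i + 1) ≤ δ i / 64 := by
    intro i
    rw [hδs]
    have := hCi i
    exact div_le_div_of_nonneg_left (hδpos i).le (by norm_num) (by linarith)
  have hδle : ∀ i, δ i ≤ 1 := by
    intro i
    induction i with
    | zero => exact hδ1
    | succ i ih => have := hδle64 i; have := hδpos i; linarith
  set B : ℕ → ℝ := fun i => 4 * (1 + Ce) + 10 * δ i with hBdef
  set Λ : ℝ := l₀ + 8 + 4 * (4 * (1 + Ce) + 10) + 4 * (1 + C₀) + 4 * (1 + Ce) * Lam₀ with hΛ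
  have hLamC : 0 ≤ 4 * (1 + Ce) * Lam₀ := by positivity
  have hΛpos : 8 ≤ Λ := by rw [hΛ]; linarith
  have hLs : ∀ i, Λ / δ (i + 1) = Λ / δ i * (32 * (1 + C₀ * 2 ^ i)) := by
    intro i
    rw [hδs]
    have := hCi i
    have := (hδpos i).ne'
    field_simp
  have hdiv : ∀ (a : ℝ) (i : ℕ), a * δ i ≤ Λ → a ≤ Λ / δ i := fun a i ha => by
    rwa [le_div_iff₀ (hδpos i)]
  refine ⟨δ, B, fun i => δ i / (4 * B i), fun i => Lam₀ * (4 * (1 + Ce)) ^ i, fun i => Λ / δ i,
    fun i => c₀ * β ^ i, ?_, rfl, rfl, by simp, ?_, ?_⟩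
  · constructor
    · intro i
      have hd := hδpos i
      have hd1 := hδle i
      have hBi : B i ≤ 4 * (1 + Ce) + 10 := by simp only [hBdef]; linarith
      have hBi0 : 4 * (1 + Ce) ≤ B i := by simp only [hBdef]; linarith
      have hBpos : 0 < B i := by linarith
      constructor
      · exact h1
      · exact h2.trans (hC i)
      · exact hd
      · exact hd1
      · exact hBi0
      · positivity
      · have : 4 * (δ i / (4 * B i)) * B i = δ i := by field_simp
        exact this.le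
      · positivity
      · apply hdiv
        cases i with
        | zero =>
          have : δ 0 ≤ 1 := hd1
          simp only [pow_zero, mul_one]
          have h3 : 4 * (1 + C₀) * δ 0 ≤ 4 * (1 + C₀) * 1 :=
            mul_le_mul_of_nonneg_left this (by linarith)
          linarith
        | succ i =>
          rw [hδs]
          have h3 := hCi i
          have h4 := hδpos i
          have h5 := hδle i
          have h6 : 4 * (1 + C₀ * 2 ^ (i + 1)) * (δ i / (32 * (1 + C₀ * 2 ^ i))) ≤ 8 := by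
            rw [← mul_div_assoc, div_le_iff₀ (by positivity), pow_succ]
            nlinarith
          linarith
      · apply hdiv
        nlinarith
      · apply hdiv
        have key : (4 * (1 + Ce)) ^ i * δ i ≤ 1 := by
          clear hd hd1 hBi hBi0 hBpos
          induction i with
          | zero => simpa using hδle 0
          | succ i ih =>
            rw [hδs, pow_succ]
            have h3 := hCi i
            have h4 := hC i
            have h5 : (4 * (1 + Ce)) ^ i * (4 * (1 + Ce)) * (δ i / (32 * (1 + C₀ * 2 ^ i))) =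
                ((4 * (1 + Ce)) ^ i * δ i) * (4 * (1 + Ce) / (32 * (1 + C₀ * 2 ^ i))) := by
              ring
            rw [h5]
            apply mul_le_one₀ ih (by positivity)
            rw [div_le_one (by positivity)]
            linarith
        calc 4 * (1 + Ce) * (Lam₀ * (4 * (1 + Ce)) ^ i) * δ i
            = (4 * (1 + Ce) * Lam₀) * ((4 * (1 + Ce)) ^ i * δ i) := by ring
          _ ≤ (4 * (1 + Ce) * Lam₀) * 1 := mul_le_mul_of_nonneg_left key hLamC
          _ ≤ Λ := by linarith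
      · rw [div_mul_cancel₀ _ hd.ne']; exact hΛpos
      · have : Λ / δ i * (δ i / (4 * B i)) = Λ / (4 * B i) := by field_simp
        rw [this, le_div_iff₀ (by positivity)]
        linarith
    · intro i; exact le_rfl
    · intro i
      simp only [hBdef]
      have := hδle64 i
      have := hδpos i
      linarith
    · intro i
      rw [pow_succ]
      exact le_of_eq (by ring)
    · intro i; positivity
    · intro i
      calc c₀ * β ^ i ≤ c₀ * 1 := mul_le_mul_of_nonneg_left (pow_le_one₀ hβ0.le hβ1.le) hc0.le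
        _ < 1 := by linarith
    · intro i
      rw [pow_succ]
      have : 0 < c₀ * β ^ i := by positivity
      nlinarith
    · intro i
      have h3 := hδle64 i
      have h4 := hδpos i
      exact div_le_div_of_nonneg_left (by linarith) (hδpos (i + 1)) (by linarith)
    · intro i
      have h3 := hCi i
      have h4 := hδpos i
      have hLi : 0 < Λ / δ i := by positivity
      rw [hLs]
      generalize hLL : Λ / δ i = L at *
      have e1 : (c₀ * β ^ i) ^ (1 - α) = c₀ ^ (1 - α) * (β ^ (1 - α)) ^ i := by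
        rw [Real.mul_rpow hc0.le (by positivity), ← Real.rpow_natCast (β ^ (1 - α)) i,
          ← Real.rpow_mul hβ0.le, ← Real.rpow_natCast β i, ← Real.rpow_mul hβ0.le, mul_comm (1 - α)]
      have e2 : (L * (32 * (1 + C₀ * 2 ^ i))) ^ 266 ≤
          L ^ 266 * ((64 * C₀) ^ 266 * (2 ^ 266) ^ i) := by
        have h5 : L * (32 * (1 + C₀ * 2 ^ i)) ≤ L * (64 * C₀ * 2 ^ i) := by
          apply mul_le_mul_of_nonneg_left _ hLi.le
          linarith
        have h6 : 0 ≤ L * (32 * (1 + C₀ * 2 ^ i)) := by positivity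
        calc (L * (32 * (1 + C₀ * 2 ^ i))) ^ 266 ≤ (L * (64 * C₀ * 2 ^ i)) ^ 266 :=
              pow_le_pow_left₀ h6 h5 _
          _ = L ^ 266 * ((64 * C₀) ^ 266 * (2 ^ 266) ^ i) := by
              rw [mul_pow, mul_pow, ← pow_mul, ← pow_mul, mul_comm 266 i]
      rw [e1]
      have hb0 : 0 ≤ β ^ (1 - α) := Real.rpow_nonneg hβ0.le _
      have hcc0 : 0 ≤ c₀ ^ (1 - α) := Real.rpow_nonneg hc0.le _
      have e3 : (β ^ (1 - α) * 2 ^ 266) ^ i ≤ 1 := pow_le_one₀ (by positivity) hβ
      have hLp : 0 ≤ L ^ 266 / (c₀ * β ^ i) ^ 2 :=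
        div_nonneg (pow_nonneg hLi.le _) (by positivity)
      have hden : 0 < (c₀ * β ^ (i + 1)) ^ 2 := by positivity
      calc c₀ ^ (1 - α) * (β ^ (1 - α)) ^ i *
            (2 * ((L * (32 * (1 + C₀ * 2 ^ i))) ^ 266 / (c₀ * β ^ (i + 1)) ^ 2))
          ≤ c₀ ^ (1 - α) * (β ^ (1 - α)) ^ i *
            (2 * (L ^ 266 * ((64 * C₀) ^ 266 * (2 ^ 266) ^ i) / (c₀ * β ^ (i + 1)) ^ 2)) := by
            apply mul_le_mul_of_nonneg_left _ (mul_nonneg hcc0 (pow_nonneg hb0 _))
            apply mul_le_mul_of_nonneg_left _ (by norm_num)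
            exact div_le_div_of_nonneg_right e2 hden.le
        _ = (c₀ ^ (1 - α) * (2 * (64 * C₀) ^ 266 / β ^ 2)) * (β ^ (1 - α) * 2 ^ 266) ^ i *
            (L ^ 266 / (c₀ * β ^ i) ^ 2) := by
            have hβi : β ^ i ≠ 0 := by positivity
            rw [mul_pow (β ^ (1 - α)), pow_succ β i]
            field_simp
        _ ≤ 1 * 1 * (L ^ 266 / (c₀ * β ^ i) ^ 2) := by
            apply mul_le_mul_of_nonneg_right _ hLp
            exact mul_le_mul hc e3 (by positivity) (by norm_num)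
        _ = _ := by ring
  · have h3 : l₀ ≤ Λ / δ 0 := by
      apply hdiv
      have h4 : l₀ * δ 0 ≤ l₀ * 1 := mul_le_mul_of_nonneg_left (hδle 0) hl
      linarith
    have h5 : 1 ≤ Λ / δ 0 := by
      apply hdiv
      have := hδle 0
      linarith
    simp only [pow_zero, mul_one]
    rw [le_div_iff₀ hc0]
    calc l₀ * c₀ ≤ l₀ * 1 := mul_le_mul_of_nonneg_left hc1.le hl
      _ = l₀ := mul_one _
      _ ≤ (Λ / δ 0) ^ 1 := by rw [pow_one]; exact h3
      _ ≤ (Λ / δ 0) ^ 130 := pow_le_pow_right₀ h5 (by norm_num)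
  · intro i
    simp only [pow_zero, mul_one]
    exact mul_le_of_le_one_right hc0.le (pow_le_one₀ hβ0.le hβ1.le)

end Pool.Agent.H64.HB
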