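import Pool.Agent.H64.HBRad

/-!
# States, descent and the fill step
-/

set_option linter.unusedSectionVars false
set_option linter.unusedVariables false
set_option linter.deprecated false

open Set Metric

namespace Pool.Agent.H64.HB

variable {X : Type*} [NormedAddCommGroup X] [NormedSpace ℝ X]

/-- the open box above the sheet -/
def Up.obox (W : Up X) (Bz Be By : ℝ) : Set X :=
  {x | ‖W.PZ x‖ < Bz ∧ 0 < W.nS x ∧ W.nS x < Be ∧ ‖W.Yp x‖ < By}

lemma Up.obox_open (W : Up X) (Bz Be By : ℝ) : IsOpen (W.obox Bz Be By) := by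
  have h1 : IsOpen {x | ‖W.PZ x‖ < Bz} := isOpen_lt (by fun_prop) continuous_const
  have h2 : IsOpen {x | 0 < W.nS x} := isOpen_lt continuous_const (by fun_prop)
  have h3 : IsOpen {x | W.nS x < Be} := isOpen_lt (by fun_prop) continuous_const
  have h4 : IsOpen {x | ‖W.Yp x‖ < By} := isOpen_lt (by fun_prop) continuous_const
  exact h1.inter (h2.inter (h3.inter h4))

lemma Up.obox_subset (W : Up X) (Bz Be By : ℝ) : W.obox Bz Be By ⊆ W.box Bz Be By := by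
  rintro x ⟨h1, h2, h3, h4⟩
  exact ⟨h1.le, by rw [abs_of_pos h2]; exact h3.le, h4.le⟩

/-- state of the construction at a sheet -/
structure State (W : Up X) (Lam Bz Be By lam : ℝ) (r T : X → X) : Prop where
  pair : Pair r T
  sr : W.Straight Lam Bz Be By r 1
  sT : W.Straight Lam Bz Be By T (-1)
  below : Below W Bz Be By r
  lr : ∀ x ∈ W.box Bz Be By, ∀ y ∈ W.box Bz Be By, ‖r x - r y‖ ≤ lam * ‖x - y‖
  lT : ∀ x ∈ W.box Bz Be By, ∀ y ∈ W.box Bz Be By, ‖T x - T y‖ ≤ lam * ‖x - y‖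

/-- output of the construction started at a sheet -/
structure Out (W : Up X) (Bz Be By : ℝ) (O : Set X) (α S ε : ℝ) (r T r' T' : X → X) : Prop where
  pair : Pair r' T'
  offr : ∀ x, x ∉ O → r' x = r x
  offT : ∀ x, x ∉ O → T' x = T x
  hr : ∀ x ∈ W.box Bz Be By, ∀ y ∈ W.box Bz Be By, ‖r' x - r' y‖ ≤ S * ‖x - y‖ ^ α
  hT : ∀ x ∈ W.box Bz Be By, ∀ y ∈ W.box Bz Be By, ‖T' x - T' y‖ ≤ S * ‖x - y‖ ^ α
  pt : ∃ x ∈ O, ‖T' x - x‖ ≤ ε

/-- Lipschitz maps are Hölder on bounded sets -/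
lemma holder_of_lip {M Dm α a t : ℝ} (hα : 0 < α) (hα1 : α < 1) (hM : 0 ≤ M) (hDm : 1 ≤ Dm)
    (ht : 0 ≤ t) (htD : t ≤ Dm) (h : a ≤ M * t) : a ≤ M * Dm * t ^ α := by
  have h1 : t ≤ Dm * t ^ α := by
    rcases eq_or_lt_of_le ht with h0 | h0
    · rw [← h0]
      have : 0 ≤ (0:ℝ) ^ α := Real.rpow_nonneg le_rfl _
      positivity
    · have e : t = t ^ (1 - α) * t ^ α := by
        rw [← Real.rpow_add h0]; simp
      have h2 : t ^ (1 - α) ≤ Dm := by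
        calc t ^ (1 - α) ≤ Dm ^ (1 - α) := Real.rpow_le_rpow ht htD (by linarith)
          _ ≤ Dm ^ (1:ℝ) := Real.rpow_le_rpow_of_exponent_le hDm (by linarith)
          _ = Dm := Real.rpow_one _
      calc t = t ^ (1 - α) * t ^ α := e
        _ ≤ Dm * t ^ α := mul_le_mul_of_nonneg_right h2 (Real.rpow_nonneg ht _)
  calc a ≤ M * t := h
    _ ≤ M * (Dm * t ^ α) := mul_le_mul_of_nonneg_left h1 hM
    _ = _ := by ring

lemma zoom_holder {c α S t : ℝ} (hc : 0 < c) (ht : 0 ≤ t) :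
    c * (S * (c⁻¹ * t) ^ α) = c ^ (1 - α) * S * t ^ α := by
  rw [Real.mul_rpow (inv_nonneg.mpr hc.le) ht, Real.inv_rpow hc.le, Real.rpow_sub hc,
    Real.rpow_one]
  have : c ^ α ≠ 0 := (Real.rpow_pos_of_pos hc α).ne'
  field_simp

/-- gluing one map -/
lemma descend_one {B : Set X} (hBc : Convex ℝ B) {W' : Up X} {Bz' Be' By' : ℝ} {O' : Set X}
    {α S' M Dm c : ℝ} {p : X} (hα : 0 < α) (hα1 : α < 1) (hc : 0 < c) (hM : 0 ≤ M)
    (hDm : 1 ≤ Dm) (hS' : 0 ≤ S')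
    (hD : ∀ x ∈ B, ∀ y ∈ B, ‖x - y‖ ≤ Dm) {f1 f' : X → X}
    (hl : ∀ x ∈ B, ∀ y ∈ B, ‖f1 x - f1 y‖ ≤ M * ‖x - y‖)
    (hO' : O' ⊆ W'.obox Bz' Be' By') (hoff : ∀ x, x ∉ O' → f' x = zin p c f1 x)
    (hh : ∀ x ∈ W'.box Bz' Be' By', ∀ y ∈ W'.box Bz' Be' By', ‖f' x - f' y‖ ≤ S' * ‖x - y‖ ^ α) :
    ∀ x ∈ B, ∀ y ∈ B, ‖zout p c f' x - zout p c f' y‖ ≤ (M * Dm + c ^ (1 - α) * S') * ‖x - y‖ ^ α := by
  have hcont : Continuous fun x : X => c⁻¹ • (x - p) := by fun_prop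
  have hcp : 0 ≤ c ^ (1 - α) := Real.rpow_nonneg hc.le _
  refine glue_two (C1 := (fun x : X => c⁻¹ • (x - p)) ⁻¹' (W'.obox Bz' Be' By')ᶜ)
    (C2 := (fun x : X => c⁻¹ • (x - p)) ⁻¹' (W'.box Bz' Be' By'))
    (g1 := f1) (g2 := zout p c f') hα hBc
    ((W'.obox_open _ _ _).isClosed_compl.preimage hcont) ((W'.box_closed _ _ _).preimage hcont)
    ?_ ?_ (fun x _ _ => rfl) (by positivity) (by positivity) rfl ?_ ?_
  · intro x _
    by_cases h : c⁻¹ • (x - p) ∈ W'.obox Bz' Be' By'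
    · exact Or.inr (W'.obox_subset _ _ _ h)
    · exact Or.inl h
  · intro x _ hx
    have h1 : c⁻¹ • (x - p) ∉ O' := fun h => hx (hO' h)
    unfold zout
    rw [hoff _ h1]
    unfold zin
    rw [zA hc, zA hc]
  · intro x hx y hy _ _
    exact holder_of_lip hα hα1 hM hDm (norm_nonneg _) (hD x hx y hy) (hl x hx y hy)
  · intro x hx y hy hx2 hy2
    have h1 := hh _ hx2 _ hy2
    have e : c⁻¹ • (x - p) - c⁻¹ • (y - p) = c⁻¹ • (x - y) := by module
    rw [e, norm_smul, Real.norm_of_nonneg (inv_nonneg.mpr hc.le)] at h1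
    have e2 : zout p c f' x - zout p c f' y =
        c • (f' (c⁻¹ • (x - p)) - f' (c⁻¹ • (y - p))) := by
      unfold zout; module
    rw [e2, norm_smul, Real.norm_of_nonneg hc.le]
    calc _ ≤ c * (S' * (c⁻¹ * ‖x - y‖) ^ α) := mul_le_mul_of_nonneg_left h1 hc.le
      _ = _ := zoom_holder hc (norm_nonneg _)

/-- Descent: the output at the small sheet gives the output at the big sheet. -/
theorem descend {W W' : Up X} {Bz Be By Bz' Be' By' : ℝ} {O1 O' : Set X}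
    {α S' ε' M Dm c : ℝ} {p : X} (hα : 0 < α) (hα1 : α < 1) (hc : 0 < c) (hM : 0 ≤ M)
    (hDm : 1 ≤ Dm) (hS' : 0 ≤ S')
    (hD : ∀ x ∈ W.box Bz Be By, ∀ y ∈ W.box Bz Be By, ‖x - y‖ ≤ Dm)
    {r T r1 T1 r' T' : X → X}
    (h1r : ∀ x, x ∉ O1 → r1 x = r x) (h1T : ∀ x, x ∉ O1 → T1 x = T x)
    (hlr : ∀ x ∈ W.box Bz Be By, ∀ y ∈ W.box Bz Be By, ‖r1 x - r1 y‖ ≤ M * ‖x - y‖)
    (hlT : ∀ x ∈ W.box Bz Be By, ∀ y ∈ W.box Bz Be By, ‖T1 x - T1 y‖ ≤ M * ‖x - y‖)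
    (hO' : O' ⊆ W'.obox Bz' Be' By')
    (hout : Out W' Bz' Be' By' O' α S' ε' (zin p c r1) (zin p c T1) r' T') :
    Out W Bz Be By (O1 ∪ (fun x => c⁻¹ • (x - p)) ⁻¹' O') α (M * Dm + c ^ (1 - α) * S') (c * ε')
      r T (zout p c r') (zout p c T') where
  pair := hout.pair.zout hc
  offr x hx := by
    simp only [mem_union, mem_preimage, not_or] at hx
    unfold zout
    rw [hout.offr _ hx.2]
    unfold zin
    rw [zA hc, zA hc, h1r _ hx.1]
  offT x hx := by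
    simp only [mem_union, mem_preimage, not_or] at hx
    unfold zout
    rw [hout.offT _ hx.2]
    unfold zin
    rw [zA hc, zA hc, h1T _ hx.1]
  hr := descend_one (W.box_convex _ _ _) hα hα1 hc hM hDm hS' hD hlr hO' hout.offr hout.hr
  hT := descend_one (W.box_convex _ _ _) hα hα1 hc hM hDm hS' hD hlT hO' hout.offT hout.hT
  pt := by
    obtain ⟨x, hx, h⟩ := hout.pt
    refine ⟨p + c • x, Or.inr ?_, ?_⟩
    · show c⁻¹ • (p + c • x - p) ∈ O'
      rw [zB hc]; exact hx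
    · have e : zout p c T' (p + c • x) - (p + c • x) = c • (T' x - x) := by
        unfold zout
        rw [zB hc]; module
      rw [e, norm_smul, Real.norm_of_nonneg hc.le]
      exact mul_le_mul_of_nonneg_left h hc.le

/-! ### The fill step -/

/-- bounds for the projections -/
structure Bnd (D : Dec X) (Ce Cb : ℝ) : Prop where
  one : 1 ≤ Ce
  le : Ce ≤ Cb
  PZ : ∀ x, ‖D.up.PZ x‖ ≤ Cb * ‖x‖
  nS : ∀ x, |D.up.nS x| ≤ Ce * ‖x‖
  eS : ∀ x, |D.eS x| ≤ Ce * ‖x‖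
  Q : ∀ x, ‖D.Q x‖ ≤ Cb * ‖x‖

/-- parameters of the fill step -/
noncomputable def fillPar (Ce δ B θ Lam : ℝ) : Par where
  Bz := δ
  Be := δ
  By := B
  H := δ / 2
  h := δ / 8
  al := 1
  U := δ / 2
  th := θ
  ka := δ
  rho := 4 * (1 + Ce)
  R := 4 * Ce
  om := 1
  Lam := Lam
  Lam' := 4 * (1 + Ce) * Lam

/-- admissible level constants -/
structure Lev (Ce Cb δ B θ Lam L : ℝ) : Prop where
  C1 : 1 ≤ Ce
  CC : Ce ≤ Cb
  δ0 : 0 < δ
  δ1 : δ ≤ 1
  B0 : 4 * (1 + Ce) ≤ B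
  θ0 : 0 < θ
  θB : 4 * θ * B ≤ δ
  Lam0 : 0 ≤ Lam
  LC : 4 * (1 + Cb) ≤ L
  LB : B ≤ L
  LLam : 4 * (1 + Ce) * Lam ≤ L
  Lδ : 8 ≤ L * δ
  Lθ : 1 ≤ L * θ

namespace Lev
variable {Ce Cb δ B θ Lam L : ℝ}

lemma Cb1 (h : Lev Ce Cb δ B θ Lam L) : 1 ≤ Cb := h.C1.trans h.CC

lemma L8 (h : Lev Ce Cb δ B θ Lam L) : 8 ≤ L := by
  have := h.C1; have := h.LC; have := h.CC; linarith

lemma θ1 (h : Lev Ce Cb δ B θ Lam L) : θ ≤ 1 / 32 := by
  have h1 := h.θB
  have h2 := h.δ1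
  have h3 := h.B0
  have h4 := h.C1
  have h5 := h.θ0
  nlinarith

lemma ok (h : Lev Ce Cb δ B θ Lam L) : (fillPar Ce δ B θ Lam).OK := by
  have h1 := h.C1
  have h2 := h.δ0
  have h3 := h.δ1
  have h4 := h.B0
  have h5 := h.θ1
  have h6 := h.θ0
  have h7 := h.Lam0
  constructor <;> dsimp only [fillPar] <;> try linarith
  · right; rfl
  · nlinarith

lemma inv_le (h : Lev Ce Cb δ B θ Lam L) {a : ℝ} (ha : 0 < a) (h1 : 1 ≤ L * a) : a⁻¹ ≤ L := by
  rw [inv_le_comm₀ ha (by have := h.L8; linarith)]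
  rw [inv_le_iff_one_le_mul₀ (by have := h.L8; linarith)]
  linarith

lemma size (h : Lev Ce Cb δ B θ Lam L) {D : Dec X} (hD : Bnd D Ce Cb) :
    Size D (fillPar Ce δ B θ Lam) L := by
  have h1 := h.C1
  have h1' := h.CC
  have h2 := h.δ0
  have h3 := h.δ1
  have h4 := h.B0
  have h5 := h.θ1
  have h6 := h.θ0
  have h7 := h.Lam0
  have h8 := h.L8
  have h9 := h.LC
  have h10 := h.LB
  have h11 := h.LLam
  have h12 := h.Lδ
  have h13 := h.Lθ
  have hCL : Cb ≤ L := by linarith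
  have hCL' : Ce ≤ L := by linarith
  constructor
  · linarith
  · exact fun x => (hD.PZ x).trans (mul_le_mul_of_nonneg_right hCL (norm_nonneg _))
  · exact fun x => (hD.nS x).trans (mul_le_mul_of_nonneg_right hCL' (norm_nonneg _))
  · exact fun x => (hD.eS x).trans (mul_le_mul_of_nonneg_right hCL' (norm_nonneg _))
  · exact fun x => (hD.Q x).trans (mul_le_mul_of_nonneg_right hCL (norm_nonneg _))
  all_goals dsimp only [fillPar]
  · linarith
  · linarith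
  · linarith
  · linarith
  · linarith
  · linarith
  · linarith
  · linarith
  · exact h.inv_le h2 (by linarith)
  · exact h.inv_le h2 (by linarith)
  · exact h.inv_le (by linarith) (by linarith)
  · exact h.inv_le h6 (by linarith)
  · exact h.inv_le h2 (by linarith)
  · exact h.inv_le (by linarith) (by linarith)
  · simpa using (by linarith : (1:ℝ) ≤ L)

lemma fill (h : Lev Ce Cb δ B θ Lam L) {D : Dec X} (hD : Bnd D Ce Cb) :
    Fill D (fillPar Ce δ B θ Lam) Ce where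
  om := rfl
  one_le := h.C1
  eS := hD.eS
  rho := le_rfl
  R := le_rfl
  q := le_rfl

end Lev

end Pool.Agent.H64.HB
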