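import Pool.Agent.H64.KExpReal

/-!
Complex dynamics of z ↦ l e^z in the strip 0 ≤ Im z ≤ π.
-/

set_option autoImplicit false

namespace Pool.Agent.H64.KExp

open Filter Topology

noncomputable def EC (l : ℝ) (z : ℂ) : ℂ := (l : ℂ) * Complex.exp z

def InS (z : ℂ) : Prop := 0 ≤ z.im ∧ z.im ≤ Real.pi

def K (l : ℝ) : Set ℂ := {z | ∀ n, 0 ≤ ((EC l)^[n] z).im ∧ ((EC l)^[n] z).im ≤ Real.pi}

variable {l : ℝ}

theorem EC_re (l : ℝ) (z : ℂ) : (EC l z).re = E l z.re * Real.cos z.im := by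
  unfold EC E
  rw [Complex.re_ofReal_mul, Complex.exp_re]; ring

theorem EC_im (l : ℝ) (z : ℂ) : (EC l z).im = E l z.re * Real.sin z.im := by
  unfold EC E
  rw [Complex.im_ofReal_mul, Complex.exp_im]; ring

theorem norm_EC (hl : Ok l) (z : ℂ) : ‖EC l z‖ = E l z.re := by
  unfold EC E
  rw [norm_mul, Complex.norm_exp, Complex.norm_real, Real.norm_of_nonneg hl.1.le]

theorem EC_ne_zero (hl : Ok l) (z : ℂ) : EC l z ≠ 0 := by
  rw [← norm_pos_iff, norm_EC hl]; exact E_pos hl _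

theorem EC_ofReal (l x : ℝ) : EC l (x : ℂ) = (E l x : ℂ) := by
  unfold EC E; push_cast; rfl

theorem EC_it_ofReal (l : ℝ) (n : ℕ) (x : ℝ) : (EC l)^[n] (x : ℂ) = ((E l)^[n] x : ℂ) := by
  induction n with
  | zero => simp
  | succ n ih => rw [Function.iterate_succ_apply', ih, EC_ofReal, it_succ]

theorem itC_succ (l : ℝ) (n : ℕ) (z : ℂ) : (EC l)^[n+1] z = EC l ((EC l)^[n] z) :=
  Function.iterate_succ_apply' _ _ _

theorem itC_succ' (l : ℝ) (n : ℕ) (z : ℂ) : (EC l)^[n+1] z = (EC l)^[n] (EC l z) :=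
  Function.iterate_succ_apply _ _ _

theorem itC_add (l : ℝ) (m n : ℕ) (z : ℂ) : (EC l)^[m+n] z = (EC l)^[m] ((EC l)^[n] z) :=
  Function.iterate_add_apply _ _ _ _

theorem EC_continuous (l : ℝ) : Continuous (EC l) := by
  unfold EC; fun_prop

theorem itC_continuous (l : ℝ) (n : ℕ) : Continuous ((EC l)^[n]) := (EC_continuous l).iterate n

theorem K_isClosed (l : ℝ) : IsClosed (K l) := by
  have : K l = ⋂ n : ℕ, ({z | 0 ≤ ((EC l)^[n] z).im} ∩ {z | ((EC l)^[n] z).im ≤ Real.pi}) := by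
    ext z; simp [K]
  rw [this]
  refine isClosed_iInter fun n => ?_
  have hc : Continuous fun z => ((EC l)^[n] z).im :=
    Complex.continuous_im.comp (itC_continuous l n)
  exact (isClosed_le continuous_const hc).inter (isClosed_le hc continuous_const)

theorem K_inS {z : ℂ} (hz : z ∈ K l) (n : ℕ) : InS ((EC l)^[n] z) := hz n

theorem K_inS0 {z : ℂ} (hz : z ∈ K l) : InS z := hz 0

theorem K_it {z : ℂ} (hz : z ∈ K l) (n : ℕ) : (EC l)^[n] z ∈ K l := by
  intro m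
  rw [← itC_add]; exact hz _

theorem K_EC {z : ℂ} (hz : z ∈ K l) : EC l z ∈ K l := K_it hz 1

theorem K_of_EC {z : ℂ} (h0 : InS z) (hz : EC l z ∈ K l) : z ∈ K l := by
  intro n
  cases n with
  | zero => exact h0
  | succ n => rw [itC_succ']; exact hz n

theorem K_ofReal (l x : ℝ) : (x : ℂ) ∈ K l := by
  intro n
  rw [EC_it_ofReal]
  simp [Real.pi_pos.le]

theorem norm_le_of_inS {z : ℂ} (hz : InS z) : ‖z‖ ≤ |z.re| + Real.pi := by
  refine (Complex.norm_le_abs_re_add_abs_im z).trans ?_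
  rw [abs_of_nonneg hz.1]
  linarith [hz.2]

theorem norm_exp_sub_one_le (w : ℂ) : ‖Complex.exp w - 1‖ ≤ Real.exp ‖w‖ - 1 := by
  have := Complex.norm_exp_sub_sum_le_exp_norm_sub_sum w 1
  simpa using this

theorem itC_dist (hl : Ok l) (j : ℕ) (u : ℂ) :
    ‖(EC l)^[j] u - (en l j : ℂ)‖ ≤ (E l)^[j] ‖u‖ - en l j := by
  induction j with
  | zero => simp
  | succ j ih =>
    rw [itC_succ, it_succ, en_succ]
    set w := (EC l)^[j] u - (en l j : ℂ) with hw
    have h1 : EC l ((EC l)^[j] u) - ((E l (en l j) : ℝ) : ℂ) =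
        ((E l (en l j) : ℝ) : ℂ) * (Complex.exp w - 1) := by
      have : (EC l)^[j] u = (en l j : ℂ) + w := by rw [hw]; ring
      rw [this, ← EC_ofReal]
      unfold EC
      rw [Complex.exp_add]; ring
    rw [h1, norm_mul, Complex.norm_real, Real.norm_of_nonneg (E_pos hl _).le]
    have h2 : E l ((E l)^[j] ‖u‖) = E l (en l j) * Real.exp ((E l)^[j] ‖u‖ - en l j) := by
      have := E_add l (en l j) ((E l)^[j] ‖u‖ - en l j)
      rw [show en l j + ((E l)^[j] ‖u‖ - en l j) = (E l)^[j] ‖u‖ by ring] at this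
      rw [this]; ring
    rw [h2]
    have h3 : ‖Complex.exp w - 1‖ ≤ Real.exp ((E l)^[j] ‖u‖ - en l j) - 1 :=
      (norm_exp_sub_one_le w).trans (by linarith [Real.exp_le_exp.2 ih])
    have := mul_le_mul_of_nonneg_left h3 (E_pos hl (en l j)).le
    linarith

theorem itC_dist_upper (hl : Ok l) (j : ℕ) (u : ℂ) (h : S l j * ‖u‖ ≤ 1/8) :
    ‖(EC l)^[j] u - (en l j : ℂ)‖ ≤ 8/7 * (D l j * ‖u‖) := by
  refine (itC_dist hl j u).trans ?_
  have h1 : ‖u‖ * S l j < 1 := by linarith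
  have h2 := it_upper hl j h1
  have h3 : D l j * ‖u‖ / (1 - ‖u‖ * S l j) ≤ 8/7 * (D l j * ‖u‖) := by
    have h4 : 0 ≤ D l j * ‖u‖ := mul_nonneg (D_pos hl j).le (norm_nonneg _)
    rw [div_le_iff₀ (by linarith)]
    nlinarith
  linarith

theorem itC_dist_lower (hl : Ok l) (j : ℕ) (u : ℂ) (h : S l j * ‖u‖ ≤ 1/8) :
    6/7 * (D l j * ‖u‖) ≤ ‖(EC l)^[j] u - (en l j : ℂ)‖ := by
  have hu := norm_nonneg u
  suffices h' : (1 - 8/7 * (S l j * ‖u‖)) * (D l j * ‖u‖) ≤ ‖(EC l)^[j] u - (en l j : ℂ)‖ by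
    refine le_trans ?_ h'
    apply mul_le_mul_of_nonneg_right _ (mul_nonneg (D_pos hl j).le hu)
    linarith
  induction j with
  | zero => simp [S, D]
  | succ j ih =>
    have hD := D_pos hl j
    have hS := S_nonneg hl j
    rw [S_succ] at h
    have hDu : 0 ≤ D l j * ‖u‖ := mul_nonneg hD.le hu
    have hSu : 0 ≤ S l j * ‖u‖ := mul_nonneg hS hu
    have hsj : S l j * ‖u‖ ≤ 1/8 := by nlinarith
    have ih' := ih hsj
    have hup := itC_dist_upper hl j u hsj
    set w := (EC l)^[j] u - (en l j : ℂ) with hw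
    have hw1 : ‖w‖ ≤ 1 := by
      have : D l j * ‖u‖ ≤ 1/8 := by nlinarith
      linarith
    rw [itC_succ, en_succ, D_succ, en_succ, S_succ]
    have h1 : EC l ((EC l)^[j] u) - ((E l (en l j) : ℝ) : ℂ) =
        ((E l (en l j) : ℝ) : ℂ) * (Complex.exp w - 1) := by
      have : (EC l)^[j] u = (en l j : ℂ) + w := by rw [hw]; ring
      rw [this, ← EC_ofReal]
      unfold EC
      rw [Complex.exp_add]; ring
    rw [h1, norm_mul, Complex.norm_real, Real.norm_of_nonneg (E_pos hl _).le]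
    have h3 : ‖w‖ * (1 - ‖w‖) ≤ ‖Complex.exp w - 1‖ := by
      have h4 := Complex.norm_exp_sub_one_sub_id_le hw1
      have h5 : ‖w‖ ≤ ‖Complex.exp w - 1‖ + ‖Complex.exp w - 1 - w‖ := by
        have : w = (Complex.exp w - 1) - (Complex.exp w - 1 - w) := by ring
        calc ‖w‖ = ‖(Complex.exp w - 1) - (Complex.exp w - 1 - w)‖ := by rw [← this]
          _ ≤ _ := norm_sub_le _ _
      nlinarith
    have hE := E_pos hl (en l j)
    have h6 : (1 - 8/7 * ((S l j + D l j) * ‖u‖)) * (D l j * ‖u‖) ≤ ‖w‖ * (1 - ‖w‖) := by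
      have h7 : (1 - 8/7 * (D l j * ‖u‖)) * ‖w‖ ≤ ‖w‖ * (1 - ‖w‖) := by
        have := norm_nonneg w
        nlinarith
      have h8 : 0 ≤ 1 - 8/7 * (D l j * ‖u‖) := by nlinarith
      have h9 : (1 - 8/7 * ((S l j + D l j) * ‖u‖)) * (D l j * ‖u‖) ≤
          (1 - 8/7 * (D l j * ‖u‖)) * ((1 - 8/7 * (S l j * ‖u‖)) * (D l j * ‖u‖)) := by
        have : (1 - 8/7 * ((S l j + D l j) * ‖u‖)) ≤
          (1 - 8/7 * (D l j * ‖u‖)) * (1 - 8/7 * (S l j * ‖u‖)) := by
          nlinarith [mul_nonneg hDu hSu]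
        calc _ ≤ ((1 - 8/7 * (D l j * ‖u‖)) * (1 - 8/7 * (S l j * ‖u‖))) * (D l j * ‖u‖) :=
              mul_le_mul_of_nonneg_right this hDu
          _ = _ := by ring
      have h10 := mul_le_mul_of_nonneg_left ih' h8
      linarith
    calc (1 - 8/7 * ((S l j + D l j) * ‖u‖)) * (D l j * E l (en l j) * ‖u‖)
        = E l (en l j) * ((1 - 8/7 * ((S l j + D l j) * ‖u‖)) * (D l j * ‖u‖)) := by ring
      _ ≤ E l (en l j) * ‖Complex.exp w - 1‖ :=
          mul_le_mul_of_nonneg_left (h6.trans h3) hE.le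

/-- pulling back by the principal logarithm -/
theorem pull_step (hl : Ok l) {z : ℂ} (hz : InS z) {p ε : ℝ} (hp : 0 < p)
    (h : ‖EC l z - (p : ℂ)‖ ≤ ε) (hε : ε ≤ p / 2) :
    ‖z - (L l p : ℂ)‖ ≤ 3/2 * (ε / p) := by
  set t : ℂ := (EC l z - (p : ℂ)) / p with ht
  have hpc : (p : ℂ) ≠ 0 := by exact_mod_cast hp.ne'
  have ht1 : ‖t‖ ≤ ε / p := by
    rw [ht, norm_div, Complex.norm_real, Real.norm_of_nonneg hp.le]
    exact div_le_div_of_nonneg_right h hp.le
  have ht2 : ‖t‖ ≤ 1/2 := by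
    refine ht1.trans ?_
    rw [div_le_iff₀ hp]; linarith
  have h1 : Complex.exp (z - (L l p : ℂ)) = 1 + t := by
    rw [Complex.exp_sub]
    have h2 : Complex.exp (L l p : ℂ) = (p : ℂ) / l := by
      rw [← Complex.ofReal_exp]
      unfold L
      rw [Real.exp_log (div_pos hp hl.1)]
      push_cast; rfl
    have hlc : (l : ℂ) ≠ 0 := by exact_mod_cast hl.1.ne'
    rw [h2, ht]
    unfold EC
    field_simp
    ring
  have h3 : Complex.log (Complex.exp (z - (L l p : ℂ))) = z - (L l p : ℂ) := by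
    apply Complex.log_exp
    · simp; linarith [hz.1, Real.pi_pos]
    · simp; exact hz.2
  rw [← h3, h1]
  refine (Complex.norm_log_one_add_half_le_self ht2).trans ?_
  linarith

/-- the inverse branch on the closed upper half plane minus 0 -/
noncomputable def LC (l : ℝ) (w : ℂ) : ℂ := Complex.log (w / l)

theorem EC_LC (hl : Ok l) {w : ℂ} (hw : w ≠ 0) : EC l (LC l w) = w := by
  unfold EC LC
  have hlc : (l : ℂ) ≠ 0 := by exact_mod_cast hl.1.ne'
  rw [Complex.exp_log (div_ne_zero hw hlc)]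
  field_simp

theorem LC_EC (hl : Ok l) {z : ℂ} (hz : InS z) : LC l (EC l z) = z := by
  unfold EC LC
  have hlc : (l : ℂ) ≠ 0 := by exact_mod_cast hl.1.ne'
  rw [mul_div_cancel_left₀ _ hlc]
  apply Complex.log_exp
  · linarith [hz.1, Real.pi_pos]
  · exact hz.2

theorem LC_im (hl : Ok l) (w : ℂ) : (LC l w).im = Complex.arg w := by
  unfold LC
  rw [Complex.log_im]
  have : w / (l : ℂ) = ((l⁻¹ : ℝ) : ℂ) * w := by push_cast; field_simp
  rw [this, Complex.arg_real_mul _ (inv_pos.2 hl.1)]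

theorem LC_re (hl : Ok l) (w : ℂ) : (LC l w).re = Real.log (‖w‖ / l) := by
  unfold LC
  rw [Complex.log_re, norm_div, Complex.norm_real, Real.norm_of_nonneg hl.1.le]

theorem LC_inS (hl : Ok l) {w : ℂ} (hw : 0 ≤ w.im) : InS (LC l w) := by
  refine ⟨?_, ?_⟩
  · rw [LC_im hl]; exact Complex.arg_nonneg_iff.2 hw
  · rw [LC_im hl]; exact Complex.arg_le_pi _

theorem EC_injOn (hl : Ok l) {z w : ℂ} (hz : InS z) (hw : InS w) (h : EC l z = EC l w) :
    z = w := by
  rw [← LC_EC hl hz, ← LC_EC hl hw, h]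

theorem itC_inj (hl : Ok l) {z w : ℂ} (hz : z ∈ K l) (hw : w ∈ K l) (n : ℕ)
    (h : (EC l)^[n] z = (EC l)^[n] w) : z = w := by
  induction n with
  | zero => exact h
  | succ n ih =>
    rw [itC_succ, itC_succ] at h
    exact ih (EC_injOn hl (hz n) (hw n) h)

end Pool.Agent.H64.KExp
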