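import Pool.Agent.H64.KExpReg

/-!
Construction of the system of conjugacies for nearby parameters.
-/

set_option autoImplicit false

namespace Pool.Agent.H64.KExp

open Filter Topology

/-- gluing two order isomorphisms at 0 along the exponential map -/
theorem exists_glue {l m : ℝ} (hl : Ok l) (hm : Ok m) (N G : ℝ ≃o ℝ) (hN : N 0 = 0) :
    ∃ φ : ℝ ≃o ℝ, (∀ x, x ≤ 0 → φ x = N x) ∧ ∀ x, φ (E l x) = E m (G x) := by
  set f : ℝ → ℝ := fun x => if x ≤ 0 then N x else E m (G (L l x)) with hf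
  have hneg : ∀ x, x ≤ 0 → f x = N x := fun x hx => by simp only [hf]; rw [if_pos hx]
  have hpos : ∀ x, 0 < x → f x = E m (G (L l x)) := fun x hx => by
    simp only [hf]; rw [if_neg (not_le.2 hx)]
  have hmono : StrictMono f := by
    intro x y hxy
    rcases le_or_gt y 0 with h | h
    · rw [hneg y h, hneg x (hxy.le.trans h)]; exact N.strictMono hxy
    · rcases le_or_gt x 0 with h' | h'
      · rw [hneg x h', hpos y h]
        have h1 : N x ≤ 0 := by rw [← hN]; exact N.monotone h'
        exact h1.trans_lt (E_pos hm _)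
      · rw [hpos x h', hpos y h]
        exact E_strictMono hm (G.strictMono (L_lt_L hl h' hxy))
  have hsurj : Function.Surjective f := by
    intro y
    rcases le_or_gt y 0 with h | h
    · refine ⟨N.symm y, ?_⟩
      have h1 : N.symm y ≤ 0 := by rw [← N.le_iff_le, OrderIso.apply_symm_apply, hN]; exact h
      rw [hneg _ h1, OrderIso.apply_symm_apply]
    · refine ⟨E l (G.symm (L m y)), ?_⟩
      rw [hpos _ (E_pos hl _), L_E hl, OrderIso.apply_symm_apply, E_L hm h]
  refine ⟨hmono.orderIsoOfSurjective f hsurj, fun x hx => hneg x hx, fun x => ?_⟩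
  change f (E l x) = _
  rw [hpos _ (E_pos hl _), L_E hl]

/-- an order isomorphism through given points -/
theorem exists_iso_through {s s' : ℕ → ℝ} (hs : StrictMono s) (hs' : StrictMono s')
    (h0 : s 0 = 0) (h0' : s' 0 = 0) (ht : Tendsto s atTop atTop) (ht' : Tendsto s' atTop atTop) :
    ∃ G : ℝ ≃o ℝ, ∀ k, G (s k) = s' k := by
  classical
  have hex : ∀ {s : ℕ → ℝ}, Tendsto s atTop atTop → ∀ x : ℝ, ∃ k, x < s (k+1) := by
    intro s ht x
    obtain ⟨k, hk⟩ := (((tendsto_add_atTop_iff_nat 1).2 ht).eventually_gt_atTop x).exists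
    exact ⟨k, hk⟩
  -- index
  set ix : ℝ → ℕ := fun x => Nat.find (hex ht x) with hix
  have ix1 : ∀ x, x < s (ix x + 1) := fun x => Nat.find_spec (hex ht x)
  have ix2 : ∀ x, 0 ≤ x → s (ix x) ≤ x := by
    intro x hx
    rcases Nat.eq_zero_or_pos (ix x) with h | h
    · rw [h, h0]; exact hx
    · obtain ⟨k, hk⟩ : ∃ k, ix x = k + 1 := ⟨ix x - 1, by omega⟩
      have := Nat.find_min (hex ht x) (m := k) (by
        have : Nat.find (hex ht x) = k + 1 := hk
        omega)
      rw [hk]; exact not_lt.1 this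
  have ixu : ∀ x, 0 ≤ x → ∀ k, s k ≤ x → x < s (k+1) → ix x = k := by
    intro x hx k h1 h2
    have h3 := ix1 x
    have h4 := ix2 x hx
    have h5 : s k < s (ix x + 1) := h1.trans_lt h3
    have h6 : s (ix x) < s (k+1) := h4.trans_lt h2
    have h7 := hs.lt_iff_lt.1 h5
    have h8 := hs.lt_iff_lt.1 h6
    omega
  set g : ℕ → ℝ → ℝ := fun k x => s' k + (x - s k) / (s (k+1) - s k) * (s' (k+1) - s' k) with hg
  have hd : ∀ k, 0 < s (k+1) - s k := fun k => sub_pos.2 (hs (Nat.lt_succ_self k))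
  have hd' : ∀ k, 0 < s' (k+1) - s' k := fun k => sub_pos.2 (hs' (Nat.lt_succ_self k))
  have hgmono : ∀ k, StrictMono (g k) := by
    intro k x y hxy
    simp only [hg]
    have h1 : (x - s k) / (s (k+1) - s k) < (y - s k) / (s (k+1) - s k) :=
      div_lt_div_of_pos_right (by linarith) (hd k)
    have h2 := mul_lt_mul_of_pos_right h1 (hd' k)
    linarith
  have hgk : ∀ k, g k (s k) = s' k := fun k => by simp [hg]
  have hgk1 : ∀ k, g k (s (k+1)) = s' (k+1) := fun k => by
    simp only [hg]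
    rw [div_self (hd k).ne']; ring
  set f : ℝ → ℝ := fun x => if x < 0 then x else g (ix x) x with hf
  have fneg : ∀ x, x < 0 → f x = x := fun x hx => by simp only [hf]; rw [if_pos hx]
  have fpos : ∀ x, 0 ≤ x → f x = g (ix x) x := fun x hx => by
    simp only [hf]; rw [if_neg (not_lt.2 hx)]
  have flow : ∀ x, 0 ≤ x → s' (ix x) ≤ f x := by
    intro x hx
    rw [fpos x hx, ← hgk]
    exact (hgmono _).monotone (ix2 x hx)
  have fup : ∀ x, 0 ≤ x → f x < s' (ix x + 1) := by
    intro x hx
    rw [fpos x hx, ← hgk1]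
    exact hgmono _ (ix1 x)
  have hs'0 : ∀ k, 0 ≤ s' k := fun k => by rw [← h0']; exact hs'.monotone (Nat.zero_le _)
  have hmono : StrictMono f := by
    intro x y hxy
    rcases lt_or_ge y 0 with h | h
    · rw [fneg y h, fneg x (hxy.trans h)]; exact hxy
    · rcases lt_or_ge x 0 with h' | h'
      · rw [fneg x h']
        exact h'.trans_le ((hs'0 _).trans (flow y h))
      · have h1 : ix x ≤ ix y := by
          by_contra hcon
          push Not at hcon
          have h2 := ix1 y
          have h3 := ix2 x h'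
          have h4 : s (ix y + 1) ≤ s (ix x) := hs.monotone hcon
          linarith
        rcases h1.lt_or_eq with h2 | h2
        · have h3 : s' (ix x + 1) ≤ s' (ix y) := hs'.monotone h2
          exact (fup x h').trans_le (h3.trans (flow y h))
        · rw [fpos x h', fpos y h, h2]; exact hgmono _ hxy
  have hsurj : Function.Surjective f := by
    intro y
    rcases lt_or_ge y 0 with h | h
    · exact ⟨y, fneg y h⟩
    · set k := Nat.find (hex ht' y) with hk
      have k1 : y < s' (k+1) := Nat.find_spec (hex ht' y)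
      have k2 : s' k ≤ y := by
        rcases Nat.eq_zero_or_pos k with h' | h'
        · rw [h', h0']; exact h
        · obtain ⟨j, hj⟩ : ∃ j, k = j + 1 := ⟨k - 1, by omega⟩
          have := Nat.find_min (hex ht' y) (m := j) (by rw [← hk]; omega)
          rw [hj]; exact not_lt.1 this
      set x := s k + (y - s' k) / (s' (k+1) - s' k) * (s (k+1) - s k) with hx
      have hgx : g k x = y := by
        simp only [hg, hx]
        have h1 := (hd k).ne'
        have h2 := (hd' k).ne'
        field_simp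
        ring
      have x1 : s k ≤ x := by
        rw [← (hgmono k).le_iff_le, hgk, hgx]; exact k2
      have x2 : x < s (k+1) := by
        rw [← (hgmono k).lt_iff_lt, hgk1, hgx]; exact k1
      have x0 : 0 ≤ x := by
        refine le_trans ?_ x1
        rw [← h0]; exact hs.monotone (Nat.zero_le _)
      refine ⟨x, ?_⟩
      rw [fpos x x0, ixu x x0 k x1 x2, hgx]
  refine ⟨hmono.orderIsoOfSurjective f hsurj, fun k => ?_⟩
  change f (s k) = s' k
  have hk0 : 0 ≤ s k := by rw [← h0]; exact hs.monotone (Nat.zero_le _)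
  rw [fpos _ hk0, ixu _ hk0 k le_rfl (hs (Nat.lt_succ_self k)), hgk]

/-- growth domination between the two orbit structures -/
def Dom (l m c : ℝ) : Prop :=
  (∀ j, (E m)^[j] (E m (-m)) ≤ c * en l (j+1)) ∧
  (∀ j, en m (j+1) ≤ c * (E l)^[j+1] (E l (-l)))

theorem exists_index {l : ℝ} (hl : Ok l) {x : ℝ} (hx : 0 ≤ x) : ∃ j, en l j ≤ x ∧ x < en l (j+1) := by
  classical
  have hex : ∃ k, x < en l (k+1) :=
    (((tendsto_add_atTop_iff_nat 1).2 (en_tendsto hl)).eventually_gt_atTop x).exists
  refine ⟨Nat.find hex, ?_, Nat.find_spec hex⟩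
  rcases Nat.eq_zero_or_pos (Nat.find hex) with h | h
  · rw [h]; simpa using hx
  · obtain ⟨j, hj⟩ : ∃ j, Nat.find hex = j + 1 := ⟨Nat.find hex - 1, by omega⟩
    have := Nat.find_min hex (m := j) (by omega)
    rw [hj]; exact not_lt.1 this

theorem growth_of_align {l m c : ℝ} (hl : Ok l) (hc : 0 ≤ c) (hd : Dom l m c) (G : ℝ ≃o ℝ)
    (ha : ∀ j, G (en l j) = en m j)
    (hb : ∀ j, G ((E l)^[j] (E l (-l))) = (E m)^[j] (E m (-m))) (x : ℝ) (hx : 0 ≤ x) :
    G x ≤ c * l * Real.exp x := by
  obtain ⟨j, h1, h2⟩ := exists_index hl hx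
  have hcl : 0 ≤ c * l := mul_nonneg hc hl.1.le
  rcases le_total x ((E l)^[j] (E l (-l))) with h | h
  · have h3 := G.monotone h
    rw [hb] at h3
    refine h3.trans ((hd.1 j).trans ?_)
    rw [en_succ, E, ← mul_assoc]
    exact mul_le_mul_of_nonneg_left (Real.exp_le_exp.2 h1) hcl
  · have h3 := G.monotone h2.le
    rw [ha] at h3
    refine h3.trans ((hd.2 j).trans ?_)
    rw [it_succ, E, ← mul_assoc]
    exact mul_le_mul_of_nonneg_left (Real.exp_le_exp.2 h) hcl

/-- aligned order isomorphisms -/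
def Al (l m : ℝ) (G : ℝ ≃o ℝ) : Prop :=
  (∀ j, G (en l j) = en m j) ∧ ∀ j, G ((E l)^[j] (E l (-l))) = (E m)^[j] (E m (-m))

/-- the invariant for the recursion -/
structure Inv (l m C : ℝ) (h : ℝ ≃o ℝ) : Prop where
  al : Al l m h
  odd : ∀ x, 0 ≤ x → x ≤ l → h (-x) = - h x
  grow : ∀ x, 0 ≤ x → h x ≤ C * Real.exp x
  grow' : ∀ y, 0 ≤ y → h.symm y ≤ C * Real.exp y
  ka : ∀ x, 0 ≤ x → -(h (-x)) ≤ h (C * x + C) + C
  kb : ∀ y, 0 ≤ y → -(h.symm (-y)) ≤ h.symm (C*y+C) + C
  lip : ∀ x, 0 ≤ x → -(h (-(x+1))) ≤ C * (-(h (-x))) + C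
  lip' : ∀ y, 0 ≤ y → -(h.symm (-(y+1))) ≤ C * (-(h.symm (-y))) + C

theorem Al.symm {l m : ℝ} {G : ℝ ≃o ℝ} (h : Al l m G) : Al m l G.symm := by
  constructor
  · intro j; rw [OrderIso.symm_apply_eq, h.1]
  · intro j; rw [OrderIso.symm_apply_eq, h.2]

/-- odd-type extension with regularised negative part -/
theorem exists_sym {l m c : ℝ} (hl : Ok l) (hm : Ok m) (hc : 0 ≤ c) (hd : Dom l m c)
    (hd' : Dom m l c) : ∃ C : ℝ, 1 ≤ C ∧ ∀ G : ℝ ≃o ℝ, Al l m G →
    ∃ h : ℝ ≃o ℝ, Inv l m C h ∧ ∀ x, 0 ≤ x → h x = G x := by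
  set C0 := c * l + c * m + 1 with hC0
  have hcl : 0 ≤ c * l := mul_nonneg hc hl.1.le
  have hcm : 0 ≤ c * m := mul_nonneg hc hm.1.le
  obtain ⟨C', hC'1, hC'⟩ := regularise (p := l) (q := m) (C0 := C0) hl.1 hm.1 (by rw [hC0]; linarith)
  set C := max C' C0 with hC
  refine ⟨C, hC'1.trans (le_max_left _ _), ?_⟩
  intro G hG
  have h0 : G 0 = 0 := by simpa using hG.1 0
  have hlm : G l = m := by simpa [en_one] using hG.1 1
  have hg : ∀ x, 0 ≤ x → G x ≤ C0 * Real.exp x := fun x hx => by
    refine (growth_of_align hl hc hd G hG.1 hG.2 x hx).trans ?_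
    apply mul_le_mul_of_nonneg_right _ (Real.exp_pos _).le
    rw [hC0]; linarith
  have hg' : ∀ x, 0 ≤ x → G.symm x ≤ C0 * Real.exp x := fun x hx => by
    refine (growth_of_align hm hc hd' G.symm hG.symm.1 hG.symm.2 x hx).trans ?_
    apply mul_le_mul_of_nonneg_right _ (Real.exp_pos _).le
    rw [hC0]; linarith
  obtain ⟨K, klow, ka, kb, kl, kl'⟩ := hC' G h0 hlm hg hg'
  have hK0 : K 0 = 0 := by rw [klow 0 hl.1.le, h0]
  -- glue -K(-x) and G
  set f : ℝ → ℝ := fun x => if x ≤ 0 then -(K (-x)) else G x with hf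
  have fneg : ∀ x, x ≤ 0 → f x = -(K (-x)) := fun x hx => by simp only [hf]; rw [if_pos hx]
  have fpos : ∀ x, 0 ≤ x → f x = G x := fun x hx => by
    rcases hx.lt_or_eq with h | h
    · simp only [hf]; rw [if_neg (not_le.2 h)]
    · rw [fneg x h.symm.le, ← h, neg_zero, hK0, h0, neg_zero]
  have hmono : StrictMono f := by
    intro x y hxy
    rcases le_or_gt y 0 with h | h
    · rw [fneg y h, fneg x (hxy.le.trans h)]
      exact neg_lt_neg (K.strictMono (neg_lt_neg hxy))
    · rcases le_or_gt x 0 with h' | h'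
      · rw [fneg x h', fpos y h.le]
        have h1 : 0 ≤ K (-x) := by rw [← hK0]; exact K.monotone (by linarith)
        have h2 : 0 < G y := by rw [← h0]; exact G.strictMono h
        linarith
      · rw [fpos x h'.le, fpos y h.le]; exact G.strictMono hxy
  have hsurj : Function.Surjective f := by
    intro y
    rcases le_or_gt y 0 with h | h
    · refine ⟨-(K.symm (-y)), ?_⟩
      have h1 : 0 ≤ K.symm (-y) := by
        rw [← K.le_iff_le, OrderIso.apply_symm_apply, hK0]; linarith
      rw [fneg _ (by linarith), neg_neg, OrderIso.apply_symm_apply, neg_neg]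
    · refine ⟨G.symm y, ?_⟩
      have h1 : 0 ≤ G.symm y := by
        rw [← G.le_iff_le, OrderIso.apply_symm_apply, h0]; exact h.le
      rw [fpos _ h1, OrderIso.apply_symm_apply]
  set h := hmono.orderIsoOfSurjective f hsurj with hh
  have hneg : ∀ x, x ≤ 0 → h x = -(K (-x)) := fneg
  have hpos : ∀ x, 0 ≤ x → h x = G x := fpos
  have hG0 : ∀ y, 0 ≤ y → 0 ≤ G.symm y := fun y hy => by
    rw [← G.le_iff_le, OrderIso.apply_symm_apply, h0]; exact hy
  have hK0' : ∀ y, 0 ≤ y → 0 ≤ K.symm y := fun y hy => by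
    rw [← K.le_iff_le, OrderIso.apply_symm_apply, hK0]; exact hy
  have hspos : ∀ y, 0 ≤ y → h.symm y = G.symm y := by
    intro y hy
    rw [OrderIso.symm_apply_eq, hpos _ (hG0 y hy), OrderIso.apply_symm_apply]
  have hsneg : ∀ y, 0 ≤ y → h.symm (-y) = -(K.symm y) := by
    intro y hy
    rw [OrderIso.symm_apply_eq, hneg _ (by linarith [hK0' y hy]), neg_neg,
      OrderIso.apply_symm_apply]
  have hhneg : ∀ x, 0 ≤ x → h (-x) = -(K x) := by
    intro x hx
    rw [hneg _ (by linarith), neg_neg]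
  have hCC' : C' ≤ C := le_max_left _ _
  have hC0C : C0 ≤ C := le_max_right _ _
  have hC'0 : 0 ≤ C' := by linarith
  have hlin : ∀ x, 0 ≤ x → C' * x + C' ≤ C * x + C := fun x hx => by
    have := mul_le_mul_of_nonneg_right hCC' hx
    linarith
  refine ⟨h, ?_, hpos⟩
  constructor
  · constructor
    · intro j
      rw [hpos _ (en_nonneg hl j)]; exact hG.1 j
    · intro j
      rw [hpos]
      · exact hG.2 j
      · rw [← it_succ']; exact (it_pos hl j _).le
  · intro x hx0 hxl
    rw [hhneg x hx0, hpos x hx0, klow x hxl]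
  · intro x hx
    rw [hpos x hx]
    refine (hg x hx).trans (mul_le_mul_of_nonneg_right hC0C (Real.exp_pos _).le)
  · intro y hy
    rw [hspos y hy]
    refine (hg' y hy).trans (mul_le_mul_of_nonneg_right hC0C (Real.exp_pos _).le)
  · intro x hx
    have h1 := ka x hx
    have h2 := hlin x hx
    have h3 : 0 ≤ C' * x + C' := by positivity
    rw [hhneg x hx, neg_neg, hpos _ (h3.trans h2)]
    have := G.monotone h2
    linarith
  · intro y hy
    have h1 := kb y hy
    have h2 := hlin y hy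
    have h3 : 0 ≤ C' * y + C' := by positivity
    rw [hsneg y hy, neg_neg, hspos _ (h3.trans h2)]
    have := G.symm.monotone h2
    linarith
  · intro x hx
    have h1 := kl x hx
    rw [hhneg x hx, hhneg _ (by linarith), neg_neg, neg_neg]
    have h2 : 0 ≤ K x := by rw [← hK0]; exact K.monotone hx
    have h3 := mul_le_mul_of_nonneg_right hCC' h2
    linarith
  · intro y hy
    have h1 := kl' y hy
    rw [hsneg y hy, hsneg _ (by linarith), neg_neg, neg_neg]
    have h3 := mul_le_mul_of_nonneg_right hCC' (hK0' y hy)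
    linarith

theorem exists_sys_of_dom {l m c : ℝ} (hl : Ok l) (hm : Ok m) (hc : 0 ≤ c) (hd : Dom l m c)
    (hd' : Dom m l c) : ∃ C : ℝ, 1 ≤ C ∧ ∃ h : ℕ → ℝ ≃o ℝ, IsSys l m C h := by
  obtain ⟨C, hC1, hsym⟩ := exists_sym hl hm hc hd hd'
  refine ⟨C, hC1, ?_⟩
  -- base
  have hlt : ∀ {l : ℝ}, Ok l → E l (-l) < l := by
    intro l hl
    unfold E
    have : Real.exp (-l) < 1 := by rw [Real.exp_lt_one_iff]; linarith [hl.1]
    nlinarith [hl.1]
  set s : ℝ → ℕ → ℝ := fun l k => (E l)^[k/2] (if k % 2 = 0 then 0 else E l (-l)) with hs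
  have hseven : ∀ (l : ℝ) (j : ℕ), s l (2*j) = en l j := by
    intro l j
    simp only [hs]
    rw [show 2*j/2 = j by omega, show 2*j % 2 = 0 by omega, if_pos rfl]; rfl
  have hsodd : ∀ (l : ℝ) (j : ℕ), s l (2*j+1) = (E l)^[j] (E l (-l)) := by
    intro l j
    simp only [hs]
    rw [show (2*j+1)/2 = j by omega, show (2*j+1) % 2 = 1 by omega, if_neg (by norm_num)]
  have hsmono : ∀ {l : ℝ}, Ok l → StrictMono (s l) := by
    intro l hl
    apply strictMono_nat_of_lt_succ
    intro n
    rcases Nat.even_or_odd' n with ⟨j, rfl | rfl⟩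
    · rw [hseven, hsodd]; exact it_strictMono hl j (E_pos hl _)
    · rw [hsodd, show 2*j+1+1 = 2*(j+1) by ring, hseven]
      have h1 : en l (j+1) = (E l)^[j] l := by
        unfold en; rw [it_succ']; congr 1; simp [E]
      rw [h1]; exact it_strictMono hl j (hlt hl)
  have hst : ∀ {l : ℝ}, Ok l → Tendsto (s l) atTop atTop := by
    intro l hl
    refine tendsto_atTop_mono (f := fun n => en l (n/2)) (fun n => ?_)
      ((en_tendsto hl).comp (Nat.tendsto_div_const_atTop (by norm_num)))
    rcases Nat.even_or_odd' n with ⟨j, rfl | rfl⟩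
    · rw [hseven, show 2*j/2 = j by omega]
    · rw [hsodd, show (2*j+1)/2 = j by omega]
      exact it_mono hl j (E_pos hl _).le
  have hs0 : ∀ l : ℝ, s l 0 = 0 := by intro l; simp [hs]
  obtain ⟨G0, hG0⟩ := exists_iso_through (hsmono hl) (hsmono hm) (hs0 l) (hs0 m) (hst hl) (hst hm)
  have hG0al : Al l m G0 := by
    constructor
    · intro j; have := hG0 (2*j); rwa [hseven, hseven] at this
    · intro j; have := hG0 (2*j+1); rwa [hsodd, hsodd] at this
  obtain ⟨h0, hh0, -⟩ := hsym G0 hG0al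
  -- step
  have hstep : ∀ h : {h : ℝ ≃o ℝ // Inv l m C h}, ∃ h' : {h : ℝ ≃o ℝ // Inv l m C h},
      ∀ x, h'.1 (E l x) = E m (h.1 x) := by
    rintro ⟨h, hinv⟩
    obtain ⟨G, hG1, hG2⟩ := exists_glue hl hm (OrderIso.refl ℝ) h rfl
    have hGal : Al l m G := by
      constructor
      · intro j
        cases j with
        | zero => rw [en_zero, en_zero, hG1 0 le_rfl]; rfl
        | succ j => rw [en_succ, en_succ, hG2, hinv.al.1]
      · intro j
        cases j with
        | zero =>
          simp only [Function.iterate_zero, id]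
          rw [hG2, hinv.odd l hl.1.le le_rfl]
          have : h l = m := by simpa [en_one] using hinv.al.1 1
          rw [this]
        | succ j => rw [it_succ, it_succ, hG2, hinv.al.2]
    obtain ⟨h', hinv', hh'⟩ := hsym G hGal
    refine ⟨⟨h', hinv'⟩, fun x => ?_⟩
    change h' (E l x) = _
    rw [hh' _ (E_pos hl x).le, hG2]
  choose nxt hnxt using hstep
  set seq : ℕ → {h : ℝ ≃o ℝ // Inv l m C h} := fun n => Nat.rec ⟨h0, hh0⟩ (fun _ h => nxt h) n
    with hseq
  refine ⟨fun n => (seq n).1, ?_⟩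
  exact {
    hl := hl
    hm := hm
    hC := hC1
    conj := fun n x => hnxt (seq n) x
    align := fun n j => (seq n).2.al.1 j
    aligna := fun n => (seq n).2.al.2 0
    odd := fun n => (seq n).2.odd
    grow := fun n => (seq n).2.grow
    grow' := fun n => (seq n).2.grow'
    ka := fun n => (seq n).2.ka
    kb := fun n => (seq n).2.kb
    lip := fun n => (seq n).2.lip
    lip' := fun n => (seq n).2.lip' }

end Pool.Agent.H64.KExp
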