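import Pool.Agent.H64.KExpSys

/-!
Modulus bound and existence of compatible partners.
-/

set_option autoImplicit false

namespace Pool.Agent.H64.KExp

open Filter Topology

variable {l m C : ℝ} {h : ℕ → ℝ ≃o ℝ}

theorem exists_D_lower (hl : Ok l) : ∃ d : ℝ, 0 < d ∧ ∀ j, d ≤ D l j := by
  obtain ⟨N, hN⟩ := ((D_tendsto hl).eventually_ge_atTop 1).exists_forall_of_atTop
  obtain ⟨M, hM⟩ := ((Finset.range (N+1)).image (fun j => (D l j)⁻¹)).exists_le
  have hM' : ∀ j ≤ N, (D l j)⁻¹ ≤ M := fun j hj =>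
    hM _ (Finset.mem_image_of_mem _ (Finset.mem_range.2 (by omega)))
  have hM0 : 0 < M := lt_of_lt_of_le (inv_pos.2 (D_pos hl 0)) (hM' 0 (Nat.zero_le _))
  refine ⟨min 1 M⁻¹, lt_min one_pos (inv_pos.2 hM0), ?_⟩
  intro j
  by_cases hj : j ≤ N
  · refine (min_le_right _ _).trans ?_
    rw [inv_le_comm₀ hM0 (D_pos hl j)]
    exact hM' j hj
  · exact (min_le_left _ _).trans (hN j (by omega))

theorem E_shift_log (l : ℝ) {a : ℝ} (ha : 0 < a) (x : ℝ) : E l (x + Real.log a) = a * E l x := by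
  rw [E_add, Real.exp_log ha]

theorem E_eq_exp (hl : Ok l) (x : ℝ) : E l x = Real.exp (Real.log l + x) := by
  rw [Real.exp_add, Real.exp_log hl.1, E]

theorem MB (hl : Ok l) (hm : Ok m) (hC : 1 ≤ C) :
    ∃ c1 : ℝ, 1 ≤ c1 ∧ ∀ C1 : ℝ, 0 ≤ C1 → ∃ A : ℝ, 1 ≤ A ∧ ∀ C2, A ≤ C2 →
    ∀ h : ℕ → ℝ ≃o ℝ, IsSys l m C h → ∀ v ∈ K l, ∀ v' ∈ K m, Cpt l m C1 C2 h v v' →
    ‖v'‖ ≤ c1 * h 0 (c1 * ‖v‖ + c1) + A * C2^2 := by
  obtain ⟨d, hd0, hd⟩ := exists_D_lower hl
  obtain ⟨CD, hCD0, hCD⟩ := exists_CD hm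
  have hl0 := hl.1
  have hm0 := hm.1
  set c := |Real.log (d * l^2)| with hc
  have hc0 : 0 ≤ c := abs_nonneg _
  set c1 := 6 * C + 2 + 2 * c with hc1
  have hc11 : 1 ≤ c1 := by rw [hc1]; linarith
  refine ⟨c1, hc11, ?_⟩
  intro C1 hC1
  obtain ⟨A0, hA01, hG⟩ := G1 hl hm hC C1
  set η := eta m with hη
  have hη0 : 0 < η := eta_pos m
  set A := C * Real.exp (2*C1) + 5 + A0 + |Real.log m| + C + 2 * C * A0^2 + |Real.log η| + CD
    with hA
  have hA0 : A0 ≤ A := by
    have h1 : 0 ≤ C * Real.exp (2*C1) := by positivity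
    have h2 : 0 ≤ 2 * C * A0^2 := by positivity
    have h3 := abs_nonneg (Real.log m)
    have h4 := abs_nonneg (Real.log η)
    rw [hA]; linarith
  refine ⟨A, by linarith, ?_⟩
  intro C2 hC2 h H v hv v' hv' hcpt
  have hC21 : 1 ≤ C2 := by linarith
  have hC20 : 0 < C2 := by linarith
  have hC2sq : C2 ≤ C2^2 := by rw [sq]; exact le_mul_of_one_le_right hC20.le hC21
  have hC2sq1 : 1 ≤ C2^2 := by linarith
  set X := h 0 (c1 * ‖v‖ + c1) with hX
  have hnv := norm_nonneg v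
  have harg : 0 ≤ c1 * ‖v‖ + c1 := by positivity
  have hX0 : 0 ≤ X := H.nonneg 0 harg
  have hX1 : X ≤ c1 * X := le_mul_of_one_le_left hX0 hc11
  -- lower bounds for A * C2^2
  have n1 : 0 ≤ C * Real.exp (2*C1) := by positivity
  have n2 : 0 ≤ 2 * C * A0^2 := by positivity
  have n3 := abs_nonneg (Real.log m)
  have n4 := abs_nonneg (Real.log η)
  have hAC : C * Real.exp (2*C1) + 5 + A0 * C2 + |Real.log m| + C + 2 * C * A0^2 * C2^2
      + |Real.log η| + CD + (C2 - 1) ≤ A * C2^2 := by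
    rw [hA]
    have e1 : C * Real.exp (2*C1) ≤ C * Real.exp (2*C1) * C2^2 :=
      le_mul_of_one_le_right n1 hC2sq1
    have e2 : |Real.log m| ≤ |Real.log m| * C2^2 := le_mul_of_one_le_right n3 hC2sq1
    have e3 : |Real.log η| ≤ |Real.log η| * C2^2 := le_mul_of_one_le_right n4 hC2sq1
    have e4 : CD ≤ CD * C2^2 := le_mul_of_one_le_right hCD0 hC2sq1
    have e5 : C ≤ C * C2^2 := le_mul_of_one_le_right (by linarith) hC2sq1
    have e6 : A0 * C2 ≤ A0 * C2^2 := mul_le_mul_of_nonneg_left hC2sq (by linarith)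
    linarith
  have n5 : 0 ≤ A0 * C2 := by positivity
  have n6 : 0 ≤ 2 * C * A0^2 * C2^2 := by positivity
  have hvS := norm_le_of_inS (K_inS0 hv')
  have hπ4 := Real.pi_le_four
  by_cases hre : 0 ≤ v'.re
  · rw [abs_of_nonneg hre] at hvS
    have h1 := (hcpt 0).1
    simp only [Function.iterate_zero, id] at h1
    have h2 : h 0 (max (v.re + C1) 0) ≤ X + C * Real.exp (2*C1) := by
      have hvre : v.re ≤ ‖v‖ := (le_abs_self _).trans (Complex.abs_re_le_norm v)
      rcases le_total C1 ‖v‖ with hh | hh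
      · have : max (v.re + C1) 0 ≤ c1 * ‖v‖ + c1 := by
          apply max_le _ harg
          have : 2 * ‖v‖ ≤ c1 * ‖v‖ := mul_le_mul_of_nonneg_right (by linarith) hnv
          linarith
        have := (h 0).monotone this
        linarith
      · have : max (v.re + C1) 0 ≤ 2 * C1 := max_le (by linarith) (by linarith)
        have h3 := (h 0).monotone this
        have h4 := H.grow 0 (2*C1) (by linarith)
        linarith
    linarith
  · push Not at hre
    rw [abs_of_neg hre] at hvS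
    by_cases hT : -v'.re ≤ A0 * C2 + |Real.log m|
    · linarith
    push Not at hT
    have hnu' : ‖EC m v'‖ = Real.exp (Real.log m + v'.re) := by
      rw [norm_EC hm, E_eq_exp hm]
    have hnu : ‖EC l v‖ = E l v.re := norm_EC hl v
    have hsm : ‖EC m v'‖ ≤ Real.exp (-(A0*C2)) := by
      rw [hnu']
      apply Real.exp_le_exp.2
      have := le_abs_self (Real.log m)
      linarith
    have hpos : 0 < ‖EC m v'‖ := by rw [hnu']; exact Real.exp_pos _
    obtain ⟨J, -, -, hJ2, hJ3, -⟩ := hG C2 (hA0.trans hC2) _ (H.shift 1) (EC l v) (K_EC hv)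
      (EC m v') (K_EC hv') hcpt.shift1 hpos hsm
    have hAC0 : 0 < A0 * C2 := by positivity
    have hA0C2 : 1 ≤ A0 * C2 := by nlinarith
    have hlogA : Real.log (A0*C2) ≤ A0 * C2 - 1 := Real.log_le_sub_one_of_pos hAC0
    have hlogA0 : 0 ≤ Real.log (A0*C2) := Real.log_nonneg hA0C2
    have hvre : -‖v‖ ≤ v.re := (abs_le.1 (Complex.abs_re_le_norm v)).1
    rcases hJ3 with h1 | h1
    · -- case (a)
      have h2 : ‖EC l v‖/6 = E l (v.re + Real.log (1/6)) := by
        rw [E_shift_log l (by norm_num), hnu]; ring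
      have h3 : A0 * C2 * ‖EC m v'‖ = E m (v'.re + Real.log (A0*C2)) := by
        rw [E_shift_log m hAC0, norm_EC hm]
      rw [h2, h3] at h1
      have h4 : h (0+1) (E l (v.re + Real.log (1/6))) = E m (h 0 (v.re + Real.log (1/6))) :=
        H.conj 0 _
      rw [h4, (E_strictMono hm).le_iff_le] at h1
      have h5 : -5 ≤ Real.log (1/6) := by
        rw [one_div, Real.log_inv]
        have := Real.log_le_sub_one_of_pos (show (0:ℝ) < 6 by norm_num)
        linarith
      have h6 : h 0 (-(‖v‖ + 5)) ≤ h 0 (v.re + Real.log (1/6)) :=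
        (h 0).monotone (by linarith)
      have h7 := H.ka 0 (‖v‖ + 5) (by linarith)
      have h8 : h 0 (C * (‖v‖ + 5) + C) ≤ X := by
        apply (h 0).monotone
        have : C * ‖v‖ ≤ c1 * ‖v‖ := mul_le_mul_of_nonneg_right (by linarith) hnv
        linarith
      linarith
    · -- case (b)
      have h2 : D l (J+1) * ‖EC l v‖ = D l J * l^2 * Real.exp (en l J + v.re) := by
        rw [hnu, D_succ, en_succ, E, E, Real.exp_add]; ring
      rw [h2] at h1
      have h3 : d * l^2 * Real.exp (en l J + v.re) ≤ A0 * C2 := by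
        refine le_trans ?_ h1
        apply mul_le_mul_of_nonneg_right _ (Real.exp_pos _).le
        exact mul_le_mul_of_nonneg_right (hd J) (by positivity)
      have h4 : Real.log (d*l^2) + (en l J + v.re) ≤ Real.log (A0*C2) := by
        have := Real.log_le_log (by positivity) h3
        rwa [Real.log_mul (by positivity) (Real.exp_pos _).ne', Real.log_exp] at this
      have h5 : en l J ≤ (‖v‖ + c) + Real.log (A0*C2) := by
        have := neg_abs_le (Real.log (d*l^2))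
        rw [← hc] at this
        linarith
      have h6 : en m J ≤ X + C * (A0*C2)^2 := by
        rw [← H.align 0 J]
        rcases le_total (‖v‖ + c) (Real.log (A0*C2)) with hh | hh
        · have h7 : en l J ≤ 2 * Real.log (A0*C2) := by linarith
          have h8 := (h 0).monotone h7
          have h9 := H.grow 0 (2 * Real.log (A0*C2)) (by linarith)
          have h10 : Real.exp (2 * Real.log (A0*C2)) = (A0*C2)^2 := by
            rw [two_mul, Real.exp_add, Real.exp_log hAC0]; ring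
          rw [h10] at h9
          linarith
        · have h7 : en l J ≤ c1 * ‖v‖ + c1 := by
            have : 2 * ‖v‖ ≤ c1 * ‖v‖ := mul_le_mul_of_nonneg_right (by linarith) hnv
            linarith
          have h8 := (h 0).monotone h7
          have h9 : 0 ≤ C * (A0*C2)^2 := by positivity
          linarith
      have h7 : η < Real.exp (2 * en m J + CD) * Real.exp (Real.log m + v'.re) := by
        refine hJ2.trans_le ?_
        rw [hnu']
        exact mul_le_mul_of_nonneg_right (hCD J) (Real.exp_pos _).le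
      rw [← Real.exp_add, ← Real.log_lt_iff_lt_exp hη0] at h7
      have h8 := neg_abs_le (Real.log η)
      have h9 := le_abs_self (Real.log m)
      have h10 : 2 * X ≤ c1 * X := mul_le_mul_of_nonneg_right (by linarith) hX0
      have h11 : C * (A0*C2)^2 = C * A0^2 * C2^2 := by ring
      rw [h11] at h6
      linarith

/-- half of the backward step -/
theorem backward_half (hl : Ok l) (hm : Ok m) (hC : 1 ≤ C) :
    ∃ c1 : ℝ, 0 ≤ c1 ∧ ∀ C1 : ℝ, c1 ≤ C1 → ∃ A : ℝ, 1 ≤ A ∧ ∀ C2, A ≤ C2 →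
    ∀ h : ℕ → ℝ ≃o ℝ, IsSys l m C h → ∀ z ∈ K l, ∀ z' ∈ K m,
    Cpt l m C1 C2 (fun n => h (n+1)) (EC l z) (EC m z') →
    z'.re ≤ h 0 (max (z.re + C1) 0) + C2 := by
  obtain ⟨c1, hc1, hMB⟩ := MB hl hm hC
  have hm0 := hm.1
  refine ⟨Real.log (2*c1), Real.log_nonneg (by linarith), ?_⟩
  intro C1 hC1
  have hC10 : 0 ≤ C1 := (Real.log_nonneg (by linarith : (1:ℝ) ≤ 2 * c1)).trans hC1
  have hexpC1 : 2 * c1 ≤ Real.exp C1 := by
    rw [← Real.exp_log (by linarith : (0:ℝ) < 2 * c1)]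
    exact Real.exp_le_exp.2 hC1
  obtain ⟨A, hA1, hA⟩ := hMB C1 hC10
  -- choose A' with exp C2 ≥ c1 + A C2²/m, m exp C2 ≥ c1 C e^{2 c1} + A C2²
  have hev : ∀ᶠ x : ℝ in atTop, c1 * m + c1 * (C * Real.exp (2*c1)) + A * x^2 ≤ m * Real.exp x := by
    have h1 : Tendsto (fun x : ℝ => Real.exp x / x^2) atTop atTop :=
      Real.tendsto_exp_div_pow_atTop 2
    filter_upwards [h1.eventually_ge_atTop
      ((c1 * m + c1 * (C * Real.exp (2*c1)) + A) / m), eventually_ge_atTop 1] with x hx hx1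
    have hx2 : 1 ≤ x^2 := one_le_pow₀ hx1
    have hx0 : 0 < x^2 := by positivity
    rw [div_le_div_iff₀ hm0 hx0] at hx
    have h2 : 0 ≤ c1 * m + c1 * (C * Real.exp (2*c1)) := by positivity
    have h3 := le_mul_of_one_le_right h2 hx2
    linarith
  obtain ⟨A', hA'⟩ := hev.exists_forall_of_atTop
  refine ⟨max A A', le_trans hA1 (le_max_left _ _), ?_⟩
  intro C2 hC2 h H z hz z' hz' hcpt
  have hb := hA C2 ((le_max_left _ _).trans hC2) _ (H.shift 1) (EC l z) (K_EC hz)
    (EC m z') (K_EC hz') hcpt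
  have hx := hA' C2 ((le_max_right _ _).trans hC2)
  simp only [zero_add] at hb
  rw [norm_EC hm, norm_EC hl] at hb
  have hC21 : 1 ≤ C2 := (hA1.trans (le_max_left _ _)).trans hC2
  set t := max (z.re + C1) 0 with ht
  have ht0 : 0 ≤ t := le_max_right _ _
  set Y := E m (h 0 t) with hY
  have hYm : m ≤ Y := by
    have : E m 0 ≤ Y := (E_strictMono hm).monotone (H.nonneg 0 ht0)
    simpa [E] using this
  have hAq : 0 ≤ A * C2^2 := by positivity
  have goal1 : E m z'.re ≤ Real.exp C2 * Y := by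
    refine hb.trans ?_
    by_cases hc : c1 ≤ E l z.re * (Real.exp C1 - c1)
    · have h1 : c1 * E l z.re + c1 ≤ E l t := by
        have h2 : E l (z.re + C1) ≤ E l t := (E_strictMono hl).monotone (le_max_left _ _)
        rw [E_add] at h2
        linarith
      have h2 : h 1 (c1 * E l z.re + c1) ≤ Y := by
        have := (h 1).monotone h1
        rwa [show h 1 (E l t) = E m (h 0 t) from H.conj 0 t] at this
      have h3 : c1 * h 1 (c1 * E l z.re + c1) ≤ c1 * Y :=
        mul_le_mul_of_nonneg_left h2 (by linarith)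
      have h4 : c1 * m + A * C2^2 ≤ m * Real.exp C2 := by
        have : 0 ≤ c1 * (C * Real.exp (2*c1)) := by positivity
        linarith
      -- (c1 + A C2²/m) Y
      have h5 : A * C2^2 ≤ (Real.exp C2 - c1) * Y := by
        have h6 : A * C2^2 ≤ (Real.exp C2 - c1) * m := by linarith
        have h7 : 0 ≤ Real.exp C2 - c1 := by
          by_contra hneg
          push Not at hneg
          have := mul_neg_of_neg_of_pos hneg hm0
          linarith
        exact h6.trans (mul_le_mul_of_nonneg_left hYm h7)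
      linarith
    · push Not at hc
      have hE := E_pos hl z.re
      have h1 : E l z.re < 1 := by
        by_contra hge
        push Not at hge
        have : c1 ≤ E l z.re * (Real.exp C1 - c1) := by nlinarith
        linarith
      have h2 : c1 * E l z.re + c1 ≤ 2 * c1 := by nlinarith
      have h3 := (h 1).monotone h2
      have h4 := H.grow 1 (2*c1) (by linarith)
      have h5 : c1 * h 1 (c1 * E l z.re + c1) ≤ c1 * (C * Real.exp (2*c1)) :=
        mul_le_mul_of_nonneg_left (h3.trans h4) (by linarith)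
      have h6 : m * Real.exp C2 ≤ Y * Real.exp C2 :=
        mul_le_mul_of_nonneg_right hYm (Real.exp_pos _).le
      have h7 : 0 ≤ c1 * m := by positivity
      linarith
  rw [hY, ← E_add] at goal1
  exact (E_strictMono hm).le_iff_le.1 goal1

/-- constants for which the backward step and modulus bounds hold -/
def Good (l m C C1 C2 : ℝ) : Prop :=
  0 ≤ C1 ∧ C1 ≤ C2 ∧ 1 ≤ C2 ∧
  (∀ h : ℕ → ℝ ≃o ℝ, IsSys l m C h → ∀ z ∈ K l, ∀ z' ∈ K m,
    Cpt l m C1 C2 (fun n => h (n+1)) (EC l z) (EC m z') →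
    z'.re ≤ h 0 (max (z.re + C1) 0) + C2) ∧
  (∃ B : ℝ, 1 ≤ B ∧ ∀ h : ℕ → ℝ ≃o ℝ, IsSys l m C h → ∀ z ∈ K l, ∀ z' ∈ K m,
    Cpt l m C1 C2 h z z' → ‖z'‖ ≤ B * h 0 (B * ‖z‖ + B) + B) ∧
  (∃ A : ℝ, 1 ≤ A ∧ ∀ h : ℕ → ℝ ≃o ℝ, IsSys l m C h →
    ∀ u ∈ K l, ∀ u' ∈ K m, Cpt l m C1 C2 h u u' → 0 < ‖u'‖ → ‖u'‖ ≤ Real.exp (-A) →
    ∃ J, (∀ k ≤ J, D m k * ‖u'‖ ≤ eta m) ∧ eta m < D m (J+1) * ‖u'‖ ∧
      (h 0 (‖u‖/6) ≤ A*‖u'‖ ∨ D l (J+1) * ‖u‖ ≤ A) ∧
      (0 < ((EC m)^[J+2] u').re → (h 0 (‖u‖/6) ≤ A*‖u'‖ ∨ D l (J+2) * ‖u‖ ≤ A)))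

theorem exists_good_consts (hl : Ok l) (hm : Ok m) (hC : 1 ≤ C) :
    ∃ C1 C2 : ℝ, Good l m C C1 C2 ∧ Good m l C C1 C2 := by
  obtain ⟨a1, -, ha1⟩ := backward_half hl hm hC
  obtain ⟨a2, -, ha2⟩ := backward_half hm hl hC
  obtain ⟨b1, hb1, hb1'⟩ := MB hl hm hC
  obtain ⟨b2, hb2, hb2'⟩ := MB hm hl hC
  set C1 := max (max a1 a2) 0 with hC1
  have hC10 : 0 ≤ C1 := le_max_right _ _
  obtain ⟨A1, hA1, hA1'⟩ := ha1 C1 ((le_max_left _ _).trans (le_max_left _ _))
  obtain ⟨A2, hA2, hA2'⟩ := ha2 C1 ((le_max_right _ _).trans (le_max_left _ _))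
  obtain ⟨A3, hA3, hA3'⟩ := hb1' C1 hC10
  obtain ⟨A4, hA4, hA4'⟩ := hb2' C1 hC10
  obtain ⟨A5, hA5, hA5'⟩ := G1 hl hm hC C1
  obtain ⟨A6, hA6, hA6'⟩ := G1 hm hl hC C1
  set C2 := C1 + A1 + A2 + A3 + A4 + A5 + A6 with hC2
  refine ⟨C1, C2, ?_, ?_⟩
  · refine ⟨hC10, by linarith, by linarith, hA1' C2 (by linarith), ?_, ?_⟩
    · refine ⟨b1 + A3 * C2^2, ?_, ?_⟩
      · have : 0 ≤ A3 * C2^2 := by positivity
        linarith
      · intro h H z hz z' hz' hcpt
        refine (hA3' C2 (by linarith) h H z hz z' hz' hcpt).trans ?_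
        have n1 : 0 ≤ A3 * C2^2 := by positivity
        have n2 := norm_nonneg z
        have n3 : b1 * ‖z‖ + b1 ≤ (b1 + A3 * C2^2) * ‖z‖ + (b1 + A3 * C2^2) := by
          have := mul_nonneg n1 n2
          linarith
        have n4 := (h 0).monotone n3
        have n5 : 0 ≤ h 0 (b1 * ‖z‖ + b1) := H.nonneg 0 (by positivity)
        have n6 : b1 * h 0 (b1 * ‖z‖ + b1) ≤ (b1 + A3 * C2^2) *
            h 0 ((b1 + A3 * C2^2) * ‖z‖ + (b1 + A3 * C2^2)) :=
          mul_le_mul (by linarith) n4 n5 (by linarith)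
        linarith
    · refine ⟨A5 * C2, by nlinarith, ?_⟩
      intro h H u hu u' hu' hcpt h0 hsm
      obtain ⟨J, -, j1, j2, j3, j4⟩ := hA5' C2 (by linarith) h H u hu u' hu' hcpt h0 hsm
      exact ⟨J, j1, j2, j3, j4⟩
  · refine ⟨hC10, by linarith, by linarith, hA2' C2 (by linarith), ?_, ?_⟩
    · refine ⟨b2 + A4 * C2^2, ?_, ?_⟩
      · have : 0 ≤ A4 * C2^2 := by positivity
        linarith
      · intro h H z hz z' hz' hcpt
        refine (hA4' C2 (by linarith) h H z hz z' hz' hcpt).trans ?_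
        have n1 : 0 ≤ A4 * C2^2 := by positivity
        have n2 := norm_nonneg z
        have n3 : b2 * ‖z‖ + b2 ≤ (b2 + A4 * C2^2) * ‖z‖ + (b2 + A4 * C2^2) := by
          have := mul_nonneg n1 n2
          linarith
        have n4 := (h 0).monotone n3
        have n5 : 0 ≤ h 0 (b2 * ‖z‖ + b2) := H.nonneg 0 (by positivity)
        have n6 : b2 * h 0 (b2 * ‖z‖ + b2) ≤ (b2 + A4 * C2^2) *
            h 0 ((b2 + A4 * C2^2) * ‖z‖ + (b2 + A4 * C2^2)) :=
          mul_le_mul (by linarith) n4 n5 (by linarith)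
        linarith
    · refine ⟨A6 * C2, by nlinarith, ?_⟩
      intro h H u hu u' hu' hcpt h0 hsm
      obtain ⟨J, -, j1, j2, j3, j4⟩ := hA6' C2 (by linarith) h H u hu u' hu' hcpt h0 hsm
      exact ⟨J, j1, j2, j3, j4⟩

end Pool.Agent.H64.KExp
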