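import Pool.Agent.H64.KExpExist

/-!
Existence of compatible partners for all points.
-/

set_option autoImplicit false

namespace Pool.Agent.H64.KExp

open Filter Topology

variable {l m C C1 C2 : ℝ} {h : ℕ → ℝ ≃o ℝ}

theorem backward (G : Good l m C C1 C2) (G' : Good m l C C1 C2) (H : IsSys l m C h)
    {z z' : ℂ} (hz : z ∈ K l) (hz' : z' ∈ K m)
    (hc : Cpt l m C1 C2 (fun n => h (n+1)) (EC l z) (EC m z')) : Cpt l m C1 C2 h z z' := by
  intro j
  cases j with
  | zero =>
    refine ⟨G.2.2.2.1 h H z hz z' hz' hc, ?_⟩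
    have := G'.2.2.2.1 _ H.swap z' hz' z hz hc.swap
    exact this
  | succ j =>
    have := hc j
    rw [← itC_succ', ← itC_succ'] at this
    exact this

theorem cpt_real (G : Good l m C C1 C2) (H : IsSys l m C h) (x : ℝ) :
    Cpt l m C1 C2 h (x : ℂ) ((h 0 x : ℝ) : ℂ) := by
  intro j
  rw [EC_it_ofReal, EC_it_ofReal, Complex.ofReal_re, Complex.ofReal_re, ← H.conj_it]
  have h1 := G.1
  have h2 := G.2.2.1
  constructor
  · have : h j ((E l)^[j] x) ≤ h j (max ((E l)^[j] x + C1) 0) :=
      (h j).monotone ((by linarith : (E l)^[j] x ≤ (E l)^[j] x + C1).trans (le_max_left _ _))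
    linarith
  · have : (E l)^[j] x ≤ (h j).symm (max (h j ((E l)^[j] x) + C1) 0) := by
      rw [← (h j).le_iff_le, OrderIso.apply_symm_apply]
      exact (by linarith : h j ((E l)^[j] x) ≤ h j ((E l)^[j] x) + C1).trans (le_max_left _ _)
    linarith

theorem exist_real (G : Good l m C C1 C2) (G' : Good m l C C1 C2) (N : ℕ) :
    ∀ h : ℕ → ℝ ≃o ℝ, IsSys l m C h → ∀ z ∈ K l, ((EC l)^[N] z).im = 0 →
    ∃ z' ∈ K m, Cpt l m C1 C2 h z z' ∧ (z.im = 0 → z' = ((h 0 z.re : ℝ) : ℂ)) ∧
      (z.im ≠ 0 → z'.im ≠ 0) := by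
  induction N with
  | zero =>
    intro h H z hz hN
    simp only [Function.iterate_zero, id] at hN
    refine ⟨((h 0 z.re : ℝ) : ℂ), K_ofReal m _, ?_, fun _ => rfl, fun hne => absurd hN hne⟩
    have : z = (z.re : ℂ) := Complex.ext (by simp) (by simp [hN])
    rw [this]
    simpa using cpt_real G H z.re
  | succ N ih =>
    intro h H z hz hN
    by_cases hzim : z.im = 0
    · refine ⟨((h 0 z.re : ℝ) : ℂ), K_ofReal m _, ?_, fun _ => rfl, fun hne => absurd hzim hne⟩
      have : z = (z.re : ℂ) := Complex.ext (by simp) (by simp [hzim])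
      rw [this]
      simpa using cpt_real G H z.re
    · rw [itC_succ'] at hN
      obtain ⟨w', hw', hc, hw1, hw2⟩ := ih _ (H.shift 1) (EC l z) (K_EC hz) hN
      have hm := H.hm
      have hzim0 : 0 < z.im := lt_of_le_of_ne (hz 0).1 (Ne.symm hzim)
      -- w' is not a nonnegative real
      have hw0 : 0 < Complex.arg w' := by
        have hw'im : 0 ≤ w'.im := (hw' 0).1
        rcases (Complex.arg_nonneg_iff.2 hw'im).lt_or_eq with hh | hh
        · exact hh
        · exfalso
          obtain ⟨hre, him⟩ := Complex.arg_eq_zero_iff.1 hh.symm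
          by_cases hE : (EC l z).im = 0
          · have h3 := hw1 hE
            rw [h3, Complex.ofReal_re] at hre
            -- (EC l z).re < 0
            have h4 : (EC l z).re < 0 := by
              rw [EC_im] at hE
              have h5 : Real.sin z.im = 0 := by
                rcases mul_eq_zero.1 hE with h6 | h6
                · exact absurd h6 (E_pos H.hl _).ne'
                · exact h6
              have h6 : z.im = Real.pi := by
                rcases (hz 0).2.lt_or_eq with h7 | h7
                · exact absurd h5 (Real.sin_pos_of_pos_of_lt_pi hzim0 h7).ne'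
                · exact h7
              rw [EC_re, h6, Real.cos_pi]
              linarith [E_pos H.hl z.re]
            have h5 : h (0+1) (EC l z).re < 0 := by
              rw [← H.zero (0+1)]; exact (h (0+1)).strictMono h4
            exact absurd hre (not_le.2 h5)
          · exact hw2 hE him
      have hw00 : w' ≠ 0 := by
        intro h0
        rw [h0, Complex.arg_zero] at hw0
        exact lt_irrefl _ hw0
      have hS : InS (LC m w') := LC_inS hm (hw' 0).1
      have hEC : EC m (LC m w') = w' := EC_LC hm hw00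
      have hK : LC m w' ∈ K m := K_of_EC hS (by rw [hEC]; exact hw')
      refine ⟨LC m w', hK, ?_, fun h0 => absurd h0 hzim, fun _ => ?_⟩
      · apply backward G G' H hz hK
        rw [hEC]; exact hc
      · rw [LC_im hm]; exact hw0.ne'

theorem cpt_of_tendsto {zs zs' : ℕ → ℂ} {z z' : ℂ} (h1 : Tendsto zs atTop (𝓝 z))
    (h2 : Tendsto zs' atTop (𝓝 z')) (hc : ∀ n, Cpt l m C1 C2 h (zs n) (zs' n)) :
    Cpt l m C1 C2 h z z' := by
  intro j
  have c1 : Continuous fun w => ((EC l)^[j] w).re :=
    Complex.continuous_re.comp (itC_continuous l j)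
  have c2 : Continuous fun w => ((EC m)^[j] w).re :=
    Complex.continuous_re.comp (itC_continuous m j)
  constructor
  · have c3 : Continuous fun w => h j (max (((EC l)^[j] w).re + C1) 0) + C2 :=
      ((h j).continuous.comp ((c1.add continuous_const).max continuous_const)).add
        continuous_const
    exact le_of_tendsto_of_tendsto' ((c2.tendsto z').comp h2) ((c3.tendsto z).comp h1)
      (fun n => (hc n j).1)
  · have c3 : Continuous fun w => (h j).symm (max (((EC m)^[j] w).re + C1) 0) + C2 :=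
      ((h j).symm.continuous.comp ((c2.add continuous_const).max continuous_const)).add
        continuous_const
    exact le_of_tendsto_of_tendsto' ((c1.tendsto z).comp h1) ((c3.tendsto z').comp h2)
      (fun n => (hc n j).2)

theorem exist_all (G : Good l m C C1 C2) (G' : Good m l C C1 C2) (H : IsSys l m C h)
    {z : ℂ} (hz : z ∈ K l) : ∃ z' ∈ K m, Cpt l m C1 C2 h z z' := by
  have hb : ∀ n : ℕ, ∃ b ∈ K l, ‖z - b‖ < 1 / ((n:ℝ) + 1) ∧ ∃ N, ((EC l)^[N] b).im = 0 :=
    fun n => dense_real H.hl hz (by positivity)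
  choose b hbK hbz hbN using hb
  have hex : ∀ n, ∃ z' ∈ K m, Cpt l m C1 C2 h (b n) z' := by
    intro n
    obtain ⟨N, hN⟩ := hbN n
    obtain ⟨z', h1, h2, -⟩ := exist_real G G' N h H (b n) (hbK n) hN
    exact ⟨z', h1, h2⟩
  choose b' hb'K hb'c using hex
  have hbt : Tendsto b atTop (𝓝 z) := by
    rw [tendsto_iff_norm_sub_tendsto_zero]
    refine squeeze_zero (fun n => norm_nonneg _) (fun n => ?_)
      (tendsto_one_div_add_atTop_nhds_zero_nat (𝕜 := ℝ))
    rw [norm_sub_rev]; exact (hbz n).le
  obtain ⟨B, hB1, hB⟩ := G.2.2.2.2.1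
  have hbd : ∀ n, ‖b' n‖ ≤ B * h 0 (B * (‖z‖ + 1) + B) + B := by
    intro n
    refine (hB h H (b n) (hbK n) (b' n) (hb'K n) (hb'c n)).trans ?_
    have h1 : ‖b n‖ ≤ ‖z‖ + 1 := by
      have h2 : ‖b n‖ ≤ ‖z‖ + ‖z - b n‖ := by
        have : b n = z - (z - b n) := by ring
        calc ‖b n‖ = ‖z - (z - b n)‖ := by rw [← this]
          _ ≤ _ := norm_sub_le _ _
      have h3 : 1 / ((n:ℝ) + 1) ≤ 1 := by
        rw [div_le_one (by positivity)]
        have : (0:ℝ) ≤ n := Nat.cast_nonneg n
        linarith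
      linarith [hbz n]
    have h2 : B * ‖b n‖ + B ≤ B * (‖z‖ + 1) + B := by
      have := mul_le_mul_of_nonneg_left h1 (by linarith : 0 ≤ B)
      linarith
    have h3 := mul_le_mul_of_nonneg_left ((h 0).monotone h2) (by linarith : 0 ≤ B)
    linarith
  obtain ⟨z', -, φ, hφ, hlim⟩ := tendsto_subseq_of_bounded
    (Metric.isBounded_closedBall (x := (0:ℂ)) (r := B * h 0 (B * (‖z‖ + 1) + B) + B))
    (fun n => by simpa using hbd n : ∀ n, b' n ∈ Metric.closedBall (0:ℂ) _)
  refine ⟨z', ?_, ?_⟩
  · exact (K_isClosed m).mem_of_tendsto hlim (Eventually.of_forall fun n => hb'K _)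
  · exact cpt_of_tendsto (hbt.comp hφ.tendsto_atTop) hlim (fun n => hb'c _)

end Pool.Agent.H64.KExp
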