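import Pool.Agent.H64.KExpConstr

/-!
Nearby parameters, and the conclusion by connectedness.
-/

set_option autoImplicit false

namespace Pool.Agent.H64.KExp

open Filter Topology

theorem propagate {l m : ℝ} (hl : Ok l) (hml : m ≤ 2 * l) {x y : ℝ}
    (h1 : x ≤ 1/2 * y) (h2 : 4 ≤ y) : E m x ≤ 1/2 * E l y ∧ 4 ≤ E l y := by
  constructor
  · unfold E
    have h3 : Real.exp x ≤ Real.exp (1/2 * y) := Real.exp_le_exp.2 h1
    have h4 : Real.exp y = Real.exp (1/2*y) * Real.exp (1/2*y) := by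
      rw [← Real.exp_add]; congr 1; ring
    have h5 : 4 ≤ Real.exp (1/2*y) := by
      have := Real.quadratic_le_exp_of_nonneg (show 0 ≤ 1/2*y by linarith)
      nlinarith
    have h6 := Real.exp_pos (1/2*y)
    have h7 : m * Real.exp x ≤ (2*l) * Real.exp (1/2*y) := by
      calc m * Real.exp x ≤ (2*l) * Real.exp x :=
            mul_le_mul_of_nonneg_right hml (Real.exp_pos _).le
        _ ≤ _ := mul_le_mul_of_nonneg_left h3 (by linarith [hl.1])
    rw [h4]
    have h8 : l * Real.exp (1/2*y) * 4 ≤ l * Real.exp (1/2*y) * Real.exp (1/2*y) :=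
      mul_le_mul_of_nonneg_left h5 (mul_pos hl.1 h6).le
    linarith
  · exact h2.trans (lt_E hl y).le

theorem domin {l m : ℝ} (hl : Ok l) (hml : m ≤ 2 * l) {x0 y0 : ℝ} (hy0 : 0 < y0)
    {j1 : ℕ} (h1 : (E m)^[j1] x0 ≤ 1/2 * (E l)^[j1] y0) (h2 : 4 ≤ (E l)^[j1] y0) :
    ∃ c : ℝ, 0 ≤ c ∧ ∀ c', c ≤ c' → ∀ j, (E m)^[j] x0 ≤ c' * (E l)^[j] y0 := by
  have hpos : ∀ j, 0 < (E l)^[j] y0 := by
    intro j
    cases j with
    | zero => exact hy0
    | succ j => exact it_pos hl j _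
  have hprop : ∀ k, (E m)^[j1+k] x0 ≤ 1/2 * (E l)^[j1+k] y0 ∧ 4 ≤ (E l)^[j1+k] y0 := by
    intro k
    induction k with
    | zero => exact ⟨h1, h2⟩
    | succ k ih =>
      rw [← add_assoc, it_succ, it_succ]
      exact propagate hl hml ih.1 ih.2
  obtain ⟨M, hM⟩ := ((Finset.range (j1+1)).image
    (fun j => (E m)^[j] x0 / (E l)^[j] y0)).exists_le
  have hM' : ∀ j ≤ j1, (E m)^[j] x0 / (E l)^[j] y0 ≤ M := fun j hj =>
    hM _ (Finset.mem_image_of_mem _ (Finset.mem_range.2 (by omega)))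
  refine ⟨max M 1, le_trans zero_le_one (le_max_right _ _), ?_⟩
  intro c' hc' j
  by_cases hj : j ≤ j1
  · have h3 := hM' j hj
    rw [div_le_iff₀ (hpos j)] at h3
    exact h3.trans (mul_le_mul_of_nonneg_right ((le_max_left _ _).trans hc') (hpos j).le)
  · obtain ⟨k, rfl⟩ := Nat.exists_eq_add_of_lt (not_le.1 hj)
    have h3 := (hprop (k+1)).1
    rw [← add_assoc] at h3
    refine h3.trans (mul_le_mul_of_nonneg_right ?_ (hpos _).le)
    have := (le_max_right M 1).trans hc'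
    linarith

theorem E_jointly (f : ℝ → ℝ) (hf : Continuous f) (j : ℕ) :
    Continuous fun m => (E m)^[j] (f m) := by
  induction j with
  | zero => exact hf
  | succ j ih =>
    have : (fun m => (E m)^[j+1] (f m)) = fun m => m * Real.exp ((E m)^[j] (f m)) := by
      funext m; rw [it_succ]; rfl
    rw [this]
    exact continuous_id.mul (Real.continuous_exp.comp ih)

theorem eventually_ratio {l : ℝ} (hl : Ok l) {x y : ℝ} (h : x < y) :
    ∀ᶠ j in atTop, (E l)^[j] x < 1/2 * (E l)^[j] y := by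
  have h1 := (it_diff_tendsto hl h).eventually_ge_atTop 2
  obtain ⟨N, hN⟩ := h1.exists_forall_of_atTop
  filter_upwards [eventually_ge_atTop (N+1)] with j hj
  obtain ⟨k, rfl⟩ : ∃ k, j = k + 1 := ⟨j - 1, by omega⟩
  have h2 := hN k (by omega)
  rw [it_succ, it_succ]
  have h3 := E_add l ((E l)^[k] x) ((E l)^[k] y - (E l)^[k] x)
  rw [add_sub_cancel] at h3
  rw [h3]
  have h4 := Real.add_one_le_exp ((E l)^[k] y - (E l)^[k] x)
  have h5 := E_pos hl ((E l)^[k] x)
  nlinarith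

theorem near_dom {l : ℝ} (hl : Ok l) : ∀ᶠ m in 𝓝 l, Ok m ∧ ∃ c, 0 ≤ c ∧ Dom l m c ∧ Dom m l c := by
  have hlt : ∀ {l : ℝ}, Ok l → E l (-l) < l := by
    intro l hl
    unfold E
    have : Real.exp (-l) < 1 := by rw [Real.exp_lt_one_iff]; linarith [hl.1]
    nlinarith [hl.1]
  have hlt2 : ∀ {l : ℝ}, Ok l → l < E l (E l (-l)) := by
    intro l hl
    have h1 : E l 0 < E l (E l (-l)) := E_strictMono hl (E_pos hl _)
    simpa [E] using h1
  have e1 := eventually_ratio hl (hlt hl)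
  have e2 := eventually_ratio hl (hlt2 hl)
  have e3 := (it_tendsto hl l).eventually_gt_atTop 4
  have e4 := (it_tendsto hl (E l (E l (-l)))).eventually_gt_atTop 4
  obtain ⟨j, j1, j2, j3, j4⟩ := (e1.and (e2.and (e3.and e4))).exists
  -- continuity in m
  have c1 : Continuous fun m => (E m)^[j] (E m (-m)) :=
    E_jointly (fun m => E m (-m)) (by unfold E; fun_prop) j
  have c2 : Continuous fun m => (E m)^[j] m := E_jointly (fun m => m) continuous_id j
  have c3 : Continuous fun m => (E m)^[j] (E m (E m (-m))) :=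
    E_jointly (fun m => E m (E m (-m))) (by unfold E; fun_prop) j
  have n1 : ∀ᶠ m in 𝓝 l, (E m)^[j] (E m (-m)) < 1/2 * (E l)^[j] l :=
    (c1.tendsto l).eventually_lt_const j1
  have n2 : ∀ᶠ m in 𝓝 l, (E m)^[j] m < 1/2 * (E l)^[j] (E l (E l (-l))) :=
    (c2.tendsto l).eventually_lt_const j2
  have n3 : ∀ᶠ m in 𝓝 l, (E l)^[j] (E l (-l)) < 1/2 * (E m)^[j] m :=
    ((continuous_const.mul c2).tendsto l).eventually_const_lt j1
  have n4 : ∀ᶠ m in 𝓝 l, (E l)^[j] l < 1/2 * (E m)^[j] (E m (E m (-m))) :=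
    ((continuous_const.mul c3).tendsto l).eventually_const_lt j2
  have n5 : ∀ᶠ m in 𝓝 l, 4 < (E m)^[j] m := (c2.tendsto l).eventually_const_lt j3
  have n6 : ∀ᶠ m in 𝓝 l, 4 < (E m)^[j] (E m (E m (-m))) :=
    (c3.tendsto l).eventually_const_lt j4
  have n7 : ∀ᶠ m in 𝓝 l, m < 2 * l := eventually_lt_nhds (by linarith [hl.1])
  have n8 : ∀ᶠ m in 𝓝 l, l / 2 < m := eventually_gt_nhds (by linarith [hl.1])
  have n9 : ∀ᶠ m in 𝓝 l, 0 < 1 + Real.log m := by
    have : Tendsto (fun m => 1 + Real.log m) (𝓝 l) (𝓝 (1 + Real.log l)) :=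
      tendsto_const_nhds.add (Real.continuousAt_log hl.1.ne').tendsto
    exact this.eventually_const_lt hl.2
  filter_upwards [n1, n2, n3, n4, n5, n6, n7, n8, n9] with m m1 m2 m3 m4 m5 m6 m7 m8 m9
  have hm : Ok m := ⟨by linarith [hl.1], m9⟩
  refine ⟨hm, ?_⟩
  have hml : m ≤ 2 * l := m7.le
  have hlm : l ≤ 2 * m := by linarith
  obtain ⟨a1, ha1, b1⟩ := domin hl hml hl.1 m1.le j3.le
  obtain ⟨a2, ha2, b2⟩ := domin hl hml (E_pos hl _) m2.le j4.le
  obtain ⟨a3, ha3, b3⟩ := domin hm hlm hm.1 m3.le m5.le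
  obtain ⟨a4, ha4, b4⟩ := domin hm hlm (E_pos hm _) m4.le m6.le
  have hen : ∀ (l : ℝ) (i : ℕ), en l (i+1) = (E l)^[i] l := by
    intro l i
    unfold en; rw [it_succ']; congr 1; simp [E]
  refine ⟨a1 + a2 + a3 + a4, by positivity, ⟨?_, ?_⟩, ⟨?_, ?_⟩⟩
  · intro i; rw [hen]; exact b1 _ (by linarith) i
  · intro i; rw [hen, it_succ']; exact b2 _ (by linarith) i
  · intro i; rw [hen]; exact b3 _ (by linarith) i
  · intro i; rw [hen, it_succ']; exact b4 _ (by linarith) i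

theorem near_homeo {l : ℝ} (hl : Ok l) : ∀ᶠ m in 𝓝 l, Nonempty (K l ≃ₜ K m) := by
  filter_upwards [near_dom hl] with m hm
  obtain ⟨hm, c, hc, d1, d2⟩ := hm
  obtain ⟨C, hC, h, H⟩ := exists_sys_of_dom hl hm hc d1 d2
  exact homeo_of_sys hl hm hC H

theorem homeo {l m : ℝ} (hl : 1 / Real.exp 1 < l) (hm : 1 / Real.exp 1 < m) :
    Nonempty (K l ≃ₜ K m) := by
  have hpre : IsPreconnected (Set.Ioi (1 / Real.exp 1)) := isPreconnected_Ioi
  apply hpre.induction₂' (fun a b => Nonempty (K a ≃ₜ K b)) _ _ hl hm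
  · intro a ha
    have := near_homeo (ok_of_lt ha)
    apply eventually_nhdsWithin_of_eventually_nhds
    filter_upwards [this] with b hb
    exact ⟨hb, ⟨hb.some.symm⟩⟩
  · intro a b c _ _ _ hab hbc
    exact ⟨hab.some.trans hbc.some⟩

end Pool.Agent.H64.KExp
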