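import Pool.Agent.H64.KExpRatio

/-!
Uniqueness of partners and the homeomorphism between K l and K m.
-/

set_option autoImplicit false

namespace Pool.Agent.H64.KExp

open Filter Topology

variable {l m C C1 C2 : ℝ} {h : ℕ → ℝ ≃o ℝ}

theorem Q_prev (hm : Ok m) {w' w'' : ℂ} (h1 : w' ∈ K m) (h2 : w'' ∈ K m)
    (hr1 : (EC m w').re ≤ -1) (hr2 : (EC m w'').re ≤ -1) {c : ℝ} (hc : 0 < c)
    (hc1 : -(EC m w').re ≤ c * (-(EC m w'').re)) (hc2 : -(EC m w'').re ≤ c * (-(EC m w').re)) :
    Q w' w'' ≤ ((Real.log (5*c))^2 + Real.pi^2) / (Real.pi/2)^2 := by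
  have hπ := Real.pi_pos
  have hπ4 := Real.pi_le_four
  have key : ∀ a b : ℂ, a ∈ K m → b ∈ K m → (EC m a).re ≤ -1 → (EC m b).re ≤ -1 →
      -(EC m a).re ≤ c * (-(EC m b).re) → a.re ≤ b.re + Real.log (5*c) := by
    intro a b ha hb ha1 hb1 hab
    have e1 := norm_le_of_inS (K_inS0 (K_EC ha))
    rw [abs_of_neg (by linarith)] at e1
    have e2 : -(EC m b).re ≤ ‖EC m b‖ := (neg_le_abs _).trans (Complex.abs_re_le_norm _)
    have e3 : ‖EC m a‖ ≤ 5 * c * ‖EC m b‖ := by
      have : c * (-(EC m b).re) ≤ c * ‖EC m b‖ := mul_le_mul_of_nonneg_left e2 hc.le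
      linarith
    rw [norm_EC hm, norm_EC hm, ← E_shift_log m (by positivity : (0:ℝ) < 5 * c),
      (E_strictMono hm).le_iff_le] at e3
    exact e3
  have imk : ∀ a : ℂ, a ∈ K m → (EC m a).re ≤ -1 → Real.pi/2 ≤ a.im := by
    intro a ha ha1
    by_contra hcon
    push Not at hcon
    have h0 := (ha 0).1
    simp only [Function.iterate_zero, id] at h0
    have : 0 < Real.cos a.im := Real.cos_pos_of_mem_Ioo ⟨by linarith, hcon⟩
    rw [EC_re] at ha1
    have := mul_pos (E_pos hm a.re) this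
    linarith
  have k1 := key w' w'' h1 h2 hr1 hr2 hc1
  have k2 := key w'' w' h2 h1 hr2 hr1 hc2
  have i1 := imk w' h1 hr1
  have i2 := imk w'' h2 hr2
  have j1 := (h1 0).2
  have j2 := (h2 0).2
  simp only [Function.iterate_zero, id] at j1 j2
  unfold Q
  rw [norm_sub_sq]
  apply div_le_div₀ (by positivity)
  · apply add_le_add
    · rw [← sq_abs (w'.re - w''.re), ← sq_abs (Real.log (5*c))]
      apply pow_le_pow_left₀ (abs_nonneg _)
      have := le_abs_self (Real.log (5*c))
      rw [abs_le]; constructor <;> linarith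
    · rw [← sq_abs (w'.im - w''.im)]
      apply pow_le_pow_left₀ (abs_nonneg _)
      rw [abs_le]; constructor <;> linarith
  · positivity
  · rw [sq]; exact mul_le_mul i1 i2 (by positivity) (by linarith)

theorem bdd_of_not_left (hl : Ok l) {z : ℂ} (hz : z ∈ K l)
    (hn : ∀ n, ((EC l)^[n] z).im ≠ 0) {R : ℝ} {N : ℕ}
    (hR : ∀ n, N ≤ n → -R < ((EC l)^[n] z).re) :
    ∃ R3, ∀ n, N ≤ n → |((EC l)^[n] z).re| ≤ R3 := by
  obtain ⟨R0, hR00, hR0⟩ := exists_R_real hl
  have hev : ∀ᶠ x : ℝ in atTop, x + Real.pi + |R| ≤ E l x := by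
    have h1 : Tendsto (fun x : ℝ => Real.exp x / x) atTop atTop := by
      simpa using Real.tendsto_exp_div_pow_atTop 1
    filter_upwards [h1.eventually_ge_atTop ((1 + Real.pi + |R|)/l), eventually_ge_atTop 1]
      with x hx hx1
    have hx0 : 0 < x := by linarith
    rw [div_le_div_iff₀ hl.1 hx0] at hx
    unfold E
    have h3 : 0 ≤ Real.pi + |R| := by have := Real.pi_pos; positivity
    have h4 := le_mul_of_one_le_right h3 hx1
    linarith
  obtain ⟨X0, hX0⟩ := hev.exists_forall_of_atTop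
  set X := max (max X0 R0) (|R|+1) with hX
  refine ⟨X, ?_⟩
  intro n hnN
  rw [abs_le]
  have hRa := le_abs_self R
  have hXR : |R| + 1 ≤ X := le_max_right _ _
  constructor
  · have := hR n hnN; linarith
  · by_contra hcon
    push Not at hcon
    apply hn n
    apply hR0 _ (K_it hz n)
    have hstep : ∀ k, X ≤ ((EC l)^[k+n] z).re := by
      intro k
      induction k with
      | zero => rw [zero_add]; exact hcon.le
      | succ k ih =>
        have e : k + 1 + n = (k + n) + 1 := by ring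
        rw [e, itC_succ]
        have h1 := norm_le_of_inS (hz (k+n+1))
        rw [itC_succ, norm_EC hl] at h1
        have h2 := hX0 _ (((le_max_left _ _).trans (le_max_left _ _)).trans ih)
        have h3 := hR (k+n+1) (by omega)
        rw [itC_succ] at h3
        by_cases h4 : 0 ≤ (EC l ((EC l)^[k+n] z)).re
        · rw [abs_of_nonneg h4] at h1
          have := abs_nonneg R
          linarith
        · push Not at h4
          rw [abs_of_neg h4] at h1
          have : 1 ≤ X := by have := abs_nonneg R; linarith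
          linarith
    intro k
    rw [← itC_add]
    exact ((le_max_right _ _).trans (le_max_left _ _)).trans (hstep k)

theorem unique (G : Good l m C C1 C2) (G' : Good m l C C1 C2) (H : IsSys l m C h)
    {z z' z'' : ℂ} (hz : z ∈ K l) (hz' : z' ∈ K m) (hz'' : z'' ∈ K m)
    (hc' : Cpt l m C1 C2 h z z') (hc'' : Cpt l m C1 C2 h z z'') : z' = z'' := by
  by_cases hreal : ∃ N, ((EC l)^[N] z).im = 0
  · obtain ⟨N, hN⟩ := hreal
    exact unique_of_real H hz' hz'' hc' hc'' hN
  push Not at hreal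
  have hn' : ∀ n, ((EC m)^[n] z').im ≠ 0 := by
    intro n hn
    obtain ⟨N, hN⟩ := eventually_real' H.swap hz hc'.swap hn
    exact hreal N hN
  have hn'' : ∀ n, ((EC m)^[n] z'').im ≠ 0 := by
    intro n hn
    obtain ⟨N, hN⟩ := eventually_real' H.swap hz hc''.swap hn
    exact hreal N hN
  obtain ⟨R, c, hc0, hratio⟩ := ratio H.hl H.hm H.hC G G'
  by_cases hleft : ∀ N, ∃ n, N ≤ n ∧ ((EC l)^[n] z).re ≤ -R
  · apply eq_of_freq_Q H.hm hz' hz'' hn' hn''
      (C := ((Real.log (5*c))^2 + Real.pi^2) / (Real.pi/2)^2)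
    intro N
    obtain ⟨n, hn, hre⟩ := hleft (N+1)
    obtain ⟨k, rfl⟩ : ∃ k, n = k + 1 := ⟨n - 1, by omega⟩
    refine ⟨k, by omega, ?_⟩
    obtain ⟨r1, r2, r3⟩ := hratio _ (H.shift (k+1)) _ (K_it hz (k+1)) _ (K_it hz' (k+1)) _
      (K_it hz'' (k+1)) (hc'.shift _) (hc''.shift _) hre
    obtain ⟨-, -, r4⟩ := hratio _ (H.shift (k+1)) _ (K_it hz (k+1)) _ (K_it hz'' (k+1)) _
      (K_it hz' (k+1)) (hc''.shift _) (hc'.shift _) hre
    rw [itC_succ] at r1 r2 r3 r4
    rw [itC_succ] at r3 r4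
    exact Q_prev H.hm (K_it hz' k) (K_it hz'' k) r1 r2 hc0 r3 r4
  · push Not at hleft
    obtain ⟨N, hN⟩ := hleft
    obtain ⟨R3, hR3⟩ := bdd_of_not_left H.hl hz hreal hN
    obtain ⟨B, hB1, hB⟩ := G.2.2.2.2.1
    have hR30 : 0 ≤ R3 := (abs_nonneg _).trans (hR3 N le_rfl)
    set R4 := B * (C * Real.exp (B * (R3 + Real.pi) + B)) + B with hR4
    have hπ := Real.pi_pos
    have hbd : ∀ w ∈ K m, Cpt l m C1 C2 h z w → ∀ n, N ≤ n → ‖(EC m)^[n] w‖ ≤ R4 := by
      intro w hw hcw n hn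
      refine (hB _ (H.shift n) _ (K_it hz n) _ (K_it hw n) (hcw.shift n)).trans ?_
      have h1 : ‖(EC l)^[n] z‖ ≤ R3 + Real.pi := by
        have := norm_le_of_inS (hz n)
        have := hR3 n hn
        linarith
      have h2 : B * ‖(EC l)^[n] z‖ + B ≤ B * (R3 + Real.pi) + B := by
        have := mul_le_mul_of_nonneg_left h1 (by linarith : 0 ≤ B)
        linarith
      have h3 : h (0+n) (B * ‖(EC l)^[n] z‖ + B) ≤ C * Real.exp (B * (R3 + Real.pi) + B) :=
        ((h (0+n)).monotone h2).trans (H.grow _ _ (by positivity))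
      have h4 := mul_le_mul_of_nonneg_left h3 (by linarith : 0 ≤ B)
      linarith
    obtain ⟨η, hη0, hη⟩ := im_lower_of_bdd H.hm R4
    have him : ∀ w ∈ K m, Cpt l m C1 C2 h z w → (∀ n, ((EC m)^[n] w).im ≠ 0) →
        ∀ n, N ≤ n → η ≤ ((EC m)^[n] w).im := by
      intro w hw hcw hwn n hn
      apply hη _ (K_it hw n)
      · intro k; rw [← itC_add]; exact hwn _
      · intro k; rw [← itC_add]
        exact (Complex.abs_re_le_norm _).trans (hbd w hw hcw _ (by omega))
    apply eq_of_freq_Q H.hm hz' hz'' hn' hn'' (C := (2*R4)^2 / (η*η))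
    intro M
    refine ⟨max N M, le_max_right _ _, ?_⟩
    have a1 := hbd z' hz' hc' (max N M) (le_max_left _ _)
    have a2 := hbd z'' hz'' hc'' (max N M) (le_max_left _ _)
    have a3 := him z' hz' hc' hn' (max N M) (le_max_left _ _)
    have a4 := him z'' hz'' hc'' hn'' (max N M) (le_max_left _ _)
    unfold Q
    apply div_le_div₀ (by positivity)
    · apply pow_le_pow_left₀ (norm_nonneg _)
      refine (norm_sub_le _ _).trans (by linarith)
    · positivity
    · exact mul_le_mul a3 a4 hη0.le (by linarith)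

theorem continuous_of_cpt (G : Good l m C C1 C2) (H : IsSys l m C h)
    (f : K l → K m) (hf : ∀ z : K l, Cpt l m C1 C2 h z (f z))
    (hu : ∀ z : K l, ∀ w ∈ K m, Cpt l m C1 C2 h z w → w = f z) : Continuous f := by
  rw [continuous_iff_seqContinuous]
  intro x p hx
  -- every subsequence has a further subsequence converging to f p
  rw [tendsto_subtype_rng]
  apply tendsto_of_subseq_tendsto
  intro ns hns
  have hxp : Tendsto (fun n => ((x (ns n) : K l) : ℂ)) atTop (𝓝 (p : ℂ)) :=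
    (continuous_subtype_val.tendsto p).comp (hx.comp hns)
  obtain ⟨B, hB1, hB⟩ := G.2.2.2.2.1
  have hbz : ∃ R, ∀ n, ‖((x (ns n) : K l) : ℂ)‖ ≤ R := by
    obtain ⟨R, hR⟩ := (Metric.isBounded_range_of_tendsto _ hxp).exists_norm_le
    exact ⟨R, fun n => hR _ ⟨n, rfl⟩⟩
  obtain ⟨R, hR⟩ := hbz
  have hbd : ∀ n, ‖((f (x (ns n)) : K m) : ℂ)‖ ≤ B * h 0 (B * R + B) + B := by
    intro n
    refine (hB h H _ (x (ns n)).2 _ (f (x (ns n))).2 (hf _)).trans ?_
    have h2 : B * ‖((x (ns n) : K l) : ℂ)‖ + B ≤ B * R + B := by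
      have := mul_le_mul_of_nonneg_left (hR n) (by linarith : 0 ≤ B)
      linarith
    have h3 := mul_le_mul_of_nonneg_left ((h 0).monotone h2) (by linarith : 0 ≤ B)
    linarith
  obtain ⟨w, -, φ, hφ, hlim⟩ := tendsto_subseq_of_bounded
    (Metric.isBounded_closedBall (x := (0:ℂ)) (r := B * h 0 (B * R + B) + B))
    (fun n => by simpa using hbd n : ∀ n, ((f (x (ns n)) : K m) : ℂ) ∈ Metric.closedBall (0:ℂ) _)
  refine ⟨φ, ?_⟩
  have hw : w ∈ K m :=
    (K_isClosed m).mem_of_tendsto hlim (Eventually.of_forall fun n => (f _).2)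
  have hcw : Cpt l m C1 C2 h p w :=
    cpt_of_tendsto (hxp.comp hφ.tendsto_atTop) hlim (fun n => hf _)
  have := hu p w hw hcw
  rw [← this]
  exact hlim

theorem homeo_of_sys (hl : Ok l) (hm : Ok m) (hC : 1 ≤ C) (H : IsSys l m C h) :
    Nonempty (K l ≃ₜ K m) := by
  obtain ⟨C1, C2, G, G'⟩ := exists_good_consts hl hm hC
  have hex : ∀ z : K l, ∃ w : K m, Cpt l m C1 C2 h z w := by
    intro z
    obtain ⟨w, hw, hc⟩ := exist_all G G' H z.2
    exact ⟨⟨w, hw⟩, hc⟩
  have hex' : ∀ w : K m, ∃ z : K l, Cpt m l C1 C2 (fun n => (h n).symm) w z := by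
    intro w
    obtain ⟨z, hz, hc⟩ := exist_all G' G H.swap w.2
    exact ⟨⟨z, hz⟩, hc⟩
  choose f hf using hex
  choose g hg using hex'
  have hfu : ∀ z : K l, ∀ w ∈ K m, Cpt l m C1 C2 h z w → w = f z :=
    fun z w hw hc => unique G G' H z.2 hw (f z).2 hc (hf z)
  have hgu : ∀ w : K m, ∀ z ∈ K l, Cpt m l C1 C2 (fun n => (h n).symm) w z → z = g w :=
    fun w z hz hc => unique G' G H.swap w.2 hz (g w).2 hc (hg w)
  refine ⟨{ toFun := f, invFun := g, left_inv := ?_, right_inv := ?_,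
            continuous_toFun := continuous_of_cpt G H f hf hfu,
            continuous_invFun := continuous_of_cpt G' H.swap g hg hgu }⟩
  · intro z
    apply Subtype.ext
    exact (hgu (f z) z z.2 (hf z).swap).symm
  · intro w
    apply Subtype.ext
    have := (hg w).swap
    simp only [OrderIso.symm_symm] at this
    exact (hfu (g w) w w.2 this).symm

end Pool.Agent.H64.KExp
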