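import Pool.Agent.H64.KExpComplex

/-!
Hyperbolic contraction, good times, density of eventually real points.
-/

set_option autoImplicit false

namespace Pool.Agent.H64.KExp

open Filter Topology

variable {l : ℝ}

theorem mul_sin_le_mul_sin {b a : ℝ} (hb : 0 ≤ b) (hba : b ≤ a) (ha : a ≤ Real.pi) :
    b * Real.sin a ≤ a * Real.sin b := by
  rcases hb.lt_or_eq with hb0 | hb0
  · have ha0 : 0 < a := lt_of_lt_of_le hb0 hba
    have m0 : (0:ℝ) ∈ Set.Icc 0 Real.pi := ⟨le_rfl, Real.pi_pos.le⟩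
    have ma : a ∈ Set.Icc 0 Real.pi := ⟨ha0.le, ha⟩
    have hd1 : 0 ≤ 1 - b / a := by rw [sub_nonneg, div_le_one ha0]; exact hba
    have hd2 : 0 ≤ b / a := by positivity
    have h := strictConcaveOn_sin_Icc.concaveOn.2 m0 ma hd1 hd2 (by ring)
    simp only [smul_eq_mul, mul_zero, Real.sin_zero, zero_add] at h
    rw [div_mul_cancel₀ _ ha0.ne'] at h
    have h2 := mul_le_mul_of_nonneg_left h ha0.le
    calc b * Real.sin a = a * (b / a * Real.sin a) := by field_simp
      _ ≤ a * Real.sin b := h2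
  · rw [← hb0]; simp

theorem sin_ineq {b a δ : ℝ} (hb : 0 ≤ b) (hδ : 0 ≤ δ) (hba : b + δ ≤ a) (ha : a ≤ Real.pi) :
    b * Real.sin a ≤ Real.cos (δ/2) * (a * Real.sin b) ∧ Real.sin a ≤ Real.cos (δ/2) * a := by
  have ha0 : 0 ≤ a := by linarith
  have e1 : Real.sin a = 2 * Real.sin (a/2) * Real.cos (a/2) := by
    have := Real.sin_two_mul (a/2)
    rwa [mul_div_cancel₀ _ (two_ne_zero)] at this
  have e2 : Real.sin b = 2 * Real.sin (b/2) * Real.cos (b/2) := by
    have := Real.sin_two_mul (b/2)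
    rwa [mul_div_cancel₀ _ (two_ne_zero)] at this
  have hsb : 0 ≤ Real.sin (b/2) := Real.sin_nonneg_of_nonneg_of_le_pi (by linarith) (by linarith)
  have hsd : 0 ≤ Real.sin (δ/2) := Real.sin_nonneg_of_nonneg_of_le_pi (by linarith) (by linarith)
  have hsa : 0 ≤ Real.sin (a/2) := Real.sin_nonneg_of_nonneg_of_le_pi (by linarith) (by linarith)
  have hca : 0 ≤ Real.cos (a/2) :=
    Real.cos_nonneg_of_neg_pi_div_two_le_of_le (by linarith [Real.pi_pos]) (by linarith)
  have h1 : Real.cos (a/2) ≤ Real.cos (b/2) * Real.cos (δ/2) := by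
    calc Real.cos (a/2) ≤ Real.cos (b/2 + δ/2) :=
          Real.cos_le_cos_of_nonneg_of_le_pi (by linarith) (by linarith [Real.pi_pos]) (by linarith)
      _ = Real.cos (b/2) * Real.cos (δ/2) - Real.sin (b/2) * Real.sin (δ/2) := Real.cos_add _ _
      _ ≤ _ := by nlinarith [mul_nonneg hsb hsd]
  have h2 : Real.cos (a/2) ≤ Real.cos (δ/2) :=
    Real.cos_le_cos_of_nonneg_of_le_pi (by linarith) (by linarith [Real.pi_pos]) (by linarith)
  have h3 := mul_sin_le_mul_sin (b := b/2) (a := a/2) (by linarith) (by linarith)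
    (by linarith [Real.pi_pos])
  constructor
  · rw [e1, e2]
    calc b * (2 * Real.sin (a/2) * Real.cos (a/2))
        = 4 * ((b/2) * Real.sin (a/2)) * Real.cos (a/2) := by ring
      _ ≤ 4 * ((a/2) * Real.sin (b/2)) * (Real.cos (b/2) * Real.cos (δ/2)) := by
          apply mul_le_mul (by linarith) h1 hca
          have : 0 ≤ (a/2) * Real.sin (b/2) := mul_nonneg (by linarith) hsb
          linarith
      _ = Real.cos (δ/2) * (a * (2 * Real.sin (b/2) * Real.cos (b/2))) := by ring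
  · rw [e1]
    have h4 : Real.sin (a/2) ≤ a/2 := Real.sin_le (by linarith)
    calc 2 * Real.sin (a/2) * Real.cos (a/2) ≤ a * Real.cos (δ/2) := by
          apply mul_le_mul (by linarith) h2 hca ha0
      _ = _ := by ring

theorem exp_diff_sq (x x' : ℝ) (hl : Ok l) :
    E l x * E l x' * (x - x')^2 ≤ (E l x - E l x')^2 := by
  set s := (x - x')/2 with hs
  have h1 : s^2 ≤ (Real.sinh s)^2 := by
    rcases le_total 0 s with h | h
    · have := Real.self_le_sinh_iff.2 h
      nlinarith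
    · have h2 := Real.self_le_sinh_iff.2 (neg_nonneg.2 h)
      rw [Real.sinh_neg] at h2
      nlinarith
  have h2 : E l x = E l x' * Real.exp (2*s) := by
    have := E_add l x' (2*s)
    rw [show x' + 2*s = x by rw [hs]; ring] at this
    rw [this]; ring
  have h3 : Real.sinh s = (Real.exp s - Real.exp (-s)) / 2 := Real.sinh_eq s
  have h4 : Real.exp (2*s) = Real.exp s ^ 2 := by rw [two_mul, Real.exp_add]; ring
  have h5 : Real.exp s * Real.exp (-s) = 1 := by rw [← Real.exp_add]; simp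
  have hX := E_pos hl x'
  have hes := Real.exp_pos s
  have h6 : Real.exp s ^2 - 1 = 2 * Real.exp s * Real.sinh s := by
    rw [h3]
    have : 2 * Real.exp s * ((Real.exp s - Real.exp (-s)) / 2) =
      Real.exp s ^2 - Real.exp s * Real.exp (-s) := by ring
    rw [this, h5]
  have h7 : x - x' = 2 * s := by rw [hs]; ring
  rw [h7, h2, h4]
  have e1 : E l x' * Real.exp s ^ 2 * E l x' * (2 * s) ^ 2 =
    (E l x' * Real.exp s * 2)^2 * s^2 := by ring
  have e2 : (E l x' * Real.exp s ^ 2 - E l x') ^ 2 =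
    (E l x' * Real.exp s * 2)^2 * (Real.sinh s)^2 := by
    have : E l x' * Real.exp s ^ 2 - E l x' = E l x' * (Real.exp s ^2 - 1) := by ring
    rw [this, h6]; ring
  rw [e1, e2]
  exact mul_le_mul_of_nonneg_left h1 (sq_nonneg _)

theorem norm_sub_sq (z w : ℂ) : ‖z - w‖^2 = (z.re - w.re)^2 + (z.im - w.im)^2 := by
  rw [← Complex.normSq_eq_norm_sq, Complex.normSq_apply]; simp; ring

theorem ineq_aux {s t a b c : ℝ} (ht : 0 ≤ t) (ha : 0 ≤ a) (hb : 0 ≤ b) (hba : b ≤ a)
    (hc : c ≤ 1) (hb0 : b = 0 → t = 0)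
    (i1 : b * s ≤ c * (a * t)) (i2 : s ≤ c * a) :
    s - t ≤ c * (a - b) ∧ b * (s - t) ≤ c * (t * (a - b)) := by
  have j0 : b * s ≤ a * t := i1.trans (by have := mul_nonneg ha ht; nlinarith)
  constructor
  · by_cases hb00 : b = 0
    · rw [hb00, hb0 hb00]; simpa using i2
    have hbpos : 0 < b := lt_of_le_of_ne hb (Ne.symm hb00)
    have hapos : 0 < a := lt_of_lt_of_le hbpos hba
    have k1 : a * (s - t) ≤ s * (a - b) := by linarith
    have k2 := mul_le_mul_of_nonneg_right i2 (sub_nonneg.2 hba)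
    have k3 : a * (s - t) ≤ a * (c * (a - b)) := by linarith
    exact le_of_mul_le_mul_left k3 hapos
  · have h1 : c * (b * t) ≤ b * t := by
      have := mul_nonneg hb ht
      nlinarith
    linarith

theorem contraction_mul (hl : Ok l) {z w : ℂ} {δ : ℝ} (hδ : 0 ≤ δ) (hz : δ ≤ z.im) (hw : δ ≤ w.im)
    (hz' : z.im ≤ Real.pi) (hw' : w.im ≤ Real.pi) :
    ‖z - w‖^2 * ((EC l z).im * (EC l w).im) ≤
      Real.cos (δ/2)^2 * (‖EC l z - EC l w‖^2 * (z.im * w.im)) := by
  wlog h : w.im ≤ z.im generalizing z w with H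
  · have := H hw hz hw' hz' (le_of_lt (not_le.1 h))
    rw [norm_sub_rev z w, norm_sub_rev (EC l z) (EC l w), mul_comm (EC l z).im, mul_comm z.im]
    exact this
  set a := (z.im + w.im)/2 with ha
  set b := (z.im - w.im)/2 with hb
  set c := Real.cos (δ/2) with hc
  have hb0 : 0 ≤ b := by rw [hb]; linarith
  have haπ : a ≤ Real.pi := by rw [ha]; linarith
  obtain ⟨h1, h2⟩ := sin_ineq hb0 hδ (by rw [ha, hb]; linarith) haπ
  have ha0 : 0 ≤ a := by rw [ha]; linarith
  have hc1 : c^2 ≤ 1 := by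
    have := Real.cos_sq_le_one (δ/2); simpa [hc] using this
  have hc0 : 0 ≤ c := by
    apply Real.cos_nonneg_of_neg_pi_div_two_le_of_le
    · linarith [Real.pi_pos]
    · linarith
  have hsa : 0 ≤ Real.sin a := Real.sin_nonneg_of_nonneg_of_le_pi ha0 haπ
  have hsb : 0 ≤ Real.sin b := Real.sin_nonneg_of_nonneg_of_le_pi hb0 (by rw [hb]; linarith)
  have i1 : b^2 * Real.sin a^2 ≤ c^2 * (a^2 * Real.sin b^2) := by
    have := mul_self_le_mul_self (mul_nonneg hb0 hsa) h1
    nlinarith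
  have i2 : Real.sin a^2 ≤ c^2 * a^2 := by
    have := mul_self_le_mul_self hsa h2
    nlinarith
  have ez : z.im = a + b := by rw [ha, hb]; ring
  have ew : w.im = a - b := by rw [ha, hb]; ring
  have ess : Real.sin z.im * Real.sin w.im = Real.sin a^2 - Real.sin b^2 := by
    rw [ez, ew, Real.sin_add, Real.sin_sub]
    have h3 := Real.sin_sq_add_cos_sq a
    have h4 := Real.sin_sq_add_cos_sq b
    have h5 : Real.cos b^2 = 1 - Real.sin b^2 := by linarith
    have h6 : Real.cos a^2 = 1 - Real.sin a^2 := by linarith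
    calc _ = Real.sin a^2 * Real.cos b^2 - Real.cos a^2 * Real.sin b^2 := by ring
      _ = _ := by rw [h5, h6]; ring
  have eyy : z.im * w.im = a^2 - b^2 := by rw [ez, ew]; ring
  set P := E l z.re * E l w.re with hP
  have hP0 : 0 < P := mul_pos (E_pos hl _) (E_pos hl _)
  have edist : ‖EC l z - EC l w‖^2 = (E l z.re - E l w.re)^2 + 4 * P * Real.sin b^2 := by
    rw [norm_sub_sq, EC_re, EC_re, EC_im, EC_im]
    have h3 := Real.sin_sq_add_cos_sq z.im
    have h4 := Real.sin_sq_add_cos_sq w.im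
    have h5 : Real.cos (z.im - w.im) = 1 - 2 * Real.sin b^2 := by
      rw [show z.im - w.im = 2 * b by rw [hb]; ring, Real.cos_two_mul]
      have := Real.sin_sq_add_cos_sq b
      linarith
    rw [Real.cos_sub] at h5
    have h3' : Real.sin z.im ^2 = 1 - Real.cos z.im^2 := by linarith
    have h4' : Real.sin w.im ^2 = 1 - Real.cos w.im^2 := by linarith
    have h6 : 4 * P * Real.sin b^2 = 2 * P -
      2 * P * (Real.cos z.im * Real.cos w.im + Real.sin z.im * Real.sin w.im) := by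
      rw [h5]; ring
    rw [h6]
    calc _ = (E l z.re)^2 * (Real.cos z.im^2 + Real.sin z.im^2) +
          (E l w.re)^2 * (Real.cos w.im^2 + Real.sin w.im^2) -
          2 * P * (Real.cos z.im * Real.cos w.im + Real.sin z.im * Real.sin w.im) := by
            rw [hP]; ring
      _ = _ := by rw [h3', h4', hP]; ring
  have eim : (EC l z).im * (EC l w).im = P * (Real.sin a^2 - Real.sin b^2) := by
    rw [EC_im, EC_im, ← ess, hP]; ring
  have edist0 : ‖z - w‖^2 = (z.re - w.re)^2 + 4*b^2 := by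
    rw [norm_sub_sq, ez, ew]; ring
  rw [edist0, eim, edist, eyy]
  have hx := exp_diff_sq z.re w.re hl
  rw [← hP] at hx
  have hab : 0 ≤ a^2 - b^2 := by
    rw [← eyy]; exact mul_nonneg (by linarith) (by linarith)
  have hb2a2 : b^2 ≤ a^2 := by linarith
  obtain ⟨j1, j2⟩ := ineq_aux (s := Real.sin a^2) (t := Real.sin b^2) (a := a^2) (b := b^2)
    (c := c^2) (sq_nonneg _) (sq_nonneg _) (sq_nonneg _) hb2a2 hc1
    (fun h => by rw [pow_eq_zero_iff two_ne_zero] at h; rw [h]; simp) i1 i2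
  have hc2 : 0 ≤ c^2 := sq_nonneg c
  calc ((z.re - w.re)^2 + 4*b^2) * (P * (Real.sin a^2 - Real.sin b^2))
      = P * (z.re - w.re)^2 * (Real.sin a^2 - Real.sin b^2) +
        4 * P * (b^2 * (Real.sin a^2 - Real.sin b^2)) := by ring
    _ ≤ P * (z.re - w.re)^2 * (c^2 * (a^2 - b^2)) +
        4 * P * (c^2 * (Real.sin b^2 * (a^2 - b^2))) := by
        apply add_le_add
        · exact mul_le_mul_of_nonneg_left j1 (mul_nonneg hP0.le (sq_nonneg _))
        · exact mul_le_mul_of_nonneg_left j2 (by linarith)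
    _ ≤ (E l z.re - E l w.re)^2 * (c^2 * (a^2 - b^2)) +
        4 * P * (c^2 * (Real.sin b^2 * (a^2 - b^2))) := by
        have := mul_le_mul_of_nonneg_right hx (mul_nonneg hc2 hab)
        linarith
    _ = _ := by ring

/-- comparison quantity for the hyperbolic distance in the upper half plane -/
noncomputable def Q (z w : ℂ) : ℝ := ‖z - w‖^2 / (z.im * w.im)

theorem Q_nonneg {z w : ℂ} (hz : 0 ≤ z.im) (hw : 0 ≤ w.im) : 0 ≤ Q z w :=
  div_nonneg (sq_nonneg _) (mul_nonneg hz hw)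

theorem Q_symm (z w : ℂ) : Q z w = Q w z := by
  unfold Q; rw [norm_sub_rev, mul_comm]

theorem Q_contract (hl : Ok l) {z w : ℂ} {δ : ℝ} (hδ : 0 ≤ δ) (hz : δ ≤ z.im) (hw : δ ≤ w.im)
    (hz0 : 0 < z.im) (hw0 : 0 < w.im)
    (hz' : z.im ≤ Real.pi) (hw' : w.im ≤ Real.pi) (hEz : 0 < (EC l z).im)
    (hEw : 0 < (EC l w).im) :
    Q z w ≤ Real.cos (δ/2)^2 * Q (EC l z) (EC l w) := by
  have := contraction_mul hl hδ hz hw hz' hw'
  unfold Q
  rw [div_le_iff₀ (mul_pos hz0 hw0), mul_div_assoc', div_mul_eq_mul_div,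
    le_div_iff₀ (mul_pos hEz hEw)]
  linarith

theorem Q_mono (hl : Ok l) {z w : ℂ} (hz0 : 0 < z.im) (hw0 : 0 < w.im)
    (hz' : z.im ≤ Real.pi) (hw' : w.im ≤ Real.pi) (hEz : 0 < (EC l z).im)
    (hEw : 0 < (EC l w).im) : Q z w ≤ Q (EC l z) (EC l w) := by
  have := Q_contract hl le_rfl hz0.le hw0.le hz0 hw0 hz' hw' hEz hEw
  simpa using this

/-- bounded Q and lower bound on Im z give a lower bound on Im w -/
theorem im_lower_of_Q {z w : ℂ} {C δ : ℝ} (hC : 0 < C) (hδ : 0 < δ) (hz : δ ≤ z.im)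
    (hzπ : z.im ≤ Real.pi) (hw0 : 0 < w.im) (hQ : Q z w ≤ C) :
    min (δ/2) (δ^2/(4*Real.pi*C)) ≤ w.im := by
  by_contra hcon
  push Not at hcon
  have h1 : w.im < δ/2 := lt_of_lt_of_le hcon (min_le_left _ _)
  have h2 : w.im < δ^2/(4*Real.pi*C) := lt_of_lt_of_le hcon (min_le_right _ _)
  have hz0 : 0 < z.im := lt_of_lt_of_le hδ hz
  unfold Q at hQ
  rw [div_le_iff₀ (mul_pos hz0 hw0), norm_sub_sq] at hQ
  have h3 : (δ/2)^2 ≤ (z.im - w.im)^2 := by nlinarith
  have h4 := sq_nonneg (z.re - w.re)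
  have h5 : C * (z.im * w.im) ≤ C * (Real.pi * w.im) := by
    apply mul_le_mul_of_nonneg_left _ hC.le
    exact mul_le_mul_of_nonneg_right hzπ hw0.le
  rw [lt_div_iff₀ (by have := Real.pi_pos; positivity)] at h2
  nlinarith

end Pool.Agent.H64.KExp
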