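import Pool.Agent.H64.KExpHyp

/-!
Orbits in K: real criterion, good times, uniqueness from bounded Q, density of
eventually real points.
-/

set_option autoImplicit false

namespace Pool.Agent.H64.KExp

open Filter Topology

variable {l : ℝ}

theorem itC_im_pos {z : ℂ} (hz : z ∈ K l) (hn : ∀ n, ((EC l)^[n] z).im ≠ 0) (n : ℕ) :
    0 < ((EC l)^[n] z).im := lt_of_le_of_ne (hz n).1 (Ne.symm (hn n))

theorem exists_R_real (hl : Ok l) : ∃ R : ℝ, 0 ≤ R ∧ ∀ w ∈ K l,
    (∀ n, R ≤ ((EC l)^[n] w).re) → w.im = 0 := by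
  obtain ⟨N, hN⟩ := ((en_tendsto hl).eventually_ge_atTop 4).exists_forall_of_atTop
  refine ⟨en l N, en_nonneg hl N, ?_⟩
  intro w hw h
  have hER : 4 ≤ E l (en l N) := by rw [← en_succ]; exact hN _ (by omega)
  have hy : ∀ n, ((EC l)^[n] w).im ≤ Real.pi / 2 := by
    intro n
    have h1 : 0 ≤ ((EC l)^[n+1] w).re := (en_nonneg hl N).trans (h (n+1))
    rw [itC_succ, EC_re] at h1
    have h2 : 0 ≤ Real.cos ((EC l)^[n] w).im := by
      by_contra hc
      push Not at hc
      have := mul_neg_of_pos_of_neg (E_pos hl ((EC l)^[n] w).re) hc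
      linarith
    by_contra hc
    push Not at hc
    have := Real.cos_neg_of_pi_div_two_lt_of_lt hc (by linarith [(hw n).2, Real.pi_pos])
    linarith
  have step : ∀ n, 2 * ((EC l)^[n] w).im ≤ ((EC l)^[n+1] w).im := by
    intro n
    rw [itC_succ, EC_im]
    have h1 := Real.mul_le_sin (hw n).1 (hy n)
    have h2 : 4 ≤ E l ((EC l)^[n] w).re := hER.trans ((E_strictMono hl).monotone (h n))
    have h3 : 0 ≤ 2 / Real.pi * ((EC l)^[n] w).im :=
      mul_nonneg (by have := Real.pi_pos; positivity) (hw n).1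
    have h4 : 4 * (2 / Real.pi * ((EC l)^[n] w).im) ≤
        E l ((EC l)^[n] w).re * Real.sin ((EC l)^[n] w).im :=
      mul_le_mul h2 h1 h3 (by linarith)
    refine le_trans ?_ h4
    have h5 : 1 / 4 ≤ 1 / Real.pi := one_div_le_one_div_of_le Real.pi_pos Real.pi_le_four
    have h6 : 4 * (2 / Real.pi * ((EC l)^[n] w).im) = 8 * (1 / Real.pi) * ((EC l)^[n] w).im := by
      ring
    rw [h6]
    apply mul_le_mul_of_nonneg_right _ (hw n).1
    linarith
  have h7 : ∀ n, 2^n * w.im ≤ ((EC l)^[n] w).im := by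
    intro n
    induction n with
    | zero => simp
    | succ n ih => have := step n; rw [pow_succ]; linarith
  by_contra hne
  have hpos : 0 < w.im := lt_of_le_of_ne (hw 0).1 (Ne.symm hne)
  have h8 : Tendsto (fun n : ℕ => (2:ℝ)^n * w.im) atTop atTop :=
    (tendsto_pow_atTop_atTop_of_one_lt (by norm_num : (1:ℝ) < 2)).atTop_mul_const hpos
  obtain ⟨n, hn⟩ := (h8.eventually_gt_atTop Real.pi).exists
  have := h7 n
  have := (hw n).2
  linarith

/-- small imaginary part forces the real part to increase -/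
theorem exists_good (hl : Ok l) : ∃ δ ε : ℝ, 0 < δ ∧ δ ≤ 1 ∧ 0 < ε ∧ ∀ z : ℂ, 0 ≤ z.im → z.im ≤ δ →
    z.re + ε ≤ (EC l z).re := by
  -- choose δ with Ok (l cos δ)
  have h1 : Tendsto (fun d : ℝ => 1 + Real.log (l * Real.cos d)) (𝓝 0)
      (𝓝 (1 + Real.log (l * Real.cos 0))) := by
    have hc : ContinuousAt (fun d : ℝ => 1 + Real.log (l * Real.cos d)) 0 := by
      apply ContinuousAt.add continuousAt_const
      apply ContinuousAt.log
      · fun_prop
      · simp [hl.1.ne']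
    exact hc.tendsto
  have h2 : ∀ᶠ d in 𝓝 (0:ℝ), 0 < 1 + Real.log (l * Real.cos d) := by
    apply h1.eventually_const_lt
    simp; exact hl.2
  have h3 : ∀ᶠ d in 𝓝 (0:ℝ), 0 < Real.cos d := by
    have : Tendsto Real.cos (𝓝 0) (𝓝 (Real.cos 0)) := Real.continuous_cos.tendsto 0
    apply this.eventually_const_lt; simp
  have h4 : ∀ᶠ d in 𝓝 (0:ℝ), d < 1 := eventually_lt_nhds one_pos
  obtain ⟨r, hr, hball⟩ := Metric.eventually_nhds_iff.1 (h2.and (h3.and h4))
  have hd0 : (0:ℝ) < r/2 := by positivity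
  have hmem : dist (r/2) 0 < r := by
    rw [Real.dist_eq]; rw [sub_zero, abs_of_pos hd0]; linarith
  obtain ⟨a1, a2, a3⟩ := hball hmem
  refine ⟨r/2, 1 + Real.log (l * Real.cos (r/2)), hd0, a3.le, a1, ?_⟩
  intro z hz0 hz
  have hok : Ok (l * Real.cos (r/2)) := ⟨mul_pos hl.1 a2, a1⟩
  have h5 := E_ge hok z.re
  refine h5.trans ?_
  rw [EC_re]
  unfold E
  have h6 : Real.cos (r/2) ≤ Real.cos z.im := by
    apply Real.cos_le_cos_of_nonneg_of_le_pi hz0 _ hz
    linarith [Real.two_le_pi]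
  calc l * Real.cos (r/2) * Real.exp z.re = (l * Real.exp z.re) * Real.cos (r/2) := by ring
    _ ≤ (l * Real.exp z.re) * Real.cos z.im :=
      mul_le_mul_of_nonneg_left h6 (mul_pos hl.1 (Real.exp_pos _)).le

/-- infinitely many good times for never-real points -/
theorem good_times (hl : Ok l) {δ ε : ℝ} (hε : 0 < ε)
    (hg : ∀ z : ℂ, 0 ≤ z.im → z.im ≤ δ → z.re + ε ≤ (EC l z).re)
    {z : ℂ} (hz : z ∈ K l) (hn : ∀ n, ((EC l)^[n] z).im ≠ 0) (N : ℕ) :
    ∃ n, N ≤ n ∧ δ ≤ ((EC l)^[n] z).im := by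
  by_contra hcon
  push Not at hcon
  obtain ⟨R, hR0, hR⟩ := exists_R_real hl
  have h1 : ∀ k, ((EC l)^[N] z).re + k * ε ≤ ((EC l)^[N + k] z).re := by
    intro k
    induction k with
    | zero => simp
    | succ k ih =>
      have := hg ((EC l)^[N+k] z) (hz _).1 (hcon (N+k) (by omega)).le
      rw [← itC_succ] at this
      rw [← add_assoc]
      push_cast
      linarith
  have h2 : Tendsto (fun k : ℕ => ((EC l)^[N] z).re + k * ε) atTop atTop :=
    tendsto_atTop_add_const_left _ _ (tendsto_natCast_atTop_atTop.atTop_mul_const hε)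
  obtain ⟨k0, hk0⟩ := (h2.eventually_ge_atTop R).exists_forall_of_atTop
  apply hn (N + k0)
  apply hR _ (K_it hz _)
  intro n
  rw [← itC_add]
  have := h1 (k0 + n)
  have h3 := hk0 (k0 + n) (by omega)
  rw [show n + (N + k0) = N + (k0 + n) by ring]
  linarith

/-- bounded never-real orbits stay away from the real line -/
theorem im_lower_of_bdd (hl : Ok l) (R : ℝ) : ∃ η : ℝ, 0 < η ∧ ∀ z ∈ K l,
    (∀ n, ((EC l)^[n] z).im ≠ 0) → (∀ n, |((EC l)^[n] z).re| ≤ R) → η ≤ z.im := by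
  obtain ⟨δ, ε, hδ, -, hε, hg⟩ := exists_good hl
  obtain ⟨m, hm⟩ := exists_nat_gt (2 * R / ε)
  set A := max 1 (E l R) with hA
  have hA1 : 1 ≤ A := le_max_left _ _
  refine ⟨δ / A^m, by positivity, ?_⟩
  intro z hz hn hR
  by_contra hcon
  push Not at hcon
  have hgrow : ∀ k, ((EC l)^[k] z).im ≤ A^k * z.im := by
    intro k
    induction k with
    | zero => simp
    | succ k ih =>
      rw [itC_succ, EC_im, pow_succ]
      have h1 : E l ((EC l)^[k] z).re ≤ A :=
        ((E_strictMono hl).monotone ((le_abs_self _).trans (hR k))).trans (le_max_right _ _)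
      have h2 : Real.sin ((EC l)^[k] z).im ≤ ((EC l)^[k] z).im := Real.sin_le (hz k).1
      have h3 : 0 ≤ Real.sin ((EC l)^[k] z).im :=
        Real.sin_nonneg_of_nonneg_of_le_pi (hz k).1 (hz k).2
      calc E l ((EC l)^[k] z).re * Real.sin ((EC l)^[k] z).im
          ≤ A * ((EC l)^[k] z).im := mul_le_mul h1 h2 h3 (by linarith)
        _ ≤ A * (A^k * z.im) := mul_le_mul_of_nonneg_left ih (by linarith)
        _ = _ := by ring
  have hinc : ∀ k ≤ m, z.re + k * ε ≤ ((EC l)^[k] z).re := by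
    intro k
    induction k with
    | zero => intro _; simp
    | succ k ih =>
      intro hk
      have h1 := ih (by omega)
      have h2 : ((EC l)^[k] z).im ≤ δ := by
        refine (hgrow k).trans ?_
        have h3 : A^k ≤ A^m := pow_le_pow_right₀ hA1 (by omega)
        have h4 : A^k * z.im ≤ A^m * z.im := mul_le_mul_of_nonneg_right h3 (hz 0).1
        rw [lt_div_iff₀ (by positivity)] at hcon
        linarith
      have h5 := hg _ (hz k).1 h2
      rw [← itC_succ] at h5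
      push_cast
      linarith
  have h1 := hinc m le_rfl
  have h2 := (abs_le.1 (hR m)).2
  have h3 := (abs_le.1 (hR 0)).1
  rw [div_lt_iff₀ hε] at hm
  have h4 : -R ≤ z.re := h3
  linarith

/-- uniqueness from frequently bounded Q -/
theorem eq_of_freq_Q (hl : Ok l) {z w : ℂ} (hz : z ∈ K l) (hw : w ∈ K l)
    (hzn : ∀ n, ((EC l)^[n] z).im ≠ 0) (hwn : ∀ n, ((EC l)^[n] w).im ≠ 0)
    {C : ℝ} (hC : ∀ N, ∃ n, N ≤ n ∧ Q ((EC l)^[n] z) ((EC l)^[n] w) ≤ C) : z = w := by
  set q : ℕ → ℝ := fun n => Q ((EC l)^[n] z) ((EC l)^[n] w) with hq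
  have hzp := itC_im_pos hz hzn
  have hwp := itC_im_pos hw hwn
  have hmono1 : ∀ n, q n ≤ q (n+1) := by
    intro n
    have h1 := hzp (n+1)
    have h2 := hwp (n+1)
    simp only [hq]
    rw [itC_succ] at h1 h2 ⊢
    rw [itC_succ]
    exact Q_mono hl (hzp n) (hwp n) (hz n).2 (hw n).2 h1 h2
  have hmono : Monotone q := monotone_nat_of_le_succ hmono1
  have hbd : ∀ n, q n ≤ max C 1 := by
    intro n
    obtain ⟨m, hm1, hm2⟩ := hC n
    exact (hmono hm1).trans (hm2.trans (le_max_left _ _))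
  have hq0 : ∀ n, 0 ≤ q n := fun n => Q_nonneg (hz n).1 (hw n).1
  obtain ⟨δ, ε, hδ, hδ1, hε, hg⟩ := exists_good hl
  have hC1 : 0 < max C 1 := lt_of_lt_of_le one_pos (le_max_right _ _)
  set δ' := min δ (min (δ/2) (δ^2/(4*Real.pi*(max C 1)))) with hδ'
  have hδ'0 : 0 < δ' := by
    have := Real.pi_pos
    apply lt_min hδ (lt_min (by positivity) (by positivity))
  set κ := Real.cos (δ'/2)^2 with hκ
  have hκ1 : κ < 1 := by
    have h1 : δ'/2 ≤ Real.pi/2 := by
      have : δ' ≤ δ := min_le_left _ _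
      linarith [Real.two_le_pi]
    have h2 : Real.cos (δ'/2) < 1 := by
      rw [← Real.cos_zero]
      apply Real.cos_lt_cos_of_nonneg_of_le_pi_div_two le_rfl h1 (by positivity)
    have h3 : 0 ≤ Real.cos (δ'/2) :=
      Real.cos_nonneg_of_neg_pi_div_two_le_of_le (by linarith [Real.pi_pos]) h1
    rw [hκ]; nlinarith
  have hκ0 : 0 ≤ κ := sq_nonneg _
  have hgood : ∀ N, ∃ n, N ≤ n ∧ q n ≤ κ * q (n+1) := by
    intro N
    obtain ⟨n, hn, hn2⟩ := good_times hl hε hg hz hzn N
    refine ⟨n, hn, ?_⟩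
    have h1 : δ' ≤ ((EC l)^[n] w).im :=
      (min_le_right _ _).trans (im_lower_of_Q hC1 hδ hn2 (hz n).2 (hwp n) (hbd n))
    have h2 : δ' ≤ ((EC l)^[n] z).im := (min_le_left _ _).trans hn2
    have h3 := hzp (n+1)
    have h4 := hwp (n+1)
    simp only [hq]
    rw [itC_succ] at h3 h4 ⊢
    rw [itC_succ]
    exact Q_contract hl hδ'0.le h2 h1 (hzp n) (hwp n) (hz n).2 (hw n).2 h3 h4
  -- q 0 = 0
  have hq00 : q 0 ≤ 0 := by
    by_contra hpos
    push Not at hpos
    have hbdd : BddAbove (Set.range q) := ⟨max C 1, by rintro _ ⟨n, rfl⟩; exact hbd n⟩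
    set M := ⨆ n, q n with hM
    have hqM : ∀ n, q n ≤ M := fun n => le_ciSup hbdd n
    have hM0 : 0 < M := lt_of_lt_of_le hpos (hqM 0)
    have h1 : κ * M < M := by nlinarith
    obtain ⟨n, hn⟩ := exists_lt_of_lt_ciSup h1
    obtain ⟨m, hm, hm2⟩ := hgood n
    have h2 : κ * q (m+1) ≤ κ * M := mul_le_mul_of_nonneg_left (hqM _) hκ0
    have h3 : q n ≤ q m := hmono hm
    linarith
  have hq01 : q 0 = 0 := le_antisymm hq00 (hq0 0)
  simp only [hq, Function.iterate_zero, id] at hq01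
  unfold Q at hq01
  rw [div_eq_zero_iff] at hq01
  rcases hq01 with h | h
  · rw [pow_eq_zero_iff two_ne_zero, norm_eq_zero, sub_eq_zero] at h
    exact h
  · exfalso
    have h1 := hzp 0
    have h2 := hwp 0
    simp only [Function.iterate_zero, id] at h1 h2
    have := mul_pos h1 h2
    linarith

/-- inverse orbits -/
theorem exists_back (hl : Ok l) (N : ℕ) : ∀ w : ℂ, 0 < w.im → ∃ b : ℂ, (EC l)^[N] b = w ∧
    ∀ j < N, 0 < ((EC l)^[j] b).im ∧ ((EC l)^[j] b).im ≤ Real.pi := by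
  induction N with
  | zero => intro w _; exact ⟨w, rfl, by simp⟩
  | succ N ih =>
    intro w hw
    have hw0 : w ≠ 0 := by intro h; rw [h] at hw; simp at hw
    have h1 : 0 < (LC l w).im := by
      rw [LC_im hl]
      rcases (Complex.arg_nonneg_iff.2 hw.le).lt_or_eq with h | h
      · exact h
      · exfalso
        have := Complex.arg_eq_zero_iff.1 h.symm
        linarith [this.2]
    obtain ⟨b, hb1, hb2⟩ := ih (LC l w) h1
    refine ⟨b, by rw [itC_succ, hb1, EC_LC hl hw0], ?_⟩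
    intro j hj
    rcases Nat.lt_succ_iff_lt_or_eq.1 hj with h | h
    · exact hb2 j h
    · rw [h, hb1]
      exact ⟨h1, (LC_inS hl hw.le).2⟩

/-- density of eventually real points in K -/
theorem dense_real (hl : Ok l) {z : ℂ} (hz : z ∈ K l) {ε : ℝ} (hε : 0 < ε) :
    ∃ b ∈ K l, ‖z - b‖ < ε ∧ ∃ N, ((EC l)^[N] b).im = 0 := by
  by_cases hn : ∀ n, ((EC l)^[n] z).im ≠ 0
  swap
  · push Not at hn
    obtain ⟨n, hn⟩ := hn
    exact ⟨z, hz, by simpa using hε, n, hn⟩
  have hzp := itC_im_pos hz hn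
  obtain ⟨δ, ε', hδ, hδ1, hε', hg⟩ := exists_good hl
  set C : ℝ := Real.pi / δ with hC
  have hC0 : 0 < C := by have := Real.pi_pos; positivity
  set δ' := min δ (min (δ/2) (δ^2/(4*Real.pi*C))) with hδ'
  have hδ'0 : 0 < δ' := by
    have := Real.pi_pos
    apply lt_min hδ (lt_min (by positivity) (by positivity))
  set κ := Real.cos (δ'/2)^2 with hκ
  have hκ1 : κ < 1 := by
    have h1 : δ'/2 ≤ Real.pi/2 := by
      have : δ' ≤ δ := min_le_left _ _
      linarith [Real.two_le_pi]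
    have h2 : Real.cos (δ'/2) < 1 := by
      rw [← Real.cos_zero]
      apply Real.cos_lt_cos_of_nonneg_of_le_pi_div_two le_rfl h1 (by positivity)
    have h3 : 0 ≤ Real.cos (δ'/2) :=
      Real.cos_nonneg_of_neg_pi_div_two_le_of_le (by linarith [Real.pi_pos]) h1
    rw [hκ]; nlinarith
  have hκ0 : 0 ≤ κ := sq_nonneg _
  -- P k
  have main : ∀ k : ℕ, ∃ N, ∀ C' ≤ C, ∀ b : ℂ,
      (∀ j ≤ N, 0 < ((EC l)^[j] b).im ∧ ((EC l)^[j] b).im ≤ Real.pi) →
      Q ((EC l)^[N] z) ((EC l)^[N] b) ≤ C' → Q z b ≤ κ^k * C' := by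
    intro k
    induction k with
    | zero =>
      refine ⟨0, ?_⟩
      intro C' _ b _ hQ
      simpa using hQ
    | succ k ih =>
      obtain ⟨N, hN⟩ := ih
      obtain ⟨n, hn1, hn2⟩ := good_times hl hε' hg hz hn N
      refine ⟨n+1, ?_⟩
      intro C' hC' b hb hQ
      have hmono : ∀ j ≤ n, Q ((EC l)^[j] z) ((EC l)^[j] b) ≤
          Q ((EC l)^[j+1] z) ((EC l)^[j+1] b) := by
        intro j hj
        have h1 := hzp (j+1)
        have h2 := (hb (j+1) (by omega)).1
        rw [itC_succ] at h1 h2 ⊢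
        rw [itC_succ]
        exact Q_mono hl (hzp j) (hb j (by omega)).1 (hz j).2 (hb j (by omega)).2 h1 h2
      have h3 : Q ((EC l)^[n] z) ((EC l)^[n] b) ≤ C := (hmono n le_rfl).trans (hQ.trans hC')
      have h4 : Q ((EC l)^[n] z) ((EC l)^[n] b) ≤ κ * C' := by
        have a1 : δ' ≤ ((EC l)^[n] b).im :=
          (min_le_right _ _).trans (im_lower_of_Q hC0 hδ hn2 (hz n).2 (hb n (by omega)).1 h3)
        have a2 : δ' ≤ ((EC l)^[n] z).im := (min_le_left _ _).trans hn2
        have a3 := hzp (n+1)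
        have a4 := (hb (n+1) le_rfl).1
        rw [itC_succ] at a3 a4
        have := Q_contract hl hδ'0.le a2 a1 (hzp n) (hb n (by omega)).1 (hz n).2
          (hb n (by omega)).2 a3 a4
        rw [itC_succ, itC_succ] at hQ
        exact this.trans (mul_le_mul_of_nonneg_left hQ hκ0)
      have h5 : ∀ i, N + i ≤ n → Q ((EC l)^[N] z) ((EC l)^[N] b) ≤
          Q ((EC l)^[N+i] z) ((EC l)^[N+i] b) := by
        intro i
        induction i with
        | zero => intro _; exact le_rfl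
        | succ i ih2 => intro hi; exact (ih2 (by omega)).trans (hmono (N+i) (by omega))
      have h6 : Q ((EC l)^[N] z) ((EC l)^[N] b) ≤ κ * C' := by
        have := h5 (n - N) (by omega)
        rw [show N + (n - N) = n by omega] at this
        exact this.trans h4
      have h0 : 0 ≤ C' := le_trans (Q_nonneg (hzp (n+1)).le (hb (n+1) le_rfl).1.le) hQ
      have h7 : κ * C' ≤ C := by nlinarith
      have := hN (κ * C') h7 b (fun j hj => hb j (by omega)) h6
      calc Q z b ≤ κ^k * (κ * C') := this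
        _ = κ^(k+1) * C' := by ring
  -- choose k with κ^k * C * π² < ε²
  have h1 : Tendsto (fun k : ℕ => κ^k * C * Real.pi^2) atTop (𝓝 (0 * C * Real.pi^2)) :=
    ((tendsto_pow_atTop_nhds_zero_of_lt_one hκ0 hκ1).mul_const C).mul_const _
  rw [zero_mul, zero_mul] at h1
  obtain ⟨k, hk⟩ := (h1.eventually_lt_const (by positivity : (0:ℝ) < ε^2)).exists
  obtain ⟨N, hN⟩ := main k
  obtain ⟨n, hn1, hn2⟩ := good_times hl hε' hg hz hn N
  set w : ℂ := ((((EC l)^[n] z).re : ℝ) : ℂ) + (Real.pi : ℝ) * Complex.I with hw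
  have hwre : w.re = ((EC l)^[n] z).re := by rw [hw]; simp
  have hwim : w.im = Real.pi := by rw [hw]; simp
  obtain ⟨b, hb1, hb2⟩ := exists_back hl n w (by rw [hwim]; exact Real.pi_pos)
  have hbj : ∀ j ≤ n, 0 < ((EC l)^[j] b).im ∧ ((EC l)^[j] b).im ≤ Real.pi := by
    intro j hj
    rcases hj.lt_or_eq with h | h
    · exact hb2 j h
    · rw [h, hb1, hwim]; exact ⟨Real.pi_pos, le_rfl⟩
  have hEw : EC l w = ((-(E l w.re) : ℝ) : ℂ) := by
    apply Complex.ext
    · rw [EC_re, hwim, Real.cos_pi]; simp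
    · rw [EC_im, hwim, Real.sin_pi]; simp
  have hbK : b ∈ K l := by
    intro j
    rcases le_or_gt j n with hj | hj
    · exact ⟨(hbj j hj).1.le, (hbj j hj).2⟩
    · obtain ⟨i, rfl⟩ := Nat.exists_eq_add_of_lt hj
      have : n + i + 1 = (i + 1) + n := by ring
      rw [this, itC_add, hb1, itC_succ', hEw]
      exact K_ofReal l _ i
  have hQn : Q ((EC l)^[n] z) ((EC l)^[n] b) ≤ C := by
    rw [hb1]
    unfold Q
    rw [norm_sub_sq, hwre, hwim, sub_self, hC]
    have hzim := hzp n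
    have hπ := Real.pi_pos
    rw [div_le_div_iff₀ (by positivity) hδ]
    have h2 : (((EC l)^[n] z).im - Real.pi)^2 ≤ Real.pi^2 := by nlinarith [(hz n).2]
    have h3 : (0:ℝ)^2 = 0 := by norm_num
    rw [h3, zero_add]
    nlinarith
  have hmono : ∀ i, N + i ≤ n → Q ((EC l)^[N] z) ((EC l)^[N] b) ≤
      Q ((EC l)^[N+i] z) ((EC l)^[N+i] b) := by
    intro i
    induction i with
    | zero => intro _; exact le_rfl
    | succ i ih2 =>
      intro hi
      refine (ih2 (by omega)).trans ?_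
      have h1 := hzp (N+i+1)
      have h2 := (hbj (N+i+1) (by omega)).1
      rw [← add_assoc]
      rw [itC_succ] at h1 h2 ⊢
      rw [itC_succ]
      exact Q_mono hl (hzp _) (hbj _ (by omega)).1 (hz _).2 (hbj _ (by omega)).2 h1 h2
  have hQN : Q ((EC l)^[N] z) ((EC l)^[N] b) ≤ C := by
    have := hmono (n - N) (by omega)
    rw [show N + (n - N) = n by omega] at this
    exact this.trans hQn
  have hQ0 := hN C le_rfl b (fun j hj => hbj j (by omega)) hQN
  refine ⟨b, hbK, ?_, n+1, ?_⟩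
  · unfold Q at hQ0
    have hz0 := hzp 0
    have hb0 := (hbj 0 (Nat.zero_le _)).1
    have hz0' := (hz 0).2
    have hb0' := (hbj 0 (Nat.zero_le _)).2
    simp only [Function.iterate_zero, id] at hz0 hb0 hz0' hb0'
    rw [div_le_iff₀ (mul_pos hz0 hb0)] at hQ0
    have h3 : z.im * b.im ≤ Real.pi^2 := by nlinarith [Real.pi_pos]
    have h4 : 0 ≤ κ^k * C := by positivity
    have h5 := mul_le_mul_of_nonneg_left h3 h4
    exact lt_of_pow_lt_pow_left₀ 2 hε.le (by linarith)
  · rw [itC_succ, hb1, hEw, Complex.ofReal_im]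

end Pool.Agent.H64.KExp
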