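import Pool.Agent.H64.KExpOrbit

/-!
Shadowing of the orbit of 0: forward step and pull back.
-/

set_option autoImplicit false

namespace Pool.Agent.H64.KExp

open Filter Topology

variable {l m : ℝ}

open Classical in
/-- small constant attached to the parameter -/
noncomputable def eta (l : ℝ) : ℝ :=
  if h : Ok l then 1 / (8 * (Classical.choose (exists_CS h))) else 1/8

theorem eta_pos (l : ℝ) : 0 < eta l := by
  unfold eta
  split_ifs with h
  · have := (Classical.choose_spec (exists_CS h)).1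
    positivity
  · norm_num

theorem eta_le (l : ℝ) : eta l ≤ 1/8 := by
  unfold eta
  split_ifs with h
  · have := (Classical.choose_spec (exists_CS h)).1
    rw [div_le_div_iff₀ (by positivity) (by norm_num)]
    linarith
  · norm_num

theorem S_eta (hl : Ok l) (j : ℕ) : S l (j+1) * eta l ≤ D l j / 8 := by
  unfold eta
  rw [dif_pos hl]
  have h1 := (Classical.choose_spec (exists_CS hl)).1
  have h2 := (Classical.choose_spec (exists_CS hl)).2 j
  set c := Classical.choose (exists_CS hl)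
  rw [mul_one_div, div_le_div_iff₀ (by positivity) (by norm_num)]
  linarith

theorem S_small (hl : Ok l) {r : ℝ} (hr : 0 ≤ r) {j : ℕ} (h : ∀ k < j, D l k * r ≤ eta l) :
    S l j * r ≤ 1/8 := by
  cases j with
  | zero => simp [S]
  | succ j =>
    have h1 := h j (by omega)
    have h2 := S_eta hl j
    have h3 := eta_pos l
    have h4 := D_pos hl j
    -- S r ≤ (D/8)/eta * r ≤ 1/8
    have h5 : S l (j+1) * r * eta l ≤ 1/8 * eta l := by
      calc S l (j+1) * r * eta l = (S l (j+1) * eta l) * r := by ring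
        _ ≤ D l j / 8 * r := mul_le_mul_of_nonneg_right h2 hr
        _ = 1/8 * (D l j * r) := by ring
        _ ≤ 1/8 * eta l := by linarith
    exact le_of_mul_le_mul_right h5 h3

theorem exists_J (hl : Ok l) {r : ℝ} (hr : 0 < r) {η : ℝ} (hη : r ≤ η) :
    ∃ J, (∀ k ≤ J, D l k * r ≤ η) ∧ η < D l (J+1) * r := by
  have h1 : ∃ k, η < D l k * r :=
    (((D_tendsto hl).atTop_mul_const hr).eventually_gt_atTop η).exists
  classical
  set n := Nat.find h1 with hn
  have h2 : η < D l n * r := Nat.find_spec h1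
  have h3 : ∀ k < n, D l k * r ≤ η := fun k hk => not_lt.1 (Nat.find_min h1 hk)
  have h4 : n ≠ 0 := by
    intro h
    rw [h] at h2
    simp [D] at h2
    linarith
  obtain ⟨J, hJ⟩ := Nat.exists_eq_succ_of_ne_zero h4
  refine ⟨J, fun k hk => h3 k (by omega), ?_⟩
  rw [hJ] at h2; exact h2

/-- forward step -/
theorem step1 (hm : Ok m) {C2 : ℝ} (hC2 : 0 ≤ C2) {u : ℂ} {J : ℕ}
    (h1 : ∀ k ≤ J, D m k * ‖u‖ ≤ eta m) (h2 : eta m < D m (J+1) * ‖u‖)
    (hbig : C2 * (2*C2+3) / eta m ^ 2 ≤ en m (J+1)) :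
    (E m)^[J+1] (-((2*C2+3)/eta m * ‖u‖)) + C2 ≤ ((EC m)^[J+1] u).re ∧
    ((EC m)^[J+1] u).re + C2 ≤ (E m)^[J+1] ((2*C2+3)/eta m * ‖u‖) := by
  set η := eta m with hη
  have hη0 : 0 < η := eta_pos m
  have hη8 : η ≤ 1/8 := eta_le m
  set Cd := (2*C2+3)/η with hCd
  set r := ‖u‖ with hr
  have hr0 : 0 ≤ r := norm_nonneg _
  have hCdη : Cd * η = 2*C2+3 := by rw [hCd]; field_simp
  have hCd0 : 0 < Cd := by rw [hCd]; positivity
  have hS : S m (J+1) * r ≤ 1/8 := S_small hm hr0 (fun k hk => h1 k (by omega))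
  have hd := itC_dist_upper hm (J+1) u hS
  have hre := Complex.abs_re_le_norm ((EC m)^[J+1] u - (en m (J+1) : ℂ))
  rw [Complex.sub_re, Complex.ofReal_re] at hre
  have hre2 := hre.trans hd
  rw [abs_le] at hre2
  set σ := D m (J+1) * r with hσ
  have hD1 := D_pos hm (J+1)
  have hDJ := D_pos hm J
  have hen := en_pos hm J
  constructor
  · have hx : -(Cd * r) * S m (J+1) < 1 := by
      have := mul_nonneg (mul_nonneg hCd0.le hr0) (S_nonneg hm (J+1))
      linarith
    have hup := it_upper hm (J+1) hx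
    refine (add_le_add_left hup C2).trans ?_
    set s := D m J * r with hs
    have hs0 : 0 ≤ s := mul_nonneg hDJ.le hr0
    have hsη : s ≤ η := h1 J le_rfl
    have hσs : σ = en m (J+1) * s := by rw [hσ, hs, D_succ]; ring
    -- S_{J+1} Cd r ≤ Cd s /(8 η)
    have hSs : S m (J+1) * (Cd * r) ≤ Cd * s / (8 * η) := by
      rw [le_div_iff₀ (by positivity)]
      have := S_eta hm J
      rw [← hη] at this
      have h3 := mul_le_mul_of_nonneg_right this (mul_nonneg hCd0.le hr0)
      calc S m (J+1) * (Cd * r) * (8 * η) = 8 * (S m (J+1) * η * (Cd * r)) := by ring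
        _ ≤ 8 * (D m J / 8 * (Cd * r)) := by linarith
        _ = Cd * s := by rw [hs]; ring
    have hS0 : 0 ≤ S m (J+1) * (Cd * r) :=
      mul_nonneg (S_nonneg hm _) (mul_nonneg hCd0.le hr0)
    have key : 8/7 * σ + C2 ≤ Cd * σ / (1 + S m (J+1) * (Cd * r)) := by
      rw [le_div_iff₀ (by linarith)]
      have hσ0 : 0 < σ := lt_trans hη0 h2
      by_cases hc : Cd * s / (8 * η) ≤ 1
      · -- 1 + .. ≤ 2
        have h3 : (8/7 * σ + C2) * (1 + S m (J+1) * (Cd * r)) ≤ (8/7 * σ + C2) * 2 := by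
          apply mul_le_mul_of_nonneg_left (by linarith) (by linarith)
        refine h3.trans ?_
        -- 16/7 σ + 2 C2 ≤ Cd σ
        have h4 : 2 * C2 ≤ (Cd - 16/7) * η := by
          have : (Cd - 16/7) * η = 2*C2 + 3 - 16/7*η := by rw [sub_mul, hCdη]
          rw [this]; linarith
        have h5 : 0 ≤ Cd - 16/7 := by
          by_contra hneg
          push Not at hneg
          have := mul_neg_of_neg_of_pos hneg hη0
          linarith
        have h6 : (Cd - 16/7) * η ≤ (Cd - 16/7) * σ := mul_le_mul_of_nonneg_left h2.le h5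
        linarith
      · push Not at hc
        rw [lt_div_iff₀ (by positivity)] at hc
        -- 1 + .. ≤ Cd s/(4η)
        have h3 : 1 + S m (J+1) * (Cd * r) ≤ Cd * s / (4 * η) := by
          have h30 : (1:ℝ) ≤ Cd * s / (8 * η) := by
            rw [le_div_iff₀ (by positivity)]; linarith
          have h31 : Cd * s / (4*η) = Cd * s / (8*η) + Cd * s / (8*η) := by field_simp; ring
          rw [h31]; linarith
        have h4 : (8/7 * σ + C2) * (1 + S m (J+1) * (Cd * r)) ≤
            (8/7 * σ + C2) * (Cd * s / (4 * η)) :=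
          mul_le_mul_of_nonneg_left h3 (by linarith)
        refine h4.trans ?_
        -- (8/7 σ + C2) s /(4η) ≤ σ ; s/(4η) ≤ 1/4; C2 ≤ 2σ? 
        have h5 : C2 ≤ 2 * σ := by
          -- σ = e s ≥ C2 (2C2+3)/η² * s, Cd s ≥ 8 η → s ≥ 8η²/(2C2+3)
          have h6 : 8 * η^2 ≤ (2*C2+3) * s := by
            have h60 : 1 * (8 * η) * η ≤ Cd * s * η := mul_le_mul_of_nonneg_right hc.le hη0.le
            have h61 : Cd * s * η = (2*C2+3) * s := by
              calc Cd * s * η = (Cd * η) * s := by ring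
                _ = _ := by rw [hCdη]
            rw [h61] at h60
            nlinarith
          have h7 : C2 * (2*C2+3) / η^2 * s ≤ σ := by
            rw [hσs]; exact mul_le_mul_of_nonneg_right hbig hs0
          have h8 : C2 * 8 ≤ C2 * (2*C2+3) / η^2 * s := by
            rw [div_mul_eq_mul_div, le_div_iff₀ (by positivity)]
            calc C2 * 8 * η^2 = C2 * (8 * η^2) := by ring
              _ ≤ C2 * ((2*C2+3) * s) := mul_le_mul_of_nonneg_left h6 hC2
              _ = _ := by ring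
          linarith
        have h6 : 8/7 * σ + C2 ≤ 4 * σ := by linarith
        have h7 : Cd * s / (4 * η) ≤ Cd / 4 := by
          rw [div_le_div_iff₀ (by positivity) (by norm_num)]
          have := mul_le_mul_of_nonneg_left hsη hCd0.le
          nlinarith
        have h8 : 0 ≤ Cd * s / (4 * η) := by positivity
        calc (8/7 * σ + C2) * (Cd * s / (4 * η)) ≤ (4 * σ) * (Cd / 4) :=
              mul_le_mul h6 h7 h8 (by linarith)
          _ = Cd * σ := by ring
    have e1 : D m (J+1) * -(Cd * r) / (1 - -(Cd * r) * S m (J+1)) =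
        -(Cd * σ / (1 + S m (J+1) * (Cd * r))) := by
      rw [hσ]
      have : 1 - -(Cd * r) * S m (J+1) = 1 + S m (J+1) * (Cd * r) := by ring
      rw [this, ← neg_div]
      congr 1
      ring
    rw [e1]
    linarith
  · have ht := it_tangent hm (J+1) (Cd * r)
    refine le_trans ?_ ht
    have h3 : C2 ≤ (Cd - 8/7) * η := by
      have : (Cd - 8/7) * η = 2*C2 + 3 - 8/7*η := by rw [sub_mul, hCdη]
      rw [this]; linarith
    have h5 : 0 ≤ Cd - 8/7 := by
      by_contra hneg
      push Not at hneg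
      have := mul_neg_of_neg_of_pos hneg hη0
      linarith
    have h6 : (Cd - 8/7) * η ≤ (Cd - 8/7) * σ := mul_le_mul_of_nonneg_left h2.le h5
    have h7 : D m (J+1) * (Cd * r) = Cd * σ := by rw [hσ]; ring
    rw [h7]
    linarith

/-- one more forward step when the orbit does not turn -/
theorem step2 (hm : Ok m) {C2 : ℝ} (hC2 : 0 ≤ C2) (hC2' : C2 + Real.pi + 1 ≤ Real.exp C2)
    {w : ℂ} (hw : InS (EC m w)) (hpos : 0 < (EC m w).re) {a b : ℝ}
    (h1 : a + C2 ≤ w.re) (h2 : w.re + C2 ≤ b) (ha : 1 ≤ E m a) (hb : 2 * C2 ≤ E m b) :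
    E m a + C2 ≤ (EC m w).re ∧ (EC m w).re + C2 ≤ E m b := by
  have hn := norm_EC hm w
  have h3 := norm_le_of_inS hw
  rw [abs_of_pos hpos, hn] at h3
  have h4 : (EC m w).re ≤ E m w.re := by
    rw [← hn]; exact (le_abs_self _).trans (Complex.abs_re_le_norm _)
  have hmono := (E_strictMono hm).monotone
  constructor
  · have h5 : Real.exp C2 * E m a ≤ E m w.re := by
      rw [← E_add]; exact hmono h1
    nlinarith
  · have h5 : Real.exp C2 * E m w.re ≤ E m b := by
      rw [← E_add]; exact hmono h2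
    have hE := E_pos hm w.re
    have h6 : 2 ≤ Real.exp C2 := by linarith [Real.pi_gt_three]
    have h7 : 2 * E m w.re ≤ E m b := by nlinarith
    linarith

/-- pulling back along the orbit of 0 -/
theorem pull (hl : Ok l) : ∃ M : ℝ, 1 ≤ M ∧ ∀ C3 : ℝ, 1 ≤ C3 → ∀ u ∈ K l, ∀ ρ : ℝ, 0 ≤ ρ →
    ρ ≤ 1/2 → ∀ i : ℕ, M * C3 ≤ (E l)^[i+1] (-ρ) →
    (E l)^[i+1] (-ρ) ≤ ((EC l)^[i+1] u).re + C3 →
    ((EC l)^[i+1] u).re ≤ (E l)^[i+1] ρ + C3 →
    ‖u‖ ≤ 6 * ρ ∨ D l (i+1) * ‖u‖ ≤ 3 * (C3 + Real.pi) := by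
  obtain ⟨k0, hk0⟩ := ((it_tendsto hl (-(1/2))).eventually_ge_atTop (3/2)).exists_forall_of_atTop
  set A := max 1 (3 / l) with hA
  have hA1 : 1 ≤ A := le_max_left _ _
  have hA3 : 3 / l ≤ A := le_max_right _ _
  set η := eta l with hη
  have hη0 : 0 < η := eta_pos l
  set εs := min (l/4) (η/7) with hεs
  have hεs0 : 0 < εs := lt_min (by have := hl.1; positivity) (by positivity)
  set ε := εs / A^k0 with hε
  have hε0 : 0 < ε := by positivity
  set M := 5 * max 2 (3/2 / ε) with hM
  refine ⟨M, ?_, ?_⟩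
  · have := le_max_left 2 (3/2/ε)
    rw [hM]; linarith
  intro C3 hC3 u hu ρ hρ hρ2 i hbig hlow hupp
  rw [or_iff_not_imp_left]
  intro hr6
  push Not at hr6
  set r := ‖u‖ with hr
  have hr0 : 0 < r := lt_of_le_of_lt (by positivity) hr6
  set Y := (E l)^[i+1] (-ρ) with hY
  have hY0 : 0 < Y := it_pos hl i _
  have hC3π : C3 + Real.pi ≤ 5 * C3 := by linarith [Real.pi_le_four]
  have hYb : C3 + Real.pi ≤ Y / 2 := by
    have h1 : (5 * 2) * C3 ≤ Y := by
      refine le_trans ?_ hbig
      apply mul_le_mul_of_nonneg_right _ (by linarith)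
      rw [hM]
      have := le_max_left 2 (3/2/ε); linarith
    linarith
  have hYε : 3/2 * ((C3 + Real.pi) / Y) ≤ ε := by
    have h1 : (5 * (3/2/ε)) * C3 ≤ Y := by
      refine le_trans ?_ hbig
      apply mul_le_mul_of_nonneg_right _ (by linarith)
      rw [hM]
      have := le_max_right 2 (3/2/ε); linarith
    have h2 : 5 * (3/2) * C3 ≤ Y * ε := by
      have : 5 * (3/2/ε) * C3 = 5 * (3/2) * C3 / ε := by ring
      rw [this, div_le_iff₀ hε0] at h1
      exact h1
    rw [mul_div_assoc', div_le_iff₀ hY0]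
    linarith
  -- top approximant
  have htop : ∃ p : ℝ, Y ≤ p ∧ p ≤ (E l)^[i+1] ρ ∧ ‖(EC l)^[i+1] u - (p : ℂ)‖ ≤ C3 + Real.pi := by
    have hYY : Y ≤ (E l)^[i+1] ρ := it_mono hl _ (by linarith)
    refine ⟨max Y (min ((EC l)^[i+1] u).re ((E l)^[i+1] ρ)), le_max_left _ _,
      max_le hYY (min_le_right _ _), ?_⟩
    refine (Complex.norm_le_abs_re_add_abs_im _).trans ?_
    apply add_le_add
    · rw [Complex.sub_re, Complex.ofReal_re, abs_le]
      constructor
      · have : max Y (min ((EC l)^[i+1] u).re ((E l)^[i+1] ρ)) ≤ ((EC l)^[i+1] u).re + C3 := by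
          apply max_le hlow
          have := min_le_left ((EC l)^[i+1] u).re ((E l)^[i+1] ρ)
          linarith
        linarith
      · have : ((EC l)^[i+1] u).re - C3 ≤ max Y (min ((EC l)^[i+1] u).re ((E l)^[i+1] ρ)) := by
          apply le_trans _ (le_max_right _ _)
          apply le_min <;> linarith
        linarith
    · rw [Complex.sub_im, Complex.ofReal_im, sub_zero, abs_of_nonneg (hu _).1]
      exact (hu _).2
  -- descend
  have hbase : ∀ k, l / 2 ≤ (E l)^[k+1] (-ρ) := by
    intro k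
    have h1 : E l (-ρ) ≤ (E l)^[k+1] (-ρ) := by
      have := (it_mono_n hl (-ρ)).monotone (show 1 ≤ k+1 by omega)
      simpa using this
    refine le_trans ?_ h1
    unfold E
    have h2 : 1/2 ≤ Real.exp (-ρ) := by
      have := Real.add_one_le_exp (-ρ); linarith
    have := mul_le_mul_of_nonneg_left h2 hl.1.le
    linarith
  have hbase2 : ∀ k, k0 ≤ k → 3/2 ≤ (E l)^[k+1] (-ρ) := by
    intro k hk
    exact (hk0 (k+1) (by omega)).trans (it_mono hl _ (by linarith))
  have hdesc : ∀ n k, k + n = i → ∃ p : ℝ, (E l)^[k] (-ρ) ≤ p ∧ p ≤ (E l)^[k] ρ ∧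
      ‖(EC l)^[k] u - (p : ℂ)‖ ≤ ε * A^(k0 - k) := by
    intro n
    induction n with
    | zero =>
      intro k hk
      rw [add_zero] at hk
      subst hk
      obtain ⟨p, hp1, hp2, hp3⟩ := htop
      have hp0 : 0 < p := hY0.trans_le hp1
      rw [itC_succ] at hp3
      have h1 := pull_step hl (hu k) hp0 hp3 (hYb.trans (by linarith))
      refine ⟨L l p, ?_, ?_, h1.trans ?_⟩
      · rw [← L_E hl ((E l)^[k] (-ρ)), ← it_succ]
        exact L_le_L hl (it_pos hl _ _) hp1
      · rw [← L_E hl ((E l)^[k] ρ), ← it_succ]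
        exact L_le_L hl hp0 hp2
      · have h2 : 3/2 * ((C3 + Real.pi) / p) ≤ 3/2 * ((C3 + Real.pi) / Y) := by
          have hh : 0 ≤ C3 + Real.pi := by linarith [Real.pi_pos]
          have := div_le_div_of_nonneg_left hh hY0 hp1
          linarith
        refine h2.trans (hYε.trans ?_)
        have := one_le_pow₀ hA1 (n := k0 - k)
        nlinarith
    | succ n ih =>
      intro k hk
      obtain ⟨p, hp1, hp2, hp3⟩ := ih (k+1) (by omega)
      have hpl : l / 2 ≤ p := (hbase k).trans hp1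
      have hp0 : 0 < p := lt_of_lt_of_le (by have := hl.1; positivity) hpl
      have hεA : ε * A^(k0 - (k+1)) ≤ εs := by
        have h1 : A^(k0 - (k+1)) ≤ A^k0 := pow_le_pow_right₀ hA1 (by omega)
        calc ε * A^(k0 - (k+1)) ≤ ε * A^k0 := mul_le_mul_of_nonneg_left h1 hε0.le
          _ = εs := by rw [hε]; field_simp
      have hεp : ε * A^(k0 - (k+1)) ≤ p / 2 := by
        have : εs ≤ l / 4 := min_le_left _ _
        linarith
      rw [itC_succ] at hp3
      have h1 := pull_step hl (hu k) hp0 hp3 hεp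
      refine ⟨L l p, ?_, ?_, h1.trans ?_⟩
      · rw [← L_E hl ((E l)^[k] (-ρ)), ← it_succ]
        exact L_le_L hl (it_pos hl _ _) hp1
      · rw [← L_E hl ((E l)^[k] ρ), ← it_succ]
        exact L_le_L hl hp0 hp2
      · rw [mul_div_assoc', div_le_iff₀ hp0]
        have hW : 0 < A^(k0 - (k+1)) := by positivity
        rcases le_or_gt k0 k with hkk | hkk
        · have h2 : 3/2 ≤ p := (hbase2 k hkk).trans hp1
          have e1 : k0 - (k+1) = 0 := by omega
          have e2 : k0 - k = 0 := by omega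
          rw [e1, e2, pow_zero, mul_one]
          nlinarith
        · have e1 : k0 - k = (k0 - (k+1)) + 1 := by omega
          rw [e1, pow_succ]
          have h2 : 3/2 ≤ A * p := by
            have h3 : 3 ≤ A * l := by rwa [div_le_iff₀ hl.1] at hA3
            have h4 : A * (l/2) ≤ A * p := mul_le_mul_of_nonneg_left hpl (by linarith)
            linarith
          have h5 : 0 < ε * A^(k0 - (k+1)) := by positivity
          calc 3/2 * (ε * A^(k0 - (k+1))) = (ε * A^(k0 - (k+1))) * (3/2) := by ring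
            _ ≤ (ε * A^(k0 - (k+1))) * (A * p) := mul_le_mul_of_nonneg_left h2 h5.le
            _ = _ := by ring
  -- distance estimates at a level where S is small
  have hlev : ∀ k, S l k * r ≤ 1/8 → ∀ p : ℝ, (E l)^[k] (-ρ) ≤ p → p ≤ (E l)^[k] ρ →
      ∀ e : ℝ, ‖(EC l)^[k] u - (p : ℂ)‖ ≤ e → 11/21 * (D l k * r) ≤ e := by
    intro k hS p hp1 hp2 e he
    have h1 := itC_dist_lower hl k u hS
    have hD := D_pos hl k
    have hS0 := S_nonneg hl k
    have h2 : ρ * S l k ≤ 1/2 := by nlinarith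
    have h3 : (E l)^[k] ρ ≤ en l k + 2 * (D l k * ρ) := by
      refine (it_upper hl k (by linarith)).trans ?_
      have : D l k * ρ / (1 - ρ * S l k) ≤ 2 * (D l k * ρ) := by
        rw [div_le_iff₀ (by linarith)]
        have := mul_nonneg hD.le hρ
        nlinarith
      linarith
    have h4 := it_tangent hl k (-ρ)
    have h5 : |p - en l k| ≤ 2 * (D l k * ρ) := by
      have := mul_nonneg hD.le hρ
      rw [abs_le]; constructor <;> linarith
    have h6 : ‖(EC l)^[k] u - (en l k : ℂ)‖ ≤ e + 2 * (D l k * ρ) := by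
      calc ‖(EC l)^[k] u - (en l k : ℂ)‖
          = ‖((EC l)^[k] u - (p : ℂ)) + ((p - en l k : ℝ) : ℂ)‖ := by congr 1; push_cast; ring
        _ ≤ _ := norm_add_le _ _
        _ ≤ e + 2 * (D l k * ρ) := by
            rw [Complex.norm_real]; exact add_le_add he h5
    have h7 : 2 * (D l k * ρ) ≤ 1/3 * (D l k * r) := by
      have := mul_le_mul_of_nonneg_left hr6.le hD.le
      linarith
    linarith
  by_cases hall : ∀ k < i+1, D l k * r ≤ η
  · have hS := S_small hl hr0.le hall
    obtain ⟨p, hp1, hp2, hp3⟩ := htop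
    have := hlev (i+1) hS p hp1 hp2 _ hp3
    have h3 : 0 < C3 + Real.pi := by linarith [Real.pi_pos]
    linarith
  · push Not at hall
    classical
    exfalso
    obtain ⟨k, ⟨hk1, hk2⟩, hk3⟩ : ∃ k, (k < i+1 ∧ η < D l k * r) ∧
        ∀ k' < k, ¬ (k' < i+1 ∧ η < D l k' * r) :=
      ⟨Nat.find hall, Nat.find_spec hall, fun k' hk' => Nat.find_min hall hk'⟩
    have hS : S l k * r ≤ 1/8 := by
      apply S_small hl hr0.le
      intro k' hk'
      have := hk3 k' hk'
      push Not at this
      exact this (by omega)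
    obtain ⟨p, hp1, hp2, hp3⟩ := hdesc (i - k) k (by omega)
    have h1 := hlev k hS p hp1 hp2 _ hp3
    have h2 : ε * A^(k0 - k) ≤ εs := by
      have h1 : A^(k0 - k) ≤ A^k0 := pow_le_pow_right₀ hA1 (by omega)
      calc ε * A^(k0 - k) ≤ ε * A^k0 := mul_le_mul_of_nonneg_left h1 hε0.le
        _ = εs := by rw [hε]; field_simp
    have h3 : εs ≤ η / 7 := min_le_right _ _
    linarith

end Pool.Agent.H64.KExp
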