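import Pool.Agent.H64.KExpUnique

/-!
Comparison of two partners of a far left point.
-/

set_option autoImplicit false

namespace Pool.Agent.H64.KExp

open Filter Topology

variable {l m C C1 C2 : ℝ} {h : ℕ → ℝ ≃o ℝ}

theorem ub1_bound (H : IsSys l m C h) {z z' : ℂ} {A : ℝ} (hA : 0 < A)
    (h1 : h 1 (‖EC l z‖/6) ≤ A * ‖EC m z'‖) : h 0 (z.re - 5) ≤ z'.re + Real.log A := by
  have h2 : ‖EC l z‖/6 = E l (z.re + Real.log (1/6)) := by
    rw [E_shift_log l (by norm_num), norm_EC H.hl]; ring
  have h3 : A * ‖EC m z'‖ = E m (z'.re + Real.log A) := by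
    rw [E_shift_log m hA, norm_EC H.hm]
  have h4 : h 1 (E l (z.re + Real.log (1/6))) = E m (h 0 (z.re + Real.log (1/6))) :=
    H.conj 0 _
  rw [h2, h3, h4, (E_strictMono H.hm).le_iff_le] at h1
  have h5 : -5 ≤ Real.log (1/6) := by
    rw [one_div, Real.log_inv]
    have := Real.log_le_sub_one_of_pos (show (0:ℝ) < 6 by norm_num)
    linarith
  exact ((h 0).monotone (by linarith)).trans h1

theorem lb1_bound (H : IsSys l m C h) {z z'' : ℂ} {A : ℝ} (hA : 0 < A)
    (h1 : (h 1).symm (‖EC m z''‖/6) ≤ A * ‖EC l z‖) : z''.re - 5 ≤ h 0 (z.re + Real.log A) := by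
  have := ub1_bound H.swap (z := z'') (z' := z) hA h1
  have h2 := (h 0).monotone this
  rwa [OrderIso.apply_symm_apply] at h2

theorem D_norm (hl : Ok l) (J : ℕ) (z : ℂ) :
    D l (J+1) * ‖EC l z‖ = D l J * l^2 * Real.exp (en l J + z.re) := by
  rw [norm_EC hl, D_succ, en_succ, E, E, Real.exp_add]; ring

theorem D_upper (hl : Ok l) {CD : ℝ} (hCD : ∀ j, D l (j+1) ≤ Real.exp (2 * en l j + CD)) {J : ℕ}
    {z : ℂ} {η : ℝ} (hη : 0 < η) (h : η < D l (J+1) * ‖EC l z‖) :
    -z.re ≤ 2 * en l J + (CD + |Real.log l| + |Real.log η|) := by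
  have h7 : η < Real.exp (2 * en l J + CD) * Real.exp (Real.log l + z.re) := by
    refine h.trans_le ?_
    rw [norm_EC hl, E_eq_exp hl]
    exact mul_le_mul_of_nonneg_right (hCD J) (Real.exp_pos _).le
  rw [← Real.exp_add, ← Real.log_lt_iff_lt_exp hη] at h7
  have h8 := neg_abs_le (Real.log η)
  have h9 := le_abs_self (Real.log l)
  linarith

theorem D_lower (hl : Ok l) {d : ℝ} (hd0 : 0 < d) (hd : ∀ j, d ≤ D l j) {J : ℕ}
    {z : ℂ} {A : ℝ} (hA : 0 < A) (h : D l (J+1) * ‖EC l z‖ ≤ A) :
    en l J ≤ -z.re + (Real.log A - Real.log (d * l^2)) := by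
  rw [D_norm hl] at h
  have hl0 := hl.1
  have h3 : d * l^2 * Real.exp (en l J + z.re) ≤ A := by
    refine le_trans ?_ h
    apply mul_le_mul_of_nonneg_right _ (Real.exp_pos _).le
    exact mul_le_mul_of_nonneg_right (hd J) (by positivity)
  have := Real.log_le_log (by positivity) h3
  rw [Real.log_mul (by positivity) (Real.exp_pos _).ne', Real.log_exp] at this
  linarith

/-- synchronisation: if u turns at level J+1 then u' is not too small -/
theorem sync (H : IsSys l m C h) (G : Good l m C C1 C2) {u u' : ℂ} (hu' : u' ∈ K m)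
    (hc : Cpt l m C1 C2 h u u') {J : ℕ} (hJ1 : 1 ≤ en m (J+1))
    (hJ2 : 2 * (C * Real.exp C1 + C2) < E m (en m (J+1) - 1))
    (hturn : ((EC l)^[J+2] u).re ≤ 0) : eta m < D m (J+1) * ‖u'‖ := by
  by_contra hcon
  push Not at hcon
  have hm := H.hm
  have hη0 := eta_pos m
  have hη8 := eta_le m
  have hr := norm_nonneg u'
  have hD := D_pos hm J
  have h1 : D m J * ‖u'‖ ≤ eta m := by
    refine le_trans ?_ hcon
    rw [D_succ]
    have h2 : D m J * 1 ≤ D m J * en m (J+1) := mul_le_mul_of_nonneg_left hJ1 hD.le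
    have h3 := mul_le_mul_of_nonneg_right h2 hr
    linarith
  have hS : S m (J+1) * ‖u'‖ ≤ 1/8 := by
    have h2 := S_eta hm J
    have h5 : S m (J+1) * ‖u'‖ * eta m ≤ 1/8 * eta m := by
      calc S m (J+1) * ‖u'‖ * eta m = (S m (J+1) * eta m) * ‖u'‖ := by ring
        _ ≤ D m J / 8 * ‖u'‖ := mul_le_mul_of_nonneg_right h2 hr
        _ = 1/8 * (D m J * ‖u'‖) := by ring
        _ ≤ 1/8 * eta m := by linarith
    exact le_of_mul_le_mul_right h5 hη0
  have hd := itC_dist_upper hm (J+1) u' hS
  set w := (EC m)^[J+1] u' with hw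
  have hre := Complex.abs_re_le_norm (w - (en m (J+1) : ℂ))
  have him := Complex.abs_im_le_norm (w - (en m (J+1) : ℂ))
  rw [Complex.sub_re, Complex.ofReal_re] at hre
  rw [Complex.sub_im, Complex.ofReal_im, sub_zero] at him
  have hd1 : ‖w - (en m (J+1) : ℂ)‖ ≤ 1 := by linarith
  have hre2 := (abs_le.1 (hre.trans hd1)).1
  have him2 := (abs_le.1 (him.trans hd1)).2
  have him0 : 0 ≤ w.im := (hu' (J+1)).1
  have hcos : 1/2 ≤ Real.cos w.im := by
    have h2 : Real.cos 1 ≤ Real.cos w.im :=
      Real.cos_le_cos_of_nonneg_of_le_pi him0 (by linarith [Real.two_le_pi]) him2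
    have h3 : 1/2 ≤ Real.cos 1 := by
      have := Real.one_sub_sq_div_two_le_cos (x := 1)
      linarith
    linarith
  have hmono : E m (en m (J+1) - 1) ≤ E m w.re := (E_strictMono hm).monotone (by linarith)
  have h2 : ((EC m)^[J+2] u').re = E m w.re * Real.cos w.im := by
    rw [itC_succ m (J+1), EC_re]
  have h3 : E m w.re * (1/2) ≤ ((EC m)^[J+2] u').re := by
    rw [h2]; exact mul_le_mul_of_nonneg_left hcos (E_pos hm _).le
  have h4 := (hc (J+2)).1
  have h5 : h (J+2) (max (((EC l)^[J+2] u).re + C1) 0) ≤ C * Real.exp C1 := by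
    have hC10 := G.1
    have : max (((EC l)^[J+2] u).re + C1) 0 ≤ C1 := max_le (by linarith) hC10
    exact ((h (J+2)).monotone this).trans (H.grow (J+2) C1 hC10)
  linarith

theorem ratio (hl : Ok l) (hm : Ok m) (hC : 1 ≤ C) (G : Good l m C C1 C2)
    (G' : Good m l C C1 C2) :
    ∃ R c : ℝ, 0 < c ∧ ∀ h : ℕ → ℝ ≃o ℝ, IsSys l m C h → ∀ z ∈ K l, ∀ z' ∈ K m, ∀ z'' ∈ K m,
    Cpt l m C1 C2 h z z' → Cpt l m C1 C2 h z z'' → z.re ≤ -R →
    z'.re ≤ -1 ∧ z''.re ≤ -1 ∧ -z'.re ≤ c * (-z''.re) := by
  obtain ⟨A, hA1, hA⟩ := G.2.2.2.2.2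
  obtain ⟨A', hA'1, hA'⟩ := G'.2.2.2.2.2
  obtain ⟨CDl, hCDl0, hCDl⟩ := exists_CD hl
  obtain ⟨CDm, hCDm0, hCDm⟩ := exists_CD hm
  obtain ⟨dl, hdl0, hdl⟩ := exists_D_lower hl
  obtain ⟨dm, hdm0, hdm⟩ := exists_D_lower hm
  have hl0 := hl.1
  have hm0 := hm.1
  set ca := CDl + |Real.log l| + |Real.log (eta l)| with hca
  set cb := CDm + |Real.log m| + |Real.log (eta m)| with hcb
  set a := Real.log A' with ha
  have ha0 : 0 ≤ a := Real.log_nonneg hA'1
  set cd := |Real.log A' - Real.log (dm * m^2)| with hcd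
  have hcd0 : 0 ≤ cd := abs_nonneg _
  -- eventual conditions
  have p1 : ∀ᶠ j in atTop, 1 ≤ en l j := (en_tendsto hl).eventually_ge_atTop 1
  have p1' : ∀ᶠ j in atTop, 1 ≤ en m j := (en_tendsto hm).eventually_ge_atTop 1
  have p2 : ∀ᶠ j in atTop, A < en l (j+1) * eta l :=
    (((tendsto_add_atTop_iff_nat 1).2 (en_tendsto hl)).atTop_mul_const (eta_pos l)).eventually_gt_atTop A
  have p3 : ∀ᶠ j in atTop, C * (2 * en l j + ca + 5) + C ≤ en l (j+1) := by
    have h1 : Tendsto (fun x : ℝ => Real.exp x / x) atTop atTop := by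
      simpa using Real.tendsto_exp_div_pow_atTop 1
    have h2 : ∀ᶠ x : ℝ in atTop, C * (2 * x + ca + 5) + C ≤ E l x := by
      have hca0 : 0 ≤ ca := by rw [hca]; positivity
      filter_upwards [h1.eventually_ge_atTop ((C * (2 + ca + 5) + C)/l), eventually_ge_atTop 1]
        with x hx hx1
      have hx0 : 0 < x := by linarith
      rw [div_le_div_iff₀ hl0 hx0] at hx
      unfold E
      have h3 : 0 ≤ C * (ca + 5) + C := by positivity
      have h4 := le_mul_of_one_le_right h3 hx1
      linarith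
    filter_upwards [(en_tendsto hl).eventually h2] with j hj
    rw [en_succ]; exact hj
  have p4 : ∀ᶠ j in atTop, A * Real.exp (a + C) ≤ D l j * l^2 :=
    ((D_tendsto hl).atTop_mul_const (by positivity)).eventually_ge_atTop _
  have p5 : ∀ᶠ j in atTop, 2 * (C * Real.exp C1 + C2) < E m (en m (j+1) - 1) := by
    have h1 : Tendsto (fun j => en m (j+1) - 1 + (1 + Real.log m)) atTop atTop := by
      apply tendsto_atTop_add_const_right
      exact tendsto_atTop_add_const_right _ (-1) ((tendsto_add_atTop_iff_nat 1).2 (en_tendsto hm))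
    filter_upwards [h1.eventually_gt_atTop (2 * (C * Real.exp C1 + C2))] with j hj
    exact hj.trans_le (E_ge hm _)
  obtain ⟨j0, hj0⟩ := (p1.and (p1'.and (p2.and (p3.and (p4.and p5))))).exists_forall_of_atTop
  -- constants
  set X := 2 * en m j0 + cb + A + |Real.log m| + 1 with hX
  have hX0 : 0 ≤ X := by have := en_nonneg hm j0; positivity
  obtain ⟨R1, hR1⟩ := far G G' hX0
  set N := ⌈5 + a⌉₊ with hN
  have hNa : 5 + a ≤ N := Nat.le_ceil _
  set P := C^N with hP
  have hP1 : 1 ≤ P := one_le_pow₀ hC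
  set c := (P * 5 + N * P + |Real.log A| + P) + (2 * (C * 5 + C) + 2 * C + cb) +
    (C + |Real.log A| + cd + 1) + (2 + 2 * cd + cb) + (1 + |Real.log A'| + |Real.log (eta m)|)
    with hc
  have hlogA := abs_nonneg (Real.log A)
  have hlogA' := abs_nonneg (Real.log A')
  have hlogη := abs_nonneg (Real.log (eta m))
  have hcb0 : 0 ≤ cb := by rw [hcb]; positivity
  have hNP : 0 ≤ N * P := by positivity
  refine ⟨max R1 (2 * en l j0 + ca + A' + |Real.log l| + a + 1), c, by rw [hc]; positivity, ?_⟩
  intro h H z hz z' hz' z'' hz'' hcp hcp2 hre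
  have hre1 : z.re ≤ -R1 := hre.trans (neg_le_neg (le_max_left _ _))
  have hre2 : z.re ≤ -(2 * en l j0 + ca + A' + |Real.log l| + a + 1) :=
    hre.trans (neg_le_neg (le_max_right _ _))
  have hT' := hR1 h H z hz z' hz' hcp hre1
  have hT'' := hR1 h H z hz z'' hz'' hcp2 hre1
  have henl := en_nonneg hl j0
  have henm := en_nonneg hm j0
  have hca0 : 0 ≤ ca := by rw [hca]; positivity
  have hlogl := abs_nonneg (Real.log l)
  have hlogm := abs_nonneg (Real.log m)
  have hT''1 : 1 ≤ -z''.re := by linarith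
  refine ⟨by linarith, by linarith, ?_⟩
  set T'' := -z''.re with hT''def
  -- it suffices
  have suff : ∀ k b : ℝ, 0 ≤ b → -z'.re ≤ k * T'' + b → k + b ≤ c → -z'.re ≤ c * T'' := by
    intro k b hb h1 h2
    have h3 : b ≤ b * T'' := le_mul_of_one_le_right hb hT''1
    have h4 : (k + b) * T'' ≤ c * T'' := mul_le_mul_of_nonneg_right h2 (by linarith)
    linarith
  have hnu : ‖EC l z‖ = Real.exp (Real.log l + z.re) := by rw [norm_EC hl, E_eq_exp hl]
  have hnu' : ‖EC m z'‖ = Real.exp (Real.log m + z'.re) := by rw [norm_EC hm, E_eq_exp hm]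
  have hul : ‖EC l z‖ ≤ Real.exp (-A') := by
    rw [hnu]; apply Real.exp_le_exp.2
    have := le_abs_self (Real.log l)
    linarith
  have hul' : ‖EC m z'‖ ≤ Real.exp (-A) := by
    rw [hnu']; apply Real.exp_le_exp.2
    have := le_abs_self (Real.log m)
    linarith
  have hu0 : 0 < ‖EC l z‖ := by rw [hnu]; exact Real.exp_pos _
  have hu0' : 0 < ‖EC m z'‖ := by rw [hnu']; exact Real.exp_pos _
  obtain ⟨J', -, a2, a3, -⟩ := hA _ (H.shift 1) (EC l z) (K_EC hz) (EC m z') (K_EC hz')
    hcp.shift1 hu0' hul'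
  obtain ⟨J, b1, b2, b3, b4⟩ := hA' _ (H.shift 1).swap (EC m z'') (K_EC hz'') (EC l z) (K_EC hz)
    hcp2.shift1.swap hu0 hul
  simp only [zero_add] at a3 b3 b4
  have hJ'1 := D_upper hm hCDm (eta_pos m) a2
  rw [← hcb] at hJ'1
  have hJ1 := D_upper hl hCDl (eta_pos l) b2
  rw [← hca] at hJ1
  have hJj : j0 ≤ J := by
    by_contra hcon
    push Not at hcon
    have := (en_strictMono hl).monotone hcon.le
    linarith
  have hJ'j : j0 ≤ J' := by
    by_contra hcon
    push Not at hcon
    have := (en_strictMono hm).monotone hcon.le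
    linarith
  obtain ⟨q1, q1', q2, q3, q4, q5⟩ := hj0 J hJj
  obtain ⟨r1, r1', r2, r3, r4, r5⟩ := hj0 J' hJ'j
  -- LB1 case
  have LB1 : (h 1).symm (‖EC m z''‖/6) ≤ A' * ‖EC l z‖ → -z'.re ≤ c * T'' := by
    intro hlb
    have hlb1 := lb1_bound H (by linarith) hlb
    rw [← ha] at hlb1
    -- hlb1 : z''.re - 5 ≤ h 0 (z.re + a)
    set t := -(z.re + a) with ht
    have ht0 : 0 ≤ t := by rw [ht]; linarith
    have hzt : z.re + a = -t := by rw [ht]; ring
    rw [hzt] at hlb1
    rcases a3 with hu | hu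
    · have hub := ub1_bound H (by linarith) hu
      have hli := lip_iter H N ht0
      have h1 : h 0 (-(t + N)) ≤ h 0 (z.re - 5) := (h 0).monotone (by rw [ht]; linarith)
      have h2 : P * (-(h 0 (-t))) ≤ P * (T'' + 5) :=
        mul_le_mul_of_nonneg_left (by rw [hT''def]; linarith) (by linarith)
      have h3 := le_abs_self (Real.log A)
      apply suff P (P * 5 + N * P + |Real.log A|) (by positivity) (by linarith)
      rw [hc]
      have : 0 ≤ P := by linarith
      nlinarith
    · -- UB2
      rw [D_norm hl] at hu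
      have h1 : A * Real.exp (a + C) * Real.exp (en l J' + z.re) ≤ A * 1 := by
        have := mul_le_mul_of_nonneg_right r4 (Real.exp_pos (en l J' + z.re)).le
        linarith
      rw [mul_assoc] at h1
      have h2 := le_of_mul_le_mul_left h1 (by linarith)
      rw [← Real.exp_add, Real.exp_le_one_iff] at h2
      -- en l J' + C ≤ t
      have h3 : en l J' + C ≤ t := by rw [ht]; linarith
      have hy : 0 ≤ -(h 0 (-(en l J' + C))) := by
        have : h 0 (-(en l J' + C)) ≤ h 0 0 := (h 0).monotone (by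
          have := en_nonneg hl J'; linarith)
        rw [H.zero] at this
        linarith
      have h4 := H.kb 0 _ hy
      rw [neg_neg, OrderIso.symm_apply_apply] at h4
      have h5 : en l J' ≤ (h 0).symm (C * (-(h 0 (-(en l J' + C)))) + C) := by linarith
      rw [← (h 0).le_iff_le, OrderIso.apply_symm_apply, H.align] at h5
      have h6 : h 0 (-t) ≤ h 0 (-(en l J' + C)) := (h 0).monotone (by linarith)
      have h7 : C * (-(h 0 (-(en l J' + C)))) ≤ C * (T'' + 5) :=
        mul_le_mul_of_nonneg_left (by rw [hT''def]; linarith) (by linarith)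
      apply suff (2*C) (2 * (C * 5 + C) + cb) (by positivity) (by linarith)
      rw [hc]
      have : 0 ≤ P := by linarith
      linarith
  by_cases hturn : 0 < ((EC l)^[J+2] (EC l z)).re
  · rcases b4 hturn with hb | hb
    · exact LB1 hb
    · have h1 := D_lower hm hdm0 hdm (J := J+1) (by linarith) hb
      have h2 := le_abs_self (Real.log A' - Real.log (dm * m^2))
      rw [← hcd] at h2
      have h3 : en m (J+1) ≤ T'' + cd := by linarith
      rcases a3 with hu | hu
      · have hub := ub1_bound H (by linarith) hu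
        have hka := H.ka 0 (-z.re + 5) (by linarith)
        rw [show -(-z.re + 5) = z.re - 5 by ring] at hka
        have h4 : h 0 (C * (-z.re + 5) + C) ≤ h 0 (en l (J+1)) := by
          apply (h 0).monotone
          have : C * (-z.re + 5) ≤ C * (2 * en l J + ca + 5) :=
            mul_le_mul_of_nonneg_left (by linarith) (by linarith)
          linarith
        rw [H.align] at h4
        have h5 := le_abs_self (Real.log A)
        apply suff 1 (C + |Real.log A| + cd) (by positivity) (by linarith)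
        rw [hc]
        have : 0 ≤ P := by linarith
        linarith
      · -- J' ≤ J
        have hJJ : J' ≤ J := by
          by_contra hcon
          push Not at hcon
          have hmonoD : ∀ i, D l (J+2) ≤ D l (J+2+i) := by
            intro i
            induction i with
            | zero => exact le_rfl
            | succ i ih =>
              refine ih.trans ?_
              rw [← add_assoc, D_succ]
              apply le_mul_of_one_le_right (D_pos hl _).le
              exact (hj0 (J+2+i+1) (by omega)).1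
          have h4 := hmonoD (J' + 1 - (J+2))
          rw [show J + 2 + (J' + 1 - (J+2)) = J' + 1 by omega] at h4
          have h5 : D l (J+2) * ‖EC l z‖ ≤ A :=
            (mul_le_mul_of_nonneg_right h4 hu0.le).trans hu
          have h6 : D l (J+2) = D l (J+1) * en l (J+2) := rfl
          have h7 := (hj0 (J+1) (by omega)).2.2.1
          have h8 : en l (J+2) * eta l ≤ en l (J+2) * (D l (J+1) * ‖EC l z‖) :=
            mul_le_mul_of_nonneg_left b2.le (en_nonneg hl _)
          rw [h6] at h5
          have h9 : en l (J+1+1) = en l (J+2) := rfl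
          rw [h9] at h7
          linarith
        have h4 := (en_strictMono hm).monotone (show J' ≤ J+1 by omega)
        apply suff 2 (2*cd + cb) (by positivity) (by linarith)
        rw [hc]
        have : 0 ≤ P := by linarith
        linarith
  · push Not at hturn
    rcases b3 with hb | hb
    · exact LB1 hb
    · have hsync := sync (H.shift 1) G (K_EC hz') hcp.shift1 (hj0 (J+1) (by omega)).2.1 q5 hturn
      -- ‖u''‖ ≤ A' / D, ‖u'‖ > eta / D
      have hD := D_pos hm (J+1)
      have h1 : D m (J+1) * (eta m * ‖EC m z''‖) ≤ D m (J+1) * (A' * ‖EC m z'‖) := by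
        have e1 : D m (J+1) * (eta m * ‖EC m z''‖) = eta m * (D m (J+1) * ‖EC m z''‖) := by ring
        have e2 : D m (J+1) * (A' * ‖EC m z'‖) = A' * (D m (J+1) * ‖EC m z'‖) := by ring
        rw [e1, e2]
        calc eta m * (D m (J+1) * ‖EC m z''‖) ≤ eta m * A' :=
              mul_le_mul_of_nonneg_left hb (eta_pos m).le
          _ = A' * eta m := by ring
          _ ≤ A' * (D m (J+1) * ‖EC m z'‖) := mul_le_mul_of_nonneg_left hsync.le (by linarith)
      have h2 := le_of_mul_le_mul_left h1 hD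
      rw [norm_EC hm, norm_EC hm, ← E_shift_log m (eta_pos m),
        ← E_shift_log m (by linarith : 0 < A'), (E_strictMono hm).le_iff_le] at h2
      have h3 := neg_abs_le (Real.log (eta m))
      have h4 := le_abs_self (Real.log A')
      apply suff 1 (|Real.log A'| + |Real.log (eta m)|) (by positivity) (by linarith)
      rw [hc]
      have : 0 ≤ P := by linarith
      linarith

end Pool.Agent.H64.KExp
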