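import Mathlib

/-!
Real dynamics of x ↦ l e^x, l > 1/e: iterates, distortion.
-/

set_option autoImplicit false

namespace Pool.Agent.H64.KExp

open Filter Topology

/-- admissible parameters -/
def Ok (l : ℝ) : Prop := 0 < l ∧ 0 < 1 + Real.log l

theorem ok_of_lt {l : ℝ} (h : 1 / Real.exp 1 < l) : Ok l := by
  have h0 : (0:ℝ) < 1 / Real.exp 1 := by positivity
  have hl : 0 < l := h0.trans h
  refine ⟨hl, ?_⟩
  have := Real.log_lt_log h0 h
  rw [one_div, Real.log_inv, Real.log_exp] at this
  linarith

/-- the real exponential map -/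
noncomputable def E (l : ℝ) (x : ℝ) : ℝ := l * Real.exp x

/-- its inverse -/
noncomputable def L (l : ℝ) (x : ℝ) : ℝ := Real.log (x / l)

variable {l : ℝ}

theorem E_pos (hl : Ok l) (x : ℝ) : 0 < E l x := mul_pos hl.1 (Real.exp_pos x)

theorem E_strictMono (hl : Ok l) : StrictMono (E l) := fun _ _ h =>
  mul_lt_mul_of_pos_left (Real.exp_lt_exp.2 h) hl.1

theorem E_L (hl : Ok l) {x : ℝ} (hx : 0 < x) : E l (L l x) = x := by
  unfold E L
  rw [Real.exp_log (div_pos hx hl.1)]
  field_simp [hl.1.ne']

theorem L_E (hl : Ok l) (x : ℝ) : L l (E l x) = x := by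
  unfold E L
  rw [mul_div_cancel_left₀ _ hl.1.ne', Real.log_exp]

theorem L_lt_L (hl : Ok l) {x y : ℝ} (hx : 0 < x) (h : x < y) : L l x < L l y := by
  unfold L
  exact Real.log_lt_log (div_pos hx hl.1) (div_lt_div_of_pos_right h hl.1)

theorem L_le_L (hl : Ok l) {x y : ℝ} (hx : 0 < x) (h : x ≤ y) : L l x ≤ L l y := by
  rcases h.lt_or_eq with h | h
  · exact (L_lt_L hl hx h).le
  · rw [h]

theorem E_add (l x y : ℝ) : E l (x + y) = Real.exp y * E l x := by
  unfold E; rw [Real.exp_add]; ring

theorem E_ge (hl : Ok l) (x : ℝ) : x + (1 + Real.log l) ≤ E l x := by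
  have : E l x = Real.exp (x + Real.log l) := by
    rw [Real.exp_add, Real.exp_log hl.1, E, mul_comm]
  rw [this]
  have := Real.add_one_le_exp (x + Real.log l)
  linarith

theorem lt_E (hl : Ok l) (x : ℝ) : x < E l x := by
  have := E_ge hl x
  have := hl.2
  linarith

theorem E_continuous (l : ℝ) : Continuous (E l) := by
  unfold E; fun_prop

theorem it_succ (l : ℝ) (n : ℕ) (x : ℝ) : (E l)^[n+1] x = E l ((E l)^[n] x) :=
  Function.iterate_succ_apply' _ _ _

theorem it_succ' (l : ℝ) (n : ℕ) (x : ℝ) : (E l)^[n+1] x = (E l)^[n] (E l x) :=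
  Function.iterate_succ_apply _ _ _

theorem it_add (l : ℝ) (m n : ℕ) (x : ℝ) : (E l)^[m+n] x = (E l)^[m] ((E l)^[n] x) :=
  Function.iterate_add_apply _ _ _ _

theorem it_strictMono (hl : Ok l) (n : ℕ) : StrictMono ((E l)^[n]) :=
  (E_strictMono hl).iterate n

theorem it_mono (hl : Ok l) (n : ℕ) : Monotone ((E l)^[n]) := (it_strictMono hl n).monotone

theorem it_continuous (l : ℝ) (n : ℕ) : Continuous ((E l)^[n]) := (E_continuous l).iterate n

theorem it_ge (hl : Ok l) (n : ℕ) (x : ℝ) : x + n * (1 + Real.log l) ≤ (E l)^[n] x := by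
  induction n with
  | zero => simp
  | succ n ih =>
    rw [it_succ]
    have := E_ge hl ((E l)^[n] x)
    push_cast
    linarith

theorem it_tendsto (hl : Ok l) (x : ℝ) : Tendsto (fun n => (E l)^[n] x) atTop atTop := by
  refine tendsto_atTop_mono (fun n => it_ge hl n x) ?_
  exact tendsto_atTop_add_const_left _ _
    (tendsto_natCast_atTop_atTop.atTop_mul_const hl.2)

theorem it_lt_succ (hl : Ok l) (n : ℕ) (x : ℝ) : (E l)^[n] x < (E l)^[n+1] x := by
  rw [it_succ]; exact lt_E hl _

theorem it_mono_n (hl : Ok l) (x : ℝ) : StrictMono (fun n => (E l)^[n] x) :=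
  strictMono_nat_of_lt_succ (fun n => it_lt_succ hl n x)

theorem it_pos (hl : Ok l) (n : ℕ) (x : ℝ) : 0 < (E l)^[n+1] x := by
  rw [it_succ]; exact E_pos hl _

/-- orbit of 0 -/
noncomputable def en (l : ℝ) (j : ℕ) : ℝ := (E l)^[j] 0

@[simp] theorem en_zero (l : ℝ) : en l 0 = 0 := rfl

theorem en_one (l : ℝ) : en l 1 = l := by simp [en, E]

theorem en_succ (l : ℝ) (j : ℕ) : en l (j+1) = E l (en l j) := it_succ _ _ _

theorem en_pos (hl : Ok l) (j : ℕ) : 0 < en l (j+1) := it_pos hl j 0

theorem en_nonneg (hl : Ok l) (j : ℕ) : 0 ≤ en l j := by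
  cases j with
  | zero => simp
  | succ j => exact (en_pos hl j).le

theorem en_strictMono (hl : Ok l) : StrictMono (en l) := it_mono_n hl 0

theorem en_tendsto (hl : Ok l) : Tendsto (en l) atTop atTop := it_tendsto hl 0

/-- derivative of the j-th iterate at 0 -/
noncomputable def D (l : ℝ) : ℕ → ℝ
  | 0 => 1
  | j+1 => D l j * en l (j+1)

noncomputable def S (l : ℝ) : ℕ → ℝ
  | 0 => 0
  | j+1 => S l j + D l j

theorem D_pos (hl : Ok l) (j : ℕ) : 0 < D l j := by
  induction j with
  | zero => simp [D]
  | succ j ih => exact mul_pos ih (en_pos hl j)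

theorem D_succ (l : ℝ) (j : ℕ) : D l (j+1) = D l j * en l (j+1) := rfl
theorem S_succ (l : ℝ) (j : ℕ) : S l (j+1) = S l j + D l j := rfl

theorem S_nonneg (hl : Ok l) (j : ℕ) : 0 ≤ S l j := by
  induction j with
  | zero => simp [S]
  | succ j ih => rw [S_succ]; have := D_pos hl j; linarith

theorem it_tangent (hl : Ok l) (j : ℕ) (x : ℝ) : en l j + D l j * x ≤ (E l)^[j] x := by
  induction j with
  | zero => simp [D]
  | succ j ih =>
    rw [it_succ, en_succ, D_succ]
    calc E l (en l j) + D l j * en l (j+1) * x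
        = E l (en l j) * (1 + D l j * x) := by rw [en_succ]; ring
      _ ≤ E l (en l j) * Real.exp (D l j * x) := by
          apply mul_le_mul_of_nonneg_left _ (E_pos hl _).le
          have := Real.add_one_le_exp (D l j * x); linarith
      _ = E l (en l j + D l j * x) := by rw [E_add]; ring
      _ ≤ E l ((E l)^[j] x) := (E_strictMono hl).monotone ih

theorem it_upper (hl : Ok l) (j : ℕ) {x : ℝ} (hx : x * S l j < 1) :
    (E l)^[j] x ≤ en l j + D l j * x / (1 - x * S l j) := by
  induction j with
  | zero => simp [D, S]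
  | succ j ih =>
    have hD := D_pos hl j
    have hS := S_nonneg hl j
    have hx1 : x * S l j + x * D l j < 1 := by
      have := hx; rw [S_succ] at this; linarith
    have hx2 : x * S l j < 1 := by
      by_cases h0 : 0 ≤ x
      · have := mul_nonneg h0 hD.le; linarith
      · have := mul_nonneg (neg_nonneg.2 (not_le.1 h0).le) hS; linarith
    have h1 : 0 < 1 - x * S l j := by linarith
    have h2 : 0 < 1 - x * S l j - x * D l j := by linarith
    set v := D l j * x / (1 - x * S l j) with hv
    have hv1 : 1 - v = (1 - x * S l j - x * D l j) / (1 - x * S l j) := by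
      rw [hv]; field_simp
    have hv2 : 0 < 1 - v := by rw [hv1]; positivity
    have key : Real.exp v ≤ 1 / (1 - v) := by
      rw [le_div_iff₀ hv2]
      have h3 : 1 - v ≤ Real.exp (-v) := by
        have := Real.add_one_le_exp (-v); linarith
      calc Real.exp v * (1 - v) ≤ Real.exp v * Real.exp (-v) :=
            mul_le_mul_of_nonneg_left h3 (Real.exp_pos _).le
        _ = 1 := by rw [← Real.exp_add]; simp
    calc (E l)^[j+1] x = E l ((E l)^[j] x) := it_succ _ _ _
      _ ≤ E l (en l j + v) := (E_strictMono hl).monotone (ih hx2)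
      _ = Real.exp v * E l (en l j) := E_add _ _ _
      _ ≤ 1 / (1 - v) * E l (en l j) := mul_le_mul_of_nonneg_right key (E_pos hl _).le
      _ = en l (j+1) + D l (j+1) * x / (1 - x * S l (j+1)) := by
          rw [hv1, ← en_succ, D_succ, S_succ]
          have : 1 - x * (S l j + D l j) ≠ 0 := by
            intro h; linarith
          have h2' := h2.ne'
          have h1' := h1.ne'
          field_simp
          ring

/-- S_{j+1} ≤ C D_j -/
theorem exists_CS (hl : Ok l) : ∃ C : ℝ, 1 ≤ C ∧ ∀ j, S l (j+1) ≤ C * D l j := by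
  -- r_j = S_{j+1}/D_j
  obtain ⟨N, hN⟩ := ((en_tendsto hl).eventually_ge_atTop 2).exists_forall_of_atTop
  obtain ⟨C, hC⟩ : ∃ C : ℝ, ∀ j ≤ N, S l (j+1) / D l j ≤ C := by
    obtain ⟨C, hC⟩ := ((Finset.range (N+1)).image (fun j => S l (j+1) / D l j)).exists_le
    exact ⟨C, fun j hj => hC _ (Finset.mem_image_of_mem _ (Finset.mem_range.2 (by omega)))⟩
  refine ⟨max C 2, le_trans (by norm_num) (le_max_right _ _), ?_⟩
  intro j
  by_cases hj : j ≤ N
  · have := hC j hj
    rw [div_le_iff₀ (D_pos hl j)] at this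
    exact this.trans (mul_le_mul_of_nonneg_right (le_max_left _ _) (D_pos hl j).le)
  · push Not at hj
    induction j, hj.le using Nat.le_induction with
    | base => exact absurd hj (lt_irrefl _)
    | succ j hNj ih =>
      have hprev : S l (j+1) ≤ max C 2 * D l j := by
        rcases hNj.lt_or_eq with h | h
        · exact ih h
        · have := hC j h.ge
          rw [div_le_iff₀ (D_pos hl j)] at this
          exact this.trans (mul_le_mul_of_nonneg_right (le_max_left _ _) (D_pos hl j).le)
      rw [S_succ l (j+1)]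
      have h2 : 2 ≤ en l (j+1) := hN (j+1) (by omega)
      have hD := D_pos hl j
      have hD1 : D l j * 2 ≤ D l (j+1) := by
        rw [D_succ]; exact mul_le_mul_of_nonneg_left h2 hD.le
      have hm : 2 ≤ max C 2 := le_max_right _ _
      nlinarith

theorem D_tendsto (hl : Ok l) : Tendsto (D l) atTop atTop := by
  obtain ⟨N, hN⟩ := ((en_tendsto hl).eventually_ge_atTop 2).exists_forall_of_atTop
  have h : ∀ k, D l N * 2 ^ k ≤ D l (N + k) := by
    intro k
    induction k with
    | zero => simp
    | succ k ih =>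
      rw [← add_assoc, D_succ]
      have h2 : 2 ≤ en l (N + k + 1) := hN _ (by omega)
      calc D l N * 2 ^ (k+1) = (D l N * 2^k) * 2 := by ring
        _ ≤ D l (N+k) * en l (N+k+1) := mul_le_mul ih h2 (by norm_num) (D_pos hl _).le
  have h3 : Tendsto (fun k => D l (N + k)) atTop atTop := by
    refine tendsto_atTop_mono h ?_
    exact (tendsto_pow_atTop_atTop_of_one_lt (by norm_num : (1:ℝ) < 2)).const_mul_atTop (D_pos hl N)
  have h4 : Tendsto (fun k => D l (k + N)) atTop atTop := by
    simpa [add_comm] using h3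
  exact (tendsto_add_atTop_iff_nat N).1 h4

/-- D_{j+1} ≤ exp (2 e_j + C) -/
theorem exists_CD (hl : Ok l) : ∃ C : ℝ, 0 ≤ C ∧ ∀ j, D l (j+1) ≤ Real.exp (2 * en l j + C) := by
  have hlog : ∀ᶠ x : ℝ in atTop, Real.log l + 2 * x ≤ E l x := by
    have h1 : Tendsto (fun x : ℝ => Real.exp x / x) atTop atTop := by
      simpa using Real.tendsto_exp_div_pow_atTop 1
    have h2 : ∀ᶠ x : ℝ in atTop, 3 / l ≤ Real.exp x / x := h1.eventually_ge_atTop _
    filter_upwards [h2, eventually_ge_atTop (max 1 (Real.log l))] with x hx hx1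
    have hx0 : 0 < x := lt_of_lt_of_le one_pos ((le_max_left _ _).trans hx1)
    have hx3 : Real.log l ≤ x := (le_max_right _ _).trans hx1
    rw [div_le_div_iff₀ hl.1 hx0] at hx
    unfold E
    linarith
  obtain ⟨N, hN⟩ := ((en_tendsto hl).eventually hlog).exists_forall_of_atTop
  obtain ⟨C, hC⟩ : ∃ C : ℝ, ∀ j ≤ N, Real.log (D l (j+1)) - 2 * en l j ≤ C := by
    obtain ⟨C, hC⟩ := ((Finset.range (N+1)).image
      (fun j => Real.log (D l (j+1)) - 2 * en l j)).exists_le
    exact ⟨C, fun j hj => hC _ (Finset.mem_image_of_mem _ (Finset.mem_range.2 (by omega)))⟩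
  refine ⟨max C 0, le_max_right _ _, ?_⟩
  have key : ∀ j, Real.log (D l (j+1)) ≤ 2 * en l j + max C 0 := by
    intro j
    by_cases hj : j ≤ N
    · have := hC j hj
      have := le_max_left C 0
      linarith
    · push Not at hj
      induction j, hj.le using Nat.le_induction with
      | base => exact absurd hj (lt_irrefl _)
      | succ j hNj ih =>
        have hprev : Real.log (D l (j+1)) ≤ 2 * en l j + max C 0 := by
          rcases hNj.lt_or_eq with h | h
          · exact ih h
          · have := hC j h.ge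
            have := le_max_left C 0
            linarith
        have h5 : Real.log (D l (j+2)) = Real.log (D l (j+1)) + (Real.log l + en l (j+1)) := by
          rw [D_succ, Real.log_mul (D_pos hl _).ne' (en_pos hl _).ne', en_succ l (j+1), E,
            Real.log_mul hl.1.ne' (Real.exp_pos _).ne', Real.log_exp]
        have h6 := hN j hNj
        rw [← en_succ] at h6
        have : Real.log (D l (j+1+1)) = Real.log (D l (j+2)) := rfl
        rw [this, h5]
        linarith
  intro j
  have := key j
  rw [← Real.exp_log (D_pos hl (j+1))]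
  exact Real.exp_le_exp.2 this

/-- differences of orbits of real points diverge -/
theorem it_diff_tendsto (hl : Ok l) {x y : ℝ} (h : x < y) :
    Tendsto (fun n => (E l)^[n] y - (E l)^[n] x) atTop atTop := by
  obtain ⟨N, hN⟩ := ((it_tendsto hl x).eventually_ge_atTop
    (Real.log (2 / l))).exists_forall_of_atTop
  have step : ∀ n, N ≤ n → 2 * ((E l)^[n] y - (E l)^[n] x) ≤
      (E l)^[n+1] y - (E l)^[n+1] x := by
    intro n hn
    rw [it_succ, it_succ]
    set a := (E l)^[n] x with ha
    set b := (E l)^[n] y with hb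
    have hab : a < b := it_strictMono hl n h
    have h1 : E l b = E l a * Real.exp (b - a) := by
      have := E_add l a (b - a)
      rw [show a + (b - a) = b by ring] at this
      rw [this]; ring
    have h2 : 2 ≤ E l a := by
      have := hN n hn
      unfold E
      have h3 := Real.exp_le_exp.2 this
      rw [Real.exp_log (by have := hl.1; positivity)] at h3
      rw [div_le_iff₀ hl.1] at h3
      linarith
    have h3 := Real.add_one_le_exp (b - a)
    rw [h1]
    nlinarith
  have h5 : ∀ k, 2 ^ k * ((E l)^[N] y - (E l)^[N] x) ≤ (E l)^[k + N] y - (E l)^[k + N] x := by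
    intro k
    induction k with
    | zero => simp
    | succ k ih =>
      have := step (k + N) (by omega)
      have e : k + 1 + N = k + N + 1 := by ring
      rw [e]
      rw [pow_succ]
      linarith
  have h6 : 0 < (E l)^[N] y - (E l)^[N] x := sub_pos.2 (it_strictMono hl N h)
  have h7 : Tendsto (fun k => (E l)^[k + N] y - (E l)^[k + N] x) atTop atTop := by
    refine tendsto_atTop_mono h5 ?_
    exact (tendsto_pow_atTop_atTop_of_one_lt (by norm_num : (1:ℝ) < 2)).atTop_mul_const h6
  exact (tendsto_add_atTop_iff_nat N).1 h7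

end Pool.Agent.H64.KExp
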