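import Pool.Agent.H64.KExpHomeo

/-!
Regularisation of an increasing homeomorphism.
-/

set_option autoImplicit false

namespace Pool.Agent.H64.KExp

open Filter Topology

/-- upper regularisation -/
noncomputable def Rg (G : ℝ → ℝ) (x : ℝ) : ℝ := ⨆ t : NNReal, G (x + t) * Real.exp (-2 * t)

section
variable {G : ℝ → ℝ} {C0 : ℝ}

theorem Rg_term_le (hg : ∀ x, 0 ≤ x → G x ≤ C0 * Real.exp x) {x : ℝ} (hx : 0 ≤ x) (t : NNReal) :
    G (x + t) * Real.exp (-2 * t) ≤ C0 * Real.exp (x - t) := by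
  have h1 := mul_le_mul_of_nonneg_right (hg (x + t) (by positivity)) (Real.exp_pos (-2 * (t:ℝ))).le
  refine h1.trans (le_of_eq ?_)
  rw [mul_assoc, ← Real.exp_add]
  congr 2; ring

theorem Rg_bdd (hC0 : 0 ≤ C0) (hg : ∀ x, 0 ≤ x → G x ≤ C0 * Real.exp x) {x : ℝ} (hx : 0 ≤ x) :
    BddAbove (Set.range fun t : NNReal => G (x + t) * Real.exp (-2 * t)) := by
  refine ⟨C0 * Real.exp x, ?_⟩
  rintro _ ⟨t, rfl⟩
  refine (Rg_term_le hg hx t).trans ?_
  apply mul_le_mul_of_nonneg_left _ hC0
  apply Real.exp_le_exp.2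
  have : (0:ℝ) ≤ t := t.2
  linarith

theorem le_Rg (hC0 : 0 ≤ C0) (hg : ∀ x, 0 ≤ x → G x ≤ C0 * Real.exp x) {x : ℝ} (hx : 0 ≤ x)
    {t : ℝ} (ht : 0 ≤ t) : G (x + t) * Real.exp (-2 * t) ≤ Rg G x :=
  le_ciSup (Rg_bdd hC0 hg hx) (⟨t, ht⟩ : NNReal)

theorem self_le_Rg (hC0 : 0 ≤ C0) (hg : ∀ x, 0 ≤ x → G x ≤ C0 * Real.exp x) {x : ℝ} (hx : 0 ≤ x) :
    G x ≤ Rg G x := by
  have := le_Rg hC0 hg hx le_rfl
  simpa using this

theorem Rg_mono (hC0 : 0 ≤ C0) (hg : ∀ x, 0 ≤ x → G x ≤ C0 * Real.exp x) (hm : Monotone G)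
    {x y : ℝ} (hx : 0 ≤ x) (hxy : x ≤ y) : Rg G x ≤ Rg G y := by
  apply ciSup_le
  intro t
  refine le_trans ?_ (le_Rg hC0 hg (hx.trans hxy) t.2)
  exact mul_le_mul_of_nonneg_right (hm (by simpa using hxy)) (Real.exp_pos _).le

theorem Rg_add (hC0 : 0 ≤ C0) (hg : ∀ x, 0 ≤ x → G x ≤ C0 * Real.exp x) {x s : ℝ}
    (hx : 0 ≤ x) (hs : 0 ≤ s) : Rg G (x + s) ≤ Real.exp (2*s) * Rg G x := by
  apply ciSup_le
  intro t
  have ht : (0:ℝ) ≤ t := t.2
  have h1 := le_Rg hC0 hg hx (add_nonneg hs ht)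
  have h2 := mul_le_mul_of_nonneg_left h1 (Real.exp_pos (2*s)).le
  refine le_trans (le_of_eq ?_) h2
  have e1 : Real.exp (-2 * (t:ℝ)) = Real.exp (2*s) * Real.exp (-2 * (s + t)) := by
    rw [← Real.exp_add]; congr 1; ring
  rw [e1, ← add_assoc]; ring

theorem Rg_le (hC0 : 0 ≤ C0) (hg : ∀ x, 0 ≤ x → G x ≤ C0 * Real.exp x) (hm : Monotone G)
    (h0 : 0 ≤ G 0) {x : ℝ} (hx : 0 ≤ x) : Rg G x ≤ G (2*x) + C0 := by
  apply ciSup_le
  intro t
  have ht : (0:ℝ) ≤ t := t.2
  have hpos : ∀ y, 0 ≤ y → 0 ≤ G y := fun y hy => h0.trans (hm hy)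
  rcases le_total (t:ℝ) x with h | h
  · have h1 : G (x + t) ≤ G (2*x) := hm (by linarith)
    have h2 : Real.exp (-2 * (t:ℝ)) ≤ 1 := Real.exp_le_one_iff.2 (by linarith)
    have h3 := hpos (x + t) (by positivity)
    have h4 : G (x + t) * Real.exp (-2 * (t:ℝ)) ≤ G (x + t) := mul_le_of_le_one_right h3 h2
    linarith
  · refine (Rg_term_le hg hx t).trans ?_
    have h2 : Real.exp (x - t) ≤ 1 := Real.exp_le_one_iff.2 (by linarith)
    have h3 : C0 * Real.exp (x - t) ≤ C0 := mul_le_of_le_one_right hC0 h2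
    have := hpos (2*x) (by linarith)
    linarith

/-- near-maximiser -/
theorem exists_near (hC0 : 0 ≤ C0) (hg : ∀ x, 0 ≤ x → G x ≤ C0 * Real.exp x) {x : ℝ}
    (hx : 0 ≤ x) : ∃ t : ℝ, 0 ≤ t ∧ Rg G x - 1 ≤ G (x + t) * Real.exp (-2 * t) := by
  obtain ⟨t, ht⟩ := exists_lt_of_lt_ciSup (show Rg G x - 1 < Rg G x by linarith)
  exact ⟨t, t.2, ht.le⟩

end

/-- the regularised function, equal to `G` below `p` -/
noncomputable def opf (G : ℝ → ℝ) (p : ℝ) (x : ℝ) : ℝ :=
  G (min x p) + (Rg G (max x p) - Rg G p) + (Real.exp (-p) - Real.exp (-(max x p)))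

section
variable {G : ℝ → ℝ} {C0 p : ℝ}

theorem opf_low {x : ℝ} (h : x ≤ p) : opf G p x = G x := by
  unfold opf
  rw [min_eq_left h, max_eq_right h]; ring

theorem opf_high {x : ℝ} (h : p ≤ x) : opf G p x =
    G p + (Rg G x - Rg G p) + (Real.exp (-p) - Real.exp (-x)) := by
  unfold opf
  rw [min_eq_right h, max_eq_left h]

theorem opf_strictMono (hC0 : 0 ≤ C0) (hg : ∀ x, 0 ≤ x → G x ≤ C0 * Real.exp x)
    (hm : StrictMono G) (hp : 0 ≤ p) : StrictMono (opf G p) := by
  intro x y hxy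
  rcases le_total y p with h | h
  · rw [opf_low h, opf_low (hxy.le.trans h)]; exact hm hxy
  · rcases le_total x p with h' | h'
    · rw [opf_low h', opf_high h]
      have h1 : Rg G p ≤ Rg G y := Rg_mono hC0 hg hm.monotone hp h
      have h2 : Real.exp (-y) ≤ Real.exp (-p) := Real.exp_le_exp.2 (by linarith)
      rcases h'.lt_or_eq with h3 | h3
      · have := hm h3; linarith
      · subst h3
        have : Real.exp (-y) < Real.exp (-x) := Real.exp_lt_exp.2 (by linarith)
        linarith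
    · rw [opf_high h, opf_high h']
      have h1 : Rg G x ≤ Rg G y := Rg_mono hC0 hg hm.monotone (hp.trans h') hxy.le
      have : Real.exp (-y) < Real.exp (-x) := Real.exp_lt_exp.2 (by linarith)
      linarith

theorem opf_continuous (hC0 : 0 ≤ C0) (hg : ∀ x, 0 ≤ x → G x ≤ C0 * Real.exp x)
    (hm : StrictMono G) (hcont : Continuous G) (h0 : G 0 = 0) (hp : 0 < p) :
    Continuous (opf G p) := by
  have hpos : ∀ x, 0 < Rg G (max x p) := by
    intro x
    have h1 : 0 < max x p := lt_of_lt_of_le hp (le_max_right _ _)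
    have h2 : 0 < G (max x p) := by rw [← h0]; exact hm h1
    exact h2.trans_le (self_le_Rg hC0 hg h1.le)
  have hlip : LipschitzWith 2 (fun x => Real.log (Rg G (max x p))) := by
    apply LipschitzWith.of_dist_le_mul
    intro x y
    wlog hxy : x ≤ y generalizing x y with H
    · have := H y x (le_of_lt (not_le.1 hxy))
      rwa [dist_comm, dist_comm x y]
    have h1 : 0 ≤ max x p := (hp.le.trans (le_max_right _ _))
    have hmm : max x p ≤ max y p := max_le_max_right _ hxy
    have h2 := Rg_mono hC0 hg hm.monotone h1 hmm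
    have h3 := Rg_add hC0 hg h1 (sub_nonneg.2 hmm)
    rw [add_sub_cancel] at h3
    have h4 := Real.log_le_log (hpos x) h2
    have h5 := Real.log_le_log (hpos y) h3
    rw [Real.log_mul (Real.exp_pos _).ne' (hpos x).ne', Real.log_exp] at h5
    have h6 : max y p - max x p ≤ y - x := by
      rcases le_total x p with hx | hx
      · rw [max_eq_right hx]
        rcases le_total y p with hy | hy
        · rw [max_eq_right hy]; linarith
        · rw [max_eq_left hy]; linarith
      · rw [max_eq_left hx, max_eq_left (hx.trans hxy)]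
    rw [Real.dist_eq, Real.dist_eq, abs_of_nonpos (by linarith), abs_of_nonpos (by linarith)]
    push_cast
    linarith
  have hR : Continuous fun x => Rg G (max x p) := by
    have : (fun x => Rg G (max x p)) = fun x => Real.exp (Real.log (Rg G (max x p))) := by
      funext x; rw [Real.exp_log (hpos x)]
    rw [this]
    exact Real.continuous_exp.comp hlip.continuous
  unfold opf
  exact ((hcont.comp (continuous_id.min continuous_const)).add (hR.sub continuous_const)).add
    (continuous_const.sub (Real.continuous_exp.comp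
      ((continuous_id.max continuous_const).neg)))

theorem exists_op (G : ℝ ≃o ℝ) (hC0 : 0 ≤ C0) (hg : ∀ x, 0 ≤ x → G x ≤ C0 * Real.exp x)
    (h0 : G 0 = 0) (hp : 0 < p) : ∃ K : ℝ ≃o ℝ, ∀ x, K x = opf G p x := by
  have hs := opf_strictMono hC0 hg G.strictMono hp.le
  have hc := opf_continuous hC0 hg G.strictMono G.continuous h0 hp
  have htop : Tendsto (opf G p) atTop atTop := by
    have h1 : Tendsto (fun x => G x + (-(Rg G p))) atTop atTop :=
      tendsto_atTop_add_const_right _ _ G.tendsto_atTop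
    refine tendsto_atTop_mono' _ ?_ h1
    filter_upwards [eventually_ge_atTop p] with x hx
    rw [opf_high hx]
    have h2 := self_le_Rg hC0 hg (hp.le.trans hx)
    have h3 : 0 < G p := by rw [← h0]; exact G.strictMono hp
    have h4 : Real.exp (-x) ≤ Real.exp (-p) := Real.exp_le_exp.2 (by linarith)
    linarith
  have hbot : Tendsto (opf G p) atBot atBot := by
    refine Tendsto.congr' ?_ G.tendsto_atBot
    filter_upwards [eventually_le_atBot p] with x hx
    rw [opf_low hx]
  have hsurj : Function.Surjective (opf G p) := hc.surjective htop hbot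
  exact ⟨hs.orderIsoOfSurjective _ hsurj, fun x => rfl⟩

end

/-- one-sided regularisation with its properties -/
theorem reg_one {p q C0 : ℝ} (hp : 0 < p) (hq : 0 < q) (hC0 : 1 ≤ C0) :
    ∃ C : ℝ, 1 ≤ C ∧ ∀ G : ℝ ≃o ℝ, G 0 = 0 → G p = q →
      (∀ x, 0 ≤ x → G x ≤ C0 * Real.exp x) → ∃ K : ℝ ≃o ℝ, (∀ x, K x = opf G p x) ∧
      (∀ x, x ≤ p → K x = G x) ∧ (∀ x, 0 ≤ x → K x ≤ G (2*x) + C) ∧
      (∀ x, 0 ≤ x → G x ≤ K x + C) ∧ (∀ x, 0 ≤ x → K (x+1) ≤ C * K x + C) := by
  set C := Real.exp 2 * (C0 * Real.exp (2*p) + C0) + C0 * Real.exp (2*(p+1)) + C0 + 1 with hC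
  have hC00 : 0 ≤ C0 := by linarith
  have hC1 : 1 ≤ C := by
    have : 0 ≤ Real.exp 2 * (C0 * Real.exp (2*p) + C0) := by positivity
    have : 0 ≤ C0 * Real.exp (2*(p+1)) := by positivity
    rw [hC]; linarith
  refine ⟨C, hC1, ?_⟩
  intro G h0 hpq hg
  obtain ⟨K, hK⟩ := exists_op G hC00 hg h0 hp
  have hRp : Rg G p ≤ C0 * Real.exp (2*p) + C0 := by
    have h1 := Rg_le hC00 hg G.monotone h0.ge hp.le
    have h2 := hg (2*p) (by linarith)
    linarith
  have hRp0 : q ≤ Rg G p := by rw [← hpq]; exact self_le_Rg hC00 hg hp.le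
  have hK2 : ∀ x, 0 ≤ x → K x ≤ G (2*x) + (C0 + 1) := by
    intro x hx
    rw [hK]
    rcases le_total x p with h | h
    · rw [opf_low h]
      have := G.monotone (show x ≤ 2*x by linarith)
      linarith
    · rw [opf_high h, hpq]
      have h1 := Rg_le hC00 hg G.monotone h0.ge hx
      have h2 : Real.exp (-p) ≤ 1 := Real.exp_le_one_iff.2 (by linarith)
      have h3 := Real.exp_pos (-x)
      linarith
  have hpC : C0 * Real.exp (2*p) + C0 ≤ C := by
    rw [hC]
    have h1 : C0 * Real.exp (2*p) ≤ C0 * Real.exp (2*(p+1)) :=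
      mul_le_mul_of_nonneg_left (Real.exp_le_exp.2 (by linarith)) hC00
    have h2 : 0 ≤ Real.exp 2 * (C0 * Real.exp (2*p) + C0) := by positivity
    linarith
  have hC01 : C0 + 1 ≤ C := by
    have : 0 ≤ Real.exp 2 * (C0 * Real.exp (2*p) + C0) := by positivity
    have : 0 ≤ C0 * Real.exp (2*(p+1)) := by positivity
    rw [hC]; linarith
  refine ⟨K, hK, fun x hx => by rw [hK, opf_low hx], fun x hx => ?_, fun x hx => ?_,
    fun x hx => ?_⟩
  · have := hK2 x hx; linarith
  · rw [hK]
    rcases le_total x p with h | h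
    · rw [opf_low h]; linarith
    · rw [opf_high h, hpq]
      have h1 := self_le_Rg hC00 hg hx
      have h4 : Real.exp (-x) ≤ Real.exp (-p) := Real.exp_le_exp.2 (by linarith)
      linarith
  · have hKx : 0 ≤ K x := by
      rw [hK]
      have h1 : opf G p 0 = 0 := by rw [opf_low hp.le, h0]
      rw [← h1]
      exact (opf_strictMono hC00 hg G.strictMono hp.le).monotone hx
    rcases le_total x p with h | h
    · have h1 : K (x+1) ≤ K (p+1) := K.monotone (by linarith)
      have h2 := hK2 (p+1) (by linarith)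
      have h3 := hg (2*(p+1)) (by linarith)
      have h4 : C0 * Real.exp (2*(p+1)) + (C0 + 1) ≤ C := by
        have : 0 ≤ Real.exp 2 * (C0 * Real.exp (2*p) + C0) := by positivity
        rw [hC]; linarith
      have h5 : 0 ≤ C * K x := mul_nonneg (by linarith) hKx
      linarith
    · have h1 : K (x+1) ≤ Rg G (x+1) + 1 := by
        rw [hK, opf_high (by linarith), hpq]
        have h2 : Real.exp (-p) ≤ 1 := Real.exp_le_one_iff.2 (by linarith)
        have h3 := Real.exp_pos (-(x+1))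
        linarith
      have h2 := Rg_add hC00 hg hx (show (0:ℝ) ≤ 1 by norm_num)
      rw [mul_one] at h2
      have h3 : Rg G x ≤ K x + (C0 * Real.exp (2*p) + C0) := by
        rw [hK, opf_high h, hpq]
        have h4 : Real.exp (-x) ≤ Real.exp (-p) := Real.exp_le_exp.2 (by linarith)
        linarith
      have h4 : Real.exp 2 * Rg G x ≤ Real.exp 2 * (K x + (C0 * Real.exp (2*p) + C0)) :=
        mul_le_mul_of_nonneg_left h3 (Real.exp_pos _).le
      have h5 : Real.exp 2 ≤ C := by
        rw [hC]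
        have e1 : Real.exp 2 * 1 ≤ Real.exp 2 * (C0 * Real.exp (2*p) + C0) := by
          apply mul_le_mul_of_nonneg_left _ (Real.exp_pos _).le
          have : 0 ≤ C0 * Real.exp (2*p) := by positivity
          linarith
        have : 0 ≤ C0 * Real.exp (2*(p+1)) := by positivity
        linarith
      have h6 : Real.exp 2 * K x ≤ C * K x := mul_le_mul_of_nonneg_right h5 hKx
      have h7 : Real.exp 2 * (C0 * Real.exp (2*p) + C0) + 1 ≤ C := by
        have : 0 ≤ C0 * Real.exp (2*(p+1)) := by positivity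
        rw [hC]; linarith
      linarith

/-- two-sided regularisation -/
theorem regularise {p q C0 : ℝ} (hp : 0 < p) (hq : 0 < q) (hC0 : 1 ≤ C0) :
    ∃ C : ℝ, 1 ≤ C ∧ ∀ G : ℝ ≃o ℝ, G 0 = 0 → G p = q →
      (∀ x, 0 ≤ x → G x ≤ C0 * Real.exp x) → (∀ y, 0 ≤ y → G.symm y ≤ C0 * Real.exp y) →
      ∃ K : ℝ ≃o ℝ, (∀ x, x ≤ p → K x = G x) ∧
      (∀ x, 0 ≤ x → K x ≤ G (C*x + C) + C) ∧
      (∀ y, 0 ≤ y → K.symm y ≤ G.symm (C*y + C) + C) ∧
      (∀ x, 0 ≤ x → K (x+1) ≤ C * K x + C) ∧
      (∀ y, 0 ≤ y → K.symm (y+1) ≤ C * K.symm y + C) := by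
  obtain ⟨A, hA1, hA⟩ := reg_one hp hq hC0
  set C0' := C0 * Real.exp A with hC0'
  have hC0'1 : 1 ≤ C0' := by
    have : 1 ≤ Real.exp A := Real.one_le_exp (by linarith)
    rw [hC0']; nlinarith
  obtain ⟨B, hB1, hB⟩ := reg_one hq hp hC0'1
  -- constant for the lower growth of K2
  set W := A * (A * (q + 1) + A) + A + (C0 * Real.exp (2*3) + A) with hW
  set C := A * A + (A*A + A*A + A) + 2*B + B + A + 2 + (C0 * Real.exp (2*3) + A) +
    (A*A+2) * q + 2 * A with hC
  have hexp6 : 0 ≤ C0 * Real.exp (2*3) := by positivity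
  have hAA : 0 ≤ A * A := by positivity
  have hAq : 0 ≤ (A*A+2) * q := by positivity
  have hC1 : 1 ≤ C := by rw [hC]; linarith
  refine ⟨C, hC1, ?_⟩
  intro G h0 hpq hg hg'
  obtain ⟨K1, -, k1low, k1up, k1lo, k1lip⟩ := hA G h0 hpq hg
  have hK10 : K1 0 = 0 := by rw [k1low 0 hp.le, h0]
  have hK1p : K1 p = q := by rw [k1low p le_rfl, hpq]
  set P := K1.symm with hP
  have hP0 : P 0 = 0 := by rw [hP, OrderIso.symm_apply_eq, hK10]
  have hPq : P q = p := by rw [hP, OrderIso.symm_apply_eq, hK1p]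
  have hPnn : ∀ y, 0 ≤ y → 0 ≤ P y := fun y hy => by rw [← hP0]; exact P.monotone hy
  -- P y ≤ G.symm (y + A)
  have hPG : ∀ y, 0 ≤ y → P y ≤ G.symm (y + A) := by
    intro y hy
    have h1 := k1lo (P y) (hPnn y hy)
    rw [hP, OrderIso.apply_symm_apply] at h1
    rw [← G.le_iff_le, OrderIso.apply_symm_apply]
    exact h1
  have hPg : ∀ y, 0 ≤ y → P y ≤ C0' * Real.exp y := by
    intro y hy
    refine (hPG y hy).trans ((hg' (y + A) (by linarith)).trans (le_of_eq ?_))
    rw [hC0', Real.exp_add]; ring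
  obtain ⟨K2, k2def, k2low, k2up, k2lo, k2lip⟩ := hB P hP0 hPq hPg
  have hK20 : K2 0 = 0 := by rw [k2low 0 hq.le, hP0]
  have hK2nn : ∀ y, 0 ≤ y → 0 ≤ K2 y := fun y hy => by rw [← hK20]; exact K2.monotone hy
  have hKnn : ∀ x, 0 ≤ x → 0 ≤ K2.symm x := by
    intro x hx
    rw [← K2.le_iff_le, hK20, OrderIso.apply_symm_apply]; exact hx
  -- growth of P: P (A v + A) ≥ P v + 1
  have hPstep : ∀ v, 0 ≤ v → P v + 1 ≤ P (A * v + A) := by
    intro v hv
    have h1 := k1lip (P v) (hPnn v hv)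
    rw [hP, OrderIso.apply_symm_apply] at h1
    rw [hP, ← K1.le_iff_le, OrderIso.apply_symm_apply]
    exact h1
  have hC0'0 : 0 ≤ C0' := by linarith
  have hPm := P.monotone
  -- lower growth of Rg P
  have hRstep : ∀ y, 0 ≤ y → Rg P y + 1 ≤ Rg P (A * (A * (y + 1) + A) + A +
      (C0 * Real.exp (2*3) + A)) := by
    intro y hy
    set y' := A * (A * (y + 1) + A) + A + (C0 * Real.exp (2*3) + A) with hy'
    have hAy : y + 1 ≤ A * (y + 1) := le_mul_of_one_le_left (by linarith) hA1
    have hAy2 : A * (y+1) + A ≤ A * (A * (y + 1) + A) :=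
      le_mul_of_one_le_left (by positivity) hA1
    have hyy' : y + 1 ≤ y' := by rw [hy']; linarith
    have hy'0 : 0 ≤ y' := by linarith
    obtain ⟨t, ht0, ht⟩ := exists_near hC0'0 hPg hy
    rcases le_total t 1 with ht1 | ht1
    · -- P (y+t) ≥ R - 1
      have h1 : Rg P y - 1 ≤ P (y + t) := by
        refine ht.trans ?_
        have h2 : Real.exp (-2 * t) ≤ 1 := Real.exp_le_one_iff.2 (by linarith)
        exact mul_le_of_le_one_right (hPnn _ (by linarith)) h2
      have h2 : P (y + t) ≤ P (y + 1) := hPm (by linarith)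
      have h3 := hPstep (y+1) (by linarith)
      have h4 := hPstep (A * (y+1) + A) (by positivity)
      have h5 : P (A * (A * (y + 1) + A) + A) ≤ P y' := hPm (by rw [hy']; linarith)
      have h6 := self_le_Rg hC0'0 hPg hy'0
      linarith
    · by_cases hR : 2 ≤ Rg P y
      · have h1 := le_Rg hC0'0 hPg (show 0 ≤ y + 1 by linarith) (show 0 ≤ t - 1 by linarith)
        rw [show y + 1 + (t - 1) = y + t by ring] at h1
        have h2 : Real.exp (-2 * (t - 1)) = Real.exp 2 * Real.exp (-2 * t) := by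
          rw [← Real.exp_add]; congr 1; ring
        rw [h2] at h1
        have h3 : Real.exp 2 * (Rg P y - 1) ≤ Real.exp 2 * (P (y + t) * Real.exp (-2*t)) :=
          mul_le_mul_of_nonneg_left ht (Real.exp_pos _).le
        have h4 : 3 ≤ Real.exp 2 := by have := Real.add_one_le_exp 2; linarith
        have h5 : 3 * (Rg P y - 1) ≤ Real.exp 2 * (Rg P y - 1) :=
          mul_le_mul_of_nonneg_right h4 (by linarith)
        have h6 := Rg_mono hC0'0 hPg hPm (show 0 ≤ y + 1 by linarith) hyy'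
        linarith
      · push Not at hR
        have h1 : (3:ℝ) ≤ P y' := by
          rw [hP, ← K1.le_iff_le, OrderIso.apply_symm_apply]
          have h2 := k1up 3 (by norm_num)
          have h3 := hg (2*3) (by norm_num)
          rw [hy']
          have : 0 ≤ A * (A * (y + 1) + A) := by positivity
          linarith
        have h6 := self_le_Rg hC0'0 hPg hy'0
        linarith
  have hK2high : ∀ y, q ≤ y → ∀ y', y ≤ y' → Rg P y + 1 ≤ Rg P y' → K2 y + 1 ≤ K2 y' := by
    intro y hy y' hyy' hR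
    rw [k2def, k2def, opf_high hy, opf_high (hy.trans hyy')]
    have : Real.exp (-y') ≤ Real.exp (-y) := Real.exp_le_exp.2 (by linarith)
    linarith
  have hK2step : ∀ y, 0 ≤ y → K2 y + 1 ≤ K2 (C * y + C) := by
    intro y hy
    set w := max y q with hw
    have hw0 : 0 ≤ w := hy.trans (le_max_left _ _)
    have h1 : K2 y ≤ K2 w := K2.monotone (le_max_left _ _)
    set w' := A * (A * (w + 1) + A) + A + (C0 * Real.exp (2*3) + A) with hw'
    have hAy : w + 1 ≤ A * (w + 1) := le_mul_of_one_le_left (by linarith) hA1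
    have hAy2 : A * (w+1) + A ≤ A * (A * (w + 1) + A) :=
      le_mul_of_one_le_left (by positivity) hA1
    have hww' : w ≤ w' := by rw [hw']; linarith
    have h2 := hK2high w (le_max_right _ _) w' hww' (hRstep w hw0)
    have hwle : w ≤ y + q := max_le (by linarith) (by linarith)
    have h3 : w' ≤ C * y + C := by
      have h4 : A * A * w ≤ A * A * (y + q) := mul_le_mul_of_nonneg_left hwle hAA
      have h5 : w' = A * A * w + (A * A + A * A + A) + (C0 * Real.exp (2*3) + A) := by
        rw [hw']; ring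
      have h6 : A * A * y ≤ C * y := by
        apply mul_le_mul_of_nonneg_right _ hy
        rw [hC]; linarith
      have h7 : A * A * q + (A * A + A * A + A) + (C0 * Real.exp (2*3) + A) ≤ C := by
        rw [hC]
        have : A * A * q ≤ (A*A+2) * q := mul_le_mul_of_nonneg_right (by linarith) hq.le
        linarith
      linarith
    have h4 := K2.monotone h3
    linarith
  refine ⟨K2.symm, ?_, ?_, ?_, ?_, ?_⟩
  · intro x hx
    rw [OrderIso.symm_apply_eq]
    have h1 : G x ≤ q := by rw [← hpq]; exact G.monotone hx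
    rw [k2low _ h1, ← k1low x hx, hP, OrderIso.symm_apply_apply]
  · intro x hx
    have hy := hKnn x hx
    have h1 := k2lo _ hy
    rw [OrderIso.apply_symm_apply] at h1
    -- P y ≤ x + B
    have h2 : K2.symm x ≤ K1 (x + B) := by
      have := K1.monotone h1
      rwa [hP, OrderIso.apply_symm_apply] at this
    have h3 := k1up (x + B) (by linarith)
    have h4 : G (2 * (x + B)) ≤ G (C * x + C) := by
      apply G.monotone
      have h5 : 2 * x ≤ C * x := mul_le_mul_of_nonneg_right (by rw [hC]; linarith) hx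
      have h6 : 2 * B ≤ C := by rw [hC]; linarith
      linarith
    have h7 : A ≤ C := by rw [hC]; linarith
    linarith
  · intro y hy
    rw [OrderIso.symm_symm]
    have h1 := k2up y hy
    have h2 := hPG (2*y) (by linarith)
    have h3 : G.symm (2*y + A) ≤ G.symm (C*y + C) := by
      apply G.symm.monotone
      have h5 : 2 * y ≤ C * y := mul_le_mul_of_nonneg_right (by rw [hC]; linarith) hy
      have h6 : A ≤ C := by rw [hC]; linarith
      linarith
    have h7 : B ≤ C := by rw [hC]; linarith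
    linarith
  · intro x hx
    have h1 := hK2step _ (hKnn x hx)
    rw [OrderIso.apply_symm_apply] at h1
    rw [← K2.le_iff_le, OrderIso.apply_symm_apply]
    exact h1
  · intro y hy
    rw [OrderIso.symm_symm]
    have h1 := k2lip y hy
    have h2 : B * K2 y ≤ C * K2 y :=
      mul_le_mul_of_nonneg_right (by rw [hC]; linarith) (hK2nn y hy)
    have h7 : B ≤ C := by rw [hC]; linarith
    linarith

end Pool.Agent.H64.KExp
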