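import Pool.Agent.H64.KExpPull

/-!
Systems of real conjugacies, coarse compatibility, the comparison near 0.
-/

set_option autoImplicit false

namespace Pool.Agent.H64.KExp

open Filter Topology

structure IsSys (l m C : ℝ) (h : ℕ → ℝ ≃o ℝ) : Prop where
  hl : Ok l
  hm : Ok m
  hC : 1 ≤ C
  conj : ∀ n x, h (n+1) (E l x) = E m (h n x)
  align : ∀ n j, h n (en l j) = en m j
  aligna : ∀ n, h n (E l (-l)) = E m (-m)
  odd : ∀ n x, 0 ≤ x → x ≤ l → h n (-x) = - h n x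
  grow : ∀ n x, 0 ≤ x → h n x ≤ C * Real.exp x
  grow' : ∀ n y, 0 ≤ y → (h n).symm y ≤ C * Real.exp y
  ka : ∀ n x, 0 ≤ x → -(h n (-x)) ≤ h n (C * x + C) + C
  kb : ∀ n y, 0 ≤ y → -((h n).symm (-y)) ≤ (h n).symm (C*y+C) + C
  lip : ∀ n x, 0 ≤ x → -(h n (-(x+1))) ≤ C * (-(h n (-x))) + C
  lip' : ∀ n y, 0 ≤ y → -((h n).symm (-(y+1))) ≤ C * (-((h n).symm (-y))) + C

variable {l m C : ℝ} {h : ℕ → ℝ ≃o ℝ}

theorem IsSys.swap (H : IsSys l m C h) : IsSys m l C (fun n => (h n).symm) where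
  hl := H.hm
  hm := H.hl
  hC := H.hC
  conj := by
    intro n y
    rw [OrderIso.symm_apply_eq, H.conj, OrderIso.apply_symm_apply]
  align := by
    intro n j
    rw [OrderIso.symm_apply_eq, H.align]
  aligna := by
    intro n
    rw [OrderIso.symm_apply_eq, H.aligna]
  odd := by
    intro n y hy0 hy1
    rw [OrderIso.symm_apply_eq]
    have h1 : 0 ≤ (h n).symm y := by
      rw [← (h n).apply_symm_apply y] at hy0
      have := H.align n 0
      simp only [en_zero] at this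
      rw [← this] at hy0
      exact (h n).le_iff_le.1 hy0
    have h2 : (h n).symm y ≤ l := by
      have := H.align n 1
      rw [en_one, en_one] at this
      rw [← (h n).le_iff_le, OrderIso.apply_symm_apply, this]
      exact hy1
    rw [H.odd n _ h1 h2, OrderIso.apply_symm_apply]
  grow := H.grow'
  grow' := by intro n x hx; simpa using H.grow n x hx
  ka := H.kb
  kb := by intro n x hx; simpa using H.ka n x hx
  lip := H.lip'
  lip' := by intro n x hx; simpa using H.lip n x hx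

theorem IsSys.shift (H : IsSys l m C h) (k : ℕ) : IsSys l m C (fun n => h (n+k)) where
  hl := H.hl
  hm := H.hm
  hC := H.hC
  conj := by
    intro n x
    have := H.conj (n+k) x
    rwa [show n + 1 + k = n + k + 1 by ring]
  align := fun n j => H.align _ j
  aligna := fun n => H.aligna _
  odd := fun n => H.odd _
  grow := fun n => H.grow _
  grow' := fun n => H.grow' _
  ka := fun n => H.ka _
  kb := fun n => H.kb _
  lip := fun n => H.lip _
  lip' := fun n => H.lip' _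

theorem IsSys.zero (H : IsSys l m C h) (n : ℕ) : h n 0 = 0 := by
  simpa using H.align n 0

theorem IsSys.conj_it (H : IsSys l m C h) (k : ℕ) (x : ℝ) :
    h k ((E l)^[k] x) = (E m)^[k] (h 0 x) := by
  induction k with
  | zero => simp
  | succ k ih => rw [it_succ, it_succ, H.conj, ih]

theorem IsSys.nonneg (H : IsSys l m C h) (n : ℕ) {x : ℝ} (hx : 0 ≤ x) : 0 ≤ h n x := by
  rw [← H.zero n]; exact (h n).monotone hx

theorem IsSys.pos (H : IsSys l m C h) (n : ℕ) {x : ℝ} (hx : 0 < x) : 0 < h n x := by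
  rw [← H.zero n]; exact (h n).strictMono hx

/-- coarse compatibility of two orbits -/
def Cpt (l m C1 C2 : ℝ) (h : ℕ → ℝ ≃o ℝ) (z z' : ℂ) : Prop :=
  ∀ j, ((EC m)^[j] z').re ≤ h j (max (((EC l)^[j] z).re + C1) 0) + C2 ∧
    ((EC l)^[j] z).re ≤ (h j).symm (max (((EC m)^[j] z').re + C1) 0) + C2

theorem Cpt.swap {C1 C2 : ℝ} {z z' : ℂ} (H : Cpt l m C1 C2 h z z') :
    Cpt m l C1 C2 (fun n => (h n).symm) z' z := by
  intro j
  obtain ⟨h1, h2⟩ := H j
  exact ⟨h2, by simpa using h1⟩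

theorem Cpt.shift {C1 C2 : ℝ} {z z' : ℂ} (H : Cpt l m C1 C2 h z z') (k : ℕ) :
    Cpt l m C1 C2 (fun n => h (n+k)) ((EC l)^[k] z) ((EC m)^[k] z') := by
  intro j
  have := H (j+k)
  rw [itC_add, itC_add] at this
  exact this

theorem Cpt.shift1 {C1 C2 : ℝ} {z z' : ℂ} (H : Cpt l m C1 C2 h z z') :
    Cpt l m C1 C2 (fun n => h (n+1)) (EC l z) (EC m z') := H.shift 1

/-- transfer at one level -/
theorem transfer (H : IsSys l m C h) {C1 C2 : ℝ} (hC12 : C1 ≤ C2) {z z' : ℂ}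
    (hc : Cpt l m C1 C2 h z z') {ρ ρ' : ℝ} (hρ : h 0 ρ = ρ') (hρ2 : h 0 (-ρ) = -ρ') {i : ℕ}
    (h1 : (E m)^[i+1] (-ρ') + C2 ≤ ((EC m)^[i+1] z').re)
    (h2 : ((EC m)^[i+1] z').re + C2 ≤ (E m)^[i+1] ρ') :
    (E l)^[i+1] (-ρ) ≤ ((EC l)^[i+1] z).re + C1 ∧
    ((EC l)^[i+1] z).re ≤ (E l)^[i+1] ρ + C2 := by
  obtain ⟨c1, c2⟩ := hc (i+1)
  constructor
  · have h3 : h (i+1) ((E l)^[i+1] (-ρ)) ≤ h (i+1) (max (((EC l)^[i+1] z).re + C1) 0) := by
      rw [H.conj_it, hρ2]; linarith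
    have h4 := (h (i+1)).le_iff_le.1 h3
    rcases le_max_iff.1 h4 with h5 | h5
    · exact h5
    · exact absurd h5 (not_le.2 (it_pos H.hl i _))
  · have h3 : (h (i+1)).symm (max (((EC m)^[i+1] z').re + C1) 0) ≤ (E l)^[i+1] ρ := by
      rw [← (h (i+1)).le_iff_le, OrderIso.apply_symm_apply, H.conj_it, hρ]
      apply max_le
      · linarith
      · exact (it_pos H.hm i _).le
    linarith

theorem E_neg_le_half (hl : Ok l) : E l (-l) ≤ 1/2 := by
  have hl0 := hl.1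
  unfold E
  rw [Real.exp_neg, ← div_eq_mul_inv, div_le_iff₀ (Real.exp_pos _)]
  have := Real.quadratic_le_exp_of_nonneg hl0.le
  nlinarith [sq_nonneg (l-1)]

theorem E_neg_le_self (hl : Ok l) : E l (-l) ≤ l := by
  have hl0 := hl.1
  unfold E
  have : Real.exp (-l) ≤ 1 := Real.exp_le_one_iff.2 (by linarith)
  nlinarith

theorem exp_ge_aux {x : ℝ} (hx : 15 ≤ x) : x + Real.pi + 1 ≤ Real.exp x := by
  have h1 := Real.quadratic_le_exp_of_nonneg (show 0 ≤ x by linarith)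
  nlinarith [Real.pi_le_four]

theorem G1 (hl : Ok l) (hm : Ok m) (hC : 1 ≤ C) (C1 : ℝ) :
    ∃ A : ℝ, 1 ≤ A ∧ ∀ C2, A ≤ C2 → ∀ h : ℕ → ℝ ≃o ℝ, IsSys l m C h →
    ∀ u ∈ K l, ∀ u' ∈ K m, Cpt l m C1 C2 h u u' → 0 < ‖u'‖ → ‖u'‖ ≤ Real.exp (-(A*C2)) →
    ∃ J, C2 ≤ en m J ∧ (∀ k ≤ J, D m k * ‖u'‖ ≤ eta m) ∧ eta m < D m (J+1) * ‖u'‖ ∧
      (h 0 (‖u‖/6) ≤ A*C2*‖u'‖ ∨ D l (J+1) * ‖u‖ ≤ A*C2) ∧
      (0 < ((EC m)^[J+2] u').re → (h 0 (‖u‖/6) ≤ A*C2*‖u'‖ ∨ D l (J+2) * ‖u‖ ≤ A*C2)) := by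
  obtain ⟨M, hM1, hpull⟩ := pull hl
  obtain ⟨CD, hCD0, hCD⟩ := exists_CD hm
  set η := eta m with hη
  have hη0 : 0 < η := eta_pos m
  have hη8 : η ≤ 1/8 := eta_le m
  set B := max (6 + C * M / l) (10 / (m * η^2)) with hB
  have hl0 := hl.1
  have hm0 := hm.1
  have hB1 : 6 + C * M / l ≤ B := le_max_left _ _
  have hB2 : 10 / (m * η^2) ≤ B := le_max_right _ _
  have hB6 : 6 ≤ B := by
    have : 0 ≤ C * M / l := by positivity
    linarith
  set c := CD - Real.log η with hc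
  have hc0 : 0 ≤ c := by
    have : Real.log η ≤ 0 := Real.log_nonpos hη0.le (by linarith)
    rw [hc]; linarith
  have hEm : 0 < E m (-m) := E_pos hm _
  set A := max (max (2*B + c) (1 + Real.log (5/(η * E m (-m))))) (max (max (5/η) 15)
    (max C1 4)) with hA
  have hA1 : 2*B + c ≤ A := (le_max_left _ _).trans (le_max_left _ _)
  have hA2 : 1 + Real.log (5/(η * E m (-m))) ≤ A := (le_max_right _ _).trans (le_max_left _ _)
  have hA3 : 5/η ≤ A := (le_max_left _ _).trans ((le_max_left _ _).trans (le_max_right _ _))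
  have hA4 : 15 ≤ A := (le_max_right _ _).trans ((le_max_left _ _).trans (le_max_right _ _))
  have hA5 : C1 ≤ A := (le_max_left _ _).trans ((le_max_right _ _).trans (le_max_right _ _))
  refine ⟨A, by linarith, ?_⟩
  intro C2 hC2 h H u hu u' hu' hcpt hu0 husm
  have hC2a : 15 ≤ C2 := hA4.trans hC2
  have hC12 : C1 ≤ C2 := hA5.trans hC2
  have hC20 : 0 < C2 := by linarith
  have hA0 : 0 < A := by linarith
  have hAC : A ≤ A * C2 := le_mul_of_one_le_right hA0.le (by linarith)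
  have hAC0 : 0 < A * C2 := mul_pos hA0 hC20
  have hBC : 6 * C2 ≤ B * C2 := mul_le_mul_of_nonneg_right hB6 hC20.le
  have h15C : 15 * C2 ≤ A * C2 := mul_le_mul_of_nonneg_right hA4 hC20.le
  set r := ‖u'‖ with hr
  have hrη : r ≤ η := by
    refine husm.trans ?_
    -- exp(-(A C2)) ≤ η : A C2 ≥ A ≥ 5/η ; exp(-x) ≤ 1/x
    have h1 : 5/η ≤ A * C2 := hA3.trans hAC
    have h2 : Real.exp (-(A*C2)) ≤ 1 / (A*C2) := by
      rw [Real.exp_neg, ← one_div]
      apply one_div_le_one_div_of_le hAC0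
      have := Real.add_one_le_exp (A*C2); linarith
    refine h2.trans ?_
    rw [div_le_iff₀ hAC0]
    rw [div_le_iff₀ hη0] at h1
    linarith
  obtain ⟨J, hJ1, hJ2⟩ := exists_J hm hu0 hrη
  -- lower bound for en m J
  have hJbig : B * C2 ≤ en m J := by
    have h1 : η < Real.exp (2 * en m J + CD) * Real.exp (-(A*C2)) := by
      refine hJ2.trans_le ?_
      exact mul_le_mul (hCD J) husm hu0.le (Real.exp_pos _).le
    rw [← Real.exp_add, ← Real.log_lt_iff_lt_exp hη0] at h1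
    have h2 : (2*B+c)*C2 ≤ A * C2 := mul_le_mul_of_nonneg_right hA1 (by linarith)
    have h3 : c ≤ c * C2 := le_mul_of_one_le_right hc0 (by linarith)
    linarith
  have hJC2 : C2 ≤ en m J := by linarith
  have hexp4 : C2 + Real.pi + 1 ≤ Real.exp C2 := exp_ge_aux hC2a
  set Cd := (2*C2+3)/η with hCd
  have hCdη : Cd * η = 2*C2+3 := by rw [hCd]; field_simp
  have hCd0 : 0 < Cd := by rw [hCd]; positivity
  have hCdA : Cd ≤ A * C2 := by
    have h1 : Cd ≤ 5/η * C2 := by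
      rw [hCd, div_mul_eq_mul_div]
      exact div_le_div_of_nonneg_right (by linarith) hη0.le
    exact h1.trans (mul_le_mul_of_nonneg_right hA3 (by linarith))
  set ρ' := Cd * r with hρ'
  have hρ'0 : 0 < ρ' := mul_pos hCd0 hu0
  have hρ'a : ρ' ≤ E m (-m) := by
    have h1 : Cd ≤ 5/η * C2 := by
      rw [hCd, div_mul_eq_mul_div]
      exact div_le_div_of_nonneg_right (by linarith) hη0.le
    have h2 : C2 ≤ Real.exp C2 := by have := Real.add_one_le_exp C2; linarith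
    have h3 : ρ' ≤ 5/η * Real.exp C2 * Real.exp (-(A*C2)) := by
      apply mul_le_mul _ husm hu0.le (by positivity)
      exact h1.trans (mul_le_mul_of_nonneg_left h2 (by positivity))
    refine h3.trans ?_
    rw [mul_assoc, ← Real.exp_add]
    have h4 : C2 + -(A*C2) ≤ - Real.log (5/(η * E m (-m))) := by
      have : Real.log (5/(η * E m (-m))) ≤ A - 1 := by linarith
      have h40 : (A-1) * 1 ≤ (A-1) * C2 :=
        mul_le_mul_of_nonneg_left (by linarith) (by linarith)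
      linarith
    have h5 := Real.exp_le_exp.2 h4
    rw [Real.exp_neg, Real.exp_log (by positivity)] at h5
    calc 5/η * Real.exp (C2 + -(A*C2)) ≤ 5/η * (5/(η * E m (-m)))⁻¹ :=
          mul_le_mul_of_nonneg_left h5 (by positivity)
      _ = E m (-m) := by field_simp
  set ρ := (h 0).symm ρ' with hρ
  have hhρ : h 0 ρ = ρ' := OrderIso.apply_symm_apply _ _
  have hρa : ρ ≤ E l (-l) := by
    rw [← (h 0).le_iff_le, hhρ, H.aligna]; exact hρ'a
  have hρ0 : 0 < ρ := by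
    rw [← (h 0).lt_iff_lt, hhρ, H.zero]; exact hρ'0
  have hEl : E l (-l) ≤ 1/2 := E_neg_le_half hl
  have hρhalf : ρ ≤ 1/2 := hρa.trans hEl
  have hρl : ρ ≤ l := hρa.trans (E_neg_le_self hl)
  have hhρ2 : h 0 (-ρ) = -ρ' := by rw [H.odd 0 ρ hρ0.le hρl, hhρ]
  -- F^J(-ρ')
  have hFJ : en m J - (2*C2+3) ≤ (E m)^[J] (-ρ') := by
    have h1 := it_tangent hm J (-ρ')
    have h2 : D m J * ρ' ≤ 2*C2+3 := by
      calc D m J * ρ' = Cd * (D m J * r) := by rw [hρ']; ring
        _ ≤ Cd * η := mul_le_mul_of_nonneg_left (hJ1 J le_rfl) hCd0.le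
        _ = _ := hCdη
    linarith
  -- E^{J+1}(-ρ) is large
  have hElarge : M * C2 ≤ (E l)^[J+1] (-ρ) := by
    have hMC : 0 < M * C2 := mul_pos (by linarith) hC20
    have h1 : L l (M * C2) ≤ (E l)^[J] (-ρ) := by
      rw [← (h J).le_iff_le, H.conj_it, hhρ2]
      refine le_trans ?_ hFJ
      have h2 : h J (L l (M*C2)) ≤ C * (M * C2 / l) := by
        rcases le_total 0 (L l (M*C2)) with h3 | h3
        · refine (H.grow J _ h3).trans (le_of_eq ?_)
          unfold L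
          rw [Real.exp_log (div_pos hMC hl0)]
        · have h4 : h J (L l (M*C2)) ≤ 0 := by
            rw [← H.zero J]; exact (h J).monotone h3
          refine h4.trans (by positivity)
      have h5 : C * (M * C2 / l) = C * M / l * C2 := by ring
      rw [h5] at h2
      have h6 : (6 + C * M / l) * C2 ≤ B * C2 := mul_le_mul_of_nonneg_right hB1 (by linarith)
      linarith
    rw [it_succ]
    have h2 := (E_strictMono hl).monotone h1
    rwa [E_L hl hMC] at h2
  have hbig : C2 * (2*C2+3) / eta m ^ 2 ≤ en m (J+1) := by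
    rw [← hη, en_succ]
    unfold E
    have h1 := Real.quadratic_le_exp_of_nonneg (en_nonneg hm J)
    have h2 : (B*C2)^2/2 ≤ Real.exp (en m J) := by
      have h3 : (B*C2)^2 ≤ (en m J)^2 := by
        have : 0 ≤ B * C2 := by positivity
        exact pow_le_pow_left₀ this hJbig 2
      have := en_nonneg hm J
      linarith
    have h4 : 10 ≤ B * (m * η^2) := by rwa [div_le_iff₀ (by positivity)] at hB2
    rw [div_le_iff₀ (by positivity)]
    have h5 : m * ((B*C2)^2/2) ≤ m * Real.exp (en m J) := mul_le_mul_of_nonneg_left h2 hm0.le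
    have h6 : m * ((B*C2)^2/2) * η^2 ≤ m * Real.exp (en m J) * η^2 :=
      mul_le_mul_of_nonneg_right h5 (by positivity)
    refine le_trans ?_ h6
    have h7 : m * ((B*C2)^2/2) * η^2 = (B * (m*η^2)) * B * C2^2 / 2 := by ring
    rw [h7]
    have h8 : 10 * B * C2^2 ≤ (B * (m*η^2)) * B * C2^2 := by
      apply mul_le_mul_of_nonneg_right _ (sq_nonneg _)
      exact mul_le_mul_of_nonneg_right h4 (by linarith)
    have h9 : 6 * C2^2 ≤ B * C2^2 := mul_le_mul_of_nonneg_right hB6 (sq_nonneg _)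
    have h10 : C2 ≤ C2^2 := by
      rw [sq]; exact le_mul_of_one_le_right hC20.le (by linarith)
    linarith
  obtain ⟨s1, s2⟩ := step1 hm (show 0 ≤ C2 by linarith) hJ1 hJ2 hbig
  rw [← hη, ← hr, ← hCd, ← hρ'] at s1 s2
  have hfin : ∀ i, M * C2 ≤ (E l)^[i+1] (-ρ) →
      (E m)^[i+1] (-ρ') + C2 ≤ ((EC m)^[i+1] u').re →
      ((EC m)^[i+1] u').re + C2 ≤ (E m)^[i+1] ρ' →
      (h 0 (‖u‖/6) ≤ A*C2*r ∨ D l (i+1) * ‖u‖ ≤ A*C2) := by
    intro i hi1 hi2 hi3
    obtain ⟨t1, t2⟩ := transfer H hC12 hcpt hhρ hhρ2 hi2 hi3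
    rcases hpull C2 (by linarith) u hu ρ hρ0.le hρhalf i hi1 (by linarith) t2 with h1 | h1
    · left
      have h2 : ‖u‖/6 ≤ ρ := by linarith
      refine ((h 0).monotone h2).trans ?_
      rw [hhρ, hρ']
      exact mul_le_mul_of_nonneg_right hCdA hu0.le
    · right
      refine h1.trans ?_
      linarith [Real.pi_le_four]
  refine ⟨J, hJC2, hJ1, hJ2, hfin J hElarge s1 s2, ?_⟩
  intro hpos
  have hs := hu' (J+2)
  rw [itC_succ m (J+1)] at hpos hs
  have hmono := it_mono_n hm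
  have q1 : 1 ≤ E m ((E m)^[J+1] (-ρ')) := by
    rw [← it_succ]
    have h1 : (E m)^[J] (-ρ') ≤ (E m)^[J+1+1] (-ρ') := (hmono (-ρ')).monotone (by omega)
    linarith
  have q2 : 2 * C2 ≤ E m ((E m)^[J+1] ρ') := by
    rw [← it_succ]
    have h1 : en m J ≤ (E m)^[J+1+1] ρ' := by
      refine le_trans ?_ ((hmono ρ').monotone (show J ≤ J+1+1 by omega))
      exact it_mono hm J hρ'0.le
    linarith
  obtain ⟨s3, s4⟩ := step2 hm (show 0 ≤ C2 by linarith) hexp4 hs hpos s1 s2 q1 q2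
  rw [← it_succ, ← itC_succ] at s3 s4
  have hElarge2 : M * C2 ≤ (E l)^[J+1+1] (-ρ) :=
    hElarge.trans ((it_mono_n hl (-ρ)).monotone (by omega))
  exact hfin (J+1) hElarge2 s3 s4

end Pool.Agent.H64.KExp
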