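import Pool.Agent.H64.KExpExist2

/-!
Uniqueness of compatible partners.
-/

set_option autoImplicit false

namespace Pool.Agent.H64.KExp

open Filter Topology

variable {l m C C1 C2 : ℝ} {h : ℕ → ℝ ≃o ℝ}

theorem real_unique_le (H : IsSys l m C h) {x x' : ℝ}
    (hc : Cpt l m C1 C2 h (x : ℂ) (x' : ℂ)) : x' ≤ h 0 x := by
  by_contra hcon
  push Not at hcon
  set y := (h 0).symm x' with hy
  have hxy : x < y := by
    rw [← (h 0).lt_iff_lt, hy, OrderIso.apply_symm_apply]; exact hcon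
  set q := (x + y)/2 with hq
  have hxq : x < q := by rw [hq]; linarith
  have hqy : q < y := by rw [hq]; linarith
  have hqx' : h 0 q < x' := by
    have := (h 0).strictMono hqy
    rwa [hy, OrderIso.apply_symm_apply] at this
  have h1 := (it_diff_tendsto H.hl hxq).eventually_ge_atTop C1
  have h2 := (it_diff_tendsto H.hm hqx').eventually_gt_atTop C2
  have h3 := (it_tendsto H.hl q).eventually_ge_atTop 0
  obtain ⟨k, k1, k2, k3⟩ := (h1.and (h2.and h3)).exists
  have h4 := (hc k).1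
  rw [EC_it_ofReal, EC_it_ofReal, Complex.ofReal_re, Complex.ofReal_re] at h4
  have h5 : h k (max ((E l)^[k] x + C1) 0) ≤ h k ((E l)^[k] q) :=
    (h k).monotone (max_le (by linarith) k3)
  rw [H.conj_it] at h5
  linarith

theorem real_unique (H : IsSys l m C h) {x x' : ℝ}
    (hc : Cpt l m C1 C2 h (x : ℂ) (x' : ℂ)) : x' = h 0 x := by
  apply le_antisymm (real_unique_le H hc)
  have := real_unique_le H.swap hc.swap
  rw [← (h 0).le_iff_le, OrderIso.apply_symm_apply] at this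
  exact this

theorem eventually_real (H : IsSys l m C h) {z z' : ℂ}
    (hz' : z' ∈ K m) (hc : Cpt l m C1 C2 h z z') (hzim : z.im = 0) :
    ∃ N, ((EC m)^[N] z').im = 0 := by
  obtain ⟨R, hR0, hR⟩ := exists_R_real H.hm
  obtain ⟨i, hi⟩ := ((en_tendsto H.hm).eventually_ge_atTop (R + |C1| + 1)).exists
  obtain ⟨N, hN⟩ := ((it_tendsto H.hl z.re).eventually_ge_atTop
    (en l i + C2)).exists_forall_of_atTop
  refine ⟨N, hR _ (K_it hz' N) ?_⟩
  intro n
  rw [← itC_add]
  have h1 := (hc (n+N)).2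
  have hzr : z = (z.re : ℂ) := Complex.ext (by simp) (by simp [hzim])
  rw [hzr, EC_it_ofReal, Complex.ofReal_re] at h1
  have h2 := hN (n+N) (by omega)
  have h3 : en l i ≤ (h (n+N)).symm (max (((EC m)^[n+N] z').re + C1) 0) := by linarith
  rw [← (h (n+N)).le_iff_le, OrderIso.apply_symm_apply, H.align] at h3
  have h4 := abs_nonneg C1
  have h5 := le_abs_self C1
  rcases le_max_iff.1 h3 with h6 | h6 <;> linarith

theorem itC_real {z : ℂ} {N : ℕ} (hN : ((EC l)^[N] z).im = 0) (n : ℕ) (hn : N ≤ n) :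
    ((EC l)^[n] z).im = 0 := by
  obtain ⟨k, rfl⟩ := Nat.exists_eq_add_of_le hn
  rw [add_comm, itC_add]
  have : (EC l)^[N] z = ((((EC l)^[N] z).re : ℝ) : ℂ) := Complex.ext (by simp) (by simp [hN])
  rw [this, EC_it_ofReal, Complex.ofReal_im]

theorem eventually_real' (H : IsSys l m C h) {z z' : ℂ}
    (hz' : z' ∈ K m) (hc : Cpt l m C1 C2 h z z') {N : ℕ} (hzim : ((EC l)^[N] z).im = 0) :
    ∃ N, ((EC m)^[N] z').im = 0 := by
  obtain ⟨n, hn⟩ := eventually_real (H.shift N) (K_it hz' N) (hc.shift N) hzim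
  exact ⟨n + N, by rw [itC_add]; exact hn⟩

theorem eventually_eq_h (H : IsSys l m C h) {z z' : ℂ}
    (hz' : z' ∈ K m) (hc : Cpt l m C1 C2 h z z') {N : ℕ} (hzim : ((EC l)^[N] z).im = 0) :
    ∃ N', ∀ n, N' ≤ n → (EC m)^[n] z' = ((h n ((EC l)^[n] z).re : ℝ) : ℂ) := by
  obtain ⟨M, hM⟩ := eventually_real' H hz' hc hzim
  refine ⟨max N M, fun n hn => ?_⟩
  have h1 := itC_real hzim n ((le_max_left _ _).trans hn)
  have h2 := itC_real hM n ((le_max_right _ _).trans hn)
  have e1 : (EC l)^[n] z = ((((EC l)^[n] z).re : ℝ) : ℂ) := Complex.ext (by simp) (by simp [h1])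
  have e2 : (EC m)^[n] z' = ((((EC m)^[n] z').re : ℝ) : ℂ) :=
    Complex.ext (by simp) (by simp [h2])
  have hs := hc.shift n
  rw [e1, e2] at hs
  have := real_unique (H.shift n) hs
  rw [zero_add] at this
  rw [e2]
  exact_mod_cast this

theorem unique_of_real (H : IsSys l m C h) {z z' z'' : ℂ}
    (hz' : z' ∈ K m) (hz'' : z'' ∈ K m) (hc' : Cpt l m C1 C2 h z z')
    (hc'' : Cpt l m C1 C2 h z z'') {N : ℕ} (hzim : ((EC l)^[N] z).im = 0) : z' = z'' := by
  obtain ⟨N1, h1⟩ := eventually_eq_h H hz' hc' hzim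
  obtain ⟨N2, h2⟩ := eventually_eq_h H hz'' hc'' hzim
  apply itC_inj H.hm hz' hz'' (max N1 N2)
  rw [h1 _ (le_max_left _ _), h2 _ (le_max_right _ _)]

theorem lip_iter (H : IsSys l m C h) (N : ℕ) {x : ℝ} (hx : 0 ≤ x) :
    -(h 0 (-(x + N))) ≤ C^N * (-(h 0 (-x))) + N * C^N := by
  induction N with
  | zero => simp
  | succ N ih =>
    have h1 := H.lip 0 (x + N) (by positivity)
    have hC := H.hC
    have h2 := mul_le_mul_of_nonneg_left ih (by linarith : 0 ≤ C)
    have h3 : C ≤ C^(N+1) := by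
      calc C = C^1 := (pow_one C).symm
        _ ≤ C^(N+1) := pow_le_pow_right₀ hC (by omega)
    push_cast
    rw [← add_assoc]
    calc -(h 0 (-(x + N + 1))) ≤ C * (-(h 0 (-(x+N)))) + C := h1
      _ ≤ C * (C^N * (-(h 0 (-x))) + N * C^N) + C^(N+1) := by linarith
      _ = _ := by ring

/-- far left points have far left partners -/
theorem far (G : Good l m C C1 C2) (G' : Good m l C C1 C2) {X : ℝ} (hX : 0 ≤ X) :
    ∃ R : ℝ, ∀ h : ℕ → ℝ ≃o ℝ, IsSys l m C h → ∀ z ∈ K l, ∀ z' ∈ K m,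
    Cpt l m C1 C2 h z z' → z.re ≤ -R → z'.re ≤ -X := by
  obtain ⟨B, hB1, hB⟩ := G'.2.2.2.2.1
  set Y := max (X + C2 + Real.pi) 0 with hY
  refine ⟨max C1 (B * (C * Real.exp (B * Y + B)) + B + 1), ?_⟩
  intro h H z hz z' hz' hc hre
  have hπ := Real.pi_pos
  have hY0 : 0 ≤ Y := le_max_right _ _
  have h1 : z.re + C1 ≤ 0 := by
    have := le_max_left C1 (B * (C * Real.exp (B * Y + B)) + B + 1)
    linarith
  have h2 : z'.re ≤ C2 := by
    have := (hc 0).1
    simp only [Function.iterate_zero, id] at this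
    rw [max_eq_right h1, H.zero] at this
    linarith
  have h3 : Y < ‖z'‖ := by
    by_contra hcon
    push Not at hcon
    have h4 := hB _ H.swap z' hz' z hz hc.swap
    have h5 : (h 0).symm (B * ‖z'‖ + B) ≤ C * Real.exp (B * Y + B) := by
      have h6 : B * ‖z'‖ + B ≤ B * Y + B := by
        have := mul_le_mul_of_nonneg_left hcon (by linarith : 0 ≤ B)
        linarith
      refine ((h 0).symm.monotone h6).trans (H.grow' 0 _ (by positivity))
    have h7 := mul_le_mul_of_nonneg_left h5 (by linarith : 0 ≤ B)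
    have h8 : -z.re ≤ ‖z‖ := (neg_le_abs _).trans (Complex.abs_re_le_norm z)
    have h9 := le_max_right C1 (B * (C * Real.exp (B * Y + B)) + B + 1)
    linarith
  have h4 := norm_le_of_inS (K_inS0 hz')
  have h5 : X + C2 + Real.pi ≤ Y := le_max_left _ _
  have hC20 : 0 ≤ C2 := by linarith [G.2.2.1]
  by_cases h6 : 0 ≤ z'.re
  · rw [abs_of_nonneg h6] at h4
    linarith
  · push Not at h6
    rw [abs_of_neg h6] at h4
    linarith

end Pool.Agent.H64.KExp
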